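import Mathlib
import Pool.Agent.Work.MP_a5099b_nt.Defs
import Pool.Agent.Work.MP_a5099b_nt.J.Stmt

/-!
# Block FM (families of elliptic curves): definitions and basic lemmas (helper91)

`sp W f u`: the curve `W` over `A[X_1, ..., X_m]` specialised at the point `u` of `B ^ m` by means of the homomorphism
`f : A → B`. `RedAt θ R ψ`: the homomorphism `θ : O_M → F_q` (a place of degree one of the number field `M`) extends to
the homomorphism `ψ` on the subring `R` of `M`, such that the elements of `R` with nonzero image are units of `R`.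
`RedsTo ψ F G`: the polynomial `F` over `M` has coefficients in `R` and `G` is its image under `ψ`.
-/

set_option autoImplicit false

namespace Pool.Agent.SS.FM

open NumberField IsDedekindDomain

/-- The specialisation of `W` at `u`. -/
noncomputable def sp {A B : Type*} [CommRing A] [CommRing B] {m : ℕ}
    (W : WeierstrassCurve (MvPolynomial (Fin m) A)) (f : A →+* B) (u : Fin m → B) :
    WeierstrassCurve B :=
  W.map (MvPolynomial.eval₂Hom f u)

theorem sp_Δ {A B : Type*} [CommRing A] [CommRing B] {m : ℕ}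
    (W : WeierstrassCurve (MvPolynomial (Fin m) A)) (f : A →+* B) (u : Fin m → B) :
    (sp W f u).Δ = MvPolynomial.eval₂ f u W.Δ := by
  rw [sp, WeierstrassCurve.map_Δ]
  rfl

theorem sp_c₄ {A B : Type*} [CommRing A] [CommRing B] {m : ℕ}
    (W : WeierstrassCurve (MvPolynomial (Fin m) A)) (f : A →+* B) (u : Fin m → B) :
    (sp W f u).c₄ = MvPolynomial.eval₂ f u W.c₄ := by
  rw [sp, WeierstrassCurve.map_c₄]
  rfl

theorem sp_map {A B C : Type*} [CommRing A] [CommRing B] [CommRing C] {m : ℕ}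
    (W : WeierstrassCurve (MvPolynomial (Fin m) A)) (f : A →+* B) (u : Fin m → B) (g : B →+* C) :
    (sp W f u).map g = sp W (g.comp f) (g ∘ u) := by
  unfold sp
  rw [WeierstrassCurve.map_map]
  congr 1
  apply MvPolynomial.ringHom_ext
  · intro r
    simp
  · intro i
    simp

theorem sp_eval {A B : Type*} [CommRing A] [CommRing B] {m : ℕ}
    (W : WeierstrassCurve (MvPolynomial (Fin m) A)) (f : A →+* B) (t : Fin m → A) :
    (W.map (MvPolynomial.eval t)).map f = sp W f (f ∘ t) := by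
  have h : W.map (MvPolynomial.eval t) = sp W (RingHom.id A) t := rfl
  rw [h, sp_map, RingHom.comp_id]

/-- The embedding of the integers of `K` in `M`. -/
noncomputable def kap (K M : Type) [Field K] [Field M] [NumberField K] [Algebra K M] : 𝓞 K →+* M :=
  (algebraMap K M).comp (algebraMap (𝓞 K) K)

/-- `y` is a supersingular invariant over the residue field of `v`. -/
def SSv {K : Type} [Field K] [NumberField K] (q : ℕ) (v : HeightOneSpectrum (𝓞 K))
    (y : 𝓞 K ⧸ v.asIdeal) : Prop :=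
  @SSj q (𝓞 K ⧸ v.asIdeal) (Ideal.Quotient.field v.asIdeal) y

/-- The points over the residue field of `v` at which `W` has nonzero discriminant and, if the degree of `v` is odd, a
not supersingular invariant. -/
def GoodV {K : Type} [Field K] [NumberField K] {m : ℕ}
    (W : WeierstrassCurve (MvPolynomial (Fin m) (𝓞 K))) (q : ℕ) (v : HeightOneSpectrum (𝓞 K)) :
    Set (Fin m → 𝓞 K ⧸ v.asIdeal) :=
  {u | (sp W (Ideal.Quotient.mk v.asIdeal) u).Δ ≠ 0 ∧
    ((∃ f : ℕ, Odd f ∧ Nat.card (𝓞 K ⧸ v.asIdeal) = q ^ f) → ∀ y : 𝓞 K ⧸ v.asIdeal, SSv q v y →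
      (sp W (Ideal.Quotient.mk v.asIdeal) u).c₄ ^ 3 ≠ y * (sp W (Ideal.Quotient.mk v.asIdeal) u).Δ)}

/-- A place of degree one. -/
structure RedAt {M : Type} [Field M] [NumberField M] {q : ℕ} (θ : 𝓞 M →+* ZMod q)
    (R : Subring M) (ψ : R →+* ZMod q) : Prop where
  int : ∀ x : 𝓞 M, algebraMap (𝓞 M) M x ∈ R
  ext : ∀ x : 𝓞 M, ψ ⟨algebraMap (𝓞 M) M x, int x⟩ = θ x
  inv : ∀ (x : M) (h : x ∈ R), ψ ⟨x, h⟩ ≠ 0 → x⁻¹ ∈ R

/-- The reduction of polynomials. -/
def RedsTo {M : Type} [Field M] {q : ℕ} {R : Subring M} (ψ : R →+* ZMod q) {σ : Type*}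
    (F : MvPolynomial σ M) (G : MvPolynomial σ (ZMod q)) : Prop :=
  ∃ H : MvPolynomial σ R, H.map R.subtype = F ∧ H.map ψ = G

section

variable {M : Type} [Field M] {q : ℕ} {R : Subring M} {ψ : R →+* ZMod q} {σ τ : Type*}

theorem RedsTo.unique {F : MvPolynomial σ M} {G G' : MvPolynomial σ (ZMod q)}
    (h : RedsTo ψ F G) (h' : RedsTo ψ F G') : G = G' := by
  obtain ⟨H, h1, h2⟩ := h
  obtain ⟨H', h1', h2'⟩ := h'
  have h3 : H = H' := MvPolynomial.map_injective R.subtype Subtype.val_injective (h1.trans h1'.symm)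
  rw [← h2, ← h2', h3]

theorem RedsTo.mul {F F' : MvPolynomial σ M} {G G' : MvPolynomial σ (ZMod q)}
    (h : RedsTo ψ F G) (h' : RedsTo ψ F' G') : RedsTo ψ (F * F') (G * G') := by
  obtain ⟨H, h1, h2⟩ := h
  obtain ⟨H', h1', h2'⟩ := h'
  exact ⟨H * H', by rw [map_mul, h1, h1'], by rw [map_mul, h2, h2']⟩

theorem RedsTo.add {F F' : MvPolynomial σ M} {G G' : MvPolynomial σ (ZMod q)}
    (h : RedsTo ψ F G) (h' : RedsTo ψ F' G') : RedsTo ψ (F + F') (G + G') := by
  obtain ⟨H, h1, h2⟩ := h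
  obtain ⟨H', h1', h2'⟩ := h'
  exact ⟨H + H', by rw [map_add, h1, h1'], by rw [map_add, h2, h2']⟩

theorem RedsTo.pow {F : MvPolynomial σ M} {G : MvPolynomial σ (ZMod q)}
    (h : RedsTo ψ F G) (k : ℕ) : RedsTo ψ (F ^ k) (G ^ k) := by
  obtain ⟨H, h1, h2⟩ := h
  exact ⟨H ^ k, by rw [map_pow, h1], by rw [map_pow, h2]⟩

theorem RedsTo.C {x : M} (hx : x ∈ R) :
    RedsTo ψ (MvPolynomial.C x : MvPolynomial σ M) (MvPolynomial.C (ψ ⟨x, hx⟩)) :=
  ⟨MvPolynomial.C ⟨x, hx⟩, by rw [MvPolynomial.map_C]; rfl, by rw [MvPolynomial.map_C]⟩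

theorem RedsTo.X (i : σ) : RedsTo ψ (MvPolynomial.X i : MvPolynomial σ M) (MvPolynomial.X i) :=
  ⟨MvPolynomial.X i, by rw [MvPolynomial.map_X], by rw [MvPolynomial.map_X]⟩

theorem RedsTo.zero : RedsTo ψ (0 : MvPolynomial σ M) 0 := ⟨0, map_zero _, map_zero _⟩

/-- Composition. -/
theorem RedsTo.comp {F : MvPolynomial σ M} {G : MvPolynomial σ (ZMod q)} (h : RedsTo ψ F G)
    {f : σ → MvPolynomial τ M} {g : σ → MvPolynomial τ (ZMod q)} (hfg : ∀ i, RedsTo ψ (f i) (g i)) :
    RedsTo ψ (MvPolynomial.aeval f F) (MvPolynomial.aeval g G) := by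
  obtain ⟨H, h1, h2⟩ := h
  choose e he using hfg
  have hb : ∀ (S : Type) [CommRing S] (f' : R →+* S),
      MvPolynomial.map f' (MvPolynomial.bind₁ e H) =
        MvPolynomial.bind₁ (fun i => MvPolynomial.map f' (e i)) (MvPolynomial.map f' H) :=
    fun S _ f' => MvPolynomial.map_bind₁ f' e H
  refine ⟨MvPolynomial.bind₁ e H, ?_, ?_⟩
  · rw [hb, h1]
    have h3 : (fun i => MvPolynomial.map R.subtype (e i)) = f := funext fun i => (he i).1
    rw [h3]
    rfl
  · rw [hb, h2]
    have h3 : (fun i => MvPolynomial.map ψ (e i)) = g := funext fun i => (he i).2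
    rw [h3]
    rfl

/-- Values at integral points: the value of `F` at `s` with coordinates in `R`. -/
theorem RedsTo.eval {F : MvPolynomial σ M} {G : MvPolynomial σ (ZMod q)} (h : RedsTo ψ F G)
    (s : σ → R) : ∃ hF : MvPolynomial.eval (fun i => (s i : M)) F ∈ R,
      ψ ⟨MvPolynomial.eval (fun i => (s i : M)) F, hF⟩ = MvPolynomial.eval (fun i => ψ (s i)) G := by
  obtain ⟨H, h1, h2⟩ := h
  have e1 : MvPolynomial.eval (fun i => (s i : M)) F = ((MvPolynomial.eval s H : R) : M) := by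
    rw [← h1, MvPolynomial.eval_map]
    exact (MvPolynomial.hom_eval₂ H (RingHom.id R) R.subtype s).symm
  have hF : MvPolynomial.eval (fun i => (s i : M)) F ∈ R := by
    rw [e1]
    exact Subtype.prop _
  refine ⟨hF, ?_⟩
  have e2 : (⟨MvPolynomial.eval (fun i => (s i : M)) F, hF⟩ : R) = MvPolynomial.eval s H :=
    Subtype.ext e1
  rw [e2, ← h2, MvPolynomial.eval_map]
  exact MvPolynomial.hom_eval₂ H (RingHom.id R) ψ s

end

end Pool.Agent.SS.FM
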