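import Mathlib
import Pool.Agent.Work.MP_a5099b_nt.D5.DDefs

/-!
# Module FM/TwoD (M-L)

Places of degree one above the primes with `(-D / q) = 1` split in `M(√-D)`. PROOF (copy of `D5/AdjS.lean` and of `D5/TwoP.lean`). `f = X ^ 2 + C (D : M)` is irreducible (`hM`; degree 2 without roots), `L = AdjoinRoot f`, `s` the root, `s ^ 2 = -D`: a number field (see `adj_aux` in `D5/AdjS.lean`), every element is `a + b s` with `a b : M`.
`σ : L ≃ₐ[M] L`, `σ s = -s` (`AdjoinRoot.liftHom`/`lift` with `-s`, which is a root too; `σ (σ s) = s`), `σ x = x` implies `x ∈ M` (`a + b s = a - b s`, `b = 0`: `1, s` are independent, `hindep` in `D5/AdjS`). `ζ = s` as an element of `𝓞 L` (integral: `s ^ 2 = -D`). Then the proof of `main_abs` in `D5/TwoP.lean`: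
`r : ℤ` with `q ∣ r ^ 2 + D` (from `jacobiSym (-D) q = 1`: `jacobiSym.legendreSym.to_jacobiSym`, `legendreSym.eq_one_iff`), `q ∤ 2 D`; for `x : 𝓞 L`: `x + σ x = u`, `ζ (x - σ x) = v` are fixed, so in `𝓞 M`, and `2 D x = D u - ζ v`; `(ζ - r)(ζ + r) = -(D + r ^ 2) ∈ (q)`. In `core` the number `2` is replaced by `2 D`, which is a unit modulo
`q`. `Q` and `σ Q` contain `ζ - r` and `ζ + r`; they are different because otherwise `2 r ∈ Q`, `q ∣ 2 r`, `q ∣ 2 D`. So every prime of norm `q` of `M` has two primes of norm `q` above it in `L`.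
-/

set_option autoImplicit false

namespace Pool.Agent.SS.FM

open NumberField IsDedekindDomain

private theorem twoD_core {A B : Type} [CommRing A] [CommRing B] [Algebra A B] (P : Ideal A)
    (Q : Ideal B) (hQP : Q.comap (algebraMap A B) = P) {q D : ℕ} (hqD : IsCoprime (2 * D : ℤ) (q : ℤ))
    (hqP : (q : A) ∈ P) (ζ : B) (r : ℤ) (hr : ζ - r ∈ Q)
    (hdec : ∀ x : B, ∃ u v : A, 2 * D * x = algebraMap A B u + ζ * algebraMap A B v) :
    Nat.card (B ⧸ Q) = Nat.card (A ⧸ P) := by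
  have hqQ : (q : B) ∈ Q := by
    have : (q : A) ∈ Q.comap (algebraMap A B) := by rw [hQP]; exact hqP
    rw [Ideal.mem_comap, map_natCast] at this
    exact this
  let f : A ⧸ P →+* B ⧸ Q := Ideal.quotientMap Q (algebraMap A B) (by rw [hQP])
  have hinj : Function.Injective f := Ideal.quotientMap_injective' (by rw [hQP])
  have hsurj : Function.Surjective f := by
    intro y
    obtain ⟨x, rfl⟩ := Ideal.Quotient.mk_surjective y
    obtain ⟨u, v, huv⟩ := hdec x
    obtain ⟨m, k, hmk⟩ := hqD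
    refine ⟨Ideal.Quotient.mk P ((m : A) * (u + (r : A) * v)), ?_⟩
    simp only [f, Ideal.quotientMap_mk]
    rw [Ideal.Quotient.mk_eq_mk_iff_sub_mem]
    have h1 : algebraMap A B ((m : A) * (u + (r : A) * v)) - x =
        (q : B) * (-(k : B) * x) - (ζ - r) * ((m : B) * algebraMap A B v) := by
      have h2 := congrArg (fun z : ℤ => (z : B)) hmk
      push_cast at h2
      simp only [map_mul, map_add, map_intCast]
      linear_combination -(m : B) * huv + x * h2
    rw [h1]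
    exact Q.sub_mem (Q.mul_mem_right _ hqQ) (Q.mul_mem_right _ hr)
  exact (Nat.card_eq_of_bijective f ⟨hinj, hsurj⟩).symm

private theorem twoD_abs {M L : Type} [Field M] [NumberField M] [Field L] [NumberField L]
    [Algebra M L] (ζ : 𝓞 L) {D : ℕ} (hD : 0 < D) (hζ : ζ ^ 2 = -(D : 𝓞 L)) (σ : 𝓞 L ≃+* 𝓞 L) (hσζ : σ ζ = -ζ)
    (hσ2 : ∀ x, σ (σ x) = x)
    (hσM : ∀ x : 𝓞 M, σ (algebraMap (𝓞 M) (𝓞 L) x) = algebraMap (𝓞 M) (𝓞 L) x)
    (hfix : ∀ x : 𝓞 L, σ x = x → ∃ u : 𝓞 M, algebraMap (𝓞 M) (𝓞 L) u = x)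
    {q : ℕ} (hq : q.Prime) (h4 : 2 * D < q) (hr0 : ∃ r : ℤ, (q : ℤ) ∣ r ^ 2 + D) :
    2 * DL.dP M q ≤ DL.dP L q := by
  classical
  have : Fact q.Prime := ⟨hq⟩
  obtain ⟨r, hr⟩ := hr0
  have hqZ : Prime (q : ℤ) := Nat.prime_iff_prime_int.mp hq
  have hqD' : ¬ (q : ℤ) ∣ (D : ℤ) := by
    intro h
    have := Int.le_of_dvd (by exact_mod_cast hD) h
    omega
  have hq2' : ¬ (q : ℤ) ∣ 2 := by
    intro h
    have := Int.le_of_dvd (by norm_num) h
    omega
  have hqD : IsCoprime (2 * D : ℤ) (q : ℤ) := by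
    refine IsCoprime.symm ((Prime.coprime_iff_not_dvd hqZ).mpr ?_)
    intro hd
    rcases hqZ.dvd_or_dvd hd with h5 | h5
    · exact hq2' h5
    · exact hqD' h5
  have hdec : ∀ x : 𝓞 L, ∃ u v : 𝓞 M, 2 * D * x = algebraMap (𝓞 M) (𝓞 L) u +
      ζ * algebraMap (𝓞 M) (𝓞 L) v := by
    intro x
    obtain ⟨u, hu⟩ := hfix (x + σ x) (by rw [map_add, hσ2]; ring)
    obtain ⟨v, hv⟩ := hfix (ζ * (σ x - x)) (by
      rw [map_mul, map_sub, hσζ, hσ2]; ring)
    refine ⟨D * u, v, ?_⟩
    rw [map_mul, map_natCast, hu, hv]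
    linear_combination -(σ x - x) * hζ
  have hnot : ∀ Q : Ideal (𝓞 L), Ideal.absNorm Q = q → ζ - r ∈ Q → ζ + r ∈ Q → False := by
    intro Q hQ h1 h2
    have h3 : ((2 * r : ℤ) : 𝓞 L) ∈ Q := by
      have h4 := Q.sub_mem h2 h1
      have h5 : ((2 * r : ℤ) : 𝓞 L) = ζ + r - (ζ - r) := by push_cast; ring
      rw [h5]
      exact h4
    have h4 : (q : 𝓞 L) ∈ Q := by
      have := Ideal.absNorm_mem Q
      rwa [hQ] at this
    have hne : Q ≠ ⊤ := by
      rintro rfl
      rw [Ideal.absNorm_top] at hQ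
      exact hq.one_lt.ne hQ
    have hcop : IsCoprime (2 * r) (q : ℤ) := by
      refine IsCoprime.symm ((Prime.coprime_iff_not_dvd hqZ).mpr ?_)
      intro hd
      rcases hqZ.dvd_or_dvd hd with h5 | h5
      · exact hq2' h5
      · have h6 : (q : ℤ) ∣ r ^ 2 := dvd_pow h5 two_ne_zero
        apply hqD'
        have := dvd_sub hr h6
        simpa using this
    obtain ⟨a, b, hab⟩ := hcop
    apply hne
    rw [Ideal.eq_top_iff_one]
    have h5 : (1 : 𝓞 L) = (a : 𝓞 L) * ((2 * r : ℤ) : 𝓞 L) + (b : 𝓞 L) * (q : 𝓞 L) := by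
      have := congrArg (fun z : ℤ => (z : 𝓞 L)) hab
      push_cast at this ⊢
      exact this.symm
    rw [h5]
    exact Q.add_mem (Q.mul_mem_left _ h3) (Q.mul_mem_left _ h4)
  -- the two primes above a prime
  have hex : ∀ P : {I : Ideal (𝓞 M) // Ideal.absNorm I = q}, ∀ s : Bool,
      ∃ Q : {I : Ideal (𝓞 L) // Ideal.absNorm I = q},
        Q.1.comap (algebraMap (𝓞 M) (𝓞 L)) = P.1 ∧
        (if s then ζ - r ∈ Q.1 else ζ + r ∈ Q.1) := by
    rintro ⟨P, hP⟩
    have hPp : P.IsPrime := Ideal.isPrime_of_irreducible_absNorm (by rw [hP]; exact hq)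
    have hqP : (q : 𝓞 M) ∈ P := by
      have := Ideal.absNorm_mem P
      rwa [hP] at this
    obtain ⟨Q, -, hQp, hQc⟩ := Ideal.exists_ideal_over_prime_of_isIntegral P (⊥ : Ideal (𝓞 L))
      (by
        rw [← RingHom.ker_eq_comap_bot,
          (RingHom.injective_iff_ker_eq_bot _).mp (FaithfulSMul.algebraMap_injective (𝓞 M) (𝓞 L))]
        exact bot_le)
    have hqQ : (q : 𝓞 L) ∈ Q := by
      have : (q : 𝓞 M) ∈ Q.comap (algebraMap (𝓞 M) (𝓞 L)) := by rw [hQc]; exact hqP
      rw [Ideal.mem_comap, map_natCast] at this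
      exact this
    have hcard : ∀ Q' : Ideal (𝓞 L), Q'.comap (algebraMap (𝓞 M) (𝓞 L)) = P →
        (ζ - r ∈ Q' ∨ ζ + r ∈ Q') → Ideal.absNorm Q' = q := by
      intro Q' h1 h2
      have hN : ∀ {R : Type} [CommRing R] [Nontrivial R] [IsDedekindDomain R] [Module.Free ℤ R]
          (I : Ideal R), Ideal.absNorm I = Nat.card (R ⧸ I) := by
        intro R _ _ _ _ I
        rw [Ideal.absNorm_apply, Submodule.cardQuot_apply]
      rw [hN, ← hP, hN]
      rcases h2 with h2 | h2
      · exact twoD_core P Q' h1 hqD hqP ζ r h2 hdec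
      · exact twoD_core P Q' h1 hqD hqP ζ (-r) (by push_cast; simpa [sub_neg_eq_add] using h2) hdec
    have hprod : ζ - r ∈ Q ∨ ζ + r ∈ Q := by
      apply hQp.mem_or_mem
      obtain ⟨c, hc⟩ := hr
      have h1 : (ζ - r) * (ζ + r) = (q : 𝓞 L) * (-(c : 𝓞 L)) := by
        have := congrArg (fun z : ℤ => (z : 𝓞 L)) hc
        push_cast at this
        linear_combination hζ - this
      rw [h1]
      exact Q.mul_mem_right _ hqQ
    -- the conjugate prime
    let Q' : Ideal (𝓞 L) := Q.comap (σ : 𝓞 L →+* 𝓞 L)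
    have hQ'c : Q'.comap (algebraMap (𝓞 M) (𝓞 L)) = P := by
      rw [← hQc]
      ext x
      simp only [Q', Ideal.mem_comap, RingHom.coe_coe]
      rw [hσM]
    have hmem : ∀ x, x ∈ Q' ↔ σ x ∈ Q := fun x => by
      simp only [Q', Ideal.mem_comap, RingHom.coe_coe]
    have hQ'1 : ζ - r ∈ Q → ζ + r ∈ Q' := by
      intro h
      rw [hmem, map_add, hσζ, map_intCast]
      have : -ζ + (r : 𝓞 L) = -(ζ - r) := by ring
      rw [this]
      exact Q.neg_mem h
    have hQ'2 : ζ + r ∈ Q → ζ - r ∈ Q' := by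
      intro h
      rw [hmem, map_sub, hσζ, map_intCast]
      have : -ζ - (r : 𝓞 L) = -(ζ + r) := by ring
      rw [this]
      exact Q.neg_mem h
    intro s
    rcases hprod with h | h
    · cases s
      · exact ⟨⟨Q', hcard Q' hQ'c (Or.inr (hQ'1 h))⟩, hQ'c, by simpa using hQ'1 h⟩
      · exact ⟨⟨Q, hcard Q hQc (Or.inl h)⟩, hQc, by simpa using h⟩
    · cases s
      · exact ⟨⟨Q, hcard Q hQc (Or.inr h)⟩, hQc, by simpa using h⟩
      · exact ⟨⟨Q', hcard Q' hQ'c (Or.inl (hQ'2 h))⟩, hQ'c, by simpa using hQ'2 h⟩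
  choose F hF using hex
  have hfinL : Finite {I : Ideal (𝓞 L) // Ideal.absNorm I = q} :=
    (Ideal.finite_setOfPred_absNorm_eq q).to_subtype
  have hinj : Function.Injective (fun p : Bool × {I : Ideal (𝓞 M) // Ideal.absNorm I = q} =>
      F p.2 p.1) := by
    rintro ⟨s, P⟩ ⟨s', P'⟩ h
    simp only at h
    have h1 := hF P s
    have h2 := hF P' s'
    rw [← h] at h2
    have hPP : P = P' := Subtype.ext (h1.1.symm.trans h2.1)
    subst hPP
    cases s <;> cases s'
    · rfl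
    · exact absurd (hnot _ (F P false).2 (by simpa using h2.2) (by simpa using h1.2)) id
    · exact absurd (hnot _ (F P true).2 (by simpa using h1.2) (by simpa using h2.2)) id
    · rfl
  have h := Nat.card_le_card_of_injective _ hinj
  rw [Nat.card_prod, Nat.card_eq_fintype_card, Fintype.card_bool] at h
  exact h

open Polynomial in
private theorem twoD_adj (K : Type) [Field K] [NumberField K] (d : ℕ)
    (hs : ∀ s : K, s ^ 2 ≠ -(d : K)) :
    ∃ (M : Type) (_ : Field M) (_ : NumberField M) (_ : Algebra K M) (s : M) (σ : M ≃ₐ[K] M),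
      s ^ 2 = -(d : M) ∧ σ s = -s ∧ (∀ x, σ (σ x) = x) ∧
      ∀ x, σ x = x → ∃ u : K, algebraMap K M u = x := by
  obtain ⟨f, hf⟩ : ∃ f : K[X], f = X ^ 2 + C (d : K) := ⟨_, rfl⟩
  have hmon : f.Monic := by
    rw [hf]
    exact monic_X_pow_add_C _ (by norm_num)
  have hdeg : f.natDegree = 2 := by
    rw [hf]
    exact natDegree_X_pow_add_C
  have hirr : Irreducible f := by
    rw [Polynomial.irreducible_iff_roots_eq_zero_of_degree_le_three (by omega) (by omega)]
    rw [Multiset.eq_zero_iff_forall_notMem]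
    intro a ha
    rw [mem_roots hmon.ne_zero, hf] at ha
    have h1 : a ^ 2 + (d : K) = 0 := by
      simpa using ha
    exact hs a (eq_neg_of_add_eq_zero_left h1)
  have : Fact (Irreducible f) := ⟨hirr⟩
  have : CharZero (AdjoinRoot f) :=
    charZero_of_injective_algebraMap (algebraMap K (AdjoinRoot f)).injective
  have : Module.Finite K (AdjoinRoot f) := hmon.finite_adjoinRoot
  have : NumberField (AdjoinRoot f) := NumberField.of_module_finite K (AdjoinRoot f)
  obtain ⟨s, hsdef⟩ : ∃ s : AdjoinRoot f, s = AdjoinRoot.root f := ⟨_, rfl⟩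
  have hs2 : s ^ 2 = -(d : AdjoinRoot f) := by
    have h3 : AdjoinRoot.mk f (X ^ 2 + C (d : K)) = 0 := by
      have h4 := AdjoinRoot.mk_self (f := f)
      have h5 : AdjoinRoot.mk f (X ^ 2 + C (d : K)) = AdjoinRoot.mk f f := congrArg _ hf.symm
      rw [h5, h4]
    have h2 : (AdjoinRoot.root f) ^ 2 + (AdjoinRoot.of f) (d : K) = 0 := by
      rw [map_add, map_pow, AdjoinRoot.mk_X, AdjoinRoot.mk_C] at h3
      exact h3
    rw [hsdef, eq_neg_of_add_eq_zero_left h2]
    simp
  have hrep : ∀ x : AdjoinRoot f, ∃ a b : K, x = algebraMap K _ a + algebraMap K _ b * s := by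
    intro x
    obtain ⟨p, rfl⟩ := AdjoinRoot.mk_surjective x
    have h1 : (p %ₘ f).natDegree ≤ 1 := by
      have := natDegree_modByMonic_lt p hmon (by
        intro h
        rw [h, natDegree_one] at hdeg
        omega)
      omega
    obtain ⟨b, a, hab⟩ := exists_eq_X_add_C_of_natDegree_le_one h1
    refine ⟨a, b, ?_⟩
    have h2 : p = p %ₘ f + f * (p /ₘ f) := (modByMonic_add_div p f).symm
    rw [h2, map_add, map_mul, AdjoinRoot.mk_self, zero_mul, add_zero, hab, hsdef]
    simp [AdjoinRoot.algebraMap_eq, add_comm]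
  have hindep : ∀ a b : K, algebraMap K (AdjoinRoot f) a + algebraMap K _ b * s = 0 → b = 0 := by
    intro a b hab
    by_contra hb
    have h1 : s = algebraMap K (AdjoinRoot f) (-a / b) := by
      have hb' : algebraMap K (AdjoinRoot f) b ≠ 0 := by
        rw [Ne, FaithfulSMul.algebraMap_eq_zero_iff]
        exact hb
      rw [map_div₀, map_neg, eq_div_iff hb']
      linear_combination hab
    have h2 : algebraMap K (AdjoinRoot f) ((-a / b) ^ 2) =
        algebraMap K (AdjoinRoot f) (-(d : K)) := by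
      rw [map_pow, ← h1, hs2, map_neg, map_natCast]
    exact hs _ ((algebraMap K (AdjoinRoot f)).injective h2)
  let τ : AdjoinRoot f →ₐ[K] AdjoinRoot f := AdjoinRoot.liftAlgHom f (Algebra.ofId K _) (-s) (by
    have h1 : (-s) ^ 2 + algebraMap K (AdjoinRoot f) (d : K) = 0 := by
      rw [neg_sq, hs2, map_natCast]
      ring
    have e : ∀ g : K[X], g = X ^ 2 + C (d : K) →
        eval₂ ((Algebra.ofId K (AdjoinRoot f)) : K →+* AdjoinRoot f) (-s) g = 0 := by
      intro g hg
      rw [hg, eval₂_add, eval₂_pow, eval₂_X, eval₂_C]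
      exact h1
    exact e f hf)
  have hτs : τ s = -s := by
    rw [hsdef]
    simp [τ, hsdef]
  have hττ : ∀ x, τ (τ x) = x := by
    intro x
    obtain ⟨a, b, rfl⟩ := hrep x
    simp only [map_add, map_mul, AlgHom.commutes, hτs, map_neg, neg_neg]
  let σ : AdjoinRoot f ≃ₐ[K] AdjoinRoot f := AlgEquiv.ofAlgHom τ τ
    (AlgHom.ext hττ) (AlgHom.ext hττ)
  have hσ : ∀ x, σ x = τ x := fun x => rfl
  refine ⟨AdjoinRoot f, inferInstance, inferInstance, inferInstance, s, σ, hs2, ?_, ?_, ?_⟩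
  · rw [hσ, hτs]
  · intro x
    rw [hσ, hσ, hττ]
  · intro x hx
    obtain ⟨a, b, rfl⟩ := hrep x
    have h1 : algebraMap K (AdjoinRoot f) 0 + algebraMap K _ (2 * b) * s = 0 := by
      rw [hσ, map_add, map_mul, AlgHom.commutes, AlgHom.commutes, hτs] at hx
      rw [map_zero, map_mul, map_ofNat]
      linear_combination -hx
    have h2 := hindep _ _ h1
    have h3 : b = 0 := by
      rcases mul_eq_zero.1 h2 with h | h
      · exact absurd h two_ne_zero
      · exact h
    exact ⟨a, by rw [h3]; simp⟩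

theorem two_dP_sqrt (M : Type) [Field M] [NumberField M] (D : ℕ) (hM : ∀ x : M, x ^ 2 ≠ -(D : M)) :
    ∃ (L : Type) (_ : Field L) (_ : NumberField L), ∀ q : ℕ, q.Prime → 2 * D < q →
      jacobiSym (-D) q = 1 → 2 * DL.dP M q ≤ DL.dP L q := by
  obtain ⟨L, iF, iN, iA, s, σ, hs2, hσs, hσσ, hfix⟩ := twoD_adj M D hM
  have hD : 0 < D := by
    rcases Nat.eq_zero_or_pos D with h | h
    · exact absurd (by rw [h]; simp) (hM 0)
    · exact h
  refine ⟨L, iF, iN, ?_⟩
  intro q hq h4 hj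
  haveI : Fact q.Prime := ⟨hq⟩
  have hr0 : ∃ r : ℤ, (q : ℤ) ∣ r ^ 2 + D := by
    rw [← jacobiSym.legendreSym.to_jacobiSym] at hj
    have hne : ((-(D : ℤ) : ℤ) : ZMod q) ≠ 0 := by
      intro h
      rw [(legendreSym.eq_zero_iff q _).2 h] at hj
      exact zero_ne_one hj
    have h1 := (legendreSym.eq_one_iff q hne).1 hj
    obtain ⟨y, hy⟩ := h1
    refine ⟨(y.val : ℤ), ?_⟩
    rw [← ZMod.intCast_zmod_eq_zero_iff_dvd]
    push_cast at hy ⊢
    rw [ZMod.natCast_zmod_val, pow_two, ← hy]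
    ring
  -- integers
  have hzint : IsIntegral ℤ s := by
    refine IsIntegral.of_pow (n := 2) (by norm_num) ?_
    rw [hs2]
    have h := (isIntegral_algebraMap (R := ℤ) (A := L) (x := (D : ℤ))).neg
    simpa using h
  let ζ : 𝓞 L := ⟨s, hzint⟩
  have hco : ∀ x : 𝓞 M, ((algebraMap (𝓞 M) (𝓞 L) x : 𝓞 L) : L) = algebraMap M L (x : M) :=
    fun x => rfl
  refine twoD_abs (M := M) ζ hD ?_ (RingOfIntegers.mapRingEquiv (σ : L ≃+* L))
    ?_ ?_ ?_ ?_ hq h4 hr0
  · apply RingOfIntegers.ext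
    push_cast
    exact hs2
  · apply RingOfIntegers.ext
    rw [RingOfIntegers.mapRingEquiv_apply]
    exact hσs
  · intro x
    apply RingOfIntegers.ext
    rw [RingOfIntegers.mapRingEquiv_apply, RingOfIntegers.mapRingEquiv_apply]
    exact hσσ _
  · intro x
    apply RingOfIntegers.ext
    rw [RingOfIntegers.mapRingEquiv_apply, hco]
    exact σ.commutes _
  · intro x hx
    have h1 : σ (x : L) = x := by
      have := congrArg (fun y : 𝓞 L => (y : L)) hx
      simpa using this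
    obtain ⟨u, hu⟩ := hfix _ h1
    have hui : IsIntegral ℤ u := by
      have h2 : IsIntegral ℤ (algebraMap M L u) := by
        rw [hu]
        exact x.2
      exact (isIntegral_algebraMap_iff (algebraMap M L).injective).mp h2
    refine ⟨⟨u, hui⟩, ?_⟩
    apply RingOfIntegers.ext
    exact (hco ⟨u, hui⟩).trans hu

end Pool.Agent.SS.FM
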