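import Mathlib
import Pool.Agent.Work.MP_a5099b_nt.D5.DDefs
import Pool.Agent.Work.MP_a5099b_nt.D5.DPn
import Pool.Agent.Work.MP_a5099b_nt.D5.ZLog
import Pool.Agent.Work.MP_a5099b_nt.FM.TwoD

/-!
# Module FM/SumD (M)

The sum of `1 / q` over the primes `q` with `(-D / q) = -1` and a place of degree one of `M` diverges. PROOF: copy `D5/Sum3.lean` with `CyclotomicField 4 M` replaced by the field `L` of `two_dP_sqrt` (obtain it before the choice of the constants), `q % 4 = 3` by `jacobiSym (-D) q = -1`, `q % 4 = 1` by `jacobiSym (-D) q = 1` and `N + 2` by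
`N + 2 * D + 2`: for a prime `q > 2 D` one of the two holds (`jacobiSym.legendreSym.to_jacobiSym`, `legendreSym.eq_one_or_neg_one`, `(-D : ZMod q) ≠ 0`; `D ≠ 0` because `0 ^ 2 = -0`).
-/

set_option autoImplicit false

namespace Pool.Agent.SS.FM

open NumberField IsDedekindDomain

private theorem jac_cases (M : Type) [Field M] [NumberField M] (D : ℕ) (hM : ∀ x : M, x ^ 2 ≠ -(D : M))
    {q : ℕ} (hq : q.Prime) (hD : 2 * D < q) : jacobiSym (-D) q = 1 ∨ jacobiSym (-D) q = -1 := by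
  have hD0 : 0 < D := by
    rcases Nat.eq_zero_or_pos D with h | h
    · exact absurd (by simp [h]) (hM 0)
    · exact h
  haveI : Fact q.Prime := ⟨hq⟩
  rw [← jacobiSym.legendreSym.to_jacobiSym]
  apply legendreSym.eq_one_or_neg_one
  intro h
  rw [ZMod.intCast_zmod_eq_zero_iff_dvd, dvd_neg] at h
  have h1 : q ∣ D := by exact_mod_cast h
  have := Nat.le_of_dvd hD0 h1
  omega

theorem sum_sqrt (M : Type) [Field M] [NumberField M] (D : ℕ) (hM : ∀ x : M, x ^ 2 ≠ -(D : M))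
    (N : ℕ) (R : ℝ) :
    ∃ S : Finset ℕ, (∀ q ∈ S, q.Prime ∧ N < q ∧ jacobiSym (-D) q = -1 ∧ 0 < DL.dP M q) ∧
      R ≤ ∑ q ∈ S, (1 : ℝ) / q := by
  classical
  by_contra hcon
  have hcon' : ∀ S : Finset ℕ, (∀ q ∈ S, q.Prime ∧ N < q ∧ jacobiSym (-D) q = -1 ∧ 0 < DL.dP M q) →
      ∑ q ∈ S, (1 : ℝ) / q < R := by
    intro S hS
    by_contra h
    exact hcon ⟨S, hS, not_lt.1 h⟩
  obtain ⟨CM, hM'⟩ := DL.zlog M
  obtain ⟨L, iL1, iL2, htwo⟩ := two_dP_sqrt M D hM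
  obtain ⟨CL, hL⟩ := DL.zlog L
  obtain ⟨n, hn⟩ : ∃ n : ℝ, n = (Module.finrank ℚ M : ℝ) := ⟨_, rfl⟩
  have hn0 : 0 ≤ n := by
    rw [hn]
    exact Nat.cast_nonneg _
  have hdn : ∀ q : Nat.Primes, (DL.dP M q : ℝ) ≤ n := by
    intro q
    rw [hn]
    exact_mod_cast DL.dP_le M q.2
  obtain ⟨h1, hh1⟩ : ∃ h1 : Nat.Primes → ℝ, h1 = fun q : Nat.Primes => if (q : ℕ) ≤ N + 2 * D + 2 then n else 0 :=
    ⟨_, rfl⟩
  obtain ⟨h2, hh2⟩ : ∃ h2 : Nat.Primes → ℝ, h2 = fun q : Nat.Primes =>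
    if N < (q : ℕ) ∧ jacobiSym (-D) (q : ℕ) = -1 ∧ 0 < DL.dP M q then n * (1 / (q : ℕ)) else 0 := ⟨_, rfl⟩
  have p1 : ∀ q, 0 ≤ h1 q := by
    intro q
    rw [hh1]
    dsimp only
    split_ifs
    · exact hn0
    · exact le_rfl
  have p2 : ∀ q, 0 ≤ h2 q := by
    intro q
    rw [hh2]
    dsimp only
    split_ifs
    · positivity
    · exact le_rfl
  have s1 : Summable h1 := by
    apply summable_of_hasFiniteSupport
    have hfin : ({q : Nat.Primes | (q : ℕ) ≤ N + 2 * D + 2}).Finite := by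
      apply Set.Finite.of_finite_image (f := fun q : Nat.Primes => (q : ℕ))
      · apply (Set.finite_Iic (N + 2 * D + 2)).subset
        rintro _ ⟨q, hq, rfl⟩
        exact hq
      · intro a _ b _ hab
        exact Subtype.ext hab
    apply hfin.subset
    intro q hq
    rw [Function.mem_support, hh1] at hq
    dsimp only at hq
    by_contra h
    exact hq (if_neg h)
  have s2 : Summable h2 := by
    apply summable_of_sum_le p2 (c := n * R)
    intro u
    have e1 : ∑ x ∈ u, h2 x = n * ∑ q ∈ (u.filter fun q : Nat.Primes => N < (q : ℕ) ∧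
        jacobiSym (-D) (q : ℕ) = -1 ∧ 0 < DL.dP M q).image (fun q : Nat.Primes => (q : ℕ)), (1 : ℝ) / q := by
      rw [hh2, Finset.sum_ite, Finset.sum_const_zero, add_zero, ← Finset.mul_sum,
        Finset.sum_image]
      intro a _ b _ hab
      exact Subtype.ext hab
    rw [e1]
    apply mul_le_mul_of_nonneg_left _ hn0
    apply le_of_lt
    apply hcon'
    intro q hq
    rw [Finset.mem_image] at hq
    obtain ⟨x, hx, rfl⟩ := hq
    rw [Finset.mem_filter] at hx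
    exact ⟨x.2, hx.2⟩
  have key : ∀ s : ℝ, 1 < s → ∀ q : Nat.Primes, (DL.dP M q : ℝ) * (q : ℝ) ^ (-s) ≤
      (1 / 2) * ((DL.dP L q : ℝ) * (q : ℝ) ^ (-s)) + (h1 q + h2 q) := by
    intro s hs q
    have q2 : 2 ≤ (q : ℕ) := q.2.two_le
    have q1 : (1 : ℝ) ≤ ((q : ℕ) : ℝ) := by
      have : (2 : ℝ) ≤ ((q : ℕ) : ℝ) := by exact_mod_cast q2
      linarith
    have q0 : (0 : ℝ) < ((q : ℕ) : ℝ) := by linarith
    have hp0 : (0 : ℝ) ≤ ((q : ℕ) : ℝ) ^ (-s) := Real.rpow_nonneg q0.le _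
    have hp1 : ((q : ℕ) : ℝ) ^ (-s) ≤ 1 / ((q : ℕ) : ℝ) := by
      have h := Real.rpow_le_rpow_of_exponent_le q1 (show -s ≤ -1 by linarith)
      rwa [Real.rpow_neg_one, ← one_div] at h
    have hp2 : ((q : ℕ) : ℝ) ^ (-s) ≤ 1 := by
      refine hp1.trans ?_
      rw [div_le_one q0]
      exact q1
    have hd0 : (0 : ℝ) ≤ (DL.dP M q : ℝ) := Nat.cast_nonneg _
    have hdL : (0 : ℝ) ≤ (DL.dP L q : ℝ) * ((q : ℕ) : ℝ) ^ (-s) :=
      mul_nonneg (Nat.cast_nonneg _) hp0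
    have t1 := p1 q
    have t2 := p2 q
    by_cases c1 : (q : ℕ) ≤ N + 2 * D + 2
    · have e1 : h1 q = n := by
        rw [hh1]
        exact if_pos c1
      have e2 : (DL.dP M q : ℝ) * ((q : ℕ) : ℝ) ^ (-s) ≤ n * 1 :=
        mul_le_mul (hdn q) hp2 hp0 hn0
      linarith
    · rcases jac_cases M D hM q.2 (by omega : 2 * D < (q : ℕ)) with h4 | h4
      · have e1 : (2 : ℝ) * (DL.dP M q : ℝ) ≤ (DL.dP L q : ℝ) := by
          exact_mod_cast htwo q q.2 (by omega) h4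
        have e2 := mul_le_mul_of_nonneg_right e1 hp0
        linarith
      · rcases Nat.eq_zero_or_pos (DL.dP M q) with hz | hz
        · rw [hz]
          simp only [Nat.cast_zero, zero_mul]
          linarith
        · have e1 : h2 q = n * (1 / (q : ℕ)) := by
            rw [hh2]
            exact if_pos ⟨by omega, h4, hz⟩
          have e2 : (DL.dP M q : ℝ) * ((q : ℕ) : ℝ) ^ (-s) ≤ n * (1 / (q : ℕ)) :=
            mul_le_mul (hdn q) hp1 hp0 hn0
          linarith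
  have main : ∀ s : ℝ, 1 < s → s ≤ 2 → (1 / 2) * Real.log (1 / (s - 1)) ≤
      CM + (1 / 2) * CL + ∑' q, (h1 q + h2 q) := by
    intro s hs hs2
    obtain ⟨a1, a2⟩ := hM' s hs hs2
    obtain ⟨b1, b2⟩ := hL s hs hs2
    have c1 := (a1.tsum_le_tsum (key s hs) ((b1.mul_left (1 / 2)).add (s1.add s2)))
    rw [(b1.mul_left (1 / 2)).tsum_add (s1.add s2), tsum_mul_left] at c1
    rw [abs_le] at a2 b2
    linarith [a2.1, b2.2]
  obtain ⟨T, hT⟩ : ∃ T : ℝ, T = 2 * |CM + (1 / 2) * CL + ∑' q, (h1 q + h2 q)| + 1 := ⟨_, rfl⟩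
  have hT0 : 0 < T := by
    rw [hT]
    positivity
  have hm := main (1 + Real.exp (-T)) (by linarith [Real.exp_pos (-T)]) (by
    have : Real.exp (-T) ≤ 1 := Real.exp_le_one_iff.2 (by linarith)
    linarith)
  rw [add_sub_cancel_left, one_div (Real.exp (-T)), ← Real.exp_neg, neg_neg, Real.log_exp] at hm
  have := le_abs_self (CM + (1 / 2) * CL + ∑' q, (h1 q + h2 q))
  linarith

end Pool.Agent.SS.FM
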