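import Mathlib
import Pool.Agent.Work.MP_a5099b_nt.D5.DDefs
import Pool.Agent.Work.MP_a5099b_nt.D5.DPn
import Pool.Agent.Work.MP_a5099b_nt.D4.NormQ
import Pool.Agent.Work.MP_a5099b_nt.FM.SumD

/-!
# Module FM/DegD (S-M)

The primes used. PROOF. `B` from `DD.unram K` (`D4/NormQ`), `S` from `sum_sqrt M D hM (max N B) R`. For `q ∈ S`: `DL.dP_pos` (`D5/DPn`) gives a place `w` of `M` with `Nat.card (𝓞 M ⧸ w.asIdeal) = q`: a finite integral domain with `q` elements, `ZMod.ringEquivOfPrime` (see `sq_of_card` in `D5/Deg3.lean`) gives `ZMod q ≃+* 𝓞 M ⧸ w.asIdeal`; compose its inverse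
with `Ideal.Quotient.mk`.
-/

set_option autoImplicit false

namespace Pool.Agent.SS.FM

open NumberField IsDedekindDomain

theorem deg_sqrt (K M : Type) [Field K] [NumberField K] [Field M] [NumberField M] (D : ℕ)
    (hM : ∀ x : M, x ^ 2 ≠ -(D : M)) (N : ℕ) (R : ℝ) :
    ∃ S : Finset ℕ, (∀ q ∈ S, q.Prime ∧ N < q ∧ jacobiSym (-D) q = -1 ∧
      (∀ v : HeightOneSpectrum (𝓞 K), (q : 𝓞 K) ∈ v.asIdeal → (q : 𝓞 K) ∉ v.asIdeal ^ 2) ∧
      Nonempty (𝓞 M →+* ZMod q)) ∧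
      R ≤ ∑ q ∈ S, (1 : ℝ) / q := by
  obtain ⟨B, hB⟩ := DD.unram K
  obtain ⟨S, hS, hR⟩ := sum_sqrt M D hM (max N B) R
  refine ⟨S, ?_, hR⟩
  intro q hqS
  obtain ⟨hq, hN, h4, hdp⟩ := hS q hqS
  obtain ⟨w, -, hw⟩ := (DL.dP_pos M hq).1 hdp
  have hprime := w.isPrime
  refine ⟨hq, lt_of_le_of_lt (le_max_left _ _) hN, h4,
    hB q hq (lt_of_le_of_lt (le_max_right _ _) hN), ?_⟩
  have : Fact q.Prime := ⟨hq⟩
  have : Finite (𝓞 M ⧸ w.asIdeal) := Nat.finite_of_card_ne_zero (by rw [hw]; exact hq.ne_zero)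
  have : Fintype (𝓞 M ⧸ w.asIdeal) := Fintype.ofFinite _
  have hc' : Fintype.card (𝓞 M ⧸ w.asIdeal) = q := by
    rw [← Nat.card_eq_fintype_card]
    exact hw
  have e := ZMod.ringEquivOfPrime (𝓞 M ⧸ w.asIdeal) hq hc'
  exact ⟨(e.symm : (𝓞 M ⧸ w.asIdeal) →+* ZMod q).comp (Ideal.Quotient.mk w.asIdeal)⟩

end Pool.Agent.SS.FM
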