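import Mathlib

/-!
# Module FM/FibN (S-M)

Tuples of integers of `K` with given residues. PROOF: copy `D4/Fib.lean`, with pairs replaced by `m`-tuples: for a family `(r v)`, `v ∈ V`, `r v ∈ Good v`, choose for every `j : Fin m` an integer `A j` with `A j ≡ r v j` modulo `v` for all `v ∈ V` (`fib_ex`); send the family to the vector `(j, i) ↦ b.repr (A j) i`; injective by `fib_mem`.
-/

set_option autoImplicit false

namespace Pool.Agent.SS.FM

open NumberField IsDedekindDomain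

/-- The residue vectors of the tuples with residues in `Good v` for `v ∈ V`. -/
def GsetN {K : Type} [Field K] [NumberField K] {ι : Type} {m : ℕ} (b : Module.Basis ι ℤ (𝓞 K)) (q : ℕ)
    (V : Finset (HeightOneSpectrum (𝓞 K)))
    (Good : ∀ v : HeightOneSpectrum (𝓞 K), Set (Fin m → 𝓞 K ⧸ v.asIdeal)) :
    Set (Fin m × ι → ZMod q) :=
  {u | ∃ A : Fin m → 𝓞 K, (∀ j i, ((b.repr (A j) i : ℤ) : ZMod q) = u (j, i)) ∧
    ∀ v ∈ V, (fun j => Ideal.Quotient.mk v.asIdeal (A j)) ∈ Good v}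

private theorem fib_mem {K : Type} [Field K] [NumberField K] {ι : Type} [Fintype ι]
    (b : Module.Basis ι ℤ (𝓞 K)) {q : ℕ}
    {v : HeightOneSpectrum (𝓞 K)} (hv : (q : 𝓞 K) ∈ v.asIdeal) (A A' : 𝓞 K)
    (h : ∀ i, ((b.repr A i : ℤ) : ZMod q) = ((b.repr A' i : ℤ) : ZMod q)) :
    Ideal.Quotient.mk v.asIdeal A = Ideal.Quotient.mk v.asIdeal A' := by
  rw [Ideal.Quotient.mk_eq_mk_iff_sub_mem, ← b.sum_repr (A - A')]
  refine v.asIdeal.sum_mem fun i _ => ?_
  have h1 : (q : ℤ) ∣ b.repr (A - A') i := by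
    have h2 := (ZMod.intCast_eq_intCast_iff_dvd_sub _ _ _).1 (h i).symm
    rwa [map_sub, Finsupp.sub_apply]
  obtain ⟨c, hc⟩ := h1
  rw [hc, mul_smul, zsmul_eq_mul, Int.cast_natCast]
  exact v.asIdeal.mul_mem_right _ hv

private theorem fib_ex {K : Type} [Field K] [NumberField K] (V : Finset (HeightOneSpectrum (𝓞 K)))
    (r : ∀ v : V, 𝓞 K ⧸ v.1.asIdeal) :
    ∃ A : 𝓞 K, ∀ v : V, Ideal.Quotient.mk v.1.asIdeal A = r v := by
  obtain ⟨y, hy⟩ := IsDedekindDomain.exists_forall_sub_mem_ideal (s := V)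
    (fun v : HeightOneSpectrum (𝓞 K) => v.asIdeal) (fun _ => 1)
    (fun v _ => v.prime) (fun v _ w _ hvw h => hvw (HeightOneSpectrum.ext h))
    (fun v => (Ideal.Quotient.mk_surjective (r v)).choose)
  refine ⟨y, fun v => ?_⟩
  have h1 := hy v.1 v.2
  simp only [pow_one] at h1
  rw [← Ideal.Quotient.mk_eq_mk_iff_sub_mem] at h1
  rw [h1]
  exact (Ideal.Quotient.mk_surjective (r v)).choose_spec

theorem GsetN_card {K : Type} [Field K] [NumberField K] {ι : Type} [Fintype ι] {m : ℕ}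
    (b : Module.Basis ι ℤ (𝓞 K)) {q : ℕ} (hq : q.Prime)
    (V : Finset (HeightOneSpectrum (𝓞 K))) (hV : ∀ v ∈ V, (q : 𝓞 K) ∈ v.asIdeal)
    (Good : ∀ v : HeightOneSpectrum (𝓞 K), Set (Fin m → 𝓞 K ⧸ v.asIdeal)) :
    ∏ v ∈ V, (Good v).ncard ≤ (GsetN b q V Good).ncard := by
  classical
  have : NeZero q := ⟨hq.ne_zero⟩
  choose fA hA using fun (r : (∀ v : V, Good v.1)) (j : Fin m) => fib_ex V fun v => (r v).1 j
  let Φ : (∀ v : V, Good v.1) → GsetN b q V Good := fun r =>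
    ⟨fun p => ((b.repr (fA r p.1) p.2 : ℤ) : ZMod q),
      fA r, fun j i => rfl, fun v hv => by
        have h1 : (fun j => Ideal.Quotient.mk v.asIdeal (fA r j)) = (r ⟨v, hv⟩).1 := by
          funext j
          exact hA r j ⟨v, hv⟩
        rw [h1]
        exact (r ⟨v, hv⟩).2⟩
  have hΦ : Function.Injective Φ := by
    intro r r' h
    have h0 : ∀ s, (Φ r).1 s = (Φ r').1 s := fun s => by rw [h]
    funext v
    apply Subtype.ext
    funext j
    rw [← hA r j v, ← hA r' j v]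
    exact fib_mem b (hV v.1 v.2) _ _ fun i => h0 (j, i)
  have h1 := Nat.card_le_card_of_injective Φ hΦ
  rw [Nat.card_pi, Nat.card_coe_set_eq] at h1
  refine le_trans (le_of_eq ?_) h1
  rw [← Finset.prod_coe_sort V]
  exact Finset.prod_congr rfl fun v _ => (Nat.card_coe_set_eq _).symm

theorem GsetN_mem {K : Type} [Field K] [NumberField K] {ι : Type} [Fintype ι] {m : ℕ}
    (b : Module.Basis ι ℤ (𝓞 K)) {q : ℕ} (hq : q.Prime)
    (V : Finset (HeightOneSpectrum (𝓞 K))) (hV : ∀ v ∈ V, (q : 𝓞 K) ∈ v.asIdeal)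
    (Good : ∀ v : HeightOneSpectrum (𝓞 K), Set (Fin m → 𝓞 K ⧸ v.asIdeal))
    (z : Fin m × ι → ℤ) (hz : (fun i => (z i : ZMod q)) ∈ GsetN b q V Good) :
    ∀ v ∈ V, (fun j => Ideal.Quotient.mk v.asIdeal (∑ i, z (j, i) • b i)) ∈ Good v := by
  obtain ⟨A, hA, h⟩ := hz
  intro v hv
  have h1 : (fun j => Ideal.Quotient.mk v.asIdeal (∑ i, z (j, i) • b i)) =
      fun j => Ideal.Quotient.mk v.asIdeal (A j) := by
    funext j
    refine fib_mem b (hV v hv) _ _ fun i => ?_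
    rw [b.repr_sum_self (fun i => z (j, i))]
    exact (hA j i).symm
  rw [h1]
  exact h v hv

end Pool.Agent.SS.FM
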