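import Mathlib
import Pool.Agent.Work.MP_a5099b_nt.FM.Defs
import Pool.Agent.Work.MP_a5099b_nt.SpecC

/-!
# Module FM/SigN (M)

The places above `q` for a point with good residues. PROOF: as `DD.sig_eq` in `D4/SigD.lean` (copy), with `E = W.map (MvPolynomial.eval t)`; `E.map mk = sp W mk (mk ∘ t)` (`sp_eval`), so the coefficients `c₄`, `Δ` of `E` modulo `v` are those of `sp W mk (mk ∘ t)` (`WeierstrassCurve.map_c₄`, `map_Δ`). At `v1`: `k = 𝓞 K ⧸ v1` has `q` elements; `Δ(E) ∉ v1` by `hd1`, so `E.Δ ≠ 0`; the curve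
`E.map mk` over `k` has invariant `y`, supersingular (`SSj_map` from `ZMod q`), so `card_iff` gives `PSS q E v1` with `α = c₄ ^ 3`, `β = Δ`; the degree is 1. If `v ∈ Sig q E`, `v ≠ v1`: `PSS` gives `W'`, `α`, `β`, and `card_iff` says that `mk α / mk β` is supersingular over `𝓞 K ⧸ v`, i.e. `SSv q v (mk α / mk β)`; the relation `β c₄(E) ^ 3 = α Δ(E)` modulo `v` gives
`(sp ...).c₄ ^ 3 = (mk α / mk β) * (sp ...).Δ`, which contradicts `hoth` (the degree is odd by the definition of `Sig`). `JMod E v1 m`: as in `DD.sig_eq`.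
-/

set_option autoImplicit false

namespace Pool.Agent.SS.FM

open NumberField IsDedekindDomain

private theorem charP_quot {K : Type} [Field K] [NumberField K] (v : HeightOneSpectrum (𝓞 K)) {p : ℕ} (hp : p.Prime)
    (hpv : (p : 𝓞 K) ∈ v.asIdeal) : CharP (𝓞 K ⧸ v.asIdeal) p := by
  have : Nontrivial (𝓞 K ⧸ v.asIdeal) := Ideal.Quotient.nontrivial_iff.mpr v.isPrime.ne_top
  have h0 : ((p : ℕ) : 𝓞 K ⧸ v.asIdeal) = 0 := by
    rw [← map_natCast (Ideal.Quotient.mk v.asIdeal)]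
    exact Ideal.Quotient.eq_zero_iff_mem.mpr hpv
  exact (CharP.charP_iff_prime_eq_zero hp).mpr h0

theorem sig_sp {K : Type} [Field K] [NumberField K] {m : ℕ}
    (W : WeierstrassCurve (MvPolynomial (Fin m) (𝓞 K))) {q : ℕ} [Fact q.Prime] (h5 : 5 ≤ q)
    (t : Fin m → 𝓞 K) (v1 : HeightOneSpectrum (𝓞 K)) (hq1 : (q : 𝓞 K) ∈ v1.asIdeal)
    (hc1 : Nat.card (𝓞 K ⧸ v1.asIdeal) = q) (y : ℤ) (hss : SSj q (y : ZMod q))
    (hd1 : (sp W (Ideal.Quotient.mk v1.asIdeal) (fun j => Ideal.Quotient.mk v1.asIdeal (t j))).Δ ≠ 0)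
    (hj1 : (sp W (Ideal.Quotient.mk v1.asIdeal)
        (fun j => Ideal.Quotient.mk v1.asIdeal (t j))).c₄ ^ 3 = (y : 𝓞 K ⧸ v1.asIdeal) *
      (sp W (Ideal.Quotient.mk v1.asIdeal) (fun j => Ideal.Quotient.mk v1.asIdeal (t j))).Δ)
    (hoth : ∀ v : HeightOneSpectrum (𝓞 K), (q : 𝓞 K) ∈ v.asIdeal → v ≠ v1 →
      (fun j => Ideal.Quotient.mk v.asIdeal (t j)) ∈ GoodV W q v) :
    (W.map (MvPolynomial.eval t)).Δ ≠ 0 ∧ Sig q (W.map (MvPolynomial.eval t)) = {v1} ∧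
      ∀ i : ℤ, JMod (W.map (MvPolynomial.eval t)) v1 i → (i : ZMod q) = (y : ZMod q) := by
  classical
  have hq : q.Prime := Fact.out
  let _ : Field (𝓞 K ⧸ v1.asIdeal) := Ideal.Quotient.field v1.asIdeal
  have hch1 : CharP (𝓞 K ⧸ v1.asIdeal) q := charP_quot v1 hq hq1
  have hfin1 : Finite (𝓞 K ⧸ v1.asIdeal) := Ideal.finiteQuotientOfFreeOfNeBot v1.asIdeal v1.ne_bot
  let _ : Fintype (𝓞 K ⧸ v1.asIdeal) := Fintype.ofFinite _
  set m1 := Ideal.Quotient.mk v1.asIdeal with hm1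
  have hEv : ∀ v : HeightOneSpectrum (𝓞 K),
      (W.map (MvPolynomial.eval t)).map (Ideal.Quotient.mk v.asIdeal) =
        sp W (Ideal.Quotient.mk v.asIdeal) (fun j => Ideal.Quotient.mk v.asIdeal (t j)) :=
    fun v => sp_eval W _ t
  generalize W.map (MvPolynomial.eval t) = E at hEv ⊢
  have hE1 : E.map m1 = sp W m1 (fun j => m1 (t j)) := hEv v1
  have hΔm : (E.map m1).Δ ≠ 0 := by
    rw [hE1]
    exact hd1
  have hcm : (E.map m1).c₄ ^ 3 = (y : 𝓞 K ⧸ v1.asIdeal) * (E.map m1).Δ := by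
    rw [hE1]
    exact hj1
  have hΔ1 : E.Δ ∉ v1.asIdeal := by
    intro h
    apply hΔm
    rw [WeierstrassCurve.map_Δ]
    exact Ideal.Quotient.eq_zero_iff_mem.mpr h
  refine ⟨?_, ?_, ?_⟩
  · intro h
    apply hΔ1
    rw [h]
    exact v1.asIdeal.zero_mem
  · ext v
    simp only [Set.mem_singleton_iff]
    constructor
    · rintro ⟨hqv, hodd, W', hW', ⟨α, β, hβ, hj, hj'⟩, hcard⟩
      by_contra hne
      obtain ⟨hab, hH⟩ := hoth v hqv hne
      let _ : Field (𝓞 K ⧸ v.asIdeal) := Ideal.Quotient.field v.asIdeal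
      have hch : CharP (𝓞 K ⧸ v.asIdeal) q := charP_quot v hq hqv
      have hfin : Finite (𝓞 K ⧸ v.asIdeal) :=
        Ideal.finiteQuotientOfFreeOfNeBot v.asIdeal v.ne_bot
      let _ : Fintype (𝓞 K ⧸ v.asIdeal) := Fintype.ofFinite _
      have hβ0 : Ideal.Quotient.mk v.asIdeal β ≠ 0 := fun h0 =>
        hβ (Ideal.Quotient.eq_zero_iff_mem.mp h0)
      have h1 := (card_iff hq h5 W' hW').mp hcard
      have h2 : W'.c₄ ^ 3 / W'.Δ = Ideal.Quotient.mk v.asIdeal α / Ideal.Quotient.mk v.asIdeal β := by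
        rw [div_eq_div_iff hW' hβ0, mul_comm]
        exact hj'
      rw [h2] at h1
      refine hH hodd _ h1 ?_
      have h3 := congrArg (Ideal.Quotient.mk v.asIdeal) hj
      rw [map_mul, map_mul, map_pow, ← WeierstrassCurve.map_c₄, ← WeierstrassCurve.map_Δ, hEv v] at h3
      rw [div_mul_eq_mul_div, eq_div_iff hβ0]
      linear_combination h3
    · intro h
      subst h
      refine ⟨hq1, ⟨1, odd_one, by rw [hc1, pow_one]⟩, E.map m1, hΔm,
        ⟨E.c₄ ^ 3, E.Δ, hΔ1, by ring, ?_⟩, ?_⟩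
      · rw [WeierstrassCurve.map_c₄, WeierstrassCurve.map_Δ, map_pow]
        ring
      · rw [card_iff hq h5 _ hΔm]
        have h1 : (E.map m1).c₄ ^ 3 / (E.map m1).Δ = (y : 𝓞 K ⧸ v.asIdeal) := by
          rw [hcm, mul_div_assoc, div_self hΔm, mul_one]
        rw [h1]
        have h2 : (y : 𝓞 K ⧸ v.asIdeal) = ZMod.castHom (dvd_refl q) (𝓞 K ⧸ v.asIdeal) (y : ZMod q) := by
          simp
        rw [h2, SSj_map hq h5]
        exact hss
  · rintro n ⟨α, β, hβ, hj, hn⟩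
    have hβ0 : m1 β ≠ 0 := fun h0 => hβ (Ideal.Quotient.eq_zero_iff_mem.mp h0)
    have h1 : m1 α = (n : 𝓞 K ⧸ v1.asIdeal) * m1 β := by
      have := Ideal.Quotient.eq_zero_iff_mem.mpr hn
      rw [map_sub, map_mul, map_intCast, sub_eq_zero] at this
      exact this
    have h2 := congrArg m1 hj
    rw [map_mul, map_mul, map_pow, ← WeierstrassCurve.map_c₄, ← WeierstrassCurve.map_Δ, hcm, h1] at h2
    have h3 : (n : 𝓞 K ⧸ v1.asIdeal) = (y : 𝓞 K ⧸ v1.asIdeal) := by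
      apply mul_right_cancel₀ hΔm
      apply mul_left_cancel₀ hβ0
      linear_combination -h2
    rw [CharP.intCast_eq_intCast (𝓞 K ⧸ v1.asIdeal) q] at h3
    exact (ZMod.intCast_eq_intCast_iff n y q).mpr h3

end Pool.Agent.SS.FM
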