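import Mathlib
import Pool.Agent.Work.MP_a5099b_nt.FM.Defs
import Pool.Agent.Work.MP_a5099b_nt.D4.NormQ
import Pool.Agent.Work.MP_a5099b_nt.FM.FibN
import Pool.Agent.Work.MP_a5099b_nt.FM.SigN

/-!
# Module FM/GN (M-L)

A set of residues modulo `q` of proportion at least `c' / q` on which the criterion applies. PROOF (as `D4/LocG.lean`, `exists_G`). `v1 = RingHom.ker θ` as a place (prime, contains `q`, so not zero); `θ` is surjective (`ZMod.ringHom_surjective`-type: every element of `ZMod q` is the image of an integer), so `𝓞 K ⧸ v1.asIdeal ≃+* ZMod q` (`RingHom.quotientKerEquivOfSurjective`), `Nat.card = q`.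
`y = (y' : ZMod q)` with `y' : ℤ`. `V` = the finite set of the places above `q` (`DD.above_finite`). `Good v1 = {u | (sp W mk u).Δ ≠ 0 ∧ (sp W mk u).c₄ ^ 3 = y' * (sp W mk u).Δ}`, `Good v = GoodV W q v` for `v ≠ v1`. The ring isomorphism `e : 𝓞 K ⧸ v1 ≃+* ZMod q` with `e ∘ mk = θ` maps `Good v1` bijectively to the set of `hT` (`sp_map`, `WeierstrassCurve.map_Δ`, `map_c₄`), so
`(Good v1).ncard ≥ c q ^ n`. `G = GsetN b q V Good`. `GsetN_card`, `prod_card`: with `N_v = Nat.card (𝓞 K ⧸ v)`, `∏ N_v = q ^ g`, `g = finrank ℚ K`, `V.card ≤ g`: `G.ncard ≥ ∏ (Good v).ncard ≥ c q ^ n ∏_{v ≠ v1} N_v ^ (n+1) / 2 ≥ (c / q) (∏ N_v) ^ (n+1) / 2 ^ g`, and `Fintype.card (Fin (n+1) × ι) = (n+1) g` (`NumberField.RingOfIntegers.rank`,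
`Module.finrank_eq_card_basis`). Second part: `GsetN_mem`, `sig_sp`.
-/

set_option autoImplicit false

namespace Pool.Agent.SS.FM

open NumberField IsDedekindDomain

theorem exists_GN {K : Type} [Field K] [NumberField K] {ι : Type} [Fintype ι]
    (b : Module.Basis ι ℤ (𝓞 K)) {n : ℕ} (W : WeierstrassCurve (MvPolynomial (Fin (n + 1)) (𝓞 K)))
    {q : ℕ} [Fact q.Prime] (h5 : 5 ≤ q)
    (hur : ∀ v : HeightOneSpectrum (𝓞 K), (q : 𝓞 K) ∈ v.asIdeal → (q : 𝓞 K) ∉ v.asIdeal ^ 2)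
    (θ : 𝓞 K →+* ZMod q) (c : ℝ) (hc : 0 < c) (y : ZMod q) (hss : SSj q y)
    (hT : c * (q : ℝ) ^ n ≤ ({u : Fin (n + 1) → ZMod q | (sp W θ u).Δ ≠ 0 ∧
      (sp W θ u).c₄ ^ 3 = y * (sp W θ u).Δ}.ncard : ℝ))
    (hoth : ∀ v : HeightOneSpectrum (𝓞 K), (q : 𝓞 K) ∈ v.asIdeal →
      Nat.card (𝓞 K ⧸ v.asIdeal) ^ (n + 1) ≤ 2 * (GoodV W q v).ncard) :
    ∃ (v1 : HeightOneSpectrum (𝓞 K)) (G : Set (Fin (n + 1) × ι → ZMod q)),
      (c / 2 ^ Module.finrank ℚ K : ℝ) / q * (q : ℝ) ^ Fintype.card (Fin (n + 1) × ι) ≤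
        (G.ncard : ℝ) ∧
      ∀ z : Fin (n + 1) × ι → ℤ, (fun i => (z i : ZMod q)) ∈ G →
        (W.map (MvPolynomial.eval fun j => ∑ i, z (j, i) • b i)).Δ ≠ 0 ∧
        Sig q (W.map (MvPolynomial.eval fun j => ∑ i, z (j, i) • b i)) = {v1} ∧
        ∀ i : ℤ, JMod (W.map (MvPolynomial.eval fun j => ∑ i, z (j, i) • b i)) v1 i →
          (i : ZMod q) = y := by
  classical
  have hq : q.Prime := Fact.out
  have hsurj : Function.Surjective θ := ZMod.ringHom_surjective θ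
  have hqker : (q : 𝓞 K) ∈ RingHom.ker θ := by
    rw [RingHom.mem_ker, map_natCast]
    exact ZMod.natCast_self q
  have hnb : RingHom.ker θ ≠ ⊥ := by
    intro h
    rw [h, Ideal.mem_bot] at hqker
    exact hq.ne_zero (by exact_mod_cast hqker)
  let v1 : HeightOneSpectrum (𝓞 K) := ⟨RingHom.ker θ, RingHom.ker_isPrime θ, hnb⟩
  have hq1 : (q : 𝓞 K) ∈ v1.asIdeal := hqker
  let e : 𝓞 K ⧸ v1.asIdeal ≃+* ZMod q := RingHom.quotientKerEquivOfSurjective hsurj
  have he : ∀ x : 𝓞 K, e (Ideal.Quotient.mk v1.asIdeal x) = θ x := fun x => rfl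
  have hc1 : Nat.card (𝓞 K ⧸ v1.asIdeal) = q := by
    rw [Nat.card_congr e.toEquiv, Nat.card_eq_fintype_card, ZMod.card]
  obtain ⟨y', rfl⟩ := ZMod.intCast_surjective y
  set V : Finset (HeightOneSpectrum (𝓞 K)) := (DD.above_finite (K := K) hq).toFinset with hVdef
  have hV : ∀ v, v ∈ V ↔ (q : 𝓞 K) ∈ v.asIdeal := by
    intro v
    simp [hVdef]
  obtain ⟨hprod, hcardV⟩ := DD.prod_card (K := K) hq hur V hV
  let P1 : Set (Fin (n + 1) → 𝓞 K ⧸ v1.asIdeal) :=
    {u | (sp W (Ideal.Quotient.mk v1.asIdeal) u).Δ ≠ 0 ∧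
      (sp W (Ideal.Quotient.mk v1.asIdeal) u).c₄ ^ 3 =
        (y' : 𝓞 K ⧸ v1.asIdeal) * (sp W (Ideal.Quotient.mk v1.asIdeal) u).Δ}
  let Good : ∀ v : HeightOneSpectrum (𝓞 K), Set (Fin (n + 1) → 𝓞 K ⧸ v.asIdeal) := fun v =>
    {u | (v = v1 → (sp W (Ideal.Quotient.mk v.asIdeal) u).Δ ≠ 0 ∧
      (sp W (Ideal.Quotient.mk v.asIdeal) u).c₄ ^ 3 =
        (y' : 𝓞 K ⧸ v.asIdeal) * (sp W (Ideal.Quotient.mk v.asIdeal) u).Δ) ∧
      (v ≠ v1 → u ∈ GoodV W q v)}
  have hG1 : Good v1 = P1 := by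
    ext u
    exact ⟨fun h => h.1 rfl, fun h => ⟨fun _ => h, fun h' => absurd rfl h'⟩⟩
  have hG2 : ∀ v, v ≠ v1 → Good v = GoodV W q v := by
    intro v hv
    ext u
    exact ⟨fun h => h.2 hv, fun h => ⟨fun h' => absurd h' hv, fun _ => h⟩⟩
  have hfin : Finite (Fin (n + 1) → 𝓞 K ⧸ v1.asIdeal) := by
    have : Finite (𝓞 K ⧸ v1.asIdeal) := Ideal.finiteQuotientOfFreeOfNeBot v1.asIdeal v1.ne_bot
    infer_instance
  have hP1 : c * (q : ℝ) ^ n ≤ (P1.ncard : ℝ) := by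
    refine hT.trans ?_
    have h1 : (fun u : Fin (n + 1) → ZMod q => fun j => e.symm (u j)) ''
        {u : Fin (n + 1) → ZMod q | (sp W θ u).Δ ≠ 0 ∧
          (sp W θ u).c₄ ^ 3 = (y' : ZMod q) * (sp W θ u).Δ} ⊆ P1 := by
      rintro _ ⟨u, hu, rfl⟩
      have h2 : (sp W (Ideal.Quotient.mk v1.asIdeal) (fun j => e.symm (u j))).map
          (e : 𝓞 K ⧸ v1.asIdeal →+* ZMod q) = sp W θ u := by
        rw [sp_map]
        congr 1
        ext j
        simp
      have h3 : e (sp W (Ideal.Quotient.mk v1.asIdeal) (fun j => e.symm (u j))).Δ =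
          (sp W θ u).Δ := by
        rw [← h2, WeierstrassCurve.map_Δ]
        rfl
      have h4 : e (sp W (Ideal.Quotient.mk v1.asIdeal) (fun j => e.symm (u j))).c₄ =
          (sp W θ u).c₄ := by
        rw [← h2, WeierstrassCurve.map_c₄]
        rfl
      refine ⟨?_, ?_⟩
      · intro h5
        apply hu.1
        rw [← h3]
        exact (congrArg e h5).trans (map_zero e)
      · apply e.injective
        have h6 : e ((y' : 𝓞 K ⧸ v1.asIdeal) *
            (sp W (Ideal.Quotient.mk v1.asIdeal) (fun j => e.symm (u j))).Δ) =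
            (y' : ZMod q) * (sp W θ u).Δ := by
          rw [map_mul, h3, map_intCast]
        have h7 : e ((sp W (Ideal.Quotient.mk v1.asIdeal) (fun j => e.symm (u j))).c₄ ^ 3) =
            (sp W θ u).c₄ ^ 3 := by
          rw [map_pow, h4]
        exact h7.trans (hu.2.trans h6.symm)
    have hinj : Function.Injective
        (fun u : Fin (n + 1) → ZMod q => fun j => e.symm (u j)) := by
      intro u w h
      ext1 j
      exact e.symm.injective (congrFun h j)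
    have h8 := Set.ncard_le_ncard h1 (Set.toFinite P1)
    rw [Set.ncard_image_of_injective _ hinj] at h8
    exact_mod_cast h8
  refine ⟨v1, GsetN b q V Good, ?_, ?_⟩
  · have hle := GsetN_card b hq V (fun v hv => (hV v).1 hv) Good
    have hv1V : v1 ∈ V := (hV v1).2 hq1
    have hqpos : (0 : ℝ) < q := by exact_mod_cast hq.pos
    have hι : Fintype.card ι = Module.finrank ℚ K := by
      rw [← NumberField.RingOfIntegers.rank K, Module.finrank_eq_card_basis b]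
    have hcard : Fintype.card (Fin (n + 1) × ι) = Module.finrank ℚ K * (n + 1) := by
      rw [Fintype.card_prod, Fintype.card_fin, hι]
      ring
    have hb2 : ∀ v ∈ V, v ≠ v1 →
        ((Nat.card (𝓞 K ⧸ v.asIdeal) : ℝ)) ^ (n + 1) / 2 ≤ ((Good v).ncard : ℝ) := by
      intro v hv hne
      have h1 := hoth v ((hV v).1 hv)
      rw [← hG2 v hne] at h1
      have h2 : ((Nat.card (𝓞 K ⧸ v.asIdeal) : ℝ)) ^ (n + 1) ≤ 2 * ((Good v).ncard : ℝ) := by
        exact_mod_cast h1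
      linarith
    have hb1 : c * (q : ℝ) ^ n ≤ ((Good v1).ncard : ℝ) := by
      rw [hG1]
      exact hP1
    have hP : c / q * (∏ v ∈ V, ((Nat.card (𝓞 K ⧸ v.asIdeal) : ℝ)) ^ (n + 1) / 2) ≤
        ∏ v ∈ V, ((Good v).ncard : ℝ) := by
      rw [← Finset.mul_prod_erase V _ hv1V,
        ← Finset.mul_prod_erase V (fun v => ((Good v).ncard : ℝ)) hv1V, hc1]
      have e0 : (0 : ℝ) ≤ ∏ x ∈ V.erase v1, ((Nat.card (𝓞 K ⧸ x.asIdeal) : ℝ)) ^ (n + 1) / 2 :=
        Finset.prod_nonneg fun _ _ => by positivity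
      have e1 : c / q * ((q : ℝ) ^ (n + 1) / 2 *
          (∏ x ∈ V.erase v1, ((Nat.card (𝓞 K ⧸ x.asIdeal) : ℝ)) ^ (n + 1) / 2)) =
          (c * (q : ℝ) ^ n) / 2 *
            ∏ x ∈ V.erase v1, ((Nat.card (𝓞 K ⧸ x.asIdeal) : ℝ)) ^ (n + 1) / 2 := by
        rw [pow_succ]
        field_simp
      rw [e1]
      apply mul_le_mul _ _ e0 (by positivity)
      · have : 0 ≤ c * (q : ℝ) ^ n := by positivity
        linarith
      · apply Finset.prod_le_prod (fun _ _ => by positivity)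
        intro v hv
        exact hb2 v (Finset.mem_of_mem_erase hv) (Finset.ne_of_mem_erase hv)
    have hprod' : ∏ v ∈ V, (Nat.card (𝓞 K ⧸ v.asIdeal) : ℝ) = (q : ℝ) ^ Module.finrank ℚ K := by
      exact_mod_cast hprod
    have hP2 : (∏ v ∈ V, ((Nat.card (𝓞 K ⧸ v.asIdeal) : ℝ)) ^ (n + 1) / 2) =
        ((q : ℝ) ^ Module.finrank ℚ K) ^ (n + 1) / 2 ^ V.card := by
      rw [Finset.prod_div_distrib, Finset.prod_pow, hprod', Finset.prod_const]
    have hle' : (∏ v ∈ V, ((Good v).ncard : ℝ)) ≤ ((GsetN b q V Good).ncard : ℝ) := by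
      exact_mod_cast hle
    rw [hP2] at hP
    rw [hcard]
    refine le_trans ?_ (le_trans hP hle')
    have e2 : (c / 2 ^ Module.finrank ℚ K : ℝ) / q *
        (q : ℝ) ^ (Module.finrank ℚ K * (n + 1)) =
        c / q * (((q : ℝ) ^ Module.finrank ℚ K) ^ (n + 1) / 2 ^ Module.finrank ℚ K) := by
      rw [← pow_mul]
      ring
    rw [e2]
    apply mul_le_mul_of_nonneg_left _ (by positivity)
    apply div_le_div_of_nonneg_left (by positivity) (by positivity)
    exact pow_le_pow_right₀ (by norm_num) hcardV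
  · intro z hz
    have hmem := GsetN_mem b hq V (fun v hv => (hV v).1 hv) Good z hz
    have g1 := hmem v1 ((hV v1).2 hq1)
    rw [hG1] at g1
    refine sig_sp W h5 (fun j => ∑ i, z (j, i) • b i) v1 hq1 hc1 y' hss g1.1 g1.2 ?_
    intro v hv hne
    have g2 := hmem v ((hV v).2 hv)
    rw [hG2 v hne] at g2
    exact g2

end Pool.Agent.SS.FM
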