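import Mathlib

/-!
# Module FM/PolyV (S-M)

The reductions of `c₄ ^ 3` and `Δ` are independent at all large places. PROOF. (0) For `x : 𝓞 K`, `x ≠ 0` and a place `v` above a prime `q > |N(x)|`: `x ∉ v`, because `x ∣ N(x)` in `𝓞 K` (see `FM/RedMem.lean`), so `N(x) ∈ v`, and an integer in `v` is divisible by `q` (otherwise `1 ∈ v` by Bezout), `q ≤ |N(x)|`. (1) `m₁` with `D.coeff m₁ ≠ 0`. `h` with
`a = D.coeff m₁`, `b = C.coeff m₁` gives `m₂` with `δ = D.coeff m₁ * C.coeff m₂ - C.coeff m₁ * D.coeff m₂ ≠ 0` (compare coefficients). `B = |N(D.coeff m₁)| + |N(δ)|`. For `v` above `q > B`: `D.coeff m₁ ∉ v`, so `D.map mk ≠ 0`; if `C.map mk = C y * D.map mk`, then modulo `v` `C.coeff m₁ = y D.coeff m₁`, `C.coeff m₂ = y D.coeff m₂`, so `δ = 0` modulo `v`.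
-/

set_option autoImplicit false

namespace Pool.Agent.SS.FM

open NumberField IsDedekindDomain

private theorem polyv_notMem {K : Type} [Field K] [NumberField K] {x : 𝓞 K} (hx : x ≠ 0)
    {q : ℕ} (hq : q.Prime) (hB : Ideal.absNorm (Ideal.span {x}) < q)
    (v : HeightOneSpectrum (𝓞 K)) (hv : (q : 𝓞 K) ∈ v.asIdeal) : x ∉ v.asIdeal := by
  intro hxv
  have hN : ((Ideal.absNorm (Ideal.span {x}) : ℕ) : 𝓞 K) ∈ v.asIdeal :=
    (Ideal.span_singleton_le_iff_mem _).2 hxv (Ideal.absNorm_mem _)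
  have hN0 : Ideal.absNorm (Ideal.span {x}) ≠ 0 := by
    rw [Ne, Ideal.absNorm_eq_zero_iff, Ideal.span_singleton_eq_bot]
    exact hx
  have hnd : ¬ q ∣ Ideal.absNorm (Ideal.span {x}) :=
    Nat.not_dvd_of_pos_of_lt (Nat.pos_of_ne_zero hN0) hB
  have hcop : Nat.Coprime q (Ideal.absNorm (Ideal.span {x})) := (Nat.Prime.coprime_iff_not_dvd hq).2 hnd
  obtain ⟨a, b, hab⟩ := Nat.isCoprime_iff_coprime.2 hcop
  have h1 : (1 : 𝓞 K) ∈ v.asIdeal := by
    have h2 := congrArg (Int.cast : ℤ → 𝓞 K) hab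
    push_cast at h2
    rw [← h2]
    exact Ideal.add_mem _ (Ideal.mul_mem_left _ _ hv) (Ideal.mul_mem_left _ _ hN)
  exact v.isPrime.ne_top ((Ideal.eq_top_iff_one _).2 h1)

theorem poly_v {K : Type} [Field K] [NumberField K] {n : ℕ} (C D : MvPolynomial (Fin n) (𝓞 K))
    (hD : D ≠ 0) (h : ∀ a b : 𝓞 K, a ≠ 0 → MvPolynomial.C a * C ≠ MvPolynomial.C b * D) :
    ∃ B : ℕ, ∀ q : ℕ, q.Prime → B < q → ∀ v : HeightOneSpectrum (𝓞 K), (q : 𝓞 K) ∈ v.asIdeal →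
      MvPolynomial.map (Ideal.Quotient.mk v.asIdeal) D ≠ 0 ∧
      ∀ y : 𝓞 K ⧸ v.asIdeal, MvPolynomial.map (Ideal.Quotient.mk v.asIdeal) C ≠
        MvPolynomial.C y * MvPolynomial.map (Ideal.Quotient.mk v.asIdeal) D := by
  obtain ⟨m₁, h1⟩ := MvPolynomial.ne_zero_iff.1 hD
  have h2 := h (D.coeff m₁) (C.coeff m₁) h1
  obtain ⟨m₂, h3⟩ : ∃ m₂, D.coeff m₁ * C.coeff m₂ ≠ C.coeff m₁ * D.coeff m₂ := by
    by_contra hcon
    push Not at hcon
    apply h2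
    ext m
    rw [MvPolynomial.coeff_C_mul, MvPolynomial.coeff_C_mul, hcon m]
  have h4 : D.coeff m₁ * C.coeff m₂ - C.coeff m₁ * D.coeff m₂ ≠ 0 := sub_ne_zero.2 h3
  refine ⟨Ideal.absNorm (Ideal.span {D.coeff m₁}) +
    Ideal.absNorm (Ideal.span {D.coeff m₁ * C.coeff m₂ - C.coeff m₁ * D.coeff m₂}), ?_⟩
  intro q hq hB v hv
  have n1 := polyv_notMem h1 hq (by omega) v hv
  have n2 := polyv_notMem h4 hq (by omega) v hv
  refine ⟨?_, ?_⟩
  · intro h0
    have h5 := congrArg (MvPolynomial.coeff m₁) h0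
    rw [MvPolynomial.coeff_map, MvPolynomial.coeff_zero, Ideal.Quotient.eq_zero_iff_mem] at h5
    exact n1 h5
  · intro y hy
    have hc : ∀ m, Ideal.Quotient.mk v.asIdeal (C.coeff m) =
        y * Ideal.Quotient.mk v.asIdeal (D.coeff m) := by
      intro m
      have h5 := congrArg (MvPolynomial.coeff m) hy
      rwa [MvPolynomial.coeff_map, MvPolynomial.coeff_C_mul, MvPolynomial.coeff_map] at h5
    apply n2
    rw [← Ideal.Quotient.eq_zero_iff_mem, map_sub, map_mul, map_mul, hc m₁, hc m₂]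
    ring

end Pool.Agent.SS.FM
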