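import Mathlib

/-!
# Module FM/SZ (S)

Schwartz-Zippel for the whole space. PROOF. `Fintype k`. `MvPolynomial.schwartz_zippel_totalDegree` with `S = Finset.univ`: the number of zeros divided by `#k ^ n` is at most `totalDegree / #k`; multiply out (`Nat.card = Fintype.card`, `Set.ncard` of the set of
zeros = card of the filter, `Fintype.piFinset_univ`).
-/

set_option autoImplicit false

namespace Pool.Agent.SS.FM

open NumberField IsDedekindDomain

theorem sz {k : Type} [Field k] [Finite k] {n : ℕ} (F : MvPolynomial (Fin n) k) (hF : F ≠ 0) :
    Nat.card k * {s : Fin n → k | MvPolynomial.eval s F = 0}.ncard ≤ F.totalDegree * Nat.card k ^ n := by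
  classical
  have := Fintype.ofFinite k
  have h := MvPolynomial.schwartz_zippel_totalDegree hF (Finset.univ : Finset k)
  rw [Fintype.piFinset_univ, Finset.card_univ] at h
  have h1 : {s : Fin n → k | MvPolynomial.eval s F = 0}.ncard =
      (Finset.univ.filter fun s : Fin n → k => MvPolynomial.eval s F = 0).card := by
    rw [← Set.ncard_coe_finset]
    congr 1
    ext s
    simp
  have hc : 0 < Fintype.card k := Fintype.card_pos
  rw [h1, Nat.card_eq_fintype_card]
  rw [div_le_div_iff₀ (by positivity) (by positivity)] at h
  rw [mul_comm (Fintype.card k)]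
  exact_mod_cast h

end Pool.Agent.SS.FM
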