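import Mathlib

/-!
# Module FM/Cnt1 (S-M)

Square roots of `-q` modulo `v`. PROOF. If the set `U` is empty, clear; fix `u₀ ∈ U`. `gcd(u₀, v) = 1`: a common prime `p` divides `q`, so `p = q ≤ v`, false. For `u ∈ U` let `d = gcd(u - u₀, v)` (`Int.gcd`, a divisor of `v`; `d = v` if `u = u₀`). `v ∣ (u - u₀)(u + u₀)`, `(u - u₀)/d` is prime to `v/d`, so `v/d ∣ u + u₀`. If `u, u' ∈ U` have the
same `d`, then `d ∣ u - u'` and `v/d ∣ u - u'`, so `lcm(d, v/d) = v / g ∣ u - u'`, `g = gcd(d, v/d)`; `g` divides `u - u₀`, `u + u₀`, so `2 u₀`, so `g ∣ 2` (`g ∣ v`, `gcd(u₀, v) = 1`). So `v ∣ 2 (u - u')`. The integers `u` with `2 |u| ≤ v` in one class modulo `v / g`, `g ∈ {1, 2}`: `2 (u - u') ∈ {0, ± v, ± 2 v}`-type bound: they all differ by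
multiples of `v / g` and lie in an interval of length `v`, so there are at most `g + 1 ≤ 3` of them. Hence `U.ncard ≤ 3 * (number of the divisors d)` (e.g. `Finset.card_le_mul_card_image` for the map `u ↦ d`).
-/

set_option autoImplicit false

namespace Pool.Agent.SS.FM

open NumberField IsDedekindDomain

private theorem key_dvd {q v : ℕ} (hq : q.Prime) (hv : 0 < v) (hvq : v < q) {u₀ u u' : ℤ}
    (h0 : (v : ℤ) ∣ u₀ ^ 2 + q) (h1 : (v : ℤ) ∣ u ^ 2 + q) (h2 : (v : ℤ) ∣ u' ^ 2 + q)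
    (hg : Int.gcd (u - u₀) v = Int.gcd (u' - u₀) v) : (v : ℤ) ∣ 2 * (u - u') := by
  obtain ⟨d, hd⟩ : ∃ d : ℤ, d = (Int.gcd (u - u₀) v : ℤ) := ⟨_, rfl⟩
  have hd' : d = (Int.gcd (u' - u₀) v : ℤ) := by rw [hd, hg]
  have hdu : d ∣ u - u₀ := hd ▸ Int.gcd_dvd_left _ _
  have hdu' : d ∣ u' - u₀ := hd' ▸ Int.gcd_dvd_left _ _
  have hdv : d ∣ (v : ℤ) := hd ▸ Int.gcd_dvd_right _ _
  obtain ⟨e, he⟩ := hdv
  have hv0 : (v : ℤ) ≠ 0 := by exact_mod_cast hv.ne'
  have hd0 : d ≠ 0 := by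
    intro h
    rw [h, zero_mul] at he
    exact hv0 he
  -- `v ∣ d * (u + u₀)`
  have aux : ∀ x : ℤ, (v : ℤ) ∣ x ^ 2 + q → d = (Int.gcd (x - u₀) v : ℤ) → e ∣ x + u₀ := by
    intro x hx hdx
    have e1 : (v : ℤ) ∣ (x - u₀) * (x + u₀) := by
      have := dvd_sub hx h0
      have e2 : x ^ 2 + (q : ℤ) - (u₀ ^ 2 + q) = (x - u₀) * (x + u₀) := by ring
      rwa [e2] at this
    have e3 : (v : ℤ) ∣ d * (x + u₀) := by
      rw [hdx, Int.gcd_eq_gcd_ab]
      have e4 : ((x - u₀) * Int.gcdA (x - u₀) v + v * Int.gcdB (x - u₀) v) * (x + u₀) =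
          (x - u₀) * (x + u₀) * Int.gcdA (x - u₀) v + v * (Int.gcdB (x - u₀) v * (x + u₀)) := by ring
      rw [e4]
      exact dvd_add (e1.mul_right _) (dvd_mul_right _ _)
    rw [he] at e3
    exact (mul_dvd_mul_iff_left hd0).1 e3
  have hsu : e ∣ u + u₀ := aux u h1 hd
  have hsu' : e ∣ u' + u₀ := aux u' h2 hd'
  have hw1 : d ∣ u - u' := by
    have := dvd_sub hdu hdu'
    have e2 : u - u₀ - (u' - u₀) = u - u' := by ring
    rwa [e2] at this
  have hw2 : e ∣ u - u' := by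
    have := dvd_sub hsu hsu'
    have e2 : u + u₀ - (u' + u₀) = u - u' := by ring
    rwa [e2] at this
  -- `u₀` is prime to `v`
  have hcop : IsCoprime u₀ (v : ℤ) := by
    rw [Int.isCoprime_iff_gcd_eq_one]
    have c1 : (Int.gcd u₀ v : ℤ) ∣ (q : ℤ) := by
      have a1 : (Int.gcd u₀ v : ℤ) ∣ u₀ ^ 2 + q := (Int.gcd_dvd_right _ _).trans h0
      have a2 : (Int.gcd u₀ v : ℤ) ∣ u₀ ^ 2 := (Int.gcd_dvd_left _ _).trans (dvd_pow_self _ two_ne_zero)
      exact (dvd_add_right a2).1 a1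
    have c2 : Int.gcd u₀ v ∣ q := by exact_mod_cast c1
    rcases (Nat.dvd_prime hq).1 c2 with c3 | c3
    · exact c3
    · exfalso
      have c4 : Int.gcd u₀ v ∣ v := by exact_mod_cast Int.gcd_dvd_right u₀ (v : ℤ)
      rw [c3] at c4
      exact absurd (Nat.le_of_dvd hv c4) (not_le.2 hvq)
  -- the gcd of `d` and `e` divides 2
  have hg2 : (Int.gcd d e : ℤ) ∣ 2 := by
    have a1 : (Int.gcd d e : ℤ) ∣ 2 * u₀ := by
      have a2 : (Int.gcd d e : ℤ) ∣ u - u₀ := (Int.gcd_dvd_left _ _).trans hdu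
      have a3 : (Int.gcd d e : ℤ) ∣ u + u₀ := (Int.gcd_dvd_right _ _).trans hsu
      have := dvd_sub a3 a2
      have e2 : u + u₀ - (u - u₀) = 2 * u₀ := by ring
      rwa [e2] at this
    have a4 : (Int.gcd d e : ℤ) ∣ (v : ℤ) := by
      rw [he]
      exact (Int.gcd_dvd_left _ _).trans (dvd_mul_right _ _)
    have a5 : IsCoprime (Int.gcd d e : ℤ) u₀ := (hcop.of_isCoprime_of_dvd_right a4).symm
    exact a5.dvd_of_dvd_mul_right a1
  have hfin : (v : ℤ) ∣ (Int.gcd d e : ℤ) * (u - u') := by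
    rw [Int.gcd_eq_gcd_ab, he]
    have e4 : (d * Int.gcdA d e + e * Int.gcdB d e) * (u - u') =
        d * (u - u') * Int.gcdA d e + e * (u - u') * Int.gcdB d e := by ring
    rw [e4]
    refine dvd_add (Dvd.dvd.mul_right (mul_dvd_mul_left d hw2) _) (Dvd.dvd.mul_right ?_ _)
    rw [mul_comm d e]
    exact mul_dvd_mul_left e hw1
  exact hfin.trans (mul_dvd_mul_right hg2 _)

theorem roots_count {q v : ℕ} (hq : q.Prime) (hv : 0 < v) (hvq : v < q) :
    {u : ℤ | 2 * |u| ≤ v ∧ (v : ℤ) ∣ u ^ 2 + q}.Finite ∧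
      {u : ℤ | 2 * |u| ≤ v ∧ (v : ℤ) ∣ u ^ 2 + q}.ncard ≤ 3 * v.divisors.card := by
  set U := {u : ℤ | 2 * |u| ≤ v ∧ (v : ℤ) ∣ u ^ 2 + q} with hU
  have hbd : ∀ u ∈ U, -(v : ℤ) ≤ 2 * u ∧ 2 * u ≤ v := by
    intro u hu
    have h1 : 2 * |u| ≤ (v : ℤ) := hu.1
    have h2 := le_abs_self u
    have h3 := neg_abs_le u
    constructor <;> linarith
  have hfin : U.Finite := by
    refine (Set.finite_Icc (-(v : ℤ)) v).subset fun u hu => ?_
    have h1 := hbd u hu
    have h2 : (0 : ℤ) < v := by exact_mod_cast hv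
    exact ⟨by omega, by omega⟩
  refine ⟨hfin, ?_⟩
  rcases U.eq_empty_or_nonempty with h | ⟨u₀, hu₀⟩
  · rw [h]
    simp
  classical
  rw [Set.ncard_eq_toFinset_card U hfin]
  refine Finset.card_le_mul_card_image_of_maps_to (f := fun u : ℤ => Int.gcd (u - u₀) v) ?_ 3 ?_
  · intro u hu
    rw [Nat.mem_divisors]
    exact ⟨by exact_mod_cast Int.gcd_dvd_right (u - u₀) (v : ℤ), hv.ne'⟩
  · intro d _
    set F := hfin.toFinset.filter (fun u : ℤ => Int.gcd (u - u₀) v = d) with hF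
    rcases F.eq_empty_or_nonempty with h | hne
    · rw [h]
      simp
    have hmF : ∀ u ∈ F, u ∈ U ∧ Int.gcd (u - u₀) v = d := by
      intro u hu
      rw [hF, Finset.mem_filter, Set.Finite.mem_toFinset] at hu
      exact hu
    obtain ⟨m, hm⟩ : ∃ m, m = F.min' hne := ⟨_, rfl⟩
    have hm1 : m ∈ F := hm ▸ F.min'_mem hne
    have hsub : F ⊆ {m, m + (v : ℤ) / 2, m + v} := by
      intro u hu
      have hle : m ≤ u := hm ▸ F.min'_le u hu
      obtain ⟨a1, a2⟩ := hmF u hu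
      obtain ⟨b1, b2⟩ := hmF m hm1
      obtain ⟨k, hk⟩ := key_dvd hq hv hvq hu₀.2 a1.2 b1.2 (a2.trans b2.symm)
      have c1 := hbd u a1
      have c2 := hbd m b1
      have hv0 : (0 : ℤ) < v := by exact_mod_cast hv
      have k0 : 0 ≤ k := by
        by_contra hcon
        have : k ≤ -1 := by omega
        nlinarith
      have k2 : k ≤ 2 := by
        by_contra hcon
        have : 3 ≤ k := by omega
        nlinarith
      simp only [Finset.mem_insert, Finset.mem_singleton]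
      have k3 : k = 0 ∨ k = 1 ∨ k = 2 := by omega
      rcases k3 with rfl | rfl | rfl
      · left
        omega
      · right; left
        omega
      · right; right
        omega
    exact (Finset.card_le_card hsub).trans Finset.card_le_three

end Pool.Agent.SS.FM
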