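import Mathlib

/-!
# Module FM/Dv (S)

The number of divisors. PROOF. `v = 0`: `divisors 0 = ∅`. Otherwise with `r = Nat.sqrt v`: every divisor `d` has `d ≤ r` or `v / d ≤ r` (else `v = d (v/d) ≥ (r+1)^2 > v`), so `divisors v ⊆ (Icc 1 r) ∪ image (fun e => v / e) (Icc 1 r)`, at most `2 r` elements, and `r ≤ √v`.
-/

set_option autoImplicit false

namespace Pool.Agent.SS.FM

open NumberField IsDedekindDomain

theorem card_div (v : ℕ) : (v.divisors.card : ℝ) ≤ 2 * Real.sqrt v := by
  rcases Nat.eq_zero_or_pos v with h | hv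
  · subst h
    simp
  have h1 : v.divisors ⊆ (Finset.Icc 1 (Nat.sqrt v)) ∪
      (Finset.Icc 1 (Nat.sqrt v)).image (fun e => v / e) := by
    intro d hd
    rw [Nat.mem_divisors] at hd
    obtain ⟨⟨e, he⟩, -⟩ := hd
    have hd0 : 0 < d := by
      rcases Nat.eq_zero_or_pos d with h | h
      · rw [h, zero_mul] at he
        omega
      · exact h
    have he0 : 0 < e := by
      rcases Nat.eq_zero_or_pos e with h | h
      · rw [h, mul_zero] at he
        omega
      · exact h
    rw [Finset.mem_union]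
    by_cases hd1 : d ≤ Nat.sqrt v
    · exact Or.inl (Finset.mem_Icc.2 ⟨hd0, hd1⟩)
    · right
      rw [Finset.mem_image]
      refine ⟨e, Finset.mem_Icc.2 ⟨he0, ?_⟩, ?_⟩
      · by_contra h2
        have h3 : Nat.sqrt v + 1 ≤ d := by omega
        have h4 : Nat.sqrt v + 1 ≤ e := by omega
        have h5 : (Nat.sqrt v + 1) * (Nat.sqrt v + 1) ≤ d * e := Nat.mul_le_mul h3 h4
        have h7 : v < (Nat.sqrt v + 1) * (Nat.sqrt v + 1) := Nat.lt_succ_sqrt v
        omega
      · rw [he]
        exact Nat.mul_div_cancel _ he0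
  have h2 : v.divisors.card ≤ Nat.sqrt v + Nat.sqrt v := by
    refine (Finset.card_le_card h1).trans ((Finset.card_union_le _ _).trans ?_)
    refine Nat.add_le_add ?_ ?_
    · rw [Nat.card_Icc]
      omega
    · refine Finset.card_image_le.trans ?_
      rw [Nat.card_Icc]
      omega
  have h3 : ((Nat.sqrt v : ℕ) : ℝ) ≤ Real.sqrt v := Real.nat_sqrt_le_real_sqrt
  have h4 : (v.divisors.card : ℝ) ≤ ((Nat.sqrt v + Nat.sqrt v : ℕ) : ℝ) := by exact_mod_cast h2
  push_cast at h4
  linarith

end Pool.Agent.SS.FM
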