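import Mathlib
import Pool.Agent.Work.MP_a5099b_nt.FM.Cnt1
import Pool.Agent.Work.MP_a5099b_nt.FM.Dv

/-!
# Module FM/Cnt2 (M)

Few reduced pairs. PROOF. Let `q ≥ 16` be prime, `T` the set. For `(u, v) ∈ T`: `v ≤ V := Nat.sqrt (2 q)` (as `3 v ^ 2 ≤ 4 q`), `V < q`. So `T ⊆ ⋃ v ∈ Icc 1 V, (image of {u | 2 |u| ≤ v, v ∣ u ^ 2 + q})`, finite and `ncard ≤ ∑ v ∈ Icc 1 V, 3 * d(v) ≤ ∑ 6 √v ≤ 6 V √V` (`roots_count`, `card_div`). `V ≤ √(2 q) ≤ 2 √q`, so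
`6 V √V ≤ 6 * 2 √q * √2 * q ^ (1/4) ≤ 18 q ^ (3/4) ≤ ε q` for `q ≥ (18/ε) ^ 4`. (Without powers: `V √V ≤ (2 √q) √(2 √q)` and `√(2 √q) ≤ (ε / 12) √q` for `√q ≥ 288 / ε ^ 2`.)
-/

set_option autoImplicit false

namespace Pool.Agent.SS.FM

open NumberField IsDedekindDomain

theorem pairs_few (ε : ℝ) (hε : 0 < ε) : ∃ B : ℕ, ∀ q : ℕ, q.Prime → B < q →
    {P : ℤ × ℤ | 0 < P.2 ∧ 3 * P.2 ^ 2 ≤ 4 * q ∧ 2 * |P.1| ≤ P.2 ∧ P.2 ∣ P.1 ^ 2 + q}.Finite ∧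
    ({P : ℤ × ℤ | 0 < P.2 ∧ 3 * P.2 ^ 2 ≤ 4 * q ∧ 2 * |P.1| ≤ P.2 ∧
      P.2 ∣ P.1 ^ 2 + q}.ncard : ℝ) ≤ ε * q := by
  refine ⟨max 16 (Nat.ceil ((288 / ε ^ 2) ^ 2)), fun q hq hB => ?_⟩
  have hq16 : 16 < q := lt_of_le_of_lt (le_max_left _ _) hB
  have hqc : (288 / ε ^ 2) ^ 2 ≤ (q : ℝ) := by
    have h1 : Nat.ceil ((288 / ε ^ 2) ^ 2) < q := lt_of_le_of_lt (le_max_right _ _) hB
    have h2 := Nat.le_ceil ((288 / ε ^ 2) ^ 2)
    have h3 : ((Nat.ceil ((288 / ε ^ 2) ^ 2) : ℕ) : ℝ) ≤ q := by exact_mod_cast h1.le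
    linarith
  set V := Nat.sqrt (2 * q) with hV
  have hVV : V * V ≤ 2 * q := Nat.sqrt_le (2 * q)
  have hVq : V < q := by nlinarith
  classical
  have hfinU : ∀ v : ℕ, v ∈ Finset.Icc 1 V →
      {u : ℤ | 2 * |u| ≤ v ∧ (v : ℤ) ∣ u ^ 2 + q}.Finite := by
    intro v hv
    rw [Finset.mem_Icc] at hv
    exact (roots_count hq (by omega) (by omega)).1
  let G : ℕ → Finset (ℤ × ℤ) := fun v =>
    if h : v ∈ Finset.Icc 1 V then (hfinU v h).toFinset.image (fun u => (u, (v : ℤ))) else ∅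
  have hG : ∀ v ∈ Finset.Icc 1 V, ((G v).card : ℝ) ≤ 6 * Real.sqrt V := by
    intro v hv
    have h1 : G v = (hfinU v hv).toFinset.image (fun u => (u, (v : ℤ))) := dif_pos hv
    have h2 : (G v).card ≤ 3 * v.divisors.card := by
      rw [h1]
      refine Finset.card_image_le.trans ?_
      rw [← Set.ncard_eq_toFinset_card _ (hfinU v hv)]
      rw [Finset.mem_Icc] at hv
      exact (roots_count hq (by omega) (by omega)).2
    have h3 := card_div v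
    have h4 : Real.sqrt v ≤ Real.sqrt V := by
      rw [Finset.mem_Icc] at hv
      exact Real.sqrt_le_sqrt (by exact_mod_cast hv.2)
    have h5 : ((G v).card : ℝ) ≤ 3 * v.divisors.card := by exact_mod_cast h2
    linarith
  have hsub : {P : ℤ × ℤ | 0 < P.2 ∧ 3 * P.2 ^ 2 ≤ 4 * q ∧ 2 * |P.1| ≤ P.2 ∧ P.2 ∣ P.1 ^ 2 + q} ⊆
      ((Finset.Icc 1 V).biUnion G : Set (ℤ × ℤ)) := by
    rintro ⟨u, v⟩ ⟨h1, h2, h3, h4⟩
    simp only at h1 h2 h3 h4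
    obtain ⟨w, rfl⟩ := Int.eq_ofNat_of_zero_le h1.le
    have hw1 : 0 < w := by exact_mod_cast h1
    have hw2 : 3 * w ^ 2 ≤ 4 * q := by exact_mod_cast h2
    have hwV : w ≤ V := by
      rw [hV, Nat.le_sqrt]
      nlinarith
    have hmem : w ∈ Finset.Icc 1 V := Finset.mem_Icc.2 ⟨hw1, hwV⟩
    rw [Finset.mem_coe, Finset.mem_biUnion]
    refine ⟨w, hmem, ?_⟩
    have h5 : G w = (hfinU w hmem).toFinset.image (fun u => (u, (w : ℤ))) := dif_pos hmem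
    rw [h5, Finset.mem_image]
    refine ⟨u, ?_, rfl⟩
    rw [Set.Finite.mem_toFinset]
    exact ⟨h3, h4⟩
  refine ⟨(Finset.finite_toSet _).subset hsub, ?_⟩
  have hcard : ({P : ℤ × ℤ | 0 < P.2 ∧ 3 * P.2 ^ 2 ≤ 4 * q ∧ 2 * |P.1| ≤ P.2 ∧
      P.2 ∣ P.1 ^ 2 + q}.ncard : ℝ) ≤ V * (6 * Real.sqrt V) := by
    have h1 := Set.ncard_le_ncard hsub (Finset.finite_toSet _)
    rw [Set.ncard_coe_finset] at h1
    have h2 : ((Finset.Icc 1 V).biUnion G).card ≤ ∑ v ∈ Finset.Icc 1 V, (G v).card :=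
      Finset.card_biUnion_le
    have h3 : ((∑ v ∈ Finset.Icc 1 V, (G v).card : ℕ) : ℝ) ≤ V * (6 * Real.sqrt V) := by
      push_cast
      have h4 := Finset.sum_le_card_nsmul (Finset.Icc 1 V) (fun v => ((G v).card : ℝ))
        (6 * Real.sqrt V) hG
      rw [Nat.card_Icc, nsmul_eq_mul] at h4
      simpa using h4
    have h5 : (({P : ℤ × ℤ | 0 < P.2 ∧ 3 * P.2 ^ 2 ≤ 4 * q ∧ 2 * |P.1| ≤ P.2 ∧
      P.2 ∣ P.1 ^ 2 + q}.ncard : ℕ) : ℝ) ≤ ((∑ v ∈ Finset.Icc 1 V, (G v).card : ℕ) : ℝ) := by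
      exact_mod_cast h1.trans h2
    exact h5.trans h3
  refine hcard.trans ?_
  set s := Real.sqrt q with hs
  have hs0 : 0 ≤ s := Real.sqrt_nonneg _
  have hss : s * s = q := Real.mul_self_sqrt (Nat.cast_nonneg q)
  have hs288 : 288 / ε ^ 2 ≤ s := by
    rw [hs]
    apply Real.le_sqrt_of_sq_le
    exact hqc
  have hVs : (V : ℝ) ≤ 2 * s := by
    have h1 : (V : ℝ) * V ≤ 2 * q := by exact_mod_cast hVV
    have h2 : (V : ℝ) * V ≤ (2 * s) * (2 * s) := by nlinarith [Nat.cast_nonneg (α := ℝ) q]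
    exact abs_le_of_sq_le_sq' (by nlinarith) (by positivity) |>.2
  have hrt : Real.sqrt V ≤ ε / 12 * s := by
    rw [Real.sqrt_le_left (by positivity)]
    have h1 : 288 ≤ s * ε ^ 2 := by
      rwa [div_le_iff₀ (by positivity)] at hs288
    have h2 : 2 * s ≤ (ε / 12 * s) ^ 2 := by
      have h3 : (ε / 12 * s) ^ 2 = s * (s * ε ^ 2) / 144 := by ring
      rw [h3]
      have h4 : s * 288 ≤ s * (s * ε ^ 2) := mul_le_mul_of_nonneg_left h1 hs0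
      linarith
    exact hVs.trans h2
  calc (V : ℝ) * (6 * Real.sqrt V) ≤ (2 * s) * (6 * (ε / 12 * s)) := by
        apply mul_le_mul hVs _ (by positivity) (by positivity)
        linarith
    _ = ε * (s * s) := by ring
    _ = ε * q := by rw [hss]

end Pool.Agent.SS.FM
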