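import Mathlib
import Pool.Agent.Work.MP_a5099b_nt.Defs
import Pool.Agent.Work.MP_a5099b_nt.A.Lat
import Pool.Agent.Work.MP_a5099b_nt.H.HDefs
import Pool.Agent.Work.MP_a5099b_nt.H.PSup

/-!
# Module FM/CntL (M)

Reduced form of a lattice with multiplication by `√(-q)`. PROOF. `L = m • tauLat τ₀` (`A/Lat` or `Work/CM`: every lattice is homothetic to some `tauLat`); `ModularGroup.exists_smul_mem_fd τ₀` gives `γ : SL(2, ℤ)` with `τ = γ • τ₀ ∈ 𝒟` (`|τ.re| ≤ 1/2`, `1 ≤ normSq τ`), and `tauLat τ` is homothetic to `tauLat τ₀` (search `A/Lat.lean`, `Work/CM`: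
`(c τ₀ + d) • tauLat τ = tauLat τ₀`). So `jL L = jL (tauLat τ)` (`jL_smul`) and `HasSq q (tauLat τ)` (`HB.isMul_smul_iff`). `3 ≤ 4 τ.im ^ 2`. `sq q * 1 = v τ + u` with integers `u, v` (`Submodule.mem_span_pair`); imaginary parts: `√q = v τ.im`, so `v > 0`, and real parts `0 = v τ.re + u`, so `|u| = v |τ.re| ≤ v / 2`. `v ^ 2 τ.im ^ 2 = q`, so `3 v ^ 2 ≤ 4 q`.
`sq q * τ = x τ + w`; multiply by `v`: `sq q (sq q - u) = x (sq q - u) + w v`, i.e. `-q - u sq q = x sq q - x u + w v`; imaginary parts: `x = -u`; real parts: `-q = u ^ 2 + w v`, so `v ∣ u ^ 2 + q`.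
-/

set_option autoImplicit false

namespace Pool.Agent.SS.FM

open UpperHalfPlane Polynomial
open Pool.Agent.Work.CM (IsLat g2 g3 tauLat)
open scoped Pointwise MatrixGroups

theorem jL_pair {q : ℕ} (hq : 0 < q) {L : Submodule ℤ ℂ} (hL : IsLat L) (hs : HasSq q L) :
    ∃ u v : ℤ, 0 < v ∧ 3 * v ^ 2 ≤ 4 * q ∧ 2 * |u| ≤ v ∧ v ∣ u ^ 2 + q ∧
      ∃ τ : ℍ, (τ : ℂ) = (sq q - u) / v ∧ jL L = jL (tauLat τ) := by
  obtain ⟨m, hm, τ₀, rfl⟩ := exists_tau hL
  obtain ⟨γ, hγ⟩ := ModularGroup.exists_smul_mem_fd τ₀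
  have hd : UpperHalfPlane.denom γ τ₀ ≠ 0 := UpperHalfPlane.denom_ne_zero _ _
  have ht := tauLat_smul γ τ₀
  set τ : ℍ := γ • τ₀ with hτ
  rw [← ht, smul_smul]
  have hmd : m * UpperHalfPlane.denom γ τ₀ ≠ 0 := mul_ne_zero hm hd
  have hj : jL ((m * UpperHalfPlane.denom γ τ₀) • tauLat τ) = jL (tauLat τ) :=
    jL_smul (Pool.Agent.Work.CM.tauLat_isLat τ) hmd
  have hs' : HasSq q (tauLat τ) := by
    rw [← ht, smul_smul] at hs
    exact (HB.isMul_smul_iff hmd).1 hs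
  have him : 0 < τ.im := τ.im_pos
  have h3 := ModularGroup.three_le_four_mul_im_sq_of_mem_fd hγ
  have h4 : |τ.re| ≤ 1 / 2 := hγ.2
  have h1m : (1 : ℂ) ∈ tauLat τ := Submodule.subset_span (Or.inr rfl)
  have hτm : (τ : ℂ) ∈ tauLat τ := Submodule.subset_span (Or.inl rfl)
  obtain ⟨v, u, hvu⟩ := Submodule.mem_span_pair.1 (hs' 1 h1m)
  obtain ⟨x, w, hxw⟩ := Submodule.mem_span_pair.1 (hs' τ hτm)
  simp only [zsmul_eq_mul, mul_one] at hvu hxw
  -- real and imaginary parts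
  have r1 : (v : ℝ) * τ.re + u = 0 := by
    have := congrArg Complex.re hvu
    simpa [HB.sq_re] using this
  have i1 : (v : ℝ) * τ.im = Real.sqrt q := by
    have := congrArg Complex.im hvu
    simpa [HB.sq_im] using this
  have hq' : (0 : ℝ) < q := by exact_mod_cast hq
  have hsq : 0 < Real.sqrt q := Real.sqrt_pos.2 hq'
  have hv : 0 < v := by
    have h5 : (0 : ℝ) < (v : ℝ) * τ.im := by rw [i1]; exact hsq
    have h6 : (0 : ℝ) < v := pos_of_mul_pos_left h5 him.le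
    exact_mod_cast h6
  have hv' : (0 : ℝ) < v := by exact_mod_cast hv
  have hsqq : Real.sqrt q * Real.sqrt q = q := Real.mul_self_sqrt hq'.le
  have i2 : (v : ℝ) ^ 2 * τ.im ^ 2 = q := by
    rw [← hsqq, ← i1]
    ring
  have hb : 3 * v ^ 2 ≤ 4 * (q : ℤ) := by
    have h5 : 3 * (v : ℝ) ^ 2 ≤ 4 * q := by
      have h6 : (v : ℝ) ^ 2 * 3 ≤ (v : ℝ) ^ 2 * (4 * τ.im ^ 2) :=
        mul_le_mul_of_nonneg_left h3 (by positivity)
      nlinarith
    exact_mod_cast h5
  have hu : 2 * |u| ≤ v := by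
    have h5 : (u : ℝ) = -(v * τ.re) := by linarith
    have h6 : |(u : ℝ)| = v * |τ.re| := by
      rw [h5, abs_neg, abs_mul, abs_of_pos hv']
    have h7 : 2 * |(u : ℝ)| ≤ v := by
      rw [h6]
      have := mul_le_mul_of_nonneg_left h4 hv'.le
      linarith
    exact_mod_cast h7
  have hvc : (v : ℂ) ≠ 0 := by
    exact_mod_cast hv.ne'
  have hτe : (τ : ℂ) = (sq q - u) / v := by
    rw [eq_div_iff hvc]
    linear_combination hvu
  have hss : sq q * sq q = -(q : ℂ) := HB.sq_mul_self q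
  -- `-q - u sq q = x sq q - x u + w v`
  have he : -(q : ℂ) - u * sq q = x * sq q - x * u + w * v := by
    have h5 : sq q * (τ * v) = x * (τ * v) + w * v := by
      linear_combination (-(v : ℂ)) * hxw
    have h6 : (τ : ℂ) * v = sq q - u := by
      rw [hτe]
      field_simp
    rw [h6] at h5
    linear_combination h5 - hss
  have i3 : (x : ℝ) = -u := by
    have h5 := congrArg Complex.im he
    simp only [Complex.sub_im, Complex.neg_im, Complex.natCast_im, Complex.mul_im,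
      Complex.intCast_re, Complex.intCast_im, Complex.add_im, HB.sq_im, HB.sq_re] at h5
    have h6 : ((x : ℝ) + u) * Real.sqrt q = 0 := by linarith
    rcases mul_eq_zero.1 h6 with h7 | h7
    · linarith
    · exact absurd h7 hsq.ne'
  have r3 : -(q : ℝ) = -(x * u) + w * v := by
    have h5 := congrArg Complex.re he
    simp only [Complex.sub_re, Complex.neg_re, Complex.natCast_re, Complex.mul_re,
      Complex.intCast_re, Complex.intCast_im, Complex.add_re, HB.sq_im, HB.sq_re] at h5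
    linarith
  have hdvd : v ∣ u ^ 2 + q := by
    refine ⟨-w, ?_⟩
    have h5 : ((u : ℝ) ^ 2 + q) = v * (-w) := by
      rw [i3] at r3
      linarith
    exact_mod_cast h5
  exact ⟨u, v, hv, hb, hu, hdvd, τ, hτe, hj⟩

end Pool.Agent.SS.FM
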