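import Mathlib
import Pool.Agent.Work.MP_a5099b_nt.H.Pair
import Pool.Agent.Work.MP_a5099b_nt.H.Place
import Pool.Agent.Work.MP_a5099b_nt.FM.Cnt2
import Pool.Agent.Work.MP_a5099b_nt.FM.CntL

/-!
# Module FM/SsFew (S-M)

Few supersingular invariants in the prime field. PROOF. `B = max B₁ (⌈4/ε⌉ + 5)`, `B₁` from `pairs_few (ε / 2)`. Let `q > B` be prime. `HB.exists_place` (`H/Place.lean`) gives `k`, `CharP k q`, `red : integralClosure ℤ ℂ →+* k`. For `y : ZMod q` supersingular, `y ≠ 0, 1728`: `HB.exists_pairAt` (`H/Pair.lean`) gives `L` with `IsLat L`, `HasSq q L`,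
`HB.RedTo red (jL L) (ZMod.castHom _ k y)`; `jL_pair` gives `(u, v) ∈ T` (the set of `pairs_few`). The map `y ↦ (u, v)` is injective: the same `(u, v)` gives the same `τ` (`UpperHalfPlane.ext`), the same `jL`, so the same `castHom y` (`RedTo` is functional: the proof of membership is irrelevant), and `castHom` is injective. So
`#ss ≤ 2 + #T ≤ 2 + (ε / 2) q ≤ ε q`.
-/

set_option autoImplicit false

namespace Pool.Agent.SS.FM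

open NumberField IsDedekindDomain

theorem ss_few (ε : ℝ) (hε : 0 < ε) : ∃ B : ℕ, ∀ (q : ℕ) [Fact q.Prime], B < q →
    ({y : ZMod q | SSj q y}.ncard : ℝ) ≤ ε * q := by
  obtain ⟨B₁, hB₁⟩ := pairs_few (ε / 2) (by positivity)
  refine ⟨max B₁ (⌈4 / ε⌉₊ + 5), ?_⟩
  intro q hq hBq
  have hq1 : B₁ < q := (le_max_left _ _).trans_lt hBq
  have hq2 : ⌈4 / ε⌉₊ + 5 < q := (le_max_right _ _).trans_lt hBq
  obtain ⟨hTfin, hTcard⟩ := hB₁ q hq.out hq1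
  obtain ⟨k, hkF, hkC, ⟨red⟩⟩ := HB.exists_place hq.out
  have key : ∀ y : ZMod q, (SSj q y ∧ y ≠ 0 ∧ y ≠ 1728) → ∃ P : ℤ × ℤ,
      P ∈ {P : ℤ × ℤ | 0 < P.2 ∧ 3 * P.2 ^ 2 ≤ 4 * (q : ℤ) ∧ 2 * |P.1| ≤ P.2 ∧
        P.2 ∣ P.1 ^ 2 + q} ∧
      ∃ τ : UpperHalfPlane, (τ : ℂ) = (sq q - P.1) / P.2 ∧
        HB.RedTo red (jL (Pool.Agent.Work.CM.tauLat τ)) (ZMod.castHom (dvd_refl q) k y) := by
    rintro y ⟨hy, h0, h1⟩
    obtain ⟨L, M, P⟩ := HB.exists_pairAt (by omega) red y hy h0 h1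
    obtain ⟨u, v, h2, h3, h4, h5, τ, h6, h7⟩ := jL_pair hq.out.pos P.latL P.sqL
    refine ⟨(u, v), ⟨h2, h3, h4, h5⟩, τ, h6, ?_⟩
    rw [← h7]
    exact P.redL
  choose! f hf1 hf2 using key
  have hinj : Set.InjOn f {y : ZMod q | SSj q y ∧ y ≠ 0 ∧ y ≠ 1728} := by
    intro y hy y' hy' he
    obtain ⟨τ, h1, h2, h3⟩ := hf2 y hy
    obtain ⟨τ', h1', h2', h3'⟩ := hf2 y' hy'
    have h4 : τ = τ' := by
      apply UpperHalfPlane.ext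
      rw [h1, h1', he]
    subst h4
    apply (ZMod.castHom (dvd_refl q) k).injective
    rw [← h3, ← h3']
  have h1 : {y : ZMod q | SSj q y ∧ y ≠ 0 ∧ y ≠ 1728}.ncard ≤
      {P : ℤ × ℤ | 0 < P.2 ∧ 3 * P.2 ^ 2 ≤ 4 * (q : ℤ) ∧ 2 * |P.1| ≤ P.2 ∧
        P.2 ∣ P.1 ^ 2 + q}.ncard :=
    Set.ncard_le_ncard_of_injOn f (fun y hy => hf1 y hy) hinj hTfin
  have h2 : {y : ZMod q | SSj q y} ⊆
      ({0, 1728} : Set (ZMod q)) ∪ {y : ZMod q | SSj q y ∧ y ≠ 0 ∧ y ≠ 1728} := by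
    intro y hy
    by_cases h0 : y = 0
    · left
      rw [h0]
      exact Set.mem_insert _ _
    · by_cases h1' : y = 1728
      · left
        rw [h1']
        exact Set.mem_insert_of_mem _ rfl
      · exact Or.inr ⟨hy, h0, h1'⟩
  have h3 : {y : ZMod q | SSj q y}.ncard ≤ 2 +
      {P : ℤ × ℤ | 0 < P.2 ∧ 3 * P.2 ^ 2 ≤ 4 * (q : ℤ) ∧ 2 * |P.1| ≤ P.2 ∧
        P.2 ∣ P.1 ^ 2 + q}.ncard := by
    have e1 := Set.ncard_le_ncard h2 (Set.toFinite _)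
    have e2 := Set.ncard_union_le ({0, 1728} : Set (ZMod q))
      {y : ZMod q | SSj q y ∧ y ≠ 0 ∧ y ≠ 1728}
    have e3 := Set.ncard_insert_le (0 : ZMod q) {1728}
    rw [Set.ncard_singleton] at e3
    omega
  have h4 : ({y : ZMod q | SSj q y}.ncard : ℝ) ≤ 2 +
      ({P : ℤ × ℤ | 0 < P.2 ∧ 3 * P.2 ^ 2 ≤ 4 * (q : ℤ) ∧ 2 * |P.1| ≤ P.2 ∧
        P.2 ∣ P.1 ^ 2 + q}.ncard : ℝ) := by exact_mod_cast h3
  have h5 : 4 / ε ≤ (q : ℝ) := by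
    have e1 : (⌈4 / ε⌉₊ : ℝ) ≤ q := by exact_mod_cast (show ⌈4 / ε⌉₊ ≤ q by omega)
    exact (Nat.le_ceil _).trans e1
  rw [div_le_iff₀ hε] at h5
  linarith

end Pool.Agent.SS.FM
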