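import Mathlib
import Pool.Agent.Work.MP_a5099b_nt.Defs
import Pool.Agent.Work.MP_a5099b_nt.C.EHas
import Pool.Agent.Work.MP_a5099b_nt.D.Fin

/-!
# Module FM/SsOdd (S-M)

Supersingular invariants in fields of odd degree lie in the prime field. PROOF. `c = ZMod.castHom (dvd_refl q) k` (injective). It is enough: every `y : k` with `SSj q y` is `c z` for some `z : ZMod q` (then `SSj q z` by `SSj_map`, `C/EHas`), so the set is contained in the image of `{z | SSj q z}` (`Set.ncard_image_le`, `Set.ncard_le_ncard`). `y = 0`, `y = 1728`: clear.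
Otherwise `regular` (`D/Fin.lean`): `y ^ (q ^ 2) = y`, so `y ^ (q ^ (2 g)) = y` by induction; `f = 2 g + 1`: `y = y ^ (q ^ f)` (`FiniteField.pow_card`, `Nat.card k = q ^ f`) `= (y ^ (q ^ (2 g))) ^ q = y ^ q`. `y ^ q = y` implies that `y` is in the image of `ZMod q` (copy the private `ex_fix` in `D4/ExSS.lean`; algebra structure `ZMod.algebra k q`).
-/

set_option autoImplicit false

namespace Pool.Agent.SS.FM

open NumberField IsDedekindDomain

open Polynomial in
private theorem ss_fix {q : ℕ} [Fact q.Prime] {K : Type} [Field K] [Algebra (ZMod q) K] {z : K}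
    (hz : z ^ q = z) : ∃ y : ZMod q, algebraMap (ZMod q) K y = z := by
  classical
  by_contra hno
  push Not at hno
  have hq : q.Prime := Fact.out
  have h1 : (X ^ q - X : K[X]) ≠ 0 := FiniteField.X_pow_card_sub_X_ne_zero K hq.one_lt
  have h2 : (X ^ q - X : K[X]).natDegree = q := FiniteField.X_pow_card_sub_X_natDegree_eq K hq.one_lt
  set S : Finset K := (Finset.univ : Finset (ZMod q)).image (algebraMap (ZMod q) K) with hS
  have h3 : S.card = q := by
    rw [hS, Finset.card_image_of_injective _ (algebraMap (ZMod q) K).injective, Finset.card_univ,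
      ZMod.card]
  have h4 : z ∉ S := by
    intro h
    rw [hS, Finset.mem_image] at h
    obtain ⟨y, -, hy⟩ := h
    exact hno y hy
  have h5 : insert z S ⊆ (X ^ q - X : K[X]).roots.toFinset := by
    intro x hx
    rw [Multiset.mem_toFinset, mem_roots h1, IsRoot, eval_sub, eval_pow, eval_X, sub_eq_zero]
    rcases Finset.mem_insert.1 hx with rfl | hx
    · exact hz
    · rw [hS, Finset.mem_image] at hx
      obtain ⟨y, -, rfl⟩ := hx
      rw [← map_pow, ZMod.pow_card]
  have h6 := Finset.card_le_card h5
  rw [Finset.card_insert_of_notMem h4, h3] at h6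
  have h7 := (Multiset.toFinset_card_le (X ^ q - X : K[X]).roots).trans (card_roots' _)
  omega

theorem ss_odd {q : ℕ} [Fact q.Prime] (h5 : 5 ≤ q) (k : Type) [Field k] [Finite k] [CharP k q]
    (f : ℕ) (hf : Odd f) (hk : Nat.card k = q ^ f) :
    {y : k | SSj q y}.ncard ≤ {y : ZMod q | SSj q y}.ncard := by
  classical
  have hq : q.Prime := Fact.out
  let _ : Algebra (ZMod q) k := ZMod.algebra k q
  have := Fintype.ofFinite k
  have key : ∀ y : k, SSj q y → ∃ z : ZMod q, SSj q z ∧ algebraMap (ZMod q) k z = y := by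
    intro y hy
    have hz : ∃ z : ZMod q, algebraMap (ZMod q) k z = y := by
      by_cases h0 : y = 0
      · exact ⟨0, by rw [map_zero, h0]⟩
      by_cases h1 : y = 1728
      · exact ⟨1728, by rw [map_ofNat, h1]⟩
      have h2 := (regular hq h5 y hy h0 h1).1
      have h3 : ∀ g : ℕ, y ^ (q ^ (2 * g)) = y := by
        intro g
        induction g with
        | zero => simp
        | succ g ih =>
          rw [show 2 * (g + 1) = 2 * g + 2 by ring, pow_add, pow_mul, ih, h2]
      obtain ⟨g, hg⟩ := hf
      have h4 : y ^ (q ^ f) = y := by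
        rw [← hk, Nat.card_eq_fintype_card]
        exact FiniteField.pow_card y
      rw [hg, pow_succ, pow_mul, h3 g] at h4
      exact ss_fix h4
    obtain ⟨z, rfl⟩ := hz
    exact ⟨z, (SSj_map hq h5 (algebraMap (ZMod q) k) z).1 hy, rfl⟩
  have hsub : {y : k | SSj q y} ⊆ (algebraMap (ZMod q) k) '' {y : ZMod q | SSj q y} := by
    intro y hy
    obtain ⟨z, h1, h2⟩ := key y hy
    exact ⟨z, h1, h2⟩
  exact (Set.ncard_le_ncard hsub (Set.toFinite _)).trans (Set.ncard_image_le (Set.toFinite _))

end Pool.Agent.SS.FM
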