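import Mathlib
import Pool.Agent.Work.MP_a5099b_nt.FM.Defs
import Pool.Agent.Work.MP_a5099b_nt.FM.SZ
import Pool.Agent.Work.MP_a5099b_nt.FM.PolyV
import Pool.Agent.Work.MP_a5099b_nt.FM.SsFew
import Pool.Agent.Work.MP_a5099b_nt.FM.SsOdd

/-!
# Module FM/Oth (M)

At the other places half of the points are good. PROOF. `d = max (W.c₄ ^ 3).totalDegree W.Δ.totalDegree`, `ε = 1 / (8 (d + 1))`, `B` = max of the bounds of `poly_v` (for `C = W.c₄ ^ 3`, `D = W.Δ`), `ss_few ε`, and `8 (d + 1)`. Let `v` be above `q > B`, `k = 𝓞 K ⧸ v.asIdeal` (field `Ideal.Quotient.field`, finite, characteristic `q`: see the private `finQ`, `charP_quot'` in `D4/LocG.lean`;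
`Nat.card k` is a positive power of `q`, so `q ≤ Nat.card k`; or: `ZMod q` embeds). With `Dm = W.Δ.map mk`, `Cm = (W.c₄ ^ 3).map mk`: `(sp W mk u).Δ = eval u Dm`, `(sp W mk u).c₄ ^ 3 = eval u Cm` (`sp_Δ`, `sp_c₄`, `MvPolynomial.eval₂_eq_eval_map`/`eval_map`). The complement of `GoodV W q v` is contained in `{eval u Dm = 0}`, together with, if the degree is odd,
the sets `{eval u (Cm - C y * Dm) = 0}` for the `y` with `SSv q v y`; the polynomials are not zero (`poly_v`), of total degree at most `d` (`totalDegree_map_le`-type, `totalDegree_sub`, `totalDegree_mul_le` with `totalDegree_C`), so by `sz` each of these sets has at most `d |k| ^ (n+1) / |k|` elements. The number of the `y` is at most `ε q ≤ ε |k|` (`ss_odd`, `ss_few`).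
So the complement has at most `|k| ^ (n+1) (d / |k| + d ε) ≤ |k| ^ (n+1) (1/8 + 1/8)` elements, and `Nat.card (Fin (n+1) → k) = |k| ^ (n+1)`.
-/

set_option autoImplicit false

namespace Pool.Agent.SS.FM

open NumberField IsDedekindDomain

private theorem finQ (K : Type) [Field K] [NumberField K] (v : HeightOneSpectrum (𝓞 K)) :
    Finite (𝓞 K ⧸ v.asIdeal) :=
  Ideal.finiteQuotientOfFreeOfNeBot v.asIdeal v.ne_bot

private theorem charP_quot' {K : Type} [Field K] {q : ℕ} (hq' : q.Prime)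
    (v : HeightOneSpectrum (𝓞 K)) (hq : (q : 𝓞 K) ∈ v.asIdeal) : CharP (𝓞 K ⧸ v.asIdeal) q := by
  have hnt : Nontrivial (𝓞 K ⧸ v.asIdeal) := Ideal.Quotient.nontrivial_iff.2 v.isPrime.ne_top
  have h0 : ((q : ℕ) : 𝓞 K ⧸ v.asIdeal) = 0 := by
    have := Ideal.Quotient.eq_zero_iff_mem.2 hq
    rwa [map_natCast] at this
  obtain ⟨p, hp⟩ := CharP.exists (𝓞 K ⧸ v.asIdeal)
  have hdvd := (CharP.cast_eq_zero_iff (𝓞 K ⧸ v.asIdeal) p q).1 h0
  rcases (Nat.dvd_prime hq').1 hdvd with h | h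
  · exfalso
    rw [h] at hp
    have := (CharP.cast_eq_zero_iff (𝓞 K ⧸ v.asIdeal) 1 1).2 dvd_rfl
    rw [Nat.cast_one] at this
    exact one_ne_zero this
  · rwa [h] at hp

open Classical in
private theorem gen {k : Type} [Field k] [Finite k] {m d : ℕ} (Cm Dm : MvPolynomial (Fin m) k)
    (hD : Dm ≠ 0) (hdD : Dm.totalDegree ≤ d) (hdC : Cm.totalDegree ≤ d)
    (hC : ∀ y : k, Cm ≠ MvPolynomial.C y * Dm) (Y : Set k)
    (hY : 8 * (d + 1) * Y.ncard ≤ Nat.card k) (hk : 8 * (d + 1) ≤ Nat.card k) :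
    Nat.card k ^ m ≤ 2 * {u : Fin m → k | MvPolynomial.eval u Dm ≠ 0 ∧
      ∀ y ∈ Y, MvPolynomial.eval u Cm ≠ y * MvPolynomial.eval u Dm}.ncard := by
  have := Fintype.ofFinite k
  set N : ℕ := Nat.card k with hN
  have hNpos : 0 < N := by omega
  set Z : MvPolynomial (Fin m) k → Finset (Fin m → k) :=
    fun F => Finset.univ.filter (fun u => MvPolynomial.eval u F = 0) with hZ
  have hz : ∀ F : MvPolynomial (Fin m) k, F ≠ 0 → F.totalDegree ≤ d →
      N * (Z F).card ≤ d * N ^ m := by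
    intro F hF hFd
    have h1 := sz F hF
    have h2 : {s : Fin m → k | MvPolynomial.eval s F = 0} = ↑(Z F) := by
      ext u
      simp [hZ]
    rw [h2, Set.ncard_coe_finset] at h1
    exact le_trans h1 (Nat.mul_le_mul_right _ hFd)
  set G : Finset (Fin m → k) := Finset.univ.filter (fun u => MvPolynomial.eval u Dm ≠ 0 ∧
      ∀ y ∈ Y, MvPolynomial.eval u Cm ≠ y * MvPolynomial.eval u Dm) with hG
  have hGe : {u : Fin m → k | MvPolynomial.eval u Dm ≠ 0 ∧
      ∀ y ∈ Y, MvPolynomial.eval u Cm ≠ y * MvPolynomial.eval u Dm} = ↑G := by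
    ext u
    simp [hG]
  rw [hGe, Set.ncard_coe_finset]
  have hYc : Y.toFinset.card = Y.ncard := by
    rw [Set.ncard_eq_toFinset_card']
  have hcov : Finset.univ.filter (fun u => ¬ (MvPolynomial.eval u Dm ≠ 0 ∧
      ∀ y ∈ Y, MvPolynomial.eval u Cm ≠ y * MvPolynomial.eval u Dm)) ⊆
      Z Dm ∪ Y.toFinset.biUnion (fun y => Z (Cm - MvPolynomial.C y * Dm)) := by
    intro u hu
    rw [Finset.mem_filter] at hu
    rw [Finset.mem_union, Finset.mem_biUnion]
    by_cases h1 : MvPolynomial.eval u Dm = 0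
    · left
      simp [hZ, h1]
    · right
      by_contra hcon
      apply hu.2
      refine ⟨h1, fun y hy heq => hcon ⟨y, Set.mem_toFinset.2 hy, ?_⟩⟩
      simp only [hZ, Finset.mem_filter, Finset.mem_univ, true_and]
      rw [map_sub, map_mul, MvPolynomial.eval_C, heq, sub_self]
  have hcard := Finset.card_le_card hcov
  have hsum : N * (Z Dm ∪ Y.toFinset.biUnion (fun y => Z (Cm - MvPolynomial.C y * Dm))).card ≤
      d * N ^ m * (1 + Y.ncard) := by
    have h1 : (Z Dm ∪ Y.toFinset.biUnion (fun y => Z (Cm - MvPolynomial.C y * Dm))).card ≤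
        (Z Dm).card + ∑ y ∈ Y.toFinset, (Z (Cm - MvPolynomial.C y * Dm)).card :=
      le_trans (Finset.card_union_le _ _) (Nat.add_le_add_left Finset.card_biUnion_le _)
    have h2 : N * ∑ y ∈ Y.toFinset, (Z (Cm - MvPolynomial.C y * Dm)).card ≤
        Y.ncard * (d * N ^ m) := by
      rw [Finset.mul_sum, ← hYc]
      refine Finset.sum_le_card_nsmul _ _ _ fun y _ => ?_
      apply hz
      · exact sub_ne_zero.2 (hC y)
      · refine le_trans (MvPolynomial.totalDegree_sub _ _) (max_le hdC ?_)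
        refine le_trans (MvPolynomial.totalDegree_mul _ _) ?_
        rw [MvPolynomial.totalDegree_C, zero_add]
        exact hdD
    have h3 := hz Dm hD hdD
    calc N * (Z Dm ∪ Y.toFinset.biUnion (fun y => Z (Cm - MvPolynomial.C y * Dm))).card
        ≤ N * ((Z Dm).card + ∑ y ∈ Y.toFinset, (Z (Cm - MvPolynomial.C y * Dm)).card) :=
          Nat.mul_le_mul_left _ h1
      _ = N * (Z Dm).card + N * ∑ y ∈ Y.toFinset, (Z (Cm - MvPolynomial.C y * Dm)).card := by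
          ring
      _ ≤ d * N ^ m + Y.ncard * (d * N ^ m) := Nat.add_le_add h3 h2
      _ = d * N ^ m * (1 + Y.ncard) := by ring
  have htot := Finset.card_filter_add_card_filter_not (s := (Finset.univ : Finset (Fin m → k)))
    (fun u => MvPolynomial.eval u Dm ≠ 0 ∧
      ∀ y ∈ Y, MvPolynomial.eval u Cm ≠ y * MvPolynomial.eval u Dm)
  have hU : (Finset.univ : Finset (Fin m → k)).card = N ^ m := by
    rw [Finset.card_univ, Fintype.card_fun, Fintype.card_fin, hN, Nat.card_eq_fintype_card]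
  rw [hU] at htot
  rw [← hG] at htot
  set Gc := (Finset.univ.filter (fun u => ¬ (MvPolynomial.eval u Dm ≠ 0 ∧
      ∀ y ∈ Y, MvPolynomial.eval u Cm ≠ y * MvPolynomial.eval u Dm))).card with hGc
  have h4 : 4 * (d * (1 + Y.ncard)) ≤ N := by nlinarith
  have h5 : N * (4 * Gc) ≤ N * N ^ m := by
    calc N * (4 * Gc) = 4 * (N * Gc) := by ring
      _ ≤ 4 * (d * N ^ m * (1 + Y.ncard)) :=
          Nat.mul_le_mul_left _ (le_trans (Nat.mul_le_mul_left _ hcard) hsum)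
      _ = 4 * (d * (1 + Y.ncard)) * N ^ m := by ring
      _ ≤ N * N ^ m := Nat.mul_le_mul_right _ h4
  have h6 : 4 * Gc ≤ N ^ m := Nat.le_of_mul_le_mul_left h5 hNpos
  omega

private theorem tdeg_map {A B σ : Type*} [CommRing A] [CommRing B] (f : A →+* B)
    (F : MvPolynomial σ A) : (MvPolynomial.map f F).totalDegree ≤ F.totalDegree := by
  unfold MvPolynomial.totalDegree
  exact Finset.sup_mono (MvPolynomial.support_map_subset f F)

private theorem at_v {K : Type} [Field K] [NumberField K] {n : ℕ}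
    (W : WeierstrassCurve (MvPolynomial (Fin (n + 1)) (𝓞 K))) (d q : ℕ) [Fact q.Prime]
    (h5 : 5 ≤ q) (v : HeightOneSpectrum (𝓞 K)) (hv : (q : 𝓞 K) ∈ v.asIdeal)
    (hdD : W.Δ.totalDegree ≤ d) (hdC : (W.c₄ ^ 3).totalDegree ≤ d)
    (hD : MvPolynomial.map (Ideal.Quotient.mk v.asIdeal) W.Δ ≠ 0)
    (hC : ∀ y : 𝓞 K ⧸ v.asIdeal, MvPolynomial.map (Ideal.Quotient.mk v.asIdeal) (W.c₄ ^ 3) ≠
        MvPolynomial.C y * MvPolynomial.map (Ideal.Quotient.mk v.asIdeal) W.Δ)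
    (hq8 : 8 * (d + 1) ≤ q) (hss : 8 * (d + 1) * {y : ZMod q | SSj q y}.ncard ≤ q) :
    Nat.card (𝓞 K ⧸ v.asIdeal) ^ (n + 1) ≤ 2 * (GoodV W q v).ncard := by
  classical
  let _ : Field (𝓞 K ⧸ v.asIdeal) := Ideal.Quotient.field v.asIdeal
  have hch : CharP (𝓞 K ⧸ v.asIdeal) q := charP_quot' Fact.out v hv
  have hfin : Finite (𝓞 K ⧸ v.asIdeal) := finQ K v
  have hqN : q ≤ Nat.card (𝓞 K ⧸ v.asIdeal) := by
    have h1 := Nat.card_le_card_of_injective (ZMod.castHom (dvd_refl q) (𝓞 K ⧸ v.asIdeal))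
      (RingHom.injective _)
    rwa [Nat.card_zmod] at h1
  set Y : Set (𝓞 K ⧸ v.asIdeal) :=
    {y | (∃ f : ℕ, Odd f ∧ Nat.card (𝓞 K ⧸ v.asIdeal) = q ^ f) ∧ SSv q v y} with hY
  have hYc : 8 * (d + 1) * Y.ncard ≤ Nat.card (𝓞 K ⧸ v.asIdeal) := by
    by_cases hodd : ∃ f : ℕ, Odd f ∧ Nat.card (𝓞 K ⧸ v.asIdeal) = q ^ f
    · have h1 : Y = {y : 𝓞 K ⧸ v.asIdeal | SSj q y} := by
        ext y
        constructor
        · exact fun h => h.2
        · exact fun h => ⟨hodd, h⟩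
      obtain ⟨f, hf, hk⟩ := hodd
      have h2 := ss_odd h5 (𝓞 K ⧸ v.asIdeal) f hf hk
      rw [h1]
      exact le_trans (Nat.mul_le_mul_left _ h2) (le_trans hss hqN)
    · have h1 : Y = ∅ := by
        ext y
        constructor
        · exact fun h => absurd h.1 hodd
        · exact fun h => absurd h (Set.notMem_empty y)
      rw [h1, Set.ncard_empty, mul_zero]
      exact Nat.zero_le _
  have hmain := gen (MvPolynomial.map (Ideal.Quotient.mk v.asIdeal) (W.c₄ ^ 3))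
    (MvPolynomial.map (Ideal.Quotient.mk v.asIdeal) W.Δ) hD (le_trans (tdeg_map _ _) hdD)
    (le_trans (tdeg_map _ _) hdC) hC Y hYc (le_trans hq8 hqN)
  refine le_trans hmain (Nat.mul_le_mul_left _ (Set.ncard_le_ncard ?_ (Set.toFinite _)))
  rintro u ⟨h1, h2⟩
  have e1 : MvPolynomial.eval u (MvPolynomial.map (Ideal.Quotient.mk v.asIdeal) W.Δ) =
      (sp W (Ideal.Quotient.mk v.asIdeal) u).Δ := by
    rw [sp_Δ, MvPolynomial.eval_map]
  have e2 : MvPolynomial.eval u (MvPolynomial.map (Ideal.Quotient.mk v.asIdeal) (W.c₄ ^ 3)) =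
      (sp W (Ideal.Quotient.mk v.asIdeal) u).c₄ ^ 3 := by
    rw [sp_c₄, MvPolynomial.eval_map, MvPolynomial.eval₂_pow]
  rw [e1] at h1 h2
  rw [e2] at h2
  exact ⟨h1, fun hodd y hy => h2 y ⟨hodd, hy⟩⟩

theorem oth_count {K : Type} [Field K] [NumberField K] {n : ℕ}
    (W : WeierstrassCurve (MvPolynomial (Fin (n + 1)) (𝓞 K))) (hΔ : W.Δ ≠ 0)
    (hj : ∀ a b : 𝓞 K, a ≠ 0 → MvPolynomial.C a * W.c₄ ^ 3 ≠ MvPolynomial.C b * W.Δ) :
    ∃ B : ℕ, ∀ (q : ℕ) [Fact q.Prime], B < q → ∀ v : HeightOneSpectrum (𝓞 K),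
      (q : 𝓞 K) ∈ v.asIdeal →
        Nat.card (𝓞 K ⧸ v.asIdeal) ^ (n + 1) ≤ 2 * (GoodV W q v).ncard := by
  set d : ℕ := max (W.c₄ ^ 3).totalDegree W.Δ.totalDegree with hd
  obtain ⟨B1, hB1⟩ := poly_v (W.c₄ ^ 3) W.Δ hΔ hj
  obtain ⟨B2, hB2⟩ := ss_few (1 / (8 * ((d : ℝ) + 1))) (by positivity)
  refine ⟨max B1 (max B2 (8 * (d + 1))), fun q hq hlt v hv => ?_⟩
  obtain ⟨hlt1, hlt'⟩ := max_lt_iff.1 hlt
  obtain ⟨hlt2, hlt3⟩ := max_lt_iff.1 hlt'
  obtain ⟨h1, h2⟩ := hB1 q hq.out hlt1 v hv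
  have h3 := hB2 q hlt2
  have h4 : 8 * (d + 1) * {y : ZMod q | SSj q y}.ncard ≤ q := by
    have h5 : (8 * ((d : ℝ) + 1)) * ({y : ZMod q | SSj q y}.ncard : ℝ) ≤ q := by
      have h6 : (0 : ℝ) < 8 * ((d : ℝ) + 1) := by positivity
      calc (8 * ((d : ℝ) + 1)) * ({y : ZMod q | SSj q y}.ncard : ℝ)
          ≤ (8 * ((d : ℝ) + 1)) * (1 / (8 * ((d : ℝ) + 1)) * q) :=
            mul_le_mul_of_nonneg_left h3 h6.le
        _ = q := by
            field_simp
    exact_mod_cast h5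
  exact at_v W d q (by omega) v hv (le_max_right _ _) (le_max_left _ _) h1 h2 hlt3.le h4

end Pool.Agent.SS.FM
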