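import Mathlib
import Pool.Agent.Work.MP_a5099b_nt.FM.Defs

/-!
# Module FM/Red (M)

Every homomorphism `θ : O_M → F_q` extends to a valuation ring. PROOF: `R = {x | ∃ a s : 𝓞 M, θ s ≠ 0 ∧ x * s = a}` is a subring (`x s = a`, `x' s' = a'`: `(x + x') s s' = a s' + a' s`, `x x' s s' = a a'`,
`θ (s s') ≠ 0` because `ZMod q` is a field), `ψ x = θ a / θ s` does not depend on the choice (`x s = a`, `x s' = a'` give `a s' = a' s` in `M`, so in `𝓞 M`). Copy the construction of `B`, `φ` in `C/MPl.lean` (`exists_Pl`: `hkey`, `B`,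
`hval`, `φ`), with `integralClosure A ℂ` replaced by `𝓞 M`. `int`, `ext`: `s = 1`. `inv`: `x s = a`, `θ a / θ s ≠ 0`, so `θ a ≠ 0`, `x ≠ 0` and `x⁻¹ a = s`.
-/

set_option autoImplicit false

namespace Pool.Agent.SS.FM

open NumberField IsDedekindDomain

theorem exists_red {M : Type} [Field M] [NumberField M] {q : ℕ} [Fact q.Prime] (θ : 𝓞 M →+* ZMod q) :
    ∃ (R : Subring M) (ψ : R →+* ZMod q), RedAt θ R ψ := by
  have hkey : ∀ (z : M) (a s a' s' : 𝓞 M), z * algebraMap (𝓞 M) M s = algebraMap (𝓞 M) M a →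
      z * algebraMap (𝓞 M) M s' = algebraMap (𝓞 M) M a' →
      θ a * θ s' = θ a' * θ s := by
    intro z a s a' s' h h'
    rw [← map_mul, ← map_mul]
    congr 1
    apply RingOfIntegers.coe_injective
    rw [map_mul, map_mul, ← h, ← h']
    ring
  let B : Subring M :=
    { carrier := {z | ∃ a s : 𝓞 M, θ s ≠ 0 ∧ z * algebraMap (𝓞 M) M s = algebraMap (𝓞 M) M a}
      mul_mem' := by
        rintro z w ⟨a, s, hs, h⟩ ⟨a', s', hs', h'⟩
        refine ⟨a * a', s * s', by rw [map_mul]; exact mul_ne_zero hs hs', ?_⟩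
        rw [map_mul, map_mul, ← h, ← h']
        ring
      one_mem' := ⟨1, 1, by simp, by simp⟩
      add_mem' := by
        rintro z w ⟨a, s, hs, h⟩ ⟨a', s', hs', h'⟩
        refine ⟨a * s' + a' * s, s * s', by rw [map_mul]; exact mul_ne_zero hs hs', ?_⟩
        rw [map_mul, map_add, map_mul, map_mul, ← h, ← h']
        ring
      zero_mem' := ⟨0, 1, by simp, by simp⟩
      neg_mem' := by
        rintro z ⟨a, s, hs, h⟩
        refine ⟨-a, s, hs, ?_⟩
        rw [map_neg, ← h]
        ring }
  have hB : ∀ z : M, z ∈ B ↔ ∃ a s : 𝓞 M, θ s ≠ 0 ∧ z * algebraMap (𝓞 M) M s = algebraMap (𝓞 M) M a := fun z => Iff.rfl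
  choose nu de hde hnd using fun z : B => (hB z).1 z.2
  have hval : ∀ (z : B) (a s : 𝓞 M), θ s ≠ 0 → (z : M) * algebraMap (𝓞 M) M s = algebraMap (𝓞 M) M a →
      θ (nu z) / θ (de z) = θ a / θ s := by
    intro z a s hs h
    rw [div_eq_div_iff (hde z) hs]
    exact hkey z _ _ _ _ (hnd z) h
  let φ : B →+* ZMod q :=
    { toFun := fun z => θ (nu z) / θ (de z)
      map_one' := by
        rw [hval 1 1 1 (by simp) (by simp)]
        simp
      map_mul' := by
        intro z w
        change θ (nu (z * w)) / θ (de (z * w)) = θ (nu z) / θ (de z) * (θ (nu w) / θ (de w))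
        rw [hval (z * w) (nu z * nu w) (de z * de w)
          (by rw [map_mul]; exact mul_ne_zero (hde z) (hde w)) (by
            rw [map_mul, map_mul, ← hnd z, ← hnd w]
            push_cast
            ring), map_mul, map_mul]
        field_simp
      map_zero' := by
        change θ (nu 0) / θ (de 0) = 0
        rw [hval 0 0 1 (by simp) (by simp)]
        simp
      map_add' := by
        intro z w
        change θ (nu (z + w)) / θ (de (z + w)) = θ (nu z) / θ (de z) + (θ (nu w) / θ (de w))
        rw [hval (z + w) (nu z * de w + nu w * de z) (de z * de w)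
          (by rw [map_mul]; exact mul_ne_zero (hde z) (hde w)) (by
            rw [map_mul, map_add, map_mul, map_mul, ← hnd z, ← hnd w]
            push_cast
            ring), map_add, map_mul, map_mul, map_mul]
        have h1 := hde z
        have h2 := hde w
        field_simp }
  have hφ : ∀ (z : B) (a s : 𝓞 M), θ s ≠ 0 → (z : M) * algebraMap (𝓞 M) M s = algebraMap (𝓞 M) M a → φ z = θ a / θ s := hval
  have hint : ∀ x : 𝓞 M, algebraMap (𝓞 M) M x ∈ B := fun x => ⟨x, 1, by simp, by simp⟩
  refine ⟨B, φ, hint, ?_, ?_⟩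
  · intro x
    rw [hφ ⟨algebraMap (𝓞 M) M x, hint x⟩ x 1 (by simp) (by simp)]
    simp
  · intro x h hne
    obtain ⟨a, s, hs, hx⟩ := id h
    have h1 := hφ ⟨x, h⟩ a s hs hx
    have ha : θ a ≠ 0 := by
      intro h0
      apply hne
      rw [h1, h0, zero_div]
    have hsM : algebraMap (𝓞 M) M s ≠ 0 := by
      intro h0
      apply hs
      have : s = 0 := RingOfIntegers.coe_injective (by rw [h0, map_zero])
      rw [this, map_zero]
    have haM : algebraMap (𝓞 M) M a ≠ 0 := by
      intro h0
      apply ha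
      have : a = 0 := RingOfIntegers.coe_injective (by rw [h0, map_zero])
      rw [this, map_zero]
    refine ⟨s, a, ha, ?_⟩
    have hx0 : x ≠ 0 := by
      rintro rfl
      rw [zero_mul] at hx
      exact haM hx.symm
    rw [← hx]
    field_simp

end Pool.Agent.SS.FM
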