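import Mathlib

/-!
# Module FM/TransN (M)

From coordinate vectors to tuples of integers of `K`. PROOF: copy `D4/Trans.lean` (pairs replaced by `m`-tuples, `ι ⊕ ι` by `Fin m × ι`, `Fintype.prod_sum_type` by `Fintype.prod_prod_type`).
-/

set_option autoImplicit false

namespace Pool.Agent.SS.FM

open NumberField IsDedekindDomain

theorem transN {K : Type} [Field K] [NumberField K] {ι : Type} [Fintype ι] {m : ℕ}
    (b : Module.Basis ι ℤ (𝓞 K)) (Q : (Fin m → 𝓞 K) → Prop) (ε : ℝ)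
    (h : ∃ L : ℕ, ∀ (a : Fin m × ι → ℤ) (T : Fin m × ι → ℕ), (∀ i, L ≤ T i) →
      {z : Fin m × ι → ℤ | (∀ i, a i ≤ z i ∧ z i < a i + T i) ∧
        ¬ Q (fun j => ∑ i, z (j, i) • b i)}.Finite ∧
      ({z : Fin m × ι → ℤ | (∀ i, a i ≤ z i ∧ z i < a i + T i) ∧
        ¬ Q (fun j => ∑ i, z (j, i) • b i)}.ncard : ℝ) ≤ ε * ∏ i, (T i : ℝ)) :
    ∃ L : ℕ, ∀ (a : Fin m → ι → ℤ) (T : Fin m → ι → ℕ), (∀ j i, L ≤ T j i) →
      (1 - ε) * ∏ j, ∏ i, (T j i : ℝ) ≤
        ({t : Fin m → 𝓞 K | (∀ j i, a j i ≤ b.repr (t j) i ∧ b.repr (t j) i < a j i + T j i) ∧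
          Q t}.ncard : ℝ) := by
  classical
  obtain ⟨L, hL⟩ := h
  refine ⟨L, fun a T hT => ?_⟩
  obtain ⟨hfin, hcard⟩ := hL (fun p => a p.1 p.2) (fun p => T p.1 p.2) (by
    rintro ⟨j, i⟩
    exact hT j i)
  rw [Fintype.prod_prod_type] at hcard
  let Φ : (Fin m × ι → ℤ) → Fin m → 𝓞 K := fun z j => ∑ i, z (j, i) • b i
  have hrepr : ∀ (z : ι → ℤ) (i : ι), b.repr (∑ i, z i • b i) i = z i := by
    intro z i
    exact congrFun (b.repr_sum_self z) i
  have hinj : Function.Injective Φ := by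
    intro z z' h
    funext ⟨j, i⟩
    have h1 : ∑ i, z (j, i) • b i = ∑ i, z' (j, i) • b i := congrFun h j
    have h3 := hrepr (fun i => z (j, i)) i
    rw [h1, hrepr (fun i => z' (j, i)) i] at h3
    exact h3.symm
  set box : Set (Fin m × ι → ℤ) :=
    {z | ∀ p : Fin m × ι, a p.1 p.2 ≤ z p ∧ z p < a p.1 p.2 + T p.1 p.2} with hbox
  have hboxF : box = ((Fintype.piFinset fun p : Fin m × ι =>
      Finset.Ico (a p.1 p.2) (a p.1 p.2 + (T p.1 p.2 : ℕ)) :
        Finset (Fin m × ι → ℤ)) : Set (Fin m × ι → ℤ)) := by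
    ext z
    simp [hbox, Fintype.mem_piFinset]
  have hboxfin : box.Finite := by
    rw [hboxF]
    exact Finset.finite_toSet _
  have hboxcard : (box.ncard : ℝ) = ∏ j, ∏ i, (T j i : ℝ) := by
    rw [hboxF, Set.ncard_coe_finset, Fintype.card_piFinset]
    simp only [Int.card_Ico, add_sub_cancel_left, Int.toNat_natCast]
    rw [Fintype.prod_prod_type]
    push_cast
    rfl
  set exc : Set (Fin m × ι → ℤ) := {z | (∀ p : Fin m × ι, a p.1 p.2 ≤ z p ∧
    z p < a p.1 p.2 + T p.1 p.2) ∧ ¬ Q (fun j => ∑ i, z (j, i) • b i)} with hexc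
  have hsub : exc ⊆ box := fun z hz => hz.1
  have hdiff : (box \ exc).ncard = box.ncard - exc.ncard := Set.ncard_sdiff hsub hfin
  have hle : exc.ncard ≤ box.ncard := Set.ncard_le_ncard hsub hboxfin
  have himg : Φ '' (box \ exc) ⊆
      {t : Fin m → 𝓞 K | (∀ j i, a j i ≤ b.repr (t j) i ∧ b.repr (t j) i < a j i + T j i) ∧
          Q t} := by
    rintro _ ⟨z, ⟨hz, hzn⟩, rfl⟩
    have hzE : Q (fun j => ∑ i, z (j, i) • b i) := by
      by_contra h
      exact hzn ⟨hz, h⟩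
    refine ⟨fun j i => ?_, hzE⟩
    have := hz (j, i)
    simp only at this
    simp only [Φ]
    rw [hrepr (fun i => z (j, i)) i]
    exact this
  have hGfin : {t : Fin m → 𝓞 K | (∀ j i, a j i ≤ b.repr (t j) i ∧
      b.repr (t j) i < a j i + T j i) ∧ Q t}.Finite := by
    apply (hboxfin.image Φ).subset
    rintro t ⟨ht, -⟩
    refine ⟨fun p => b.repr (t p.1) p.2, ?_, ?_⟩
    · rintro ⟨j, i⟩
      exact ht j i
    · funext j
      simp only [Φ]
      exact b.sum_repr (t j)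
  have h1 := Set.ncard_le_ncard himg hGfin
  rw [Set.ncard_image_of_injective _ hinj, hdiff] at h1
  have h2 : (box.ncard : ℝ) - exc.ncard ≤
      ({t : Fin m → 𝓞 K | (∀ j i, a j i ≤ b.repr (t j) i ∧ b.repr (t j) i < a j i + T j i) ∧
          Q t}.ncard : ℝ) := by
    rw [← Nat.cast_sub hle]
    exact_mod_cast h1
  rw [← hboxcard] at hcard ⊢
  linarith

end Pool.Agent.SS.FM
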