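import Mathlib

/-!
# Module FM/Img (M)

A map with algebraic fibres has a large image. PROOF. `S` is finite. For `t ∈ g '' S` choose `s₀ ∈ S` with `g s₀ = t`: `(P i).map (eval t) ≠ 0` (`hne`), it has at most `(P i).natDegree ≤ d` roots (`Polynomial.card_roots'`, `natDegree_map_le`), and for every `s ∈ S` with `g s = t` the
coordinate `s i` is a root (`hz`, `Polynomial.eval₂_eq_eval_map`). So the fibre of `g` over `t` in `S` is contained in `Fintype.piFinset` of the root finsets, which has at most `d ^ n` elements. `Finset.card_le_mul_card_image` (with `S.toFinset`).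
-/

set_option autoImplicit false

namespace Pool.Agent.SS.FM

open NumberField IsDedekindDomain

theorem img_count {k : Type} [Field k] [Finite k] {n m : ℕ} (S : Set (Fin n → k))
    (g : (Fin n → k) → (Fin m → k)) (P : Fin n → Polynomial (MvPolynomial (Fin m) k)) (d : ℕ)
    (hd : ∀ i, (P i).natDegree ≤ d)
    (hne : ∀ s ∈ S, ∀ i, ∃ e : ℕ, MvPolynomial.eval (g s) ((P i).coeff e) ≠ 0)
    (hz : ∀ s ∈ S, ∀ i, (P i).eval₂ (MvPolynomial.eval (g s)) (s i) = 0) :
    S.ncard ≤ d ^ n * (g '' S).ncard := by
  classical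
  have hfin : S.Finite := Set.toFinite S
  obtain ⟨T, rfl⟩ : ∃ T : Finset (Fin n → k), (T : Set (Fin n → k)) = S :=
    ⟨hfin.toFinset, hfin.coe_toFinset⟩
  have h1 : (g '' (T : Set (Fin n → k))) = ((T.image g : Finset (Fin m → k)) : Set (Fin m → k)) := by
    rw [Finset.coe_image]
  rw [h1, Set.ncard_coe_finset, Set.ncard_coe_finset]
  refine Finset.card_le_mul_card_image T (d ^ n) ?_
  intro t ht
  obtain ⟨s₀, hs₀, rfl⟩ := Finset.mem_image.1 ht
  set Q : Fin n → Polynomial k := fun i => (P i).map (MvPolynomial.eval (g s₀)) with hQ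
  have hQ0 : ∀ i, Q i ≠ 0 := by
    intro i h0
    obtain ⟨e, he⟩ := hne s₀ hs₀ i
    apply he
    have h2 : (Q i).coeff e = 0 := by rw [h0, Polynomial.coeff_zero]
    rw [hQ, Polynomial.coeff_map] at h2
    exact h2
  have hsub : T.filter (fun x => g x = g s₀) ⊆
      Fintype.piFinset fun i => (Q i).roots.toFinset := by
    intro s hs
    obtain ⟨hsT, hsg⟩ := Finset.mem_filter.1 hs
    refine Fintype.mem_piFinset.2 fun i => ?_
    rw [Multiset.mem_toFinset, Polynomial.mem_roots (hQ0 i), Polynomial.IsRoot.def]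
    have h2 := hz s hsT i
    rw [hsg, Polynomial.eval₂_eq_eval_map] at h2
    exact h2
  refine (Finset.card_le_card hsub).trans ?_
  rw [Fintype.card_piFinset]
  have h3 : ∀ i ∈ (Finset.univ : Finset (Fin n)), (Q i).roots.toFinset.card ≤ d := by
    intro i _
    refine (Multiset.toFinset_card_le _).trans ?_
    refine (Polynomial.card_roots' _).trans ?_
    exact (Polynomial.natDegree_map_le).trans (hd i)
  refine (Finset.prod_le_prod' h3).trans ?_
  rw [Finset.prod_const, Finset.card_univ, Fintype.card_fin]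

end Pool.Agent.SS.FM
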