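import Mathlib

/-!
# Module FM/Cert (M)

Equations of the parameters. PROOF. `hφ.isAlgebraic (X i)`: a polynomial `p ≠ 0` over `A = Algebra.adjoin M (Set.range φ)` with `aeval (X i) p = 0`. `A = (MvPolynomial.aeval φ).range` (`Algebra.adjoin_range_eq_range_aeval`), so every coefficient
of `p` is `aeval φ c` for some `c`; choose such `c`'s: `P` with `P.map (aeval φ) = p.map (algebraMap A _)` (e.g. `P = ∑ l ∈ p.support, monomial l (c l)`, or `Polynomial.map_surjective` for the surjection onto the range). `p ≠ 0`: some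
coefficient `p.coeff e ≠ 0`, its image in `MvPolynomial (Fin n) M` is `aeval φ (P.coeff e) ≠ 0` (subtype is injective). `P.eval₂ (aeval φ) (X i) = (P.map (aeval φ)).eval (X i) = aeval (X i) p = 0`.
-/

set_option autoImplicit false

namespace Pool.Agent.SS.FM

open NumberField IsDedekindDomain

theorem cert {M : Type} [Field M] {n : ℕ} (φ : Fin (n + 1) → MvPolynomial (Fin n) M)
    (hφ : Algebra.IsAlgebraic (Algebra.adjoin M (Set.range φ)) (MvPolynomial (Fin n) M)) (i : Fin n) :
    ∃ (P : Polynomial (MvPolynomial (Fin (n + 1)) M)) (e : ℕ),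
      MvPolynomial.aeval φ (P.coeff e) ≠ 0 ∧
      P.eval₂ (MvPolynomial.aeval φ : MvPolynomial (Fin (n + 1)) M →ₐ[M] MvPolynomial (Fin n) M).toRingHom
        (MvPolynomial.X i) = 0 := by
  have hmem : ∀ y : MvPolynomial (Fin n) M, y ∈ Algebra.adjoin M (Set.range φ) ↔
      ∃ c : MvPolynomial (Fin (n + 1)) M, MvPolynomial.aeval φ c = y := by
    intro y
    rw [Algebra.adjoin_range_eq_range_aeval]
    exact AlgHom.mem_range _
  obtain ⟨p, hp0, hp⟩ := hφ.isAlgebraic (MvPolynomial.X i)
  let g : MvPolynomial (Fin (n + 1)) M →ₐ[M] Algebra.adjoin M (Set.range φ) :=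
    (MvPolynomial.aeval φ).codRestrict (Algebra.adjoin M (Set.range φ)) fun c => (hmem _).2 ⟨c, rfl⟩
  have hg : ∀ c, ((g c : Algebra.adjoin M (Set.range φ)) : MvPolynomial (Fin n) M) =
      MvPolynomial.aeval φ c := fun c => rfl
  have hs : Function.Surjective (g : MvPolynomial (Fin (n + 1)) M →+* Algebra.adjoin M (Set.range φ)) := by
    intro y
    obtain ⟨c, hc⟩ := (hmem y).1 y.2
    exact ⟨c, Subtype.ext hc⟩
  obtain ⟨P, hP⟩ := Polynomial.map_surjective _ hs p
  obtain ⟨e, he⟩ : ∃ e, p.coeff e ≠ 0 := by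
    by_contra h
    push Not at h
    exact hp0 (Polynomial.ext h)
  refine ⟨P, e, ?_, ?_⟩
  · intro h
    apply he
    rw [← hP, Polynomial.coeff_map]
    exact Subtype.ext h
  · have e1 : (MvPolynomial.aeval φ : MvPolynomial (Fin (n + 1)) M →ₐ[M] MvPolynomial (Fin n) M).toRingHom =
        (algebraMap (Algebra.adjoin M (Set.range φ)) (MvPolynomial (Fin n) M)).comp
          (g : MvPolynomial (Fin (n + 1)) M →+* Algebra.adjoin M (Set.range φ)) := rfl
    rw [e1, ← Polynomial.eval₂_map, hP]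
    exact hp

end Pool.Agent.SS.FM
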