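import Mathlib
import Pool.Agent.Work.MP_a5099b_nt.FM.Defs

/-!
# Module FM/RedMem (S-M)

Every element of `M` lies in `R` and, if it is not zero, has nonzero image, for all large `q`. PROOF. (1) For `a : 𝓞 M`, `a ≠ 0`, and `q > |N(a)|`: `θ a ≠ 0`: `a` divides the integer `N(a)` in `𝓞 M` (`Algebra.dvd_norm`-type lemma;
e.g. `a ∣ algebraMap ℤ (𝓞 M) (Algebra.norm ℤ a)`; or: the constant coefficient of the minimal polynomial of `a` over `ℤ` is a nonzero integer divisible by `a`), so `θ a = 0` gives `(N(a) : ZMod q) = 0`, `q ∣ N(a) ≠ 0`, `q ≤ |N(a)|`.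
(2) `x = a / b` with `a b : 𝓞 M`, `b ≠ 0` (`IsFractionRing.div_surjective`); `B = max |N(a)| |N(b)|` (if `x = 0` take `a = 0`, `b = 1`). For `q > B`: `ψ b = θ b ≠ 0`, so `b⁻¹ ∈ R` (`RedAt.inv`, `RedAt.ext`) and `x = a * b⁻¹ ∈ R`
with `ψ x * θ b = θ a ≠ 0` if `x ≠ 0`.
-/

set_option autoImplicit false

namespace Pool.Agent.SS.FM

open NumberField IsDedekindDomain

private theorem theta_ne {M : Type} [Field M] [NumberField M] (a : 𝓞 M) (ha : a ≠ 0) (q : ℕ)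
    [Fact q.Prime] (hq : Ideal.absNorm (Ideal.span {a}) < q) (θ : 𝓞 M →+* ZMod q) : θ a ≠ 0 := by
  intro h
  have h1 : ((Ideal.absNorm (Ideal.span {a}) : ℕ) : 𝓞 M) ∈ Ideal.span {a} := Ideal.absNorm_mem _
  obtain ⟨c, hc⟩ := Ideal.mem_span_singleton.1 h1
  have h2 : ((Ideal.absNorm (Ideal.span {a}) : ℕ) : ZMod q) = 0 := by
    have := congrArg θ hc
    rw [map_natCast, map_mul, h, zero_mul] at this
    exact this
  rw [ZMod.natCast_eq_zero_iff] at h2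
  have h3 : Ideal.absNorm (Ideal.span {a}) ≠ 0 := by
    rw [Ne, Ideal.absNorm_eq_zero_iff]
    intro h4
    exact ha (Ideal.span_singleton_eq_bot.1 h4)
  exact absurd (Nat.le_of_dvd (Nat.pos_of_ne_zero h3) h2) (not_le.2 hq)

theorem red_mem {M : Type} [Field M] [NumberField M] (x : M) : ∃ B : ℕ, ∀ (q : ℕ) [Fact q.Prime], B < q →
    ∀ (θ : 𝓞 M →+* ZMod q) (R : Subring M) (ψ : R →+* ZMod q), RedAt θ R ψ →
      ∃ h : x ∈ R, x ≠ 0 → ψ ⟨x, h⟩ ≠ 0 := by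
  by_cases hx : x = 0
  · refine ⟨0, fun q _ _ θ R ψ _ => ?_⟩
    subst hx
    exact ⟨R.zero_mem, fun h => absurd rfl h⟩
  obtain ⟨a, b, hb, hab⟩ := IsFractionRing.div_surjective (A := 𝓞 M) x
  have hb0 : b ≠ 0 := nonZeroDivisors.ne_zero hb
  have ha0 : a ≠ 0 := by
    intro h
    apply hx
    rw [← hab, h, map_zero, zero_div]
  have hbM : algebraMap (𝓞 M) M b ≠ 0 := by
    intro h
    exact hb0 ((map_eq_zero_iff _ (IsFractionRing.injective (𝓞 M) M)).1 h)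
  refine ⟨max (Ideal.absNorm (Ideal.span {a})) (Ideal.absNorm (Ideal.span {b})),
    fun q _ hq θ R ψ hR => ?_⟩
  have hqa := lt_of_le_of_lt (le_max_left _ _) hq
  have hqb := lt_of_le_of_lt (le_max_right _ _) hq
  have e1 : ψ ⟨algebraMap (𝓞 M) M b, hR.int b⟩ ≠ 0 := by
    rw [hR.ext b]
    exact theta_ne b hb0 q hqb θ
  have e2 : (algebraMap (𝓞 M) M b)⁻¹ ∈ R := hR.inv _ _ e1
  have e3 : x ∈ R := by
    rw [← hab, div_eq_mul_inv]
    exact R.mul_mem (hR.int a) e2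
  refine ⟨e3, fun _ h => ?_⟩
  have e4 : (⟨x, e3⟩ : R) * ⟨algebraMap (𝓞 M) M b, hR.int b⟩ = ⟨algebraMap (𝓞 M) M a, hR.int a⟩ := by
    apply Subtype.ext
    simp only [Subring.coe_mul]
    rw [← hab, div_mul_cancel₀ _ hbM]
  have e5 := congrArg ψ e4
  rw [map_mul, h, zero_mul, hR.ext a] at e5
  exact theta_ne a ha0 q hqa θ e5.symm

end Pool.Agent.SS.FM
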