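import Mathlib
import Pool.Agent.Work.MP_a5099b_nt.FM.Defs
import Pool.Agent.Work.MP_a5099b_nt.FM.RedMem

/-!
# Module FM/RedPoly (M)

Reduction of polynomials. PROOF. `B` = the maximum over `m ∈ F.support` of the bounds of `red_mem` for the coefficients `F.coeff m` (`choose`, `Finset.sup`). For `q > B`: `H = ∑ m ∈ F.support, monomial m ⟨F.coeff m, _⟩`
(`F.support.attach`; or: `F` lies in the range of `map R.subtype`, `MvPolynomial.mem_range_map_iff_coeffs_subset`-type lemma), `H.map R.subtype = F` (`MvPolynomial.as_sum`/`support_sum_monomial_coeff`), `G = H.map ψ`;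
`G.coeff m = ψ (H.coeff m)`, and `H.coeff m = F.coeff m` in `M`; so `G.support ⊆ H.support = F.support` gives the bound of `totalDegree` (`MvPolynomial.totalDegree_mono`-type or `totalDegree_map_le`; `H.totalDegree = F.totalDegree` because
`R.subtype` is injective), and if `F ≠ 0` some coefficient is not zero and its image is not zero.
-/

set_option autoImplicit false

namespace Pool.Agent.SS.FM

open NumberField IsDedekindDomain

theorem red_poly {M : Type} [Field M] [NumberField M] {n : ℕ} (F : MvPolynomial (Fin n) M) :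
    ∃ B : ℕ, ∀ (q : ℕ) [Fact q.Prime], B < q →
      ∀ (θ : 𝓞 M →+* ZMod q) (R : Subring M) (ψ : R →+* ZMod q), RedAt θ R ψ →
        ∃ G : MvPolynomial (Fin n) (ZMod q), RedsTo ψ F G ∧ (F ≠ 0 → G ≠ 0) ∧
          G.totalDegree ≤ F.totalDegree := by
  choose Bd hB using fun x : M => red_mem x
  refine ⟨F.support.sup fun m => Bd (F.coeff m), fun q _ hq θ R ψ hR => ?_⟩
  have hlt : ∀ m ∈ F.support, Bd (F.coeff m) < q := fun m hm =>
    lt_of_le_of_lt (Finset.le_sup (f := fun m => Bd (F.coeff m)) hm) hq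
  have hr : F ∈ Set.range (MvPolynomial.map R.subtype) := by
    rw [MvPolynomial.mem_range_map_iff_coeffs_subset]
    intro x hx
    obtain ⟨m, hm, rfl⟩ := MvPolynomial.mem_coeffs_iff.1 hx
    obtain ⟨h, -⟩ := hB _ q (hlt m hm) θ R ψ hR
    exact ⟨⟨_, h⟩, rfl⟩
  obtain ⟨H, hH⟩ := hr
  have hc : ∀ m, ((H.coeff m : R) : M) = F.coeff m := fun m => by
    rw [← hH, MvPolynomial.coeff_map]
    rfl
  have hs : H.support = F.support := by
    rw [← hH, MvPolynomial.support_map_of_injective _ Subtype.val_injective]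
  refine ⟨H.map ψ, ⟨H, hH, rfl⟩, fun hF => ?_, ?_⟩
  · obtain ⟨m, hm⟩ := MvPolynomial.ne_zero_iff.1 hF
    obtain ⟨h, h2⟩ := hB _ q (hlt m (MvPolynomial.mem_support_iff.2 hm)) θ R ψ hR
    rw [MvPolynomial.ne_zero_iff]
    refine ⟨m, ?_⟩
    rw [MvPolynomial.coeff_map]
    have e : H.coeff m = ⟨F.coeff m, h⟩ := Subtype.ext (hc m)
    rw [e]
    exact h2 hm
  · refine Finset.sup_mono ?_
    rw [← hs]
    exact MvPolynomial.support_map_subset ψ H

end Pool.Agent.SS.FM
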