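import Mathlib
import Pool.Agent.Work.MP_a5099b_nt.FM.Defs
import Pool.Agent.Work.MP_a5099b_nt.FM.RedMem
import Pool.Agent.Work.MP_a5099b_nt.FM.RedPoly
import Pool.Agent.Work.MP_a5099b_nt.FM.Cert

/-!
# Module FM/V1a (M-L)

The data modulo `q`. Write `N σ` for polynomials. PROOF. `choose P e hPe hP0 using cert φ hφ`. Polynomials over `M`: `F0 = (sp W (C.comp κ) φ).Δ ≠ 0` and `Fi = aeval φ ((P i).coeff (e i)) ≠ 0` in `MvPolynomial (Fin n) M`; `D = F0.totalDegree + ∑ i, (Fi).totalDegree`,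
`d = ∑ i, (P i).natDegree`. `B` = the maximum of the bounds of `red_poly` for `F0`, all `Fi`, all `φ j`, all `(P i).coeff l`, `l ≤ (P i).natDegree`, and of `red_mem` for `x₀`, `x₀ - 1728`, `x₀ - 8000`. Let `q > B`, `θ, R, ψ`. `x₀ ∈ R` and `ψ x₀ ≠ 0`;
`x₀ - 1728 ∈ R`, `ψ (x₀ - 1728) = ψ x₀ - 1728 ≠ 0` (`map_sub`, `map_ofNat`); the same for 8000. Choose the reductions `g j` of `φ j`, `G0` of `F0`, `Gi` of `Fi`, `c i l` of `(P i).coeff l`; `Q i = ∑ l ∈ range ((P i).natDegree + 1), monomial l (c i l)`: `natDegree ≤ d`,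
`F = G0 * ∏ i, Gi` (`≠ 0`, `totalDegree_mul_le`, `totalDegree_finset_prod_le`-type). For a point `s` put `u j = eval s (g j)`. General fact (*): if `RedsTo ψ A A'` (variables `Fin (n+1)`), then `RedsTo ψ (aeval φ A) (aeval g A')` (`RedsTo.comp`) and
`eval s (aeval g A') = eval u A'` (`MvPolynomial.aeval_def`, `eval₂`-composition: `MvPolynomial.eval_bind₁`-type or `hom_eval₂`/`ringHom_ext`). (a) `eval u (c i (e i)) = eval s (aeval g (c i (e i))) = eval s Gi ≠ 0` by (*) and `RedsTo.unique`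
(`c i (e i) = (Q i).coeff (e i)`; note `e i ≤ natDegree` because the coefficient is not zero). (b) `∑ l, aeval φ ((P i).coeff l) * X i ^ l = 0` (`hP0`, `Polynomial.eval₂_eq_sum_range`) reduces to `∑ l, aeval g (c i l) * X i ^ l = 0` (`RedsTo.add`/induction over the sum, `RedsTo.mul`, `RedsTo.pow`,
`RedsTo.X`, `RedsTo.unique` with `RedsTo.zero`); evaluate at `s`. (c) with `θ' = θ.comp (algebraMap (𝓞 K) (𝓞 M))`: for `A : MvPolynomial (Fin (n+1)) (𝓞 K)` the polynomial `A.map θ'` is the reduction of `A.map κ` (`H = A.map (𝓞 K → R)`, `RedAt.int`, `RedAt.ext`); `(sp W (C.comp κ) φ).Δ =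
aeval φ (W.Δ.map κ)` and `(sp W θ' u).Δ = eval u (W.Δ.map θ')` (`sp_Δ`, `MvPolynomial.eval₂_eq_eval_map`-type), so by (*) `(sp W θ' u).Δ = eval s G0 ≠ 0`. (d) the same for `c₄`, and `hc` reduces to `(aeval g (W.c₄.map θ')) ^ 3 = C (ψ x₀) * aeval g (W.Δ.map θ')` (`RedsTo.unique`); evaluate at `s`.
-/

set_option autoImplicit false

namespace Pool.Agent.SS.FM

open NumberField IsDedekindDomain

private theorem v1_redsTo_sum {M : Type} [Field M] {q : ℕ} {R : Subring M} {ψ : R →+* ZMod q}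
    {σ : Type*} {ι : Type*} (s : Finset ι) (f : ι → MvPolynomial σ M)
    (g : ι → MvPolynomial σ (ZMod q)) (h : ∀ i ∈ s, RedsTo ψ (f i) (g i)) :
    RedsTo ψ (∑ i ∈ s, f i) (∑ i ∈ s, g i) := by
  classical
  induction s using Finset.induction_on with
  | empty => simpa using (RedsTo.zero (ψ := ψ))
  | insert a s ha ih =>
    rw [Finset.sum_insert ha, Finset.sum_insert ha]
    exact (h a (Finset.mem_insert_self a s)).add
      (ih fun i hi => h i (Finset.mem_insert_of_mem hi))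

private theorem v1_eval_aeval {n m q : ℕ} (g : Fin m → MvPolynomial (Fin n) (ZMod q))
    (s : Fin n → ZMod q) (A : MvPolynomial (Fin m) (ZMod q)) :
    MvPolynomial.eval s (MvPolynomial.aeval g A) =
      MvPolynomial.eval (fun j => MvPolynomial.eval s (g j)) A := by
  have h : (MvPolynomial.eval s).comp
      (MvPolynomial.aeval g : MvPolynomial (Fin m) (ZMod q) →ₐ[ZMod q] _).toRingHom =
      MvPolynomial.eval (fun j => MvPolynomial.eval s (g j)) := by
    apply MvPolynomial.ringHom_ext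
    · intro r
      simp
    · intro i
      simp
  exact RingHom.congr_fun h A

private theorem v1_redsTo_map {K M : Type} [Field K] [NumberField K] [Field M] [NumberField M]
    [Algebra K M] {q : ℕ} {θ : 𝓞 M →+* ZMod q} {R : Subring M} {ψ : R →+* ZMod q}
    (h : RedAt θ R ψ) {σ : Type*} (A : MvPolynomial σ (𝓞 K)) :
    RedsTo ψ (A.map (kap K M)) (A.map (θ.comp (algebraMap (𝓞 K) (𝓞 M)))) := by
  refine ⟨A.map (((algebraMap (𝓞 M) M).codRestrict R h.int).comp (algebraMap (𝓞 K) (𝓞 M))),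
    ?_, ?_⟩
  · rw [MvPolynomial.map_map]
    congr 1
  · rw [MvPolynomial.map_map]
    have e : ψ.comp (((algebraMap (𝓞 M) M).codRestrict R h.int).comp
        (algebraMap (𝓞 K) (𝓞 M))) = θ.comp (algebraMap (𝓞 K) (𝓞 M)) :=
      RingHom.ext fun x => h.ext _
    rw [e]

theorem v1_data {K M : Type} [Field K] [NumberField K] [Field M] [NumberField M] [Algebra K M] {n : ℕ}
    (W : WeierstrassCurve (MvPolynomial (Fin (n + 1)) (𝓞 K)))
    (φ : Fin (n + 1) → MvPolynomial (Fin n) M)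
    (hφ : Algebra.IsAlgebraic (Algebra.adjoin M (Set.range φ)) (MvPolynomial (Fin n) M))
    (x₀ : M) (h0 : x₀ ≠ 0) (h1 : x₀ ≠ 1728) (h8 : x₀ ≠ 8000)
    (hΔ : (sp W (MvPolynomial.C.comp (kap K M)) φ).Δ ≠ 0)
    (hc : (sp W (MvPolynomial.C.comp (kap K M)) φ).c₄ ^ 3 =
      MvPolynomial.C x₀ * (sp W (MvPolynomial.C.comp (kap K M)) φ).Δ) :
    ∃ d D B : ℕ, ∀ (q : ℕ) [Fact q.Prime], B < q →
      ∀ (θ : 𝓞 M →+* ZMod q) (R : Subring M) (ψ : R →+* ZMod q), RedAt θ R ψ →
        ∃ hx : x₀ ∈ R, ψ ⟨x₀, hx⟩ ≠ 0 ∧ ψ ⟨x₀, hx⟩ ≠ 1728 ∧ ψ ⟨x₀, hx⟩ ≠ 8000 ∧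
          ∃ (g : Fin (n + 1) → MvPolynomial (Fin n) (ZMod q))
            (Q : Fin n → Polynomial (MvPolynomial (Fin (n + 1)) (ZMod q)))
            (F : MvPolynomial (Fin n) (ZMod q)), F ≠ 0 ∧ F.totalDegree ≤ D ∧
              (∀ i, (Q i).natDegree ≤ d) ∧
              ∀ s : Fin n → ZMod q, MvPolynomial.eval s F ≠ 0 →
                (∀ i, (∃ e : ℕ, MvPolynomial.eval (fun j => MvPolynomial.eval s (g j))
                    ((Q i).coeff e) ≠ 0) ∧
                  (Q i).eval₂ (MvPolynomial.eval (fun j => MvPolynomial.eval s (g j))) (s i) = 0) ∧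
                (sp W (θ.comp (algebraMap (𝓞 K) (𝓞 M))) (fun j => MvPolynomial.eval s (g j))).Δ ≠ 0 ∧
                (sp W (θ.comp (algebraMap (𝓞 K) (𝓞 M))) (fun j => MvPolynomial.eval s (g j))).c₄ ^ 3 =
                  ψ ⟨x₀, hx⟩ * (sp W (θ.comp (algebraMap (𝓞 K) (𝓞 M)))
                    (fun j => MvPolynomial.eval s (g j))).Δ := by
  classical
  choose P e hPe hP0 using cert φ hφ
  obtain ⟨B0, hB0⟩ := red_poly (sp W (MvPolynomial.C.comp (kap K M)) φ).Δ
  choose Bi hBi using fun i => red_poly (MvPolynomial.aeval φ ((P i).coeff (e i)))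
  choose Bφ hBφ using fun j => red_poly (φ j)
  choose Bc hBc using fun (i : Fin n) (l : ℕ) => red_poly ((P i).coeff l)
  obtain ⟨Bx, hBx⟩ := red_mem x₀
  obtain ⟨By, hBy⟩ := red_mem (x₀ - 1728)
  obtain ⟨Bz, hBz⟩ := red_mem (x₀ - 8000)
  refine ⟨∑ i, (P i).natDegree, (sp W (MvPolynomial.C.comp (kap K M)) φ).Δ.totalDegree +
    ∑ i, (MvPolynomial.aeval φ ((P i).coeff (e i))).totalDegree,
    B0 + ∑ i, Bi i + ∑ j, Bφ j + ∑ i, ∑ l ∈ Finset.range ((P i).natDegree + 1), Bc i l +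
      Bx + By + Bz, fun q _ hq θ R ψ hred => ?_⟩
  have hBi' : ∀ i, Bi i < q := fun i => by
    have := Finset.single_le_sum (f := Bi) (fun _ _ => Nat.zero_le _) (Finset.mem_univ i)
    omega
  have hBφ' : ∀ j, Bφ j < q := fun j => by
    have := Finset.single_le_sum (f := Bφ) (fun _ _ => Nat.zero_le _) (Finset.mem_univ j)
    omega
  have hBc' : ∀ i l, l ≤ (P i).natDegree → Bc i l < q := fun i l hl => by
    have h1 := Finset.single_le_sum (f := fun l => Bc i l) (fun _ _ => Nat.zero_le _)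
      (Finset.mem_range.2 (Nat.lt_succ_of_le hl))
    have h2 := Finset.single_le_sum
      (f := fun i => ∑ l ∈ Finset.range ((P i).natDegree + 1), Bc i l)
      (fun _ _ => Nat.zero_le _) (Finset.mem_univ i)
    have h3 := h1.trans h2
    omega
  obtain ⟨hx, hx0⟩ := hBx q (by omega) θ R ψ hred
  obtain ⟨hy, hy0⟩ := hBy q (by omega) θ R ψ hred
  obtain ⟨hz, hz0⟩ := hBz q (by omega) θ R ψ hred
  have hx0' := hx0 h0
  have hy0' := hy0 (sub_ne_zero.2 h1)
  have hz0' := hz0 (sub_ne_zero.2 h8)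
  have ey : (⟨x₀ - 1728, hy⟩ : R) = ⟨x₀, hx⟩ - 1728 := Subtype.ext rfl
  have ez : (⟨x₀ - 8000, hz⟩ : R) = ⟨x₀, hx⟩ - 8000 := Subtype.ext rfl
  rw [ey, map_sub, map_ofNat] at hy0'
  rw [ez, map_sub, map_ofNat] at hz0'
  refine ⟨hx, hx0', sub_ne_zero.1 hy0', sub_ne_zero.1 hz0', ?_⟩
  obtain ⟨G0, hG0, hG0n, hG0d⟩ := hB0 q (by omega) θ R ψ hred
  choose Gi hGi hGin hGid using fun i => hBi i q (hBi' i) θ R ψ hred
  choose g hg _ _ using fun j => hBφ j q (hBφ' j) θ R ψ hred
  have hc' : ∀ i l, ∃ G : MvPolynomial (Fin (n + 1)) (ZMod q), RedsTo ψ ((P i).coeff l) G := by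
    intro i l
    by_cases hl : l ≤ (P i).natDegree
    · obtain ⟨G, hG, -, -⟩ := hBc i l q (hBc' i l hl) θ R ψ hred
      exact ⟨G, hG⟩
    · refine ⟨0, ?_⟩
      rw [Polynomial.coeff_eq_zero_of_natDegree_lt (by omega)]
      exact RedsTo.zero
  choose c hcR using hc'
  refine ⟨g, fun i => ∑ l ∈ Finset.range ((P i).natDegree + 1), Polynomial.monomial l (c i l),
    G0 * ∏ i, Gi i, ?_, ?_, ?_, ?_⟩
  · exact mul_ne_zero (hG0n hΔ) (Finset.prod_ne_zero_iff.2 fun i _ => hGin i (hPe i))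
  · refine (MvPolynomial.totalDegree_mul _ _).trans (add_le_add hG0d ?_)
    refine (MvPolynomial.totalDegree_finsetProd _ _).trans ?_
    exact Finset.sum_le_sum fun i _ => hGid i
  · intro i
    refine le_trans ?_ (Finset.single_le_sum (f := fun i => (P i).natDegree)
      (fun _ _ => Nat.zero_le _) (Finset.mem_univ i))
    apply Polynomial.natDegree_sum_le_of_forall_le
    intro l hl
    exact (Polynomial.natDegree_monomial_le _).trans
      (Nat.lt_succ_iff.1 (Finset.mem_range.1 hl))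
  · intro s hs
    rw [map_mul, map_prod] at hs
    have hs0 : MvPolynomial.eval s G0 ≠ 0 := left_ne_zero_of_mul hs
    have hsi : ∀ i, MvPolynomial.eval s (Gi i) ≠ 0 := fun i =>
      Finset.prod_ne_zero_iff.1 (right_ne_zero_of_mul hs) i (Finset.mem_univ i)
    -- the discriminant and `c₄`
    have hsp : ∀ A : MvPolynomial (Fin (n + 1)) (𝓞 K),
        MvPolynomial.eval₂ (MvPolynomial.C.comp (kap K M)) φ A =
          MvPolynomial.aeval φ (A.map (kap K M)) := by
      intro A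
      rw [MvPolynomial.aeval_def, MvPolynomial.eval₂_map]
      rfl
    have hD1 : RedsTo ψ (sp W (MvPolynomial.C.comp (kap K M)) φ).Δ
        (MvPolynomial.aeval g (W.Δ.map (θ.comp (algebraMap (𝓞 K) (𝓞 M))))) := by
      rw [sp_Δ, hsp]
      exact (v1_redsTo_map hred W.Δ).comp hg
    have hC1 : RedsTo ψ (sp W (MvPolynomial.C.comp (kap K M)) φ).c₄
        (MvPolynomial.aeval g (W.c₄.map (θ.comp (algebraMap (𝓞 K) (𝓞 M))))) := by
      rw [sp_c₄, hsp]
      exact (v1_redsTo_map hred W.c₄).comp hg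
    have hD2 : (sp W (θ.comp (algebraMap (𝓞 K) (𝓞 M)))
        (fun j => MvPolynomial.eval s (g j))).Δ = MvPolynomial.eval s
          (MvPolynomial.aeval g (W.Δ.map (θ.comp (algebraMap (𝓞 K) (𝓞 M))))) := by
      rw [sp_Δ, v1_eval_aeval, MvPolynomial.eval_map]
    have hC2 : (sp W (θ.comp (algebraMap (𝓞 K) (𝓞 M)))
        (fun j => MvPolynomial.eval s (g j))).c₄ = MvPolynomial.eval s
          (MvPolynomial.aeval g (W.c₄.map (θ.comp (algebraMap (𝓞 K) (𝓞 M))))) := by
      rw [sp_c₄, v1_eval_aeval, MvPolynomial.eval_map]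
    refine ⟨fun i => ⟨⟨e i, ?_⟩, ?_⟩, ?_, ?_⟩
    · have hei : e i ≤ (P i).natDegree := by
        apply Polynomial.le_natDegree_of_ne_zero
        intro h
        apply hPe i
        rw [h, map_zero]
      have hco : (∑ l ∈ Finset.range ((P i).natDegree + 1),
          Polynomial.monomial l (c i l)).coeff (e i) = c i (e i) := by
        rw [Polynomial.finsetSum_coeff, Finset.sum_eq_single (e i)]
        · rw [Polynomial.coeff_monomial, if_pos rfl]
        · intro l _ hl
          rw [Polynomial.coeff_monomial, if_neg hl]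
        · intro h
          exact absurd (Finset.mem_range.2 (Nat.lt_succ_of_le hei)) h
      rw [hco, ← v1_eval_aeval, ((hcR i (e i)).comp hg).unique (hGi i)]
      exact hsi i
    · rw [Polynomial.eval₂_finsetSum]
      have hsum : RedsTo ψ (∑ l ∈ Finset.range ((P i).natDegree + 1),
          MvPolynomial.aeval φ ((P i).coeff l) * MvPolynomial.X i ^ l)
          (∑ l ∈ Finset.range ((P i).natDegree + 1),
            MvPolynomial.aeval g (c i l) * MvPolynomial.X i ^ l) :=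
        v1_redsTo_sum _ _ _ fun l _ => ((hcR i l).comp hg).mul ((RedsTo.X i).pow l)
      have h0' : (∑ l ∈ Finset.range ((P i).natDegree + 1),
          MvPolynomial.aeval φ ((P i).coeff l) * MvPolynomial.X i ^ l) = 0 := by
        have := hP0 i
        rw [Polynomial.eval₂_eq_sum_range] at this
        exact this
      rw [h0'] at hsum
      have h2 := congrArg (MvPolynomial.eval s) (hsum.unique RedsTo.zero)
      rw [map_sum, map_zero] at h2
      rw [← h2]
      refine Finset.sum_congr rfl fun l _ => ?_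
      rw [Polynomial.eval₂_monomial, map_mul, map_pow, MvPolynomial.eval_X, v1_eval_aeval]
    · rw [hD2, hD1.unique hG0]
      exact hs0
    · rw [hD2, hC2]
      have h3 : RedsTo ψ ((sp W (MvPolynomial.C.comp (kap K M)) φ).c₄ ^ 3)
          (MvPolynomial.C (ψ ⟨x₀, hx⟩) *
            MvPolynomial.aeval g (W.Δ.map (θ.comp (algebraMap (𝓞 K) (𝓞 M))))) := by
        rw [hc]
        exact (RedsTo.C hx).mul hD1
      have h4 := congrArg (MvPolynomial.eval s) ((hC1.pow 3).unique h3)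
      rw [map_pow, map_mul, MvPolynomial.eval_C] at h4
      exact h4

end Pool.Agent.SS.FM
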