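import Mathlib
import Pool.Agent.Work.MP_a5099b_nt.FM.Defs
import Pool.Agent.Work.MP_a5099b_nt.FM.SZ
import Pool.Agent.Work.MP_a5099b_nt.FM.Img
import Pool.Agent.Work.MP_a5099b_nt.FM.V1a

/-!
# Module FM/V1b (M)

Many points with the given invariant. PROOF. `d, D, B` from `v1_data`; `c = 1 / (2 * (d + 1) ^ n)`, `B' = max B (2 * D)`. For `q > B'`: `S = {s | eval s F ≠ 0}`, `G s = fun j => eval s (g j)`. `sz`: `q * #{eval s F = 0} ≤ D * q ^ n`, so `#{eval s F = 0} ≤ q ^ n / 2` (as `q ≥ 2 D`) and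
`S.ncard ≥ q ^ n / 2` (`Set.ncard` of the complement, `Nat.card (Fin n → ZMod q) = q ^ n`). `img_count` with `d` replaced by `d + 1` (or `d`): `S.ncard ≤ (d + 1) ^ n * (G '' S).ncard`, and `G '' S` is contained in the set of the statement. So the set has at least `q ^ n / (2 (d + 1) ^ n)` elements.
-/

set_option autoImplicit false

namespace Pool.Agent.SS.FM

open NumberField IsDedekindDomain

theorem v1_count {K M : Type} [Field K] [NumberField K] [Field M] [NumberField M] [Algebra K M] {n : ℕ}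
    (W : WeierstrassCurve (MvPolynomial (Fin (n + 1)) (𝓞 K)))
    (φ : Fin (n + 1) → MvPolynomial (Fin n) M)
    (hφ : Algebra.IsAlgebraic (Algebra.adjoin M (Set.range φ)) (MvPolynomial (Fin n) M))
    (x₀ : M) (h0 : x₀ ≠ 0) (h1 : x₀ ≠ 1728) (h8 : x₀ ≠ 8000)
    (hΔ : (sp W (MvPolynomial.C.comp (kap K M)) φ).Δ ≠ 0)
    (hc : (sp W (MvPolynomial.C.comp (kap K M)) φ).c₄ ^ 3 =
      MvPolynomial.C x₀ * (sp W (MvPolynomial.C.comp (kap K M)) φ).Δ) :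
    ∃ c : ℝ, 0 < c ∧ c ≤ 1 ∧ ∃ B : ℕ, ∀ (q : ℕ) [Fact q.Prime], B < q →
      ∀ (θ : 𝓞 M →+* ZMod q) (R : Subring M) (ψ : R →+* ZMod q), RedAt θ R ψ →
        ∃ hx : x₀ ∈ R, ψ ⟨x₀, hx⟩ ≠ 0 ∧ ψ ⟨x₀, hx⟩ ≠ 1728 ∧ ψ ⟨x₀, hx⟩ ≠ 8000 ∧
          c * (q : ℝ) ^ n ≤ ({u : Fin (n + 1) → ZMod q |
            (sp W (θ.comp (algebraMap (𝓞 K) (𝓞 M))) u).Δ ≠ 0 ∧
            (sp W (θ.comp (algebraMap (𝓞 K) (𝓞 M))) u).c₄ ^ 3 =
              ψ ⟨x₀, hx⟩ * (sp W (θ.comp (algebraMap (𝓞 K) (𝓞 M))) u).Δ}.ncard : ℝ) := by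
  obtain ⟨d, D, B, hdata⟩ := v1_data W φ hφ x₀ h0 h1 h8 hΔ hc
  have hd1 : (1 : ℝ) ≤ (d + 1 : ℝ) ^ n :=
    one_le_pow₀ (by have : (0 : ℝ) ≤ d := Nat.cast_nonneg d; linarith)
  refine ⟨1 / (2 * (d + 1 : ℝ) ^ n), by positivity, ?_, max B (2 * D), ?_⟩
  · rw [div_le_one (by positivity)]
    linarith
  intro q hq hBq θ R ψ hR
  obtain ⟨hx, hx0, hx1, hx8, g, Q, F, hF0, hFD, hQd, hs⟩ :=
    hdata q (lt_of_le_of_lt (le_max_left _ _) hBq) θ R ψ hR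
  refine ⟨hx, hx0, hx1, hx8, ?_⟩
  have hDq : 2 * D ≤ q := ((le_max_right B (2 * D)).trans_lt hBq).le
  have hq0 : 0 < q := hq.out.pos
  have hz := sz F hF0
  rw [Nat.card_zmod] at hz
  obtain ⟨S, hS⟩ : ∃ S : Set (Fin n → ZMod q), S = {s | MvPolynomial.eval s F ≠ 0} := ⟨_, rfl⟩
  have hSc : Sᶜ = {s | MvPolynomial.eval s F = 0} := by
    rw [hS]
    ext s
    simp
  have hcard : S.ncard + (Sᶜ).ncard = q ^ n := by
    rw [Set.ncard_add_ncard_compl, Nat.card_fun, Nat.card_zmod, Nat.card_fin]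
  rw [← hSc] at hz
  have hz1 : 2 * (Sᶜ).ncard ≤ q ^ n := by
    refine Nat.le_of_mul_le_mul_left ?_ hq0
    calc q * (2 * (Sᶜ).ncard) = 2 * (q * (Sᶜ).ncard) := by ring
      _ ≤ 2 * (F.totalDegree * q ^ n) := Nat.mul_le_mul_left _ hz
      _ ≤ 2 * (D * q ^ n) := Nat.mul_le_mul_left _ (Nat.mul_le_mul_right _ hFD)
      _ = (2 * D) * q ^ n := by ring
      _ ≤ q * q ^ n := Nat.mul_le_mul_right _ hDq
  have himg := img_count S (fun s j => MvPolynomial.eval s (g j)) Q (d + 1)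
    (fun i => (hQd i).trans (Nat.le_succ d))
    (fun s hs' i => by
      rw [hS] at hs'
      exact ((hs s hs').1 i).1)
    (fun s hs' i => by
      rw [hS] at hs'
      exact ((hs s hs').1 i).2)
  obtain ⟨U, hU⟩ : ∃ U : Set (Fin (n + 1) → ZMod q), U = {u : Fin (n + 1) → ZMod q |
            (sp W (θ.comp (algebraMap (𝓞 K) (𝓞 M))) u).Δ ≠ 0 ∧
            (sp W (θ.comp (algebraMap (𝓞 K) (𝓞 M))) u).c₄ ^ 3 =
              ψ ⟨x₀, hx⟩ * (sp W (θ.comp (algebraMap (𝓞 K) (𝓞 M))) u).Δ} := ⟨_, rfl⟩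
  rw [← hU]
  have hsub : (fun (s : Fin n → ZMod q) (j : Fin (n + 1)) => MvPolynomial.eval s (g j)) '' S ⊆ U := by
    rintro _ ⟨s, hs', rfl⟩
    rw [hS] at hs'
    rw [hU]
    exact ⟨(hs s hs').2.1, (hs s hs').2.2⟩
  have hle : S.ncard ≤ (d + 1) ^ n * U.ncard :=
    himg.trans (Nat.mul_le_mul_left _ (Set.ncard_le_ncard hsub (Set.toFinite _)))
  have hfin : q ^ n ≤ 2 * ((d + 1) ^ n * U.ncard) := by omega
  have hfin' : (q : ℝ) ^ n ≤ 2 * ((d + 1 : ℝ) ^ n * U.ncard) := by exact_mod_cast hfin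
  rw [one_div, inv_mul_le_iff₀ (by positivity)]
  linarith

end Pool.Agent.SS.FM
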