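import Mathlib
import Pool.Agent.Work.MP_a5099b_nt.D4.DensU
import Pool.Agent.Work.MP_a5099b_nt.D6.All
import Pool.Agent.Work.MP_a5099b_nt.FM.Defs
import Pool.Agent.Work.MP_a5099b_nt.FM.Red
import Pool.Agent.Work.MP_a5099b_nt.FM.V1b
import Pool.Agent.Work.MP_a5099b_nt.FM.DegD
import Pool.Agent.Work.MP_a5099b_nt.FM.Oth
import Pool.Agent.Work.MP_a5099b_nt.FM.GN
import Pool.Agent.Work.MP_a5099b_nt.FM.TransN

/-!
# Module FM/Core (helper91): density one in families, assembly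
-/

set_option autoImplicit false

namespace Pool.Agent.SS.FM

open NumberField IsDedekindDomain UpperHalfPlane

theorem criterion_gen {K : Type} [Field K] [NumberField K] {q : ℕ} [hq : Fact q.Prime] (h7 : 7 ≤ q)
    (hur : ∀ v : HeightOneSpectrum (𝓞 K), (q : 𝓞 K) ∈ v.asIdeal → (q : 𝓞 K) ∉ v.asIdeal ^ 2)
    (W : WeierstrassCurve (𝓞 K)) (hW : W.Δ ≠ 0) (v1 : HeightOneSpectrum (𝓞 K))
    (hS : Sig q W = {v1}) (y : ZMod q) (h0 : y ≠ 0) (h1 : y ≠ 1728) (h8 : y ≠ 8000)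
    (hJ : ∀ n : ℤ, JMod W v1 n → (n : ZMod q) = y) :
    {v : HeightOneSpectrum (𝓞 K) | SSRed W v}.Infinite := by
  rcases DA.real_or_complex K with ⟨⟨ρ⟩⟩ | h
  · exact RK.elkies ρ W hW
  · refine J.inf_of_odd W hW hq.out h7 ?_ ?_ ?_ ?_
    · intro v hv
      exact hur v hv.1
    · intro v hv
      rw [hS, Set.mem_singleton_iff] at hv
      subst hv
      refine ⟨fun h => h0 ?_, fun h => h1 ?_⟩
      · have := hJ 0 h
        simpa using this.symm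
      · have := hJ 1728 h
        simpa using this.symm
    · intro _ v hv h
      rw [hS, Set.mem_singleton_iff] at hv
      subst hv
      have := hJ 8000 h
      exact h8 (by simpa using this.symm)
    · rw [hS, Set.ncard_singleton]
      exact odd_one

/-- The exceptional coordinate vectors. -/
def ExcF {K : Type} [Field K] [NumberField K] {ι : Type} [Fintype ι] (b : Module.Basis ι ℤ (𝓞 K))
    {m : ℕ} (W : WeierstrassCurve (MvPolynomial (Fin m) (𝓞 K))) : Set (Fin m × ι → ℤ) :=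
  {z | ¬ ((W.map (MvPolynomial.eval fun j => ∑ i, z (j, i) • b i)).Δ ≠ 0 ∧
    {v : HeightOneSpectrum (𝓞 K) |
      SSRed (W.map (MvPolynomial.eval fun j => ∑ i, z (j, i) • b i)) v}.Infinite)}

/-- The general form: `x₀` has supersingular reduction at all places of degree one above the primes `q` with
`(-D / q) = -1`. -/
theorem core {K M : Type} [Field K] [NumberField K] [Field M] [NumberField M] [Algebra K M]
    {n : ℕ} (W : WeierstrassCurve (MvPolynomial (Fin (n + 1)) (𝓞 K)))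
    (hj : ∀ a b : 𝓞 K, a ≠ 0 → MvPolynomial.C a * W.c₄ ^ 3 ≠ MvPolynomial.C b * W.Δ)
    (φ : Fin (n + 1) → MvPolynomial (Fin n) M)
    (hφ : Algebra.IsAlgebraic (Algebra.adjoin M (Set.range φ)) (MvPolynomial (Fin n) M))
    (x₀ : M) (h0 : x₀ ≠ 0) (h1 : x₀ ≠ 1728) (h8 : x₀ ≠ 8000)
    (hΔ : (sp W (MvPolynomial.C.comp (kap K M)) φ).Δ ≠ 0)
    (hc : (sp W (MvPolynomial.C.comp (kap K M)) φ).c₄ ^ 3 =
      MvPolynomial.C x₀ * (sp W (MvPolynomial.C.comp (kap K M)) φ).Δ)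
    (D : ℕ) (hM : ∀ x : M, x ^ 2 ≠ -(D : M))
    (hss : ∀ (q : ℕ) [Fact q.Prime], 5 ≤ q → jacobiSym (-D) q = -1 →
      ∀ (R : Subring M) (ψ : R →+* ZMod q) (hx : x₀ ∈ R), SSj q (ψ ⟨x₀, hx⟩))
    {ι : Type} [Fintype ι] (β : Module.Basis ι ℤ (𝓞 K)) (ε : ℝ) (hε : 0 < ε) :
    ∃ L : ℕ, ∀ (α : Fin (n + 1) × ι → ℤ) (T : Fin (n + 1) × ι → ℕ), (∀ i, L ≤ T i) →
      {z : Fin (n + 1) × ι → ℤ | (∀ i, α i ≤ z i ∧ z i < α i + T i) ∧ z ∈ ExcF β W}.Finite ∧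
      ({z : Fin (n + 1) × ι → ℤ | (∀ i, α i ≤ z i ∧ z i < α i + T i) ∧ z ∈ ExcF β W}.ncard : ℝ) ≤
        ε * ∏ i, (T i : ℝ) := by
  classical
  have hWΔ : W.Δ ≠ 0 := by
    intro h
    apply hΔ
    rw [sp_Δ, h, MvPolynomial.eval₂_zero]
  obtain ⟨κ, hκ0, -, B1, hB1⟩ := v1_count W φ hφ x₀ h0 h1 h8 hΔ hc
  obtain ⟨B2, hB2⟩ := oth_count W hWΔ hj
  let PQ : ℕ → Prop := fun q => 7 ≤ q ∧ B1 < q ∧ B2 < q ∧ jacobiSym (-D) q = -1 ∧
    (∀ v : HeightOneSpectrum (𝓞 K), (q : 𝓞 K) ∈ v.asIdeal → (q : 𝓞 K) ∉ v.asIdeal ^ 2) ∧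
    Nonempty (𝓞 M →+* ZMod q)
  have key : ∀ q : ℕ, ∃ G : Set (Fin (n + 1) × ι → ZMod q), q.Prime → PQ q →
      (κ / 2 ^ Module.finrank ℚ K : ℝ) / q * (q : ℝ) ^ Fintype.card (Fin (n + 1) × ι) ≤
        (G.ncard : ℝ) ∧
      ∀ z ∈ ExcF β W, (fun i => (z i : ZMod q)) ∉ G := by
    intro q
    by_cases hq : q.Prime
    swap
    · exact ⟨∅, fun h => absurd h hq⟩
    by_cases hP : PQ q
    swap
    · exact ⟨∅, fun _ h => absurd h hP⟩
    have hqF : Fact q.Prime := ⟨hq⟩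
    obtain ⟨h7, hq1, hq2, hjac, hur, ⟨θ⟩⟩ := hP
    obtain ⟨R, ψ, hR⟩ := exists_red θ
    obtain ⟨hx, hy0, hy1, hy8, hcount⟩ := hB1 q hq1 θ R ψ hR
    obtain ⟨v1, G, hG, hGz⟩ := exists_GN β W (by omega) hur (θ.comp (algebraMap (𝓞 K) (𝓞 M))) κ hκ0
      (ψ ⟨x₀, hx⟩) (hss q (by omega) hjac R ψ hx) hcount (fun v hv => hB2 q hq2 v hv)
    refine ⟨G, fun _ _ => ⟨hG, fun z hz hzG => hz ?_⟩⟩
    obtain ⟨hΔz, hS, hJ⟩ := hGz z hzG
    exact ⟨hΔz, criterion_gen h7 hur _ hΔz v1 hS _ hy0 hy1 hy8 hJ⟩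
  choose G hG using key
  refine DD.density_uniform (Fin (n + 1) × ι) (ExcF β W) (κ / 2 ^ Module.finrank ℚ K)
    (by positivity) PQ G ?_ (fun q hq hP => (hG q hq hP).1) (fun q hq hP => (hG q hq hP).2) ε hε
  intro R
  obtain ⟨S, hS, hR⟩ := deg_sqrt K M D hM (max 7 (max B1 B2)) R
  refine ⟨S, fun q hq => ?_, hR⟩
  obtain ⟨hp, hN, hjac, hur, hθ⟩ := hS q hq
  exact ⟨hp, by omega, by omega, by omega, hjac, hur, hθ⟩

end Pool.Agent.SS.FM
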