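import Mathlib
import Pool.Agent.Work.MP_a5099b_nt.FM.Defs
import Pool.Agent.Work.MP_a5099b_nt.J.Cm
import Pool.Agent.Work.MP_a5099b_nt.J.Sur
import Pool.Agent.Work.MP_a5099b_nt.SpecB

/-!
# Module FM/GBad (M)

Large `l` avoid a finite set of points of the base. PROOF. `Ω = AlgebraicClosure K`, `ρ : Ω →+* ℂ` (`K` embeds in `ℂ`, `ℂ` is algebraically closed: `IsAlgClosed.lift`). `E` has finitely many roots `t` in `Ω`. For every `z : ℂ` there is `B` such that `aeval z (HH l) ≠ 0` for all `l > B` with `LPrime l` (`J.nonvanish J.jL_hom J.jL_sur` with `i = 0` and any prime, e.g. 2).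
`B` = the maximum of the bounds for `z = 8000` and for `z = ρ (P(t) / Q(t))`, `t` the roots of `E` in `Ω`. Let `M` be algebraic over `K` and `x, t` as in the statement; `e : M →ₐ[K] Ω` (`IsAlgClosed.lift`). If `E(t) = 0`, then `e t` is a root of `E` and `e x = P(e t) / Q(e t)`, so `aeval (ρ (e x)) (HH l) = ρ (e (aeval x (HH l))) = 0`: contradiction. If `x = 8000`: the same with `z = 8000`.
-/

set_option autoImplicit false

namespace Pool.Agent.SS.FM

open NumberField IsDedekindDomain Polynomial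

theorem bad_l {K : Type} [Field K] [NumberField K] (P Q E : Polynomial (𝓞 K)) (hE : E ≠ 0) :
    ∃ B : ℕ, ∀ l : ℕ, LPrime l → B < l → ∀ (M : Type) [Field M] [NumberField M] [Algebra K M]
      (x t : M), aeval x (HH l) = 0 → P.eval₂ (kap K M) t = x * Q.eval₂ (kap K M) t →
        Q.eval₂ (kap K M) t ≠ 0 → E.eval₂ (kap K M) t ≠ 0 ∧ x ≠ 8000 := by
  obtain ⟨ρ⟩ : Nonempty (K →+* ℂ) := inferInstance
  have hnv : ∀ z : ℂ, ∃ B : ℕ, ∀ l, LPrime l → B < l → aeval z (HH l) ≠ 0 := by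
    intro z
    obtain ⟨B, hB⟩ := J.nonvanish J.jL_hom J.jL_sur Nat.prime_two z
    exact ⟨B, fun l hl hlB => hB l hl hlB 0⟩
  choose Bf hBf using hnv
  let σ : 𝓞 K →+* ℂ := ρ.comp (algebraMap (𝓞 K) K)
  have hσ : Function.Injective σ := ρ.injective.comp (FaithfulSMul.algebraMap_injective (𝓞 K) K)
  have hE' : E.map σ ≠ 0 := by
    rwa [Ne, Polynomial.map_eq_zero_iff hσ]
  refine ⟨max (Bf 8000) ((E.map σ).roots.toFinset.sup fun z => Bf (P.eval₂ σ z / Q.eval₂ σ z)), ?_⟩
  intro l hl hlB M _ _ _ x t hx hPQ hQ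
  letI : Algebra K ℂ := ρ.toAlgebra
  let e : M →ₐ[K] ℂ := IsAlgClosed.lift (R := K) (S := M) (M := ℂ)
  have he : (e : M →+* ℂ).comp (kap K M) = σ := by
    ext a
    exact e.commutes (algebraMap (𝓞 K) K a)
  have hev : ∀ F : Polynomial (𝓞 K), (e : M →+* ℂ) (F.eval₂ (kap K M) t) = F.eval₂ σ (e t) := by
    intro F
    rw [Polynomial.hom_eval₂, he]
    rfl
  have hex : aeval (e x) (HH l) = 0 := by
    have h1 := Polynomial.aeval_algHom_apply ((e : M →+* ℂ).toIntAlgHom) x (HH l)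
    have h2 : (e : M →+* ℂ).toIntAlgHom x = e x := rfl
    rw [h2] at h1
    rw [h1, hx, map_zero]
  constructor
  · intro hEt
    have h3 : E.eval₂ σ (e t) = 0 := by rw [← hev, hEt, map_zero]
    have h4 : e t ∈ (E.map σ).roots.toFinset := by
      rw [Multiset.mem_toFinset, Polynomial.mem_roots hE', Polynomial.IsRoot, Polynomial.eval_map, h3]
    have h5 : Bf (P.eval₂ σ (e t) / Q.eval₂ σ (e t)) < l := by
      refine lt_of_le_of_lt ?_ (lt_of_le_of_lt (le_max_right _ _) hlB)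
      exact Finset.le_sup (f := fun z => Bf (P.eval₂ σ z / Q.eval₂ σ z)) h4
    have h6 : Q.eval₂ σ (e t) ≠ 0 := by
      rw [← hev]
      intro h7
      exact hQ ((map_eq_zero_iff _ (RingHom.injective (e : M →+* ℂ))).1 h7)
    have h7 : P.eval₂ σ (e t) / Q.eval₂ σ (e t) = e x := by
      rw [div_eq_iff h6, ← hev, ← hev, hPQ, map_mul]
      rfl
    rw [h7] at h5
    exact hBf _ l hl h5 hex
  · intro h8
    have h9 : e x = 8000 := by rw [h8]; exact map_ofNat e 8000
    rw [h9] at hex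
    exact hBf 8000 l hl (lt_of_le_of_lt (le_max_left _ _) hlB) hex

end Pool.Agent.SS.FM
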