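import Mathlib
import Pool.Agent.Work.MP_a5099b_nt.FM.Defs

/-!
# Block FM, part G (one supersingular fibre): definitions (helper91)

`spT K n t`: the homomorphism from the polynomials in `T, s_1, ..., s_n` over the integers of `K` to the polynomials in
`s_1, ..., s_n` over `M` with `T ↦ t` (`T` is the variable with index `0`).
-/

set_option autoImplicit false

namespace Pool.Agent.SS.FM

open NumberField IsDedekindDomain

/-- The substitution `T ↦ t`. -/
noncomputable def spT (K : Type) {M : Type} [Field K] [NumberField K] [Field M] [Algebra K M] (n : ℕ)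
    (t : M) : MvPolynomial (Fin (n + 1)) (𝓞 K) →+* MvPolynomial (Fin n) M :=
  MvPolynomial.eval₂Hom (MvPolynomial.C.comp (kap K M))
    (Fin.cons (MvPolynomial.C t) MvPolynomial.X)

theorem spT_C {K M : Type} [Field K] [NumberField K] [Field M] [Algebra K M] (n : ℕ) (t : M)
    (a : 𝓞 K) : spT K n t (MvPolynomial.C a) = MvPolynomial.C (kap K M a) := by
  simp [spT]

theorem spT_zero {K M : Type} [Field K] [NumberField K] [Field M] [Algebra K M] (n : ℕ) (t : M) :
    spT K n t (MvPolynomial.X 0) = MvPolynomial.C t := by
  simp [spT]

theorem spT_succ {K M : Type} [Field K] [NumberField K] [Field M] [Algebra K M] (n : ℕ) (t : M)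
    (i : Fin n) : spT K n t (MvPolynomial.X i.succ) = MvPolynomial.X i := by
  simp [spT]

theorem spT_comp_C {K M : Type} [Field K] [NumberField K] [Field M] [Algebra K M] (n : ℕ) (t : M) :
    (spT K n t).comp MvPolynomial.C = MvPolynomial.C.comp (kap K M) := by
  ext1 a
  exact spT_C n t a

/-- The family `W` pulled back along `φ` and specialised at `T = t`. -/
theorem sp_spT {K M : Type} [Field K] [NumberField K] [Field M] [Algebra K M] {n m : ℕ}
    (W : WeierstrassCurve (MvPolynomial (Fin m) (𝓞 K)))
    (φ : Fin m → MvPolynomial (Fin (n + 1)) (𝓞 K)) (t : M) :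
    (sp W MvPolynomial.C φ).map (spT K n t) =
      sp W (MvPolynomial.C.comp (kap K M)) (fun j => spT K n t (φ j)) := by
  rw [sp_map, spT_comp_C]
  rfl

theorem kap_injective (K M : Type) [Field K] [NumberField K] [Field M] [Algebra K M] :
    Function.Injective (kap K M) := by
  unfold kap
  exact (algebraMap K M).injective.comp (FaithfulSMul.algebraMap_injective (𝓞 K) K)

end Pool.Agent.SS.FM
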