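import Mathlib
import Pool.Agent.Work.MP_a5099b_nt.FM.GDefs

/-!
# Module FM/GCert (M-L)

Specialisation of a dominant map at `T = t`. PROOF. (a) For `F ≠ 0` in `MvPolynomial (Fin (n + 1)) (𝓞 K)` there is `E_F ≠ 0` in `(𝓞 K)[X]` such that `spT K n t F ≠ 0` if `E_F(t) ≠ 0`: `G = MvPolynomial.finSuccEquiv (𝓞 K) n F`, a polynomial over `MvPolynomial (Fin n) (𝓞 K)` in the variable `T = X 0`; choose `k₀` and a monomial `m` with `(G.coeff k₀).coeff m ≠ 0`,
`E_F = ∑ k ∈ range (G.natDegree + 1), monomial k ((G.coeff k).coeff m)`; the coefficient of `m` in `spT K n t F` is `E_F.eval₂ (kap K M) t` (e.g. both sides are additive in `F`, check monomials; or `spT F = ∑ k, (G.coeff k).map (kap) * C t ^ k`). (b) For `i : Fin n` the element `X i.succ` is algebraic over `A = Algebra.adjoin (𝓞 K) (Set.range φ)` (`hφ.isAlgebraic`), so, as in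
`FM/Cert.lean`, there are `P_i : Polynomial (MvPolynomial (Fin (n + 1)) (𝓞 K))` and `e_i` with `F_i = aeval φ (P_i.coeff e_i) ≠ 0` and `P_i.eval₂ (aeval φ) (X i.succ) = 0`. Apply `spT K n t`: with `ψ j = spT K n t (φ j)` and `P_i' = P_i` mapped by `𝓞 K → M` on the coefficients, `spT (aeval φ A) = aeval ψ (A.map kap)` (`MvPolynomial.ringHom_ext`), so
`P_i'.eval₂ (aeval ψ) (X i) = 0` and `aeval ψ (P_i'.coeff e_i) = spT F_i ≠ 0` if `E_{F_i}(t) ≠ 0`: `X i` is algebraic over `Algebra.adjoin M (Set.range ψ)`. (c) All `X i` are algebraic over `A' = Algebra.adjoin M (Set.range ψ)`, so `MvPolynomial (Fin n) M` is: the elements algebraic over `A'` form a subalgebra (`Subalgebra.algebraicClosure`, `IsAlgebraic.add`, `.mul`) which contains `M` and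
the `X i` (`MvPolynomial.induction_on`). `E = E_F * ∏ i, E_{F_i}`.
-/

set_option autoImplicit false

namespace Pool.Agent.SS.FM

open NumberField IsDedekindDomain

/-- the polynomials in `T, s_1, ..., s_n` as polynomials in `s_1, ..., s_n` over `R[T]` -/
private noncomputable def gcPhi (R : Type) [CommRing R] (n : ℕ) :
    MvPolynomial (Fin (n + 1)) R →+* MvPolynomial (Fin n) (Polynomial R) :=
  MvPolynomial.eval₂Hom (MvPolynomial.C.comp Polynomial.C)
    (Fin.cons (MvPolynomial.C Polynomial.X) MvPolynomial.X)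

private noncomputable def gcPsi (R : Type) [CommRing R] (n : ℕ) :
    MvPolynomial (Fin n) (Polynomial R) →+* MvPolynomial (Fin (n + 1)) R :=
  MvPolynomial.eval₂Hom (Polynomial.eval₂RingHom MvPolynomial.C (MvPolynomial.X 0))
    fun i => MvPolynomial.X i.succ

private theorem gc_inv (R : Type) [CommRing R] (n : ℕ) :
    (gcPsi R n).comp (gcPhi R n) = RingHom.id _ := by
  apply MvPolynomial.ringHom_ext
  · intro a
    simp [gcPsi, gcPhi]
  · intro i
    refine Fin.cases ?_ (fun i => ?_) i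
    · simp [gcPsi, gcPhi]
    · simp [gcPsi, gcPhi]

private theorem gc_inj (R : Type) [CommRing R] (n : ℕ) : Function.Injective (gcPhi R n) := by
  apply Function.LeftInverse.injective (g := gcPsi R n)
  intro F
  exact congrArg (fun f : MvPolynomial (Fin (n + 1)) R →+* MvPolynomial (Fin (n + 1)) R => f F)
    (gc_inv R n)

private theorem gc_spT (K M : Type) [Field K] [NumberField K] [Field M] [Algebra K M] (n : ℕ)
    (t : M) : spT K n t =
      (MvPolynomial.map (Polynomial.eval₂RingHom (kap K M) t)).comp (gcPhi (𝓞 K) n) := by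
  apply MvPolynomial.ringHom_ext
  · intro a
    rw [spT_C]
    simp [gcPhi]
  · intro i
    refine Fin.cases ?_ (fun i => ?_) i
    · rw [spT_zero]
      simp [gcPhi]
    · rw [spT_succ]
      simp [gcPhi]

/-- a nonzero polynomial stays nonzero for general `t` -/
private theorem gc_ne {K : Type} [Field K] [NumberField K] {n : ℕ}
    (F : MvPolynomial (Fin (n + 1)) (𝓞 K)) (hF : F ≠ 0) :
    ∃ E : Polynomial (𝓞 K), E ≠ 0 ∧ ∀ (M : Type) [Field M] [Algebra K M] (t : M),
      E.eval₂ (kap K M) t ≠ 0 → spT K n t F ≠ 0 := by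
  have h1 : gcPhi (𝓞 K) n F ≠ 0 := by
    intro h
    exact hF (gc_inj (𝓞 K) n (h.trans (map_zero _).symm))
  obtain ⟨m, hm⟩ := MvPolynomial.ne_zero_iff.1 h1
  refine ⟨MvPolynomial.coeff m (gcPhi (𝓞 K) n F), hm, fun M _ _ t ht h => ht ?_⟩
  have h2 := congrArg (MvPolynomial.coeff m) h
  rw [gc_spT, RingHom.comp_apply, MvPolynomial.coeff_map, MvPolynomial.coeff_zero] at h2
  exact h2

private theorem gc_cert {R S ι : Type} [CommRing R] [CommRing S] [Algebra R S] (φ : ι → S)
    (hφ : Algebra.IsAlgebraic (Algebra.adjoin R (Set.range φ)) S) (x : S) :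
    ∃ (P : Polynomial (MvPolynomial ι R)) (e : ℕ),
      MvPolynomial.aeval φ (P.coeff e) ≠ 0 ∧
      P.eval₂ (MvPolynomial.aeval φ : MvPolynomial ι R →ₐ[R] S).toRingHom x = 0 := by
  have hmem : ∀ y : S, y ∈ Algebra.adjoin R (Set.range φ) ↔
      ∃ c : MvPolynomial ι R, MvPolynomial.aeval φ c = y := by
    intro y
    rw [Algebra.adjoin_range_eq_range_aeval]
    exact AlgHom.mem_range _
  obtain ⟨p, hp0, hp⟩ := hφ.isAlgebraic x
  let g : MvPolynomial ι R →ₐ[R] Algebra.adjoin R (Set.range φ) :=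
    (MvPolynomial.aeval φ).codRestrict (Algebra.adjoin R (Set.range φ)) fun c => (hmem _).2 ⟨c, rfl⟩
  have hs : Function.Surjective (g : MvPolynomial ι R →+* Algebra.adjoin R (Set.range φ)) := by
    intro y
    obtain ⟨c, hc⟩ := (hmem y).1 y.2
    exact ⟨c, Subtype.ext hc⟩
  obtain ⟨P, hP⟩ := Polynomial.map_surjective _ hs p
  obtain ⟨e, he⟩ : ∃ e, p.coeff e ≠ 0 := by
    by_contra h
    push Not at h
    exact hp0 (Polynomial.ext h)
  refine ⟨P, e, ?_, ?_⟩
  · intro h
    apply he
    rw [← hP, Polynomial.coeff_map]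
    exact Subtype.ext h
  · have e1 : (MvPolynomial.aeval φ : MvPolynomial ι R →ₐ[R] S).toRingHom =
        (algebraMap (Algebra.adjoin R (Set.range φ)) S).comp
          (g : MvPolynomial ι R →+* Algebra.adjoin R (Set.range φ)) := rfl
    rw [e1, ← Polynomial.eval₂_map, hP]
    exact hp

theorem spec_cert {K : Type} [Field K] [NumberField K] {n : ℕ}
    (φ : Fin (n + 1) → MvPolynomial (Fin (n + 1)) (𝓞 K))
    (hφ : Algebra.IsAlgebraic (Algebra.adjoin (𝓞 K) (Set.range φ))
      (MvPolynomial (Fin (n + 1)) (𝓞 K)))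
    (F : MvPolynomial (Fin (n + 1)) (𝓞 K)) (hF : F ≠ 0) :
    ∃ E : Polynomial (𝓞 K), E ≠ 0 ∧ ∀ (M : Type) [Field M] [Algebra K M] (t : M),
      E.eval₂ (kap K M) t ≠ 0 →
        Algebra.IsAlgebraic (Algebra.adjoin M (Set.range fun j => spT K n t (φ j)))
          (MvPolynomial (Fin n) M) ∧ spT K n t F ≠ 0 := by
  obtain ⟨E0, hE0, hE0'⟩ := gc_ne F hF
  choose P e hPe hP using fun i : Fin n => gc_cert φ hφ (MvPolynomial.X i.succ)
  choose E hE hE' using fun i : Fin n => gc_ne (MvPolynomial.aeval φ ((P i).coeff (e i))) (hPe i)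
  refine ⟨E0 * ∏ i, E i, mul_ne_zero hE0 (Finset.prod_ne_zero_iff.2 fun i _ => hE i),
    fun M _ _ t ht => ?_⟩
  rw [Polynomial.eval₂_mul, Polynomial.eval₂_finset_prod] at ht
  obtain ⟨ht0, ht1⟩ := mul_ne_zero_iff.1 ht
  rw [Finset.prod_ne_zero_iff] at ht1
  refine ⟨?_, hE0' M t ht0⟩
  set A := Algebra.adjoin M (Set.range fun j => spT K n t (φ j)) with hA
  have hmem : ∀ c : MvPolynomial (Fin (n + 1)) (𝓞 K), (spT K n t).comp
      (MvPolynomial.aeval φ : MvPolynomial (Fin (n + 1)) (𝓞 K) →ₐ[𝓞 K]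
        MvPolynomial (Fin (n + 1)) (𝓞 K)).toRingHom c ∈ A := by
    intro c
    induction c using MvPolynomial.induction_on with
    | C a =>
      have e1 : (spT K n t).comp (MvPolynomial.aeval φ : MvPolynomial (Fin (n + 1)) (𝓞 K) →ₐ[𝓞 K]
          MvPolynomial (Fin (n + 1)) (𝓞 K)).toRingHom (MvPolynomial.C a) =
          algebraMap M (MvPolynomial (Fin n) M) (kap K M a) := by
        rw [RingHom.comp_apply]
        have e2 : (MvPolynomial.aeval φ : MvPolynomial (Fin (n + 1)) (𝓞 K) →ₐ[𝓞 K]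
          MvPolynomial (Fin (n + 1)) (𝓞 K)).toRingHom (MvPolynomial.C a) = MvPolynomial.C a := by
          simp
        rw [e2, spT_C]
        rfl
      rw [e1]
      exact Subalgebra.algebraMap_mem _ _
    | add f g hf hg =>
      rw [map_add]
      exact Subalgebra.add_mem _ hf hg
    | mul_X f i hf =>
      rw [map_mul]
      refine Subalgebra.mul_mem _ hf ?_
      have e1 : (spT K n t).comp (MvPolynomial.aeval φ : MvPolynomial (Fin (n + 1)) (𝓞 K) →ₐ[𝓞 K]
          MvPolynomial (Fin (n + 1)) (𝓞 K)).toRingHom (MvPolynomial.X i) = spT K n t (φ i) := by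
        simp
      rw [e1]
      exact Algebra.subset_adjoin ⟨i, rfl⟩
  let g : MvPolynomial (Fin (n + 1)) (𝓞 K) →+* A := RingHom.codRestrict ((spT K n t).comp
    (MvPolynomial.aeval φ : MvPolynomial (Fin (n + 1)) (𝓞 K) →ₐ[𝓞 K]
      MvPolynomial (Fin (n + 1)) (𝓞 K)).toRingHom) A hmem
  have hX : ∀ i : Fin n, IsAlgebraic A (MvPolynomial.X i : MvPolynomial (Fin n) M) := by
    intro i
    refine ⟨(P i).map g, ?_, ?_⟩
    · intro h
      have h1 := congrArg (fun p => Polynomial.coeff p (e i)) h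
      simp only [Polynomial.coeff_map, Polynomial.coeff_zero] at h1
      have h2 : spT K n t (MvPolynomial.aeval φ ((P i).coeff (e i))) = 0 :=
        congrArg (fun a : A => (a : MvPolynomial (Fin n) M)) h1
      exact hE' i M t (ht1 i (Finset.mem_univ i)) h2
    · rw [Polynomial.aeval_def, Polynomial.eval₂_map]
      have h1 := congrArg (spT K n t) (hP i)
      rw [Polynomial.hom_eval₂, map_zero, spT_succ] at h1
      exact h1
  constructor
  intro x
  induction x using MvPolynomial.induction_on with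
  | C a =>
    have e1 : (MvPolynomial.C a : MvPolynomial (Fin n) M) =
        algebraMap A (MvPolynomial (Fin n) M) (algebraMap M A a) := rfl
    rw [e1]
    exact isAlgebraic_algebraMap _
  | add f g hf hg => exact hf.add hg
  | mul_X f i hf => exact hf.mul (hX i)

end Pool.Agent.SS.FM
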