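import Mathlib
import Pool.Agent.Work.MP_a5099b_nt.SpecH
import Pool.Agent.Work.MP_a5099b_nt.SpecK1
import Pool.Agent.Work.MP_a5099b_nt.SpecF
import Pool.Agent.Work.MP_a5099b_nt.SpecB
import Pool.Agent.Work.MP_a5099b_nt.C.EHas
import Pool.Agent.Work.MP_a5099b_nt.J.Par
import Pool.Agent.Work.MP_a5099b_nt.J.Rec

/-!
# Module FM/GL (M)

Primes `l` for which the class polynomial has an odd multiplicity at `y`. PROOF. `m = 3`, `r = 23` (`Nat.Coprime 23 24`, `¬ q ∣ 3`). If `q % 4 = 3`: `exists_prime` (`SpecH`); if `q % 4 = 1`: `exists_prime_avg1` (`SpecK1`) with `S = {y}`, `c = 1`. So `l` is prime, `l > max B q`, `l ≡ 23 [MOD 24]`: `l % 8 = 7`, `l % 3 = 2` (`LPrime l`),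
`jacobiSym (-q) l = 1`, and `(PhiAt l y).rootMultiplicity y` is odd. (1) `jacobiSym (-l) q = -1`: `jacobiSym (-1) l = -1` (`l % 4 = 3`), so `jacobiSym q l = -1`; quadratic reciprocity (`jacobiSym.quadratic_reciprocity` and its variants for `% 4`): if `q % 4 = 1`, `jacobiSym l q = jacobiSym q l = -1` and `jacobiSym (-1) q = 1`; if `q % 4 = 3`,
`jacobiSym l q = -jacobiSym q l = 1` and `jacobiSym (-1) q = -1`. (2) `k = AlgebraicClosure (ZMod q)`, `Y` the image of `y`. `(PhiAt l y).rootMultiplicity y = (PhiAt l Y).rootMultiplicity Y` (`PhiAt_map`, `Polynomial.eq_rootMultiplicity_map`), `parity` (`SpecF`): congruent modulo 2 to the multiplicity of `Y` in `(PhiDiag l).map (Int.castRingHom k)`, which is that of `y` in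
`(PhiDiag l).map (Int.castRingHom (ZMod q))`. `HH_factor` (`B/HHx`): `PhiDiag l = -(HH l * S ^ 2)`, `S` and `HH l` monic (`(isHH hl).monic`), so the multiplicity is that of `HH l` plus twice that of `S` (`rootMultiplicity_mul`, `rootMultiplicity_pow`; a sign does not matter).
-/

set_option autoImplicit false

namespace Pool.Agent.SS.FM

open NumberField IsDedekindDomain Polynomial

theorem exists_l {q : ℕ} [Fact q.Prime] (h7 : 7 ≤ q) (y : ZMod q) (hy : SSj q y) (h0 : y ≠ 0)
    (h1 : y ≠ 1728) (h8 : q % 4 = 1 → y ≠ 8000) (B : ℕ) :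
    ∃ l : ℕ, LPrime l ∧ B < l ∧ jacobiSym (-l) q = -1 ∧
      Odd (((HH l).map (Int.castRingHom (ZMod q))).rootMultiplicity y) := by
  have hq : q.Prime := Fact.out
  have hq3 : ¬ q ∣ 3 := fun h => by
    have := Nat.le_of_dvd (by norm_num) h
    omega
  have hodd : Odd 3 := by decide
  have hsf : Squarefree 3 := Nat.prime_three.squarefree
  have hcop : Nat.Coprime 23 (8 * 3) := by norm_num
  obtain ⟨l, hl, hBl, hlr, hjq, hod⟩ : ∃ l : ℕ, l.Prime ∧ B < l ∧
      l ≡ 23 [MOD 8 * 3] ∧ jacobiSym (-q) l = 1 ∧ Odd ((PhiAt l y).rootMultiplicity y) := by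
    rcases (by
      have := hq.odd_of_ne_two (by omega)
      rw [Nat.odd_iff] at this
      omega : q % 4 = 1 ∨ q % 4 = 3) with h4 | h4
    · obtain ⟨l, a1, a2, a3, a4, a5⟩ := exists_prime_avg1 h7 h4 {y} (fun z hz => by
        rw [Finset.mem_singleton] at hz
        subst hz
        exact ⟨hy, h0, h1, h8 h4⟩) (fun _ => 1) (by simp) hodd hsf hq3 hcop
        (by norm_num) B
      refine ⟨l, a1, a2, a3, a4, ?_⟩
      simpa using a5
    · exact exists_prime h7 h4 y hy h0 h1 hodd hsf hq3 hcop B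
  have h24 : l % 24 = 23 := hlr
  have hLP : LPrime l := ⟨hl, by omega, by omega⟩
  have hlq : l ≠ q := by
    rintro rfl
    have : jacobiSym (-(l : ℤ)) l = 0 := by
      rw [jacobiSym.eq_zero_iff_not_coprime]
      simp [hl.ne_one]
    rw [this] at hjq
    exact absurd hjq (by norm_num)
  have hjql : jacobiSym q l = -1 := by
    have := J.jac_neg hLP.mod8 q
    rw [hjq] at this
    linarith
  have hjlq : jacobiSym (-l) q = -1 := by
    rw [← J.jac_rec hl hLP.mod8 hq (by omega)]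
    exact hjql
  refine ⟨l, hLP, hBl, hjlq, ?_⟩
  have hm := J.mult_HH (by omega) hLP hlq y h0 h1
  rw [Nat.odd_iff] at hod ⊢
  unfold Nat.ModEq at hm
  omega

end Pool.Agent.SS.FM
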