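import Mathlib
import Pool.Agent.Work.MP_a5099b_nt.SpecB

/-!
# Module FM/GCount (M)

The number of the roots of the class polynomial above `y`. PROOF (see `H/CntRed.lean`). `F = HH l` is monic (`(isHH hl).monic`) and splits over `N`: its roots in `N` are integral over `ℤ`, so `F.map (Int.castRingHom (𝓞 N)) = (s.map fun x => X - C x).prod` for a multiset `s` of `𝓞 N` (map to `N[X]` is injective). `s` has no multiple elements: `F` is separable over `ℂ`
(`(isHH hl).sep`), hence over `ℚ` and over `N` (`Polynomial.separable_map`, `Polynomial.nodup_roots`). The image under `red` is `F.map (Int.castRingHom k) = ∏ (X - C (red x))`, so the multiplicity of `Y = ZMod.castHom _ k y` is the number of the `x ∈ s` with `red x = Y` (`Polynomial.count_roots`, `Multiset.count_map`), and it is the multiplicity of `y` over `ZMod q`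
(`Polynomial.eq_rootMultiplicity_map`, `ZMod q → k` injective). The set of the statement is the set of the elements of `s` with `red x = Y`.
-/

set_option autoImplicit false

namespace Pool.Agent.SS.FM

open NumberField IsDedekindDomain Polynomial

theorem count_hh {N : Type} [Field N] [NumberField N] {k : Type} [Field k] {q : ℕ} [Fact q.Prime]
    [CharP k q] (red : 𝓞 N →+* k) {l : ℕ} (hl : LPrime l)
    (hs : ((HH l).map (Int.castRingHom N)).Splits) (y : ZMod q) :
    {x : 𝓞 N | aeval x (HH l) = 0 ∧ red x = ZMod.castHom (dvd_refl q) k y}.Finite ∧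
    {x : 𝓞 N | aeval x (HH l) = 0 ∧ red x = ZMod.castHom (dvd_refl q) k y}.ncard =
      ((HH l).map (Int.castRingHom (ZMod q))).rootMultiplicity y := by
  classical
  set F : ℤ[X] := HH l with hFdef
  have hF : F.Monic := (isHH hl).monic
  have hsepC : (F.map (Int.castRingHom ℂ)).Separable := (isHH hl).sep
  set P : N[X] := F.map (Int.castRingHom N) with hP
  have hPm : P.Monic := hF.map _
  have hmem : ∀ z ∈ P.roots, IsIntegral ℤ z := by
    intro z hz
    have h1 : P.eval z = 0 := (Polynomial.mem_roots hPm.ne_zero).1 hz
    refine ⟨F, hF, ?_⟩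
    rw [hP, Polynomial.eval_map] at h1
    rw [RingHom.ext_int (algebraMap ℤ N) (Int.castRingHom N)]
    exact h1
  set M : Multiset (𝓞 N) := P.roots.pmap (fun z h => ⟨z, h⟩) hmem with hM
  have hMm : M.map (algebraMap (𝓞 N) N) = P.roots := by
    rw [hM, Multiset.map_pmap]
    have : ∀ (s : Multiset N) (h : ∀ z ∈ s, IsIntegral ℤ z),
        Multiset.pmap (fun z h => algebraMap (𝓞 N) N (⟨z, h⟩ : 𝓞 N)) s h = s := by
      intro s h
      have h1 : Multiset.pmap (fun z h => algebraMap (𝓞 N) N (⟨z, h⟩ : 𝓞 N)) s h =
          Multiset.pmap (fun z _ => z) s h := Multiset.pmap_congr s fun a _ _ _ => rfl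
      rw [h1, Multiset.pmap_eq_map, Multiset.map_id']
    exact this _ _
  have hinj : Function.Injective (algebraMap (𝓞 N) N) :=
    FaithfulSMul.algebraMap_injective (𝓞 N) N
  set Q : (𝓞 N)[X] := F.map (Int.castRingHom (𝓞 N)) with hQ
  have hQP : Q.map (algebraMap (𝓞 N) N) = P := by
    rw [hQ, hP, Polynomial.map_map,
      RingHom.ext_int ((algebraMap (𝓞 N) N).comp (Int.castRingHom (𝓞 N))) (Int.castRingHom N)]
  have hprod : Q = (M.map fun a => X - C a).prod := by
    apply Polynomial.map_injective (algebraMap (𝓞 N) N) hinj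
    rw [hQP, Polynomial.map_multiset_prod, Multiset.map_map]
    have h1 : P = (P.roots.map fun a => X - C a).prod := hs.eq_prod_roots_of_monic hPm
    conv_lhs => rw [h1, ← hMm, Multiset.map_map]
    congr 1
    refine Multiset.map_congr rfl fun a _ => ?_
    simp
  have hnd : M.Nodup := by
    have h1 : (F.map (Int.castRingHom ℚ)).Separable := by
      rw [← Polynomial.separable_map (algebraMap ℚ ℂ), Polynomial.map_map,
        RingHom.ext_int ((algebraMap ℚ ℂ).comp (Int.castRingHom ℚ)) (Int.castRingHom ℂ)]
      exact hsepC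
    have h2 : P.Separable := by
      have h3 := (Polynomial.separable_map (algebraMap ℚ N)).2 h1
      rw [Polynomial.map_map,
        RingHom.ext_int ((algebraMap ℚ N).comp (Int.castRingHom ℚ)) (Int.castRingHom N)] at h3
      exact h3
    have h4 := Polynomial.nodup_roots h2
    rw [← hMm] at h4
    exact Multiset.Nodup.of_map _ h4
  have hQroots : Q.roots = M := by
    rw [hprod, Polynomial.roots_multiset_prod_X_sub_C]
  have hQm : Q.Monic := hF.map _
  have hmemM : ∀ x : 𝓞 N, x ∈ M ↔ aeval x F = 0 := by
    intro x
    rw [← hQroots, Polynomial.mem_roots hQm.ne_zero, Polynomial.IsRoot.def, hQ,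
      Polynomial.eval_map, Polynomial.aeval_def,
      RingHom.ext_int (algebraMap ℤ (𝓞 N)) (Int.castRingHom (𝓞 N))]
  set Y : k := ZMod.castHom (dvd_refl q) k y with hY
  have hset : {x : 𝓞 N | aeval x F = 0 ∧ red x = Y} =
      ↑((M.toFinset).filter (fun x => Y = red x)) := by
    ext x
    rw [Finset.mem_coe, Finset.mem_filter, Multiset.mem_toFinset, hmemM]
    constructor
    · rintro ⟨h1, h2⟩
      exact ⟨h1, h2.symm⟩
    · rintro ⟨h1, h2⟩
      exact ⟨h1, h2.symm⟩
  have hmult : (F.map (Int.castRingHom k)).rootMultiplicity Y =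
      (M.filter fun x => Y = red x).card := by
    have h2 : F.map (Int.castRingHom k) = ((M.map red).map fun a => X - C a).prod := by
      have h3 : F.map (Int.castRingHom k) = Q.map red := by
        rw [hQ, Polynomial.map_map,
          RingHom.ext_int (red.comp (Int.castRingHom (𝓞 N))) (Int.castRingHom k)]
      rw [h3]
      conv_lhs => rw [hprod]
      rw [Polynomial.map_multiset_prod, Multiset.map_map, Multiset.map_map]
      congr 1
      refine Multiset.map_congr rfl fun a _ => ?_
      simp
    rw [← Polynomial.count_roots, h2, Polynomial.roots_multiset_prod_X_sub_C, Multiset.count_map]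
  have hy : (F.map (Int.castRingHom (ZMod q))).rootMultiplicity y =
      (F.map (Int.castRingHom k)).rootMultiplicity Y := by
    have h1 := Polynomial.eq_rootMultiplicity_map (p := F.map (Int.castRingHom (ZMod q)))
      (f := ZMod.castHom (dvd_refl q) k) (RingHom.injective _) y
    rw [h1, Polynomial.map_map,
      RingHom.ext_int ((ZMod.castHom (dvd_refl q) k).comp (Int.castRingHom (ZMod q)))
        (Int.castRingHom k)]
  rw [hset]
  refine ⟨Finset.finite_toSet _, ?_⟩
  rw [Set.ncard_coe_finset, hy, hmult, ← Multiset.toFinset_filter,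
    Multiset.toFinset_card_of_nodup (hnd.filter _)]

end Pool.Agent.SS.FM
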