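import Mathlib
import Pool.Agent.Work.MP_a5099b_nt.FM.Defs

/-!
# Module FM/GDesc (S-M)

The fixed field. PROOF. `M = IntermediateField.fixedField (Subgroup.zpowers σ)` as a field between `K` and `N` (`↥M : Type`), a number field (finite over `K`), with the inclusion `j : M → N`. `x₀, t₁ ∈ M` because `σ ^ i` fixes them. All the equations hold in `M` because they hold in `N` (`j` is injective and commutes with `kap K M`, `kap K N`: `IsScalarTower`, and with `aeval` of
integral polynomials). `x ^ 2 = -l` in `M` gives `σ x = x`, `x ^ 2 = -l` in `N`.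
-/

set_option autoImplicit false

namespace Pool.Agent.SS.FM

open NumberField IsDedekindDomain Polynomial

theorem descend {K N : Type} [Field K] [NumberField K] [Field N] [NumberField N] [Algebra K N]
    (σ : N ≃ₐ[K] N) (l : ℕ) (hns : ∀ z : N, σ z = z → z ^ 2 ≠ -(l : N)) (F : ℤ[X]) (x₀ t₁ : N)
    (hx : σ x₀ = x₀) (ht : σ t₁ = t₁) (hF : aeval x₀ F = 0) (P Q : Polynomial (𝓞 K))
    (hP : P.eval₂ (kap K N) t₁ = x₀ * Q.eval₂ (kap K N) t₁) (hQ : Q.eval₂ (kap K N) t₁ ≠ 0)
    (h0 : x₀ ≠ 0) (h1 : x₀ ≠ 1728) :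
    ∃ (M : Type) (_ : Field M) (_ : NumberField M) (_ : Algebra K M) (x t : M),
      (∀ z : M, z ^ 2 ≠ -(l : M)) ∧ aeval x F = 0 ∧
      P.eval₂ (kap K M) t = x * Q.eval₂ (kap K M) t ∧ Q.eval₂ (kap K M) t ≠ 0 ∧ x ≠ 0 ∧ x ≠ 1728 := by
  classical
  have hfix : ∀ z : N, σ z = z → ∀ g ∈ Subgroup.zpowers σ, g z = z := by
    intro z hz g hg
    have h2 : Subgroup.zpowers σ ≤ MulAction.stabilizer (N ≃ₐ[K] N) z := by
      rw [Subgroup.zpowers_le]
      exact hz
    exact h2 hg
  let M0 : IntermediateField K N := IntermediateField.fixedField (Subgroup.zpowers σ)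
  have hmem : ∀ z : N, z ∈ M0 ↔ ∀ g ∈ Subgroup.zpowers σ, g z = z := fun z =>
    IntermediateField.mem_fixedField_iff _ _
  have hfin : FiniteDimensional K N := FiniteDimensional.right ℚ K N
  have hfin2 : FiniteDimensional K M0 := inferInstance
  have hnf : NumberField M0 := NumberField.of_module_finite K M0
  let j : M0 →+* N := M0.val.toRingHom
  have hj : ∀ z : M0, j z = (z : N) := fun z => rfl
  have hjinj : Function.Injective j := j.injective
  let x : M0 := ⟨x₀, (hmem x₀).2 (hfix x₀ hx)⟩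
  let t : M0 := ⟨t₁, (hmem t₁).2 (hfix t₁ ht)⟩
  have hkap : j.comp (kap K M0) = kap K N := by
    ext a
    rfl
  have hev : ∀ R : Polynomial (𝓞 K), j (R.eval₂ (kap K M0) t) = R.eval₂ (kap K N) t₁ := by
    intro R
    rw [Polynomial.hom_eval₂, hkap]
    rfl
  refine ⟨M0, inferInstance, hnf, inferInstance, x, t, ?_, ?_, ?_, ?_, ?_, ?_⟩
  · intro z hz
    have h2 : σ (z : N) = (z : N) := (hmem z).1 z.2 σ (Subgroup.mem_zpowers σ)
    refine hns (z : N) h2 ?_
    have h3 := congrArg j hz
    rw [map_pow, map_neg, map_natCast] at h3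
    exact h3
  · apply hjinj
    rw [map_zero, Polynomial.aeval_def, Polynomial.hom_eval₂]
    have h2 : j.comp (algebraMap ℤ M0) = algebraMap ℤ N := RingHom.ext_int _ _
    rw [h2]
    exact hF
  · apply hjinj
    rw [map_mul, hev, hev]
    exact hP
  · intro h2
    apply hQ
    rw [← hev, h2, map_zero]
  · intro h2
    apply h0
    have h3 := congrArg j h2
    rwa [map_zero] at h3
  · intro h2
    apply h1
    have h3 := congrArg j h2
    have h4 : j (1728 : M0) = 1728 := map_ofNat j 1728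
    rw [h4] at h3
    exact h3

end Pool.Agent.SS.FM
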