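import Mathlib

/-!
# Module FM/GFix (S-M)

A map of 2-power order on an odd set has a fixed point (pure). PROOF: induction on `a`, for all `S` and `f`. `a = 0`: `f x = x` for all `x ∈ S`, and `S` is not empty. `a + 1`: `g = f^[2 ^ a]` maps `S` to `S` and `g (g x) = f^[2 ^ (a + 1)] x = x`: an involution on the finite set `S`, so the number of its fixed points has the parity of `S.ncard`
(`Finset.card_involution`-type, `Function.Involutive.card_fixedPoints`-type, or `MulAction.card_modEq_card_fixedPoints`; or `Equiv.Perm.card_fixedPoints_modEq`). `S' = {x ∈ S | g x = x}` is odd, `f` maps `S'` to `S'` (`f` commutes with its iterates), and `f^[2 ^ a] x = x` on `S'`.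
-/

set_option autoImplicit false

namespace Pool.Agent.SS.FM

open NumberField IsDedekindDomain

theorem odd_fix {α : Type} (S : Set α) (hS : S.Finite) (hodd : Odd S.ncard) (f : α → α)
    (hf : ∀ x ∈ S, f x ∈ S) (a : ℕ) (ha : ∀ x ∈ S, f^[2 ^ a] x = x) : ∃ x ∈ S, f x = x := by
  classical
  haveI : Fintype S := hS.fintype
  haveI : Fact (Nat.Prime 2) := ⟨Nat.prime_two⟩
  let g : Function.End S := fun x => ⟨f x, hf x x.2⟩
  have hit : ∀ (n : ℕ) (x : S), (((g ^ n : Function.End S) x : S) : α) = f^[n] (x : α) := by
    intro n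
    induction n with
    | zero => intro x; rfl
    | succ n ih =>
      intro x
      have h1 : (g ^ (n + 1) : Function.End S) x = (g ^ n : Function.End S) (g x) := by
        rw [pow_succ]
        rfl
      rw [h1, ih (g x), Function.iterate_succ_apply]
  have hg : g ^ 2 ^ a = 1 := by
    funext x
    apply Subtype.ext
    rw [hit]
    exact ha x x.2
  have h := Equiv.Perm.card_fixedPoints_modEq hg
  have hcard : Fintype.card S = S.ncard := by
    rw [Set.ncard_eq_toFinset_card' S, Set.toFinset_card]
  have hne : Fintype.card (Function.fixedPoints g) ≠ 0 := by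
    intro h0
    rw [h0, hcard] at h
    have h2 := hodd
    rw [Nat.odd_iff] at h2
    unfold Nat.ModEq at h
    omega
  obtain ⟨y⟩ := Fintype.card_pos_iff.1 (Nat.pos_of_ne_zero hne)
  refine ⟨y.1.1, y.1.2, ?_⟩
  have h3 : g y.1 = y.1 := y.2
  exact congrArg Subtype.val h3

end Pool.Agent.SS.FM
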