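import Mathlib

/-!
# Module FM/GFrob (M)

A Frobenius element of 2-power order. PROOF. `P` a prime ideal of `𝓞 N` above `v.asIdeal` (`Ideal.exists_ideal_over_prime_of_isIntegral`, see `D5/TwoP.lean`), `k = 𝓞 N ⧸ P`, a finite field (`P ≠ ⊥`: `Ring.HasFiniteQuotients`/`Ideal.finiteQuotientOfFreeOfNeBot`, `Ideal.Quotient.field` with `P` maximal), `red = Ideal.Quotient.mk P`. The group `G = N ≃ₐ[K] N` acts on `𝓞 N`
with `Algebra.IsInvariant (𝓞 K) (𝓞 N) G` (`Algebra.isInvariant_of_isGalois (𝓞 K) K N (𝓞 N)` with the action `IsIntegralClosure.MulSemiringAction (𝓞 K) K N (𝓞 N)`, for which `algebraMap (σ • x) = σ (algebraMap x)`: `algebraMap_galRestrict_apply`). `IsArithFrobAt.exists_of_isInvariant (𝓞 K) G P`: `σ₀` with `σ₀ • x - x ^ Nat.card (𝓞 K ⧸ P.under (𝓞 K)) ∈ P`, and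
`P.under (𝓞 K) = v.asIdeal`. Let `orderOf σ₀ = 2 ^ a * m`, `m` odd (`Nat.exists_eq_two_pow_mul_odd`), `σ = σ₀ ^ m`: `σ ^ (2 ^ a) = 1`, and by induction on `j` `red (σ₀ ^ j x) = red x ^ (card ^ j)`.
-/

set_option autoImplicit false

namespace Pool.Agent.SS.FM

open NumberField IsDedekindDomain

theorem exists_frob {K N : Type} [Field K] [NumberField K] [Field N] [NumberField N] [Algebra K N]
    [IsGalois K N] (v : HeightOneSpectrum (𝓞 K)) :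
    ∃ (k : Type) (_ : Field k) (_ : Finite k) (red : 𝓞 N →+* k) (σ : N ≃ₐ[K] N) (a m : ℕ),
      Odd m ∧ σ ^ (2 ^ a) = 1 ∧
      (∀ x : 𝓞 K, red (algebraMap (𝓞 K) (𝓞 N) x) = 0 ↔ x ∈ v.asIdeal) ∧
      ∀ x y : 𝓞 N, algebraMap (𝓞 N) N y = σ (algebraMap (𝓞 N) N x) →
        red y = red x ^ (Nat.card (𝓞 K ⧸ v.asIdeal) ^ m) := by
  classical
  have hvmax : v.asIdeal.IsMaximal := v.isMaximal
  obtain ⟨P, hPmax, hPv⟩ :=
    Ideal.exists_maximal_ideal_liesOver_of_isIntegral (S := 𝓞 N) v.asIdeal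
  have hunder : P.under (𝓞 K) = v.asIdeal := hPv.over.symm
  have hP0 : P ≠ ⊥ := by
    intro h
    apply v.ne_bot
    rw [← hunder, h]
    exact Ideal.comap_bot_of_injective _ (FaithfulSMul.algebraMap_injective (𝓞 K) (𝓞 N))
  have hfin : Finite (𝓞 N ⧸ P) := Ideal.finiteQuotientOfFreeOfNeBot P hP0
  have hPp : P.IsPrime := hPmax.isPrime
  have h1 := Algebra.isInvariant_of_isGalois' (𝓞 K) K N (𝓞 N)
  have h2 : Finite (𝓞 N ≃ₐ[𝓞 K] 𝓞 N) :=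
    Finite.of_equiv _ (galRestrict (𝓞 K) K N (𝓞 N)).toEquiv
  obtain ⟨τ, hτ⟩ := IsArithFrobAt.exists_of_isInvariant (𝓞 K) (𝓞 N ≃ₐ[𝓞 K] 𝓞 N) P
  obtain ⟨c, hc⟩ : ∃ c : ℕ, c = Nat.card (𝓞 K ⧸ v.asIdeal) := ⟨_, rfl⟩
  obtain ⟨σ₀, hσ₀⟩ : ∃ σ₀ : N ≃ₐ[K] N, σ₀ = (galRestrict (𝓞 K) K N (𝓞 N)).symm τ := ⟨_, rfl⟩
  have hact : ∀ x : 𝓞 N, σ₀ (algebraMap (𝓞 N) N x) = algebraMap (𝓞 N) N (τ x) := by
    intro x
    have h3 := algebraMap_galRestrict_apply (𝓞 K) (K := K) (L := N) (B := 𝓞 N) σ₀ x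
    rw [hσ₀, MulEquiv.apply_symm_apply] at h3
    rw [hσ₀]
    exact h3.symm
  have hfrob : ∀ x : 𝓞 N, Ideal.Quotient.mk P (τ x) = Ideal.Quotient.mk P x ^ c := by
    intro x
    have h3 := hτ x
    rw [hunder, ← hc] at h3
    rw [← map_pow, Ideal.Quotient.mk_eq_mk_iff_sub_mem]
    exact h3
  have hpow : ∀ (j : ℕ) (x y : 𝓞 N), algebraMap (𝓞 N) N y = (σ₀ ^ j) (algebraMap (𝓞 N) N x) →
      Ideal.Quotient.mk P y = Ideal.Quotient.mk P x ^ (c ^ j) := by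
    intro j
    induction j with
    | zero =>
      intro x y h
      rw [pow_zero] at h
      have h3 : y = x := FaithfulSMul.algebraMap_injective (𝓞 N) N h
      rw [h3, pow_zero, pow_one]
    | succ j ih =>
      intro x y h
      rw [pow_succ, AlgEquiv.mul_apply, hact] at h
      rw [ih (τ x) y h, hfrob, ← pow_mul, pow_succ, mul_comm]
  have hord : 0 < orderOf σ₀ := orderOf_pos σ₀
  obtain ⟨a, m, hm, ham⟩ := Nat.exists_eq_two_pow_mul_odd hord.ne'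
  refine ⟨𝓞 N ⧸ P, Ideal.Quotient.field P, hfin, Ideal.Quotient.mk P, σ₀ ^ m, a, m, hm, ?_, ?_, ?_⟩
  · rw [← pow_mul, mul_comm, ← ham]
    exact pow_orderOf_eq_one σ₀
  · intro x
    rw [Ideal.Quotient.eq_zero_iff_mem, ← hunder]
    rfl
  · intro x y h
    rw [← hc]
    exact hpow m x y h

end Pool.Agent.SS.FM
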