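import Mathlib

/-!
# Module FM/GHens (M)

Hensel lemma for a split polynomial over a valuation ring. PROOF. Let `f = G.map R.subtype = C c * ∏ (X - C t)` over the multiset `s` of its roots (`Polynomial.Splits.eq_prod_roots`), `f ≠ 0` because `G.map ψ ≠ 0` (its derivative is not zero). Split `s = s₁ + s₂`: the roots in `R` and the others (`Multiset.filter`). For `t ∈ s₂`: `t ≠ 0`, `t⁻¹ ∈ R` and
`ψ t⁻¹ = 0` (otherwise `t ∈ R` by `hinv`). `U₁ = ∏_{t ∈ s₁} (X - C t)`, `U₂ = ∏_{t ∈ s₂} (C t⁻¹ * X - 1)`, both over `R`, and `f = C c' * (U₁ U₂)` with `c' = c ∏_{t ∈ s₂} t ∈ N`, `c' ≠ 0`. `U.map ψ = ∏_{s₁} (X - C (ψ t)) * (-1) ^ card s₂ ≠ 0`. If `c' ∉ R`, then `c'⁻¹ ∈ R`, `ψ c'⁻¹ = 0` (`hval`, `hinv`), and `C c'⁻¹ * G = U` in `R[X]` (injectivity of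
`R.subtype`) gives `0 = U.map ψ`, false. So `c' ∈ R`, `G = C c' * U`, `G.map ψ = C (ψ c') * (±1) ∏_{s₁} (X - C (ψ t))`, `ψ c' ≠ 0`. The value at `t0` is 0 and the derivative at `t0` is not: the multiplicity of `t0` is one, so exactly one `t ∈ s₁` (with multiplicity) has `ψ t = t0`. Every `t : R` with `G.eval t = 0` lies in `s₁`.
-/

set_option autoImplicit false

namespace Pool.Agent.SS.FM

open NumberField IsDedekindDomain Polynomial

private theorem hens_aux {N k : Type} [Field N] [Field k] (R : Subring N) (ψ : R →+* k)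
    (hinv : ∀ (x : N) (h : x ∈ R), ψ ⟨x, h⟩ ≠ 0 → x⁻¹ ∈ R) (hval : ∀ x : N, x ∈ R ∨ x⁻¹ ∈ R)
    (s : Multiset N) : (∀ t ∈ s, t ∉ R) → ∃ V : R[X], V.map ψ = 1 ∧ V.coeff 0 = 1 ∧
      (s.map (fun t => X - C t)).prod = C ((s.map (fun t => -t)).prod) * V.map R.subtype := by
  induction s using Multiset.induction with
  | empty =>
    intro _
    exact ⟨1, by simp, by simp, by simp⟩
  | cons t s ih =>
    intro hs
    obtain ⟨V, h1, h2, h3⟩ := ih fun x hx => hs x (Multiset.mem_cons_of_mem hx)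
    have ht : t ∉ R := hs t (Multiset.mem_cons_self t s)
    have hti : t⁻¹ ∈ R := (hval t).resolve_left ht
    have ht0 : t ≠ 0 := by
      rintro rfl
      exact ht R.zero_mem
    have hψ : ψ ⟨t⁻¹, hti⟩ = 0 := by
      by_contra hne
      have := hinv _ hti hne
      rw [inv_inv] at this
      exact ht this
    refine ⟨(1 - C ⟨t⁻¹, hti⟩ * X) * V, ?_, ?_, ?_⟩
    · rw [Polynomial.map_mul, h1, Polynomial.map_sub, Polynomial.map_mul, map_C, hψ]
      simp
    · rw [mul_coeff_zero, h2]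
      simp
    · rw [Multiset.map_cons, Multiset.prod_cons, h3, Multiset.map_cons, Multiset.prod_cons,
        Polynomial.map_mul, Polynomial.map_sub, Polynomial.map_mul, map_C, map_X]
      have e : (X - C t : N[X]) = C (-t) * (1 - C t⁻¹ * X) := by
        rw [mul_sub, ← mul_assoc, ← C_mul, neg_mul, mul_inv_cancel₀ ht0]
        simp only [C_neg, C_1]
        ring
      have e2 : R.subtype ⟨t⁻¹, hti⟩ = t⁻¹ := rfl
      rw [e, e2, C_mul, Polynomial.map_one]
      ring

theorem hens {N k : Type} [Field N] [Field k] (R : Subring N) (ψ : R →+* k)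
    (hinv : ∀ (x : N) (h : x ∈ R), ψ ⟨x, h⟩ ≠ 0 → x⁻¹ ∈ R) (hval : ∀ x : N, x ∈ R ∨ x⁻¹ ∈ R)
    (G : R[X]) (hG : (G.map R.subtype).Splits) (t0 : k) (h0 : (G.map ψ).eval t0 = 0)
    (h1 : (derivative (G.map ψ)).eval t0 ≠ 0) :
    ∃ t : R, (G.eval t = 0 ∧ ψ t = t0) ∧ ∀ t' : R, G.eval t' = 0 → ψ t' = t0 → t' = t := by
  have hinj : Function.Injective R.subtype := R.subtype_injective
  have hGψ : G.map ψ ≠ 0 := by
    intro h
    rw [h] at h1
    simp at h1
  have hG0 : G ≠ 0 := by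
    rintro rfl
    exact hGψ (Polynomial.map_zero ψ)
  obtain ⟨H, hH1, -, hH2⟩ := exists_prod_multiset_X_sub_C_mul G
  have hH0 : H ≠ 0 := by
    rintro rfl
    exact hG0 (by rw [← hH1, mul_zero])
  have hHs : (H.map R.subtype).Splits := by
    refine hG.of_dvd ?_ ?_
    · intro h
      exact hG0 ((Polynomial.map_eq_zero_iff hinj).1 h)
    · exact Polynomial.map_dvd _ ⟨_, by rw [mul_comm]; exact hH1.symm⟩
  have hHconst : H.map ψ = C (ψ (H.coeff 0)) := by
    have hroots : ∀ t ∈ (H.map R.subtype).roots, t ∉ R := by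
      intro t ht htR
      have h2 := (mem_roots'.1 ht).2
      have h3 : H.eval ⟨t, htR⟩ = 0 := by
        apply hinj
        rw [map_zero, ← eval_map_apply]
        exact h2
      have h4 : (⟨t, htR⟩ : R) ∈ H.roots := mem_roots'.2 ⟨hH0, h3⟩
      rw [hH2] at h4
      simp at h4
    obtain ⟨V, hV1, hV2, hV3⟩ := hens_aux R ψ hinv hval _ hroots
    have h5 := hHs.eq_prod_roots
    rw [hV3, ← mul_assoc, ← C_mul] at h5
    set c := (H.map R.subtype).leadingCoeff * ((H.map R.subtype).roots.map (fun t => -t)).prod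
      with hc
    have h6 : R.subtype (H.coeff 0) = c := by
      have h7 := congrArg (fun p => coeff p 0) h5
      simp only [coeff_map, coeff_C_mul, hV2, map_one, mul_one] at h7
      exact h7
    have h8 : H = C (H.coeff 0) * V := by
      apply Polynomial.map_injective _ hinj
      rw [Polynomial.map_mul, map_C, h6]
      exact h5
    conv_lhs => rw [h8]
    rw [Polynomial.map_mul, map_C, hV1, mul_one]
  have hκ : ψ (H.coeff 0) ≠ 0 := by
    intro h
    rw [h, C_0] at hHconst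
    apply hGψ
    rw [← hH1, Polynomial.map_mul, hHconst, mul_zero]
  have hex : ∃ t ∈ G.roots, ψ t = t0 := by
    have h2 := h0
    rw [← hH1, Polynomial.map_mul, eval_mul, hHconst, eval_C] at h2
    have h3 := (mul_eq_zero.1 h2).resolve_right hκ
    rw [Polynomial.map_multiset_prod, Multiset.map_map, eval_multiset_prod, Multiset.map_map,
      Multiset.prod_eq_zero_iff] at h3
    obtain ⟨t, ht, ht2⟩ := Multiset.mem_map.1 h3
    refine ⟨t, ht, ?_⟩
    simp only [Function.comp_apply, Polynomial.map_sub, map_X, map_C, eval_sub, eval_X,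
      eval_C] at ht2
    exact (sub_eq_zero.1 ht2).symm
  obtain ⟨t, ht, htψ⟩ := hex
  have ht0 : G.eval t = 0 := (mem_roots'.1 ht).2
  refine ⟨t, ⟨ht0, htψ⟩, fun t' ht' htψ' => ?_⟩
  by_contra hne
  obtain ⟨G1, hG1⟩ := dvd_iff_isRoot.2 (show IsRoot G t from ht0)
  have h2 : G1.eval t' = 0 := by
    rw [hG1, eval_mul, eval_sub, eval_X, eval_C] at ht'
    exact (mul_eq_zero.1 ht').resolve_left (sub_ne_zero.2 hne)
  obtain ⟨G2, hG2⟩ := dvd_iff_isRoot.2 (show IsRoot G1 t' from h2)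
  apply h1
  rw [hG1, hG2]
  simp only [Polynomial.map_mul, Polynomial.map_sub, map_X, map_C, htψ, htψ', derivative_mul,
    eval_add, eval_mul, eval_sub, eval_X, eval_C, sub_self, zero_mul, mul_zero, add_zero]

end Pool.Agent.SS.FM
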