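import Mathlib

/-!
# Module FM/GNsq (S-M)

Square roots of nonresidues (pure). PROOF. In `k`: `(-l : k) ^ ((q - 1) / 2) = -1`, the image of `(-l : ZMod q) ^ (q / 2) = legendreSym q (-l) = jacobiSym (-l) q = -1` (`legendreSym.eq_pow`, `jacobiSym.legendreSym.to_jacobiSym`; see `C/MIn.lean`). So `z ^ (q - 1) = (z ^ 2) ^ ((q - 1) / 2) = -1`, `z ^ q = -z`, and by induction (`(-z) ^ q = z` as `q` is odd)
`z ^ (q ^ f) = (-1) ^ f z = -z` for odd `f`. `-z = z` would give `2 z = 0`, `z = 0` (characteristic `q > 2`), `l = 0` in `k`, so `jacobiSym (-l) q = 0`.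
-/

set_option autoImplicit false

namespace Pool.Agent.SS.FM

open NumberField IsDedekindDomain

theorem not_fix {k : Type} [Field k] {q : ℕ} [Fact q.Prime] [CharP k q] (h2 : 2 < q) {l : ℕ}
    (hj : jacobiSym (-l) q = -1) (z : k) (hz : z ^ 2 = -(l : k)) (f : ℕ) (hf : Odd f) :
    z ^ (q ^ f) ≠ z := by
  have hq : q.Prime := Fact.out
  have hodd : Odd q := hq.odd_of_ne_two (by omega)
  have e1 : legendreSym q (-(l : ℤ)) = -1 := by
    rw [jacobiSym.legendreSym.to_jacobiSym]; exact hj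
  have e2 : (((-(l : ℤ) : ℤ)) : ZMod q) ^ (q / 2) = -1 := by
    rw [← legendreSym.eq_pow, e1]; simp
  have e3 : (-(l : k)) ^ (q / 2) = -1 := by
    have := congrArg (ZMod.castHom (dvd_refl q) k) e2
    simpa using this
  have hq2 : q = 2 * (q / 2) + 1 := by
    obtain ⟨m, hm⟩ := hodd
    omega
  have e4 : z ^ q = -z := by
    conv_lhs => rw [hq2]
    rw [pow_succ, pow_mul, hz, e3]; ring
  have e5 : ∀ n : ℕ, z ^ (q ^ n) = (-1) ^ n * z := by
    intro n
    induction n with
    | zero => simp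
    | succ n ih =>
      have h6 : ((-1 : k) ^ n) ^ q = (-1) ^ n := by
        rw [← pow_mul, mul_comm, pow_mul, hodd.neg_one_pow]
      rw [pow_succ, pow_mul, ih, mul_pow, h6, e4, pow_succ]; ring
  intro h
  rw [e5, hf.neg_one_pow] at h
  have h7 : (2 : k) * z = 0 := by linear_combination (-1 : k) * h
  have h8 : (2 : k) ≠ 0 := by
    intro h9
    have h10 : ((2 : ℕ) : k) = 0 := by exact_mod_cast h9
    rw [CharP.cast_eq_zero_iff k q] at h10
    exact absurd (Nat.le_of_dvd (by norm_num) h10) (by omega)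
  have h9 : z = 0 := (mul_eq_zero.1 h7).resolve_left h8
  rw [h9] at hz
  have h10 : -(l : k) = 0 := by rw [← hz]; simp
  rw [h10, zero_pow (by omega)] at e3
  exact one_ne_zero (by linear_combination e3 : (1 : k) = 0)

end Pool.Agent.SS.FM
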