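import Mathlib
import Pool.Agent.Work.MP_a5099b_nt.FM.Defs
import Pool.Agent.Work.MP_a5099b_nt.SpecB
import Pool.Agent.Work.MP_a5099b_nt.J.HVal

/-!
# Module FM/GSpl (M)

A Galois extension over which all the polynomials split. PROOF. `H = HH l` monic. Over a field `L ⊇ K` in which `H = ∏ (X - x)` splits: the homogenised polynomial `Hom = HV H P Q = ∑_i H.coeff i * P ^ i * Q ^ (deg H - i)` (`J.HV`, `J/Defs.lean`) is `∏_x (P - C x * Q)` over `L` (both sides are the value of the homogenised form; e.g. induction on the multiset of the roots, or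
`J.HV_field` in the field of fractions `RatFunc L` and `Q ≠ 0`; if `Q = 0` then `hPQ` is false). `P - C x Q ≠ 0` for all `x`: otherwise `P = x Q`, `P' Q - P Q' = 0`. So `Hom ≠ 0`. `F = (HH l).map _ * Hom ∈ K[X]` (coefficients mapped from `𝓞 K` to `K`), `N = F.SplittingField`: normal and, in characteristic zero, separable, so Galois over `K`; a number field
(`NumberField.of_module_finite K N`). `F` splits over `N`, so its factors `HH l`, `Hom` split (`Polynomial.Splits` of a divisor of a nonzero polynomial) and so do the factors `P - x Q` of `Hom` for the roots `x` of `HH l` in `N`.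
-/

set_option autoImplicit false

namespace Pool.Agent.SS.FM

open NumberField IsDedekindDomain Polynomial

private theorem gspl_fin {K : Type} [Field K] [NumberField K] (T : Finset (AlgebraicClosure K)) :
    ∃ (F : IntermediateField K (AlgebraicClosure K)) (_ : FiniteDimensional K F)
      (_ : IsGalois K F), ∀ z ∈ T, z ∈ F := by
  classical
  have hT : ∀ z ∈ T, IsAlgebraic K z := fun z _ => Algebra.IsAlgebraic.isAlgebraic z
  set p : Polynomial K := ∏ z ∈ T, minpoly K z with hp
  have hp0 : p ≠ 0 := Finset.prod_ne_zero_iff.2 fun z hz => minpoly.ne_zero (hT z hz).isIntegral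
  have hsp : (p.map (algebraMap K (AlgebraicClosure K))).Splits := IsAlgClosed.splits _
  have := IntermediateField.adjoin_rootSet_isSplittingField hsp
  have h1 : FiniteDimensional K (IntermediateField.adjoin K (p.rootSet (AlgebraicClosure K))) :=
    Polynomial.IsSplittingField.finiteDimensional _ p
  have h2 : Normal K (IntermediateField.adjoin K (p.rootSet (AlgebraicClosure K))) :=
    Normal.of_isSplittingField p
  refine ⟨IntermediateField.adjoin K (p.rootSet (AlgebraicClosure K)), h1, { }, fun z hz => ?_⟩
  apply IntermediateField.subset_adjoin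
  rw [Polynomial.mem_rootSet_of_ne hp0, hp, map_prod]
  exact Finset.prod_eq_zero hz (minpoly.aeval K z)

theorem exists_N {K : Type} [Field K] [NumberField K] (P Q : Polynomial (𝓞 K))
    (hPQ : derivative P * Q - P * derivative Q ≠ 0) {l : ℕ} (hl : LPrime l) :
    ∃ (N : Type) (_ : Field N) (_ : NumberField N) (_ : Algebra K N) (_ : IsGalois K N),
      ((HH l).map (Int.castRingHom N)).Splits ∧
      ∀ x : N, aeval x (HH l) = 0 → (P.map (kap K N) - C x * Q.map (kap K N)).Splits := by
  classical
  have hmon : (HH l).Monic := (isHH hl).monic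
  set ι : 𝓞 K →+* AlgebraicClosure K :=
    (algebraMap K (AlgebraicClosure K)).comp (algebraMap (𝓞 K) K) with hι
  set R0 : Finset (AlgebraicClosure K) :=
    ((HH l).map (Int.castRingHom (AlgebraicClosure K))).roots.toFinset with hR0
  set T : Finset (AlgebraicClosure K) :=
    R0 ∪ R0.biUnion (fun x => (P.map ι - C x * Q.map ι).roots.toFinset) with hT
  obtain ⟨F, h1, h2, hF⟩ := gspl_fin T
  have hNF : NumberField F := NumberField.of_module_finite K F
  refine ⟨F, inferInstance, hNF, inferInstance, h2, ?_, ?_⟩
  · have e1 : ((HH l).map (Int.castRingHom F)).map (algebraMap F (AlgebraicClosure K)) =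
        (HH l).map (Int.castRingHom (AlgebraicClosure K)) := by
      rw [Polynomial.map_map]
      congr 1
    apply Polynomial.Splits.of_splits_map (algebraMap F (AlgebraicClosure K))
      (IsAlgClosed.splits _)
    intro a ha
    rw [e1] at ha
    exact ⟨⟨a, hF a (Finset.mem_union_left _ (Multiset.mem_toFinset.2 ha))⟩, rfl⟩
  · intro x hx
    have e2 : ((P.map (kap K F) - C x * Q.map (kap K F))).map
        (algebraMap F (AlgebraicClosure K)) =
        P.map ι - C (algebraMap F (AlgebraicClosure K) x) * Q.map ι := by
      have e3 : (algebraMap F (AlgebraicClosure K)).comp (kap K F) = ι := by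
        ext y
        rfl
      rw [Polynomial.map_sub, Polynomial.map_mul, Polynomial.map_map, Polynomial.map_map,
        Polynomial.map_C, e3]
    have hxr : algebraMap F (AlgebraicClosure K) x ∈ R0 := by
      rw [hR0, Multiset.mem_toFinset, Polynomial.mem_roots
        ((hmon.map (Int.castRingHom (AlgebraicClosure K))).ne_zero), Polynomial.IsRoot.def,
        Polynomial.eval_map]
      have h4 : Polynomial.eval₂ (Int.castRingHom F) x (HH l) = 0 := by
        have := hx
        rw [Polynomial.aeval_def] at this
        exact this
      have h5 := congrArg (algebraMap F (AlgebraicClosure K)) h4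
      rw [Polynomial.hom_eval₂, map_zero] at h5
      have e4 : (algebraMap F (AlgebraicClosure K)).comp (Int.castRingHom F) =
          Int.castRingHom (AlgebraicClosure K) := RingHom.ext_int _ _
      rwa [e4] at h5
    apply Polynomial.Splits.of_splits_map (algebraMap F (AlgebraicClosure K))
      (IsAlgClosed.splits _)
    intro a ha
    rw [e2] at ha
    refine ⟨⟨a, hF a (Finset.mem_union_right _ (Finset.mem_biUnion.2
      ⟨_, hxr, Multiset.mem_toFinset.2 ha⟩))⟩, rfl⟩

end Pool.Agent.SS.FM
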