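import Mathlib

/-!
# Module FM/GVal (M)

The valuation ring of a prime of `𝓞 N`. PROOF. `R = {x | ∃ a s : 𝓞 N, red s ≠ 0 ∧ x * s = a}`, `ψ x = red a / red s`: a subring and a well defined homomorphism (copy `FM/Red.lean` or `C/MPl.lean`; `k` is a field). `hval`: `p = RingHom.ker red` is a prime ideal of the Dedekind domain `𝓞 N`. If `p = ⊥`: `x = a / s` with `s ≠ 0`, `x ∈ R`. If `p ≠ ⊥`: the localization at `p` is a discrete
valuation ring; concretely, with `v = ⟨p, _, _⟩ : HeightOneSpectrum (𝓞 N)`: `x ∈ R ↔ v.valuation N x ≤ 1` (`IsDedekindDomain.HeightOneSpectrum.valuation_le_one`-type; for `→`: `s ∉ p`; for `←`: `x = a / b`; choose by `exists_mem_ne_zero_mem`/`IsLocalization` an `s ∉ p` with `s x ∈ 𝓞 N`), e.g. `Localization.AtPrime p` is a valuation ring (`IsDiscreteValuationRing`,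
`ValuationRing`), so for `x = a / b` one of `a ∣ b`, `b ∣ a` holds in the localization: `a s = b c` or `b s = a c` with `s ∉ p`, i.e. `x = c / s` or `x⁻¹ = c / s`.
-/

set_option autoImplicit false

namespace Pool.Agent.SS.FM

open NumberField IsDedekindDomain

private theorem dvd_or {N : Type} [Field N] [NumberField N] {k : Type} [Field k] (red : 𝓞 N →+* k)
    (a b : 𝓞 N) (hb : b ≠ 0) :
    ∃ s c : 𝓞 N, red s ≠ 0 ∧ (a * s = b * c ∨ b * s = a * c) := by
  classical
  set p : Ideal (𝓞 N) := RingHom.ker red with hp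
  haveI : p.IsPrime := RingHom.ker_isPrime red
  by_cases h0 : p = ⊥
  · refine ⟨b, a, ?_, Or.inl (mul_comm _ _)⟩
    intro h
    have : b ∈ p := h
    rw [h0] at this
    exact hb this
  · haveI : IsDiscreteValuationRing (Localization.AtPrime p) :=
      IsLocalization.AtPrime.isDiscreteValuationRing_of_dedekind_domain (𝓞 N) h0 _
    have key : ∀ u v : 𝓞 N, algebraMap (𝓞 N) (Localization.AtPrime p) u ∣
        algebraMap (𝓞 N) (Localization.AtPrime p) v →
        ∃ s c : 𝓞 N, red s ≠ 0 ∧ v * s = u * c := by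
      rintro u v ⟨w, hw⟩
      obtain ⟨⟨c, s⟩, hcs⟩ := IsLocalization.surj p.primeCompl w
      refine ⟨s, c, fun h => s.2 h, ?_⟩
      have hinj : Function.Injective (algebraMap (𝓞 N) (Localization.AtPrime p)) :=
        IsLocalization.injective _ (Ideal.primeCompl_le_nonZeroDivisors p)
      apply hinj
      rw [map_mul, map_mul, hw, mul_assoc]
      congr 1
    rcases ValuationRing.dvd_total (algebraMap (𝓞 N) (Localization.AtPrime p) a)
      (algebraMap (𝓞 N) (Localization.AtPrime p) b) with h | h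
    · obtain ⟨s, c, hs, he⟩ := key a b h
      exact ⟨s, c, hs, Or.inr he⟩
    · obtain ⟨s, c, hs, he⟩ := key b a h
      exact ⟨s, c, hs, Or.inl he⟩

theorem exists_val {N : Type} [Field N] [NumberField N] {k : Type} [Field k] (red : 𝓞 N →+* k) :
    ∃ (R : Subring N) (ψ : R →+* k),
      (∀ x : 𝓞 N, ∃ h : algebraMap (𝓞 N) N x ∈ R, ψ ⟨algebraMap (𝓞 N) N x, h⟩ = red x) ∧
      (∀ (x : N) (h : x ∈ R), ψ ⟨x, h⟩ ≠ 0 → x⁻¹ ∈ R) ∧ (∀ x : N, x ∈ R ∨ x⁻¹ ∈ R) ∧
      ∀ x : N, x ∈ R ↔ ∃ a s : 𝓞 N, red s ≠ 0 ∧ x * algebraMap (𝓞 N) N s = algebraMap (𝓞 N) N a := by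
  classical
  have hinj : Function.Injective (algebraMap (𝓞 N) N) := IsFractionRing.injective (𝓞 N) N
  let R : Subring N :=
    { carrier := {x | ∃ a s : 𝓞 N, red s ≠ 0 ∧ x * algebraMap (𝓞 N) N s = algebraMap (𝓞 N) N a}
      mul_mem' := by
        rintro x y ⟨a, s, hs, hx⟩ ⟨b, t, ht, hy⟩
        refine ⟨a * b, s * t, by rw [map_mul]; exact mul_ne_zero hs ht, ?_⟩
        rw [map_mul, map_mul, ← hx, ← hy]; ring
      one_mem' := ⟨1, 1, by simp, by simp⟩
      add_mem' := by
        rintro x y ⟨a, s, hs, hx⟩ ⟨b, t, ht, hy⟩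
        refine ⟨a * t + b * s, s * t, by rw [map_mul]; exact mul_ne_zero hs ht, ?_⟩
        rw [map_mul, map_add, map_mul, map_mul, ← hx, ← hy]; ring
      zero_mem' := ⟨0, 1, by simp, by simp⟩
      neg_mem' := by
        rintro x ⟨a, s, hs, hx⟩
        exact ⟨-a, s, hs, by rw [map_neg, ← hx]; ring⟩ }
  have hR : ∀ x : N, x ∈ R ↔ ∃ a s : 𝓞 N, red s ≠ 0 ∧
      x * algebraMap (𝓞 N) N s = algebraMap (𝓞 N) N a := fun x => Iff.rfl
  choose! A S hS hA using fun (x : R) => (hR x.1).1 x.2
  have hS' : ∀ x : R, red (S x) ≠ 0 := fun x => hS x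
  have hA' : ∀ x : R, x.1 * algebraMap (𝓞 N) N (S x) = algebraMap (𝓞 N) N (A x) := fun x => hA x
  have wd : ∀ (x : R) (a s : 𝓞 N), red s ≠ 0 → x.1 * algebraMap (𝓞 N) N s = algebraMap (𝓞 N) N a →
      red (A x) / red (S x) = red a / red s := by
    intro x a s hs hx
    rw [div_eq_div_iff (hS' x) hs, ← map_mul, ← map_mul]
    congr 1
    apply hinj
    rw [map_mul, map_mul, ← hA' x, ← hx]; ring
  let ψ : R →+* k :=
    { toFun := fun x => red (A x) / red (S x)
      map_one' := by rw [wd 1 1 1 (by simp) (by simp)]; simp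
      map_zero' := by rw [wd 0 0 1 (by simp) (by simp)]; simp
      map_mul' := by
        intro x y
        rw [wd (x * y) (A x * A y) (S x * S y) (by rw [map_mul]; exact mul_ne_zero (hS' x) (hS' y))
          (by
            rw [map_mul, map_mul, ← hA' x, ← hA' y]
            show x.1 * y.1 * _ = _
            ring), map_mul, map_mul]
        rw [div_mul_div_comm]
      map_add' := by
        intro x y
        rw [wd (x + y) (A x * S y + A y * S x) (S x * S y)
          (by rw [map_mul]; exact mul_ne_zero (hS' x) (hS' y))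
          (by
            rw [map_mul, map_add, map_mul, map_mul, ← hA' x, ← hA' y]
            show (x.1 + y.1) * _ = _
            ring), map_mul, map_add, map_mul, map_mul]
        rw [div_add_div _ _ (hS' x) (hS' y)]
        ring }
  have hψ : ∀ (x : R) (a s : 𝓞 N), red s ≠ 0 → x.1 * algebraMap (𝓞 N) N s = algebraMap (𝓞 N) N a →
      ψ x = red a / red s := wd
  refine ⟨R, ψ, ?_, ?_, ?_, hR⟩
  · intro x
    have h : algebraMap (𝓞 N) N x ∈ R := ⟨x, 1, by simp, by simp⟩
    refine ⟨h, ?_⟩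
    rw [hψ ⟨_, h⟩ x 1 (by simp) (by simp)]
    simp
  · intro x h hne
    obtain ⟨a, s, hs, hx⟩ := (hR x).1 h
    rw [hψ ⟨x, h⟩ a s hs hx] at hne
    have ha : red a ≠ 0 := fun h0 => hne (by rw [h0, zero_div])
    have hs0 : algebraMap (𝓞 N) N s ≠ 0 := by
      intro h0
      apply hs
      have : s = 0 := hinj (by rw [h0, map_zero])
      rw [this, map_zero]
    have ha0 : algebraMap (𝓞 N) N a ≠ 0 := by
      intro h0
      apply ha
      have : a = 0 := hinj (by rw [h0, map_zero])
      rw [this, map_zero]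
    refine ⟨s, a, ha, ?_⟩
    have hx0 : x ≠ 0 := by
      rintro rfl
      rw [zero_mul] at hx
      exact ha0 hx.symm
    rw [← hx]
    field_simp
  · intro x
    obtain ⟨a, b, hb, hab⟩ := IsFractionRing.div_surjective (A := 𝓞 N) x
    have hb0 : b ≠ 0 := nonZeroDivisors.ne_zero hb
    have hb1 : algebraMap (𝓞 N) N b ≠ 0 := by
      intro h0
      exact hb0 (hinj (by rw [h0, map_zero]))
    by_cases ha0 : a = 0
    · left
      rw [← hab, ha0, map_zero, zero_div]
      exact R.zero_mem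
    have ha1 : algebraMap (𝓞 N) N a ≠ 0 := by
      intro h0
      exact ha0 (hinj (by rw [h0, map_zero]))
    obtain ⟨s, c, hs, h | h⟩ := dvd_or red a b hb0
    · left
      refine ⟨c, s, hs, ?_⟩
      have := congrArg (algebraMap (𝓞 N) N) h
      rw [map_mul, map_mul] at this
      rw [← hab, div_mul_eq_mul_div, this]
      field_simp
    · right
      refine ⟨c, s, hs, ?_⟩
      have := congrArg (algebraMap (𝓞 N) N) h
      rw [map_mul, map_mul] at this
      rw [← hab, inv_div, div_mul_eq_mul_div, this]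
      field_simp

end Pool.Agent.SS.FM
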