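import Mathlib
import Pool.Agent.Work.MP_a5099b_nt.FM.Defs
import Pool.Agent.Work.MP_a5099b_nt.SpecC
import Pool.Agent.Work.MP_a5099b_nt.D.Fin
import Pool.Agent.Work.MP_a5099b_nt.D4.LocG

/-!
# Module FM/GRes (M)

The supersingular residue is in the prime field. PROOF. `k = 𝓞 K ⧸ v.asIdeal` with the field structure `Ideal.Quotient.field`, finite, characteristic `q` (see the private `finQ`, `charP_quot'` in `D4/LocG.lean`). `z = mk α / mk β`. By `card_iff` (`C/ECard`) and `hc` (`W'.c₄ ^ 3 / W'.Δ = z`) `z` is supersingular. `z ≠ 0`, `z ≠ 1728` by `ha`, `hb`. `regular` (`D/Fin.lean`): `z ^ (q ^ 2) = z`; `z ^ (q ^ f) = z`,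
`f` odd: `z ^ q = z`, so `z` is the image of some `y : ZMod q` (as in `FM/SsOdd.lean`; the private `ex_fix` in `D4/ExSS.lean`), i.e. `z = (y.val : ℕ)` in `k`. `SSj q y` by `SSj_map`. `y ≠ 0, 1728`; and `y ≠ 8000` if `mk α ≠ 8000 * mk β`.
-/

set_option autoImplicit false

namespace Pool.Agent.SS.FM

open NumberField IsDedekindDomain

private theorem gres_finQ {K : Type} [Field K] [NumberField K] (v : HeightOneSpectrum (𝓞 K)) :
    Finite (𝓞 K ⧸ v.asIdeal) :=
  Ideal.finiteQuotientOfFreeOfNeBot v.asIdeal v.ne_bot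

private theorem gres_charP {K : Type} [Field K] {q : ℕ} (hq' : q.Prime)
    (v : HeightOneSpectrum (𝓞 K)) (hq : (q : 𝓞 K) ∈ v.asIdeal) : CharP (𝓞 K ⧸ v.asIdeal) q := by
  have hnt : Nontrivial (𝓞 K ⧸ v.asIdeal) := Ideal.Quotient.nontrivial_iff.2 v.isPrime.ne_top
  have h0 : ((q : ℕ) : 𝓞 K ⧸ v.asIdeal) = 0 := by
    have := Ideal.Quotient.eq_zero_iff_mem.2 hq
    rwa [map_natCast] at this
  obtain ⟨p, hp⟩ := CharP.exists (𝓞 K ⧸ v.asIdeal)
  have hdvd := (CharP.cast_eq_zero_iff (𝓞 K ⧸ v.asIdeal) p q).1 h0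
  rcases (Nat.dvd_prime hq').1 hdvd with h | h
  · exfalso
    rw [h] at hp
    have := (CharP.cast_eq_zero_iff (𝓞 K ⧸ v.asIdeal) 1 1).2 dvd_rfl
    rw [Nat.cast_one] at this
    exact one_ne_zero this
  · rwa [h] at hp

open Polynomial in
private theorem gres_fix {q : ℕ} [Fact q.Prime] {K : Type} [Field K] [Algebra (ZMod q) K] {z : K}
    (hz : z ^ q = z) : ∃ y : ZMod q, algebraMap (ZMod q) K y = z := by
  classical
  by_contra hno
  push Not at hno
  have hq : q.Prime := Fact.out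
  have h1 : (X ^ q - X : K[X]) ≠ 0 := FiniteField.X_pow_card_sub_X_ne_zero K hq.one_lt
  have h2 : (X ^ q - X : K[X]).natDegree = q := FiniteField.X_pow_card_sub_X_natDegree_eq K hq.one_lt
  set S : Finset K := (Finset.univ : Finset (ZMod q)).image (algebraMap (ZMod q) K) with hS
  have h3 : S.card = q := by
    rw [hS, Finset.card_image_of_injective _ (algebraMap (ZMod q) K).injective, Finset.card_univ,
      ZMod.card]
  have h4 : z ∉ S := by
    intro h
    rw [hS, Finset.mem_image] at h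
    obtain ⟨y, -, hy⟩ := h
    exact hno y hy
  have h5 : insert z S ⊆ (X ^ q - X : K[X]).roots.toFinset := by
    intro x hx
    rw [Multiset.mem_toFinset, mem_roots h1, IsRoot, eval_sub, eval_pow, eval_X, sub_eq_zero]
    rcases Finset.mem_insert.1 hx with rfl | hx
    · exact hz
    · rw [hS, Finset.mem_image] at hx
      obtain ⟨y, -, rfl⟩ := hx
      rw [← map_pow, ZMod.pow_card]
  have h6 := Finset.card_le_card h5
  rw [Finset.card_insert_of_notMem h4, h3] at h6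
  have h7 := (Multiset.toFinset_card_le (X ^ q - X : K[X]).roots).trans (card_roots' _)
  omega

private theorem gres_field {q : ℕ} [Fact q.Prime] (h5 : 5 ≤ q) (k : Type) [Field k] [Finite k]
    [CharP k q] (f : ℕ) (hf : Odd f) (hk : Nat.card k = q ^ f) (z : k) (hz : SSj q z) (h0 : z ≠ 0)
    (h1 : z ≠ 1728) : ∃ y : ZMod q, SSj q y ∧ z = ((y.val : ℕ) : k) := by
  have hq : q.Prime := Fact.out
  let _ : Algebra (ZMod q) k := ZMod.algebra k q
  have hr := (regular hq h5 z hz h0 h1).1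
  have hit : ∀ g : ℕ, z ^ (q ^ (2 * g)) = z := by
    intro g
    induction g with
    | zero => simp
    | succ g ih =>
      have h2 : q ^ (2 * (g + 1)) = q ^ (2 * g) * q ^ 2 := by
        rw [← pow_add]
        congr 1
      rw [h2, pow_mul, ih, hr]
  have hcard : z ^ (q ^ f) = z := by
    let _ : Fintype k := Fintype.ofFinite k
    have h2 := FiniteField.pow_card z
    rwa [← Nat.card_eq_fintype_card, hk] at h2
  obtain ⟨g, hg⟩ := hf
  have hzq : z ^ q = z := by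
    have h2 : q ^ f = q ^ (2 * g) * q := by
      rw [hg, pow_succ]
    rwa [h2, pow_mul, hit] at hcard
  obtain ⟨y, hy⟩ := gres_fix (q := q) hzq
  refine ⟨y, ?_, ?_⟩
  · rw [← hy] at hz
    exact (SSj_map hq h5 (algebraMap (ZMod q) k) y).1 hz
  · rw [← hy, ← map_natCast (algebraMap (ZMod q) k), ZMod.natCast_zmod_val]

private theorem gres_main {q : ℕ} [Fact q.Prime] (h7 : 7 ≤ q) (k : Type) [Field k] [Finite k]
    [CharP k q] (f : ℕ) (hf : Odd f) (hk : Nat.card k = q ^ f) (a b : k) (hb0 : b ≠ 0)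
    (W : WeierstrassCurve k) (hΔ : W.Δ ≠ 0) (hc : b * W.c₄ ^ 3 = a * W.Δ)
    (hn : Nat.card W.toAffine.Point ≡ 1 [MOD q]) (ha : a ≠ 0) (hb : a ≠ 1728 * b)
    (h8 : q % 4 = 1 → a ≠ 8000 * b) :
    ∃ y : ZMod q, SSj q y ∧ y ≠ 0 ∧ y ≠ 1728 ∧ (q % 4 = 1 → y ≠ 8000) ∧
      a = ((y.val : ℕ) : k) * b := by
  classical
  have hq : q.Prime := Fact.out
  let _ : Fintype k := Fintype.ofFinite k
  have hss : SSj q (W.c₄ ^ 3 / W.Δ) := (card_iff hq (by omega) W hΔ).1 hn
  set z : k := W.c₄ ^ 3 / W.Δ with hz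
  have haz : a = z * b := by
    rw [hz]
    field_simp
    linear_combination -hc
  have h0 : z ≠ 0 := by
    intro h
    apply ha
    rw [haz, h, zero_mul]
  have h1 : z ≠ 1728 := by
    intro h
    apply hb
    rw [haz, h]
  obtain ⟨y, hy, hyz⟩ := gres_field (by omega : 5 ≤ q) k f hf hk z hss h0 h1
  have hcast : ∀ n : ℕ, y = (n : ZMod q) → z = (n : k) := by
    intro n hn
    let _ : Algebra (ZMod q) k := ZMod.algebra k q
    rw [hyz, ← map_natCast (algebraMap (ZMod q) k) y.val, ZMod.natCast_zmod_val, hn, map_natCast]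
  refine ⟨y, hy, ?_, ?_, ?_, ?_⟩
  · intro h
    apply h0
    have := hcast 0 (by rw [h, Nat.cast_zero])
    rwa [Nat.cast_zero] at this
  · intro h
    apply h1
    have := hcast 1728 (by rw [h]; norm_num)
    rw [this]
    norm_num
  · intro hq4 h
    apply h8 hq4
    have := hcast 8000 (by rw [h]; norm_num)
    rw [haz, this]
    norm_num
  · rw [← hyz]
    exact haz

theorem res_prime {K : Type} [Field K] [NumberField K] {q : ℕ} [Fact q.Prime] (h7 : 7 ≤ q)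
    (v : HeightOneSpectrum (𝓞 K)) (hqv : (q : 𝓞 K) ∈ v.asIdeal)
    (hf : ∃ f : ℕ, Odd f ∧ Nat.card (𝓞 K ⧸ v.asIdeal) = q ^ f) (α β : 𝓞 K) (hβ : β ∉ v.asIdeal)
    (W' : WeierstrassCurve (𝓞 K ⧸ v.asIdeal)) (hΔ : W'.Δ ≠ 0)
    (hc : Ideal.Quotient.mk v.asIdeal β * W'.c₄ ^ 3 = Ideal.Quotient.mk v.asIdeal α * W'.Δ)
    (hn : Nat.card W'.toAffine.Point ≡ 1 [MOD q]) (ha : α ∉ v.asIdeal)
    (hb : α - 1728 * β ∉ v.asIdeal) (h8 : q % 4 = 1 → α - 8000 * β ∉ v.asIdeal) :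
    ∃ y : ZMod q, SSj q y ∧ y ≠ 0 ∧ y ≠ 1728 ∧ (q % 4 = 1 → y ≠ 8000) ∧
      Ideal.Quotient.mk v.asIdeal α = ((y.val : ℕ) : 𝓞 K ⧸ v.asIdeal) *
        Ideal.Quotient.mk v.asIdeal β := by
  have hq : q.Prime := Fact.out
  obtain ⟨f, hfo, hfk⟩ := hf
  let _ : Field (𝓞 K ⧸ v.asIdeal) := Ideal.Quotient.field v.asIdeal
  have : CharP (𝓞 K ⧸ v.asIdeal) q := gres_charP hq v hqv
  have : Finite (𝓞 K ⧸ v.asIdeal) := gres_finQ v
  have hmk : ∀ x y : 𝓞 K, x - y ∉ v.asIdeal →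
      Ideal.Quotient.mk v.asIdeal x ≠ Ideal.Quotient.mk v.asIdeal y := by
    intro x y h h'
    exact h (Ideal.Quotient.eq.1 h')
  refine gres_main h7 (𝓞 K ⧸ v.asIdeal) f hfo hfk (Ideal.Quotient.mk v.asIdeal α)
    (Ideal.Quotient.mk v.asIdeal β) ?_ W' hΔ hc hn ?_ ?_ ?_
  · intro h
    exact hβ (Ideal.Quotient.eq_zero_iff_mem.1 h)
  · intro h
    exact ha (Ideal.Quotient.eq_zero_iff_mem.1 h)
  · intro h
    refine hmk α (1728 * β) hb ?_
    rw [map_mul, map_ofNat]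
    exact h
  · intro hq4 h
    refine hmk α (8000 * β) (h8 hq4) ?_
    rw [map_mul, map_ofNat]
    exact h

end Pool.Agent.SS.FM
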