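import Mathlib
import Pool.Agent.Work.MP_a5099b_nt.FM.Core
import Pool.Agent.Work.MP_a5099b_nt.FM.GDefs
import Pool.Agent.Work.MP_a5099b_nt.FM.GL
import Pool.Agent.Work.MP_a5099b_nt.FM.GPt
import Pool.Agent.Work.MP_a5099b_nt.FM.GBad
import Pool.Agent.Work.MP_a5099b_nt.FM.GCert
import Pool.Agent.Work.MP_a5099b_nt.FM.GRes
import Pool.Agent.Work.MP_a5099b_nt.C.MHHs

/-!
# Module FM/GMain (helper91): one supersingular fibre, assembly
-/

set_option autoImplicit false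

namespace Pool.Agent.SS.FM

open NumberField IsDedekindDomain Polynomial

theorem spT_aeval {K M : Type} [Field K] [NumberField K] [Field M] [Algebra K M] (n : ℕ)
    (t : M) (P : Polynomial (𝓞 K)) :
    spT K n t (aeval (MvPolynomial.X 0 : MvPolynomial (Fin (n + 1)) (𝓞 K)) P) =
      MvPolynomial.C (P.eval₂ (kap K M) t) := by
  rw [aeval_def, hom_eval₂, spT_zero]
  have h : (spT K n t).comp (algebraMap (𝓞 K) (MvPolynomial (Fin (n + 1)) (𝓞 K))) =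
      MvPolynomial.C.comp (kap K M) := spT_comp_C n t
  rw [h]
  exact (hom_eval₂ P (kap K M) MvPolynomial.C t).symm

/-- The pull back has a not constant invariant, so the family has. -/
theorem nonconst {K : Type} [Field K] [NumberField K] {n : ℕ}
    (W : WeierstrassCurve (MvPolynomial (Fin (n + 1)) (𝓞 K)))
    (φ : Fin (n + 1) → MvPolynomial (Fin (n + 1)) (𝓞 K))
    (hΔ : (sp W MvPolynomial.C φ).Δ ≠ 0) (P Q : Polynomial (𝓞 K))
    (hPQ : (sp W MvPolynomial.C φ).c₄ ^ 3 * aeval (MvPolynomial.X 0) Q =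
      aeval (MvPolynomial.X 0) P * (sp W MvPolynomial.C φ).Δ)
    (hd : derivative P * Q - P * derivative Q ≠ 0) (a b : 𝓞 K) (ha : a ≠ 0) :
    MvPolynomial.C a * W.c₄ ^ 3 ≠ MvPolynomial.C b * W.Δ := by
  intro h
  have h1 := congrArg (MvPolynomial.eval₂Hom MvPolynomial.C φ) h
  rw [map_mul, map_mul, map_pow, MvPolynomial.eval₂Hom_C, MvPolynomial.eval₂Hom_C,
    MvPolynomial.coe_eval₂Hom, ← sp_c₄, ← sp_Δ] at h1
  set c := (sp W MvPolynomial.C φ).c₄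
  set D := (sp W MvPolynomial.C φ).Δ
  have hinj : Function.Injective
      (aeval (MvPolynomial.X 0 : MvPolynomial (Fin (n + 1)) (𝓞 K)) :
        Polynomial (𝓞 K) →ₐ[𝓞 K] MvPolynomial (Fin (n + 1)) (𝓞 K)) := by
    have h2 := MvPolynomial.algebraicIndependent_X (Fin (n + 1)) (𝓞 K)
    have h3 := h2.transcendental 0
    exact transcendental_iff_injective.1 h3
  have h2 : aeval (MvPolynomial.X 0 : MvPolynomial (Fin (n + 1)) (𝓞 K)) (Polynomial.C a * P) =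
      aeval (MvPolynomial.X 0) (Polynomial.C b * Q) := by
    rw [map_mul, map_mul, aeval_C, aeval_C, MvPolynomial.algebraMap_eq]
    apply mul_right_cancel₀ hΔ
    calc MvPolynomial.C a * aeval (MvPolynomial.X 0) P * D
        = MvPolynomial.C a * (aeval (MvPolynomial.X 0) P * D) := by ring
      _ = (MvPolynomial.C a * c ^ 3) * aeval (MvPolynomial.X 0) Q := by rw [← hPQ]; ring
      _ = MvPolynomial.C b * aeval (MvPolynomial.X 0) Q * D := by rw [h1]; ring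
  have h3 := hinj h2
  have h4 : Polynomial.C a * derivative P = Polynomial.C b * derivative Q := by
    have := congrArg derivative h3
    rwa [derivative_C_mul, derivative_C_mul] at this
  apply hd
  have h5 : Polynomial.C a * (derivative P * Q - P * derivative Q) = 0 := by
    calc Polynomial.C a * (derivative P * Q - P * derivative Q)
        = (Polynomial.C a * derivative P) * Q - (Polynomial.C a * P) * derivative Q := by ring
      _ = 0 := by rw [h3, h4]; ring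
  exact (mul_eq_zero.1 h5).resolve_left (fun h => ha (Polynomial.C_eq_zero.1 h))

theorem main_y {K K' : Type} [Field K] [NumberField K] [Field K'] [NumberField K'] [Algebra K K']
    {n : ℕ} (W : WeierstrassCurve (MvPolynomial (Fin (n + 1)) (𝓞 K)))
    (φ : Fin (n + 1) → MvPolynomial (Fin (n + 1)) (𝓞 K))
    (hφ : Algebra.IsAlgebraic (Algebra.adjoin (𝓞 K) (Set.range φ))
      (MvPolynomial (Fin (n + 1)) (𝓞 K)))
    (hΔ : (sp W MvPolynomial.C φ).Δ ≠ 0) (P Q : Polynomial (𝓞 K))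
    (hPQ : (sp W MvPolynomial.C φ).c₄ ^ 3 * aeval (MvPolynomial.X 0) Q =
      aeval (MvPolynomial.X 0) P * (sp W MvPolynomial.C φ).Δ)
    (v : HeightOneSpectrum (𝓞 K')) {q : ℕ} [hqF : Fact q.Prime] (h7 : 7 ≤ q)
    (hqv : (q : 𝓞 K') ∈ v.asIdeal)
    (hf : ∃ f : ℕ, Odd f ∧ Nat.card (𝓞 K' ⧸ v.asIdeal) = q ^ f) (t₀ : 𝓞 K')
    (hQ : aeval t₀ Q ∉ v.asIdeal)
    (hs : aeval t₀ (derivative P * Q - P * derivative Q) ∉ v.asIdeal)
    (y : ZMod q) (hy : SSj q y) (hy0 : y ≠ 0) (hy1 : y ≠ 1728) (hy8 : q % 4 = 1 → y ≠ 8000)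
    (hval : Ideal.Quotient.mk v.asIdeal (aeval t₀ P) =
      ((y.val : ℕ) : 𝓞 K' ⧸ v.asIdeal) * Ideal.Quotient.mk v.asIdeal (aeval t₀ Q))
    {ι : Type} [Fintype ι] (β : Module.Basis ι ℤ (𝓞 K)) (ε : ℝ) (hε : 0 < ε) :
    ∃ L : ℕ, ∀ (α : Fin (n + 1) × ι → ℤ) (T : Fin (n + 1) × ι → ℕ), (∀ i, L ≤ T i) →
      {z : Fin (n + 1) × ι → ℤ | (∀ i, α i ≤ z i ∧ z i < α i + T i) ∧ z ∈ ExcF β W}.Finite ∧
      ({z : Fin (n + 1) × ι → ℤ | (∀ i, α i ≤ z i ∧ z i < α i + T i) ∧ z ∈ ExcF β W}.ncard : ℝ) ≤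
        ε * ∏ i, (T i : ℝ) := by
  have hj := nonconst W φ hΔ P Q hPQ (by
    intro h
    rw [h, map_zero] at hs
    exact hs v.asIdeal.zero_mem)
  obtain ⟨E, hE, hspec⟩ := spec_cert φ hφ _ hΔ
  set f := algebraMap (𝓞 K) (𝓞 K') with hfdef
  have hinj : Function.Injective f := FaithfulSMul.algebraMap_injective (𝓞 K) (𝓞 K')
  have hE' : E.map f ≠ 0 := (Polynomial.map_ne_zero_iff hinj).2 hE
  obtain ⟨B, hB⟩ := bad_l (P.map f) (Q.map f) (E.map f) hE'
  obtain ⟨l, hl, hBl, hjac, hodd⟩ := exists_l h7 y hy hy0 hy1 hy8 B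
  have ev : ∀ F : Polynomial (𝓞 K), (F.map f).eval t₀ = aeval t₀ F := fun F => by
    rw [aeval_def, eval_map]
  obtain ⟨M, _, _, _, x, t, hM, hx, hP, hQt, hx0, hx1⟩ :=
    exists_pt (P.map f) (Q.map f) v h7 hqv hf y hy0 hy1 hl hjac hodd t₀ (by rw [ev]; exact hQ)
      (by rw [ev, ev]; exact hval) (by
        rw [derivative_map, derivative_map, ← Polynomial.map_mul, ← Polynomial.map_mul,
          ← Polynomial.map_sub, ev]
        exact hs)
  obtain ⟨hEt, hx8⟩ := hB l hl hBl M x t hx hP hQt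
  let _ : Algebra K M := ((algebraMap K' M).comp (algebraMap K K')).toAlgebra
  have hk : kap K M = (kap K' M).comp f := by
    ext a
    rfl
  have ev2 : ∀ F : Polynomial (𝓞 K), (F.map f).eval₂ (kap K' M) t = F.eval₂ (kap K M) t :=
    fun F => by rw [eval₂_map, hk]
  rw [ev2] at hP hQt hEt
  rw [ev2] at hP
  obtain ⟨halg, hΔt⟩ := hspec M t hEt
  have e1 : (sp W (MvPolynomial.C.comp (kap K M)) (fun j => spT K n t (φ j))).Δ =
      spT K n t (sp W MvPolynomial.C φ).Δ := by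
    rw [← sp_spT, WeierstrassCurve.map_Δ]
  have e2 : (sp W (MvPolynomial.C.comp (kap K M)) (fun j => spT K n t (φ j))).c₄ =
      spT K n t (sp W MvPolynomial.C φ).c₄ := by
    rw [← sp_spT, WeierstrassCurve.map_c₄]
  refine core W hj (fun j => spT K n t (φ j)) halg x hx0 hx1 hx8 (by rw [e1]; exact hΔt) ?_ l hM ?_
    β ε hε
  · have h2 := congrArg (spT K n t) hPQ
    rw [map_mul, map_mul, map_pow, spT_aeval, spT_aeval, ← e1, ← e2, hP, MvPolynomial.C_mul] at h2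
    have h3 : (MvPolynomial.C (Q.eval₂ (kap K M) t) : MvPolynomial (Fin n) M) ≠ 0 := by
      rw [Ne, MvPolynomial.C_eq_zero]
      exact hQt
    apply mul_right_cancel₀ h3
    rw [h2]
    ring
  · intro p hp h5 hjp R ψ hxR
    apply HH_ss hl hp.out h5 (Or.inr hjp)
    have h2 : aeval (⟨x, hxR⟩ : R) (HH l) = 0 := by
      apply Subtype.val_injective
      have h3 := Polynomial.hom_eval₂ (HH l) (algebraMap ℤ R) R.subtype ⟨x, hxR⟩
      have h4 : R.subtype.comp (algebraMap ℤ R) = algebraMap ℤ M := RingHom.ext_int _ _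
      rw [h4] at h3
      exact h3.trans hx
    have h3 := Polynomial.hom_eval₂ (HH l) (algebraMap ℤ R) ψ ⟨x, hxR⟩
    have h4 : ψ.comp (algebraMap ℤ R) = algebraMap ℤ (ZMod p) := RingHom.ext_int _ _
    rw [h4, ← aeval_def, h2, map_zero] at h3
    exact h3.symm

theorem main_G {K K' : Type} [Field K] [NumberField K] [Field K'] [NumberField K'] [Algebra K K']
    {n : ℕ} (W : WeierstrassCurve (MvPolynomial (Fin (n + 1)) (𝓞 K)))
    (φ : Fin (n + 1) → MvPolynomial (Fin (n + 1)) (𝓞 K))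
    (hφ : Algebra.IsAlgebraic (Algebra.adjoin (𝓞 K) (Set.range φ))
      (MvPolynomial (Fin (n + 1)) (𝓞 K)))
    (hΔ : (sp W MvPolynomial.C φ).Δ ≠ 0) (P Q : Polynomial (𝓞 K))
    (hPQ : (sp W MvPolynomial.C φ).c₄ ^ 3 * aeval (MvPolynomial.X 0) Q =
      aeval (MvPolynomial.X 0) P * (sp W MvPolynomial.C φ).Δ)
    (v : HeightOneSpectrum (𝓞 K')) {q : ℕ} (hq : q.Prime) (h7 : 7 ≤ q)
    (hqv : (q : 𝓞 K') ∈ v.asIdeal)
    (hf : ∃ f : ℕ, Odd f ∧ Nat.card (𝓞 K' ⧸ v.asIdeal) = q ^ f) (t₀ : 𝓞 K')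
    (hQ : aeval t₀ Q ∉ v.asIdeal)
    (hs : aeval t₀ (derivative P * Q - P * derivative Q) ∉ v.asIdeal)
    (W' : WeierstrassCurve (𝓞 K' ⧸ v.asIdeal)) (hW' : W'.Δ ≠ 0)
    (hc : Ideal.Quotient.mk v.asIdeal (aeval t₀ Q) * W'.c₄ ^ 3 =
      Ideal.Quotient.mk v.asIdeal (aeval t₀ P) * W'.Δ)
    (hn : Nat.card W'.toAffine.Point ≡ 1 [MOD q]) (h0 : aeval t₀ P ∉ v.asIdeal)
    (h1 : aeval t₀ P - 1728 * aeval t₀ Q ∉ v.asIdeal)
    (h8 : q % 4 = 1 → aeval t₀ P - 8000 * aeval t₀ Q ∉ v.asIdeal)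
    {ι : Type} [Fintype ι] (β : Module.Basis ι ℤ (𝓞 K)) (ε : ℝ) (hε : 0 < ε) :
    ∃ L : ℕ, ∀ (α : Fin (n + 1) × ι → ℤ) (T : Fin (n + 1) × ι → ℕ), (∀ i, L ≤ T i) →
      {z : Fin (n + 1) × ι → ℤ | (∀ i, α i ≤ z i ∧ z i < α i + T i) ∧ z ∈ ExcF β W}.Finite ∧
      ({z : Fin (n + 1) × ι → ℤ | (∀ i, α i ≤ z i ∧ z i < α i + T i) ∧ z ∈ ExcF β W}.ncard : ℝ) ≤
        ε * ∏ i, (T i : ℝ) := by
  have hqF : Fact q.Prime := ⟨hq⟩
  obtain ⟨y, hy, hy0, hy1, hy8, hval⟩ := res_prime h7 v hqv hf _ _ hQ W' hW' hc hn h0 h1 h8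
  exact main_y W φ hφ hΔ P Q hPQ v h7 hqv hf t₀ hQ hs y hy hy0 hy1 hy8 hval β ε hε

end Pool.Agent.SS.FM
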