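import Mathlib

/-!
# Module FM/HExt (M-L)

A place and an integer of an extension of `K` of degree `deg g` for a monic irreducible `g` over `ZMod q` (unramified extensions by lifting polynomials). PROOF. `A = 𝓞 K`, `θ` is surjective (`ZMod.ringHom_surjective`-type: every `(n : ZMod q)` is `θ n`). `G : A[X]` monic with `G.map θ = g` and `G.natDegree = g.natDegree` (`Polynomial.lifts_and_natDegree_eq_and_monic`, `Polynomial.lifts`
with `θ` surjective). `G` is irreducible (`Polynomial.Monic.irreducible_of_irreducible_map`), so `GK = G.map (algebraMap A K)` is irreducible (`Polynomial.Monic.irreducible_iff_irreducible_map_fraction_map`). `K' = AdjoinRoot GK` (a field by `Fact (Irreducible GK)`), finite over `K` (`AdjoinRoot.powerBasis`, `PowerBasis.finite`), `Module.finrank K K' = deg g`; a number field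
(characteristic 0, `FiniteDimensional ℚ K'` by `FiniteDimensional.trans ℚ K K'`; `NumberField` instance as in `Mathlib.NumberTheory.NumberField.Basic`). `t = AdjoinRoot.root GK` is integral over `A` (root of the monic `G`), so over `ℤ` (`isIntegral_trans`); `t₀ : 𝓞 K'`.
`κ = AdjoinRoot g` (field), `e : A[X] →+* κ`, `F ↦ AdjoinRoot.mk g (F.map θ)`; `e F = 0 ↔ g ∣ F.map θ` (`AdjoinRoot.mk_eq_zero`). Let `S ⊆ 𝓞 K'` be the range of `aeval t₀ : A[X] →ₐ[A] 𝓞 K'` (or `Algebra.adjoin A {t₀}`). If `aeval t₀ F = 0` then `G ∣ F` (`F %ₘ G` has degree `< deg G` and vanishes at `t`; over `K` it is divisible by `GK = minpoly K t`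
(`AdjoinRoot.mk_eq_zero`), so it is zero; `modByMonic_add_div`), so `e F = 0`. So there is a prime ideal `P₀ = {aeval t₀ F | e F = 0}` of `S`, with `aeval t₀ F ∈ P₀ ↔ e F = 0`. `𝓞 K'` is integral over `S` (it is integral over `ℤ`), so there is a prime ideal `P` of `𝓞 K'` lying over `P₀` (`Ideal.exists_ideal_over_prime_of_isIntegral`, injective algebra map). `q ∈ P` (`e (q) = 0`), so `P ≠ ⊥`: `v = ⟨P, _, _⟩`.
For all `F : A[X]`: `aeval t₀ F ∈ v ↔ aeval t₀ F ∈ P₀ ↔ g ∣ F.map θ`. Residue field `k = 𝓞 K' ⧸ P` (finite, characteristic `q`): `κ` embeds into `k` (`AdjoinRoot` / quotient of `A[X]` by `ker e`, `Ideal.Quotient.lift`), so `q ^ deg g = Nat.card κ` and `deg g = [κ : F_q] ≤ [k : F_q]`. Upper bound: `p = RingHom.ker θ` is maximal in `A`, `p ≠ ⊥`, `A ⧸ p ≃ ZMod q`; `P` lies over `p` (constants `F = C a`), and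
the inertia degree of `P` over `p` is at most `[K' : K] = deg g` (`Ideal.sum_ramification_inertia` with `Ideal.ramificationIdx_pos`-type, or directly: `deg g + 1` elements of `𝓞 K'` that are linearly independent modulo `P` over `A ⧸ p` are linearly independent over `K`: take a relation over `K`, clear denominators in the localization of `A` at `p`, a discrete valuation ring, and divide by a uniformizer). So `Nat.card k = q ^ deg g`.
-/

set_option autoImplicit false

namespace Pool.Agent.SS.FM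

open NumberField IsDedekindDomain Polynomial

private theorem he_surj {K : Type} [Field K] [NumberField K] {q : ℕ} [Fact q.Prime]
    (θ : 𝓞 K →+* ZMod q) : Function.Surjective θ := by
  intro n
  exact ⟨(n.val : 𝓞 K), by rw [map_natCast, ZMod.natCast_zmod_val]⟩

private theorem he_card {q : ℕ} [Fact q.Prime] {g : Polynomial (ZMod q)} (hg : g.Monic) :
    Nat.card (AdjoinRoot g) = q ^ g.natDegree := by
  have pb := AdjoinRoot.powerBasis' hg
  have hf : Module.finrank (ZMod q) (AdjoinRoot g) = g.natDegree := by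
    rw [(AdjoinRoot.powerBasis' hg).finrank, AdjoinRoot.powerBasis'_dim]
  have : Module.Finite (ZMod q) (AdjoinRoot g) := (AdjoinRoot.powerBasis' hg).finite
  rw [Module.natCard_eq_pow_finrank (K := ZMod q), hf, Nat.card_zmod]

private theorem he_core {K K' : Type} [Field K] [NumberField K] [Field K'] [NumberField K']
    [Algebra K K'] {q : ℕ} [Fact q.Prime] (θ : 𝓞 K →+* ZMod q)
    (g : Polynomial (ZMod q)) (hg : g.Monic) (hi : Irreducible g) (G : Polynomial (𝓞 K))
    (hGm : G.Monic) (hGg : G.map θ = g)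
    (hGi : Irreducible (G.map (algebraMap (𝓞 K) K))) (t₀ : 𝓞 K')
    (ht : aeval (algebraMap (𝓞 K') K' t₀) (G.map (algebraMap (𝓞 K) K)) = 0)
    (hfin : Module.finrank K K' = g.natDegree) :
    ∃ (v : HeightOneSpectrum (𝓞 K')), (q : 𝓞 K') ∈ v.asIdeal ∧
      Nat.card (𝓞 K' ⧸ v.asIdeal) = q ^ g.natDegree ∧
      ∀ F : Polynomial (𝓞 K), aeval t₀ F ∈ v.asIdeal ↔ g ∣ F.map θ := by
  have hq : q.Prime := Fact.out
  have hK' : ∀ F : Polynomial (𝓞 K), algebraMap (𝓞 K') K' (aeval t₀ F) =
      aeval (algebraMap (𝓞 K') K' t₀) (F.map (algebraMap (𝓞 K) K)) := by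
    intro F
    rw [aeval_map_algebraMap, ← Polynomial.aeval_algebraMap_apply]
  have hker : ∀ F : Polynomial (𝓞 K), aeval t₀ F = 0 → g ∣ F.map θ := by
    intro F hF
    have h1 := hK' F
    rw [hF, map_zero] at h1
    have h2 := minpoly.dvd K _ h1.symm
    rw [← minpoly.eq_of_irreducible_of_monic hGi ht (hGm.map _)] at h2
    have h3 : G ∣ F := (Polynomial.map_dvd_map (algebraMap (𝓞 K) K)
      (FaithfulSMul.algebraMap_injective _ _) hGm).1 h2
    rw [← hGg]
    exact Polynomial.map_dvd θ h3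
  haveI : Fact (Irreducible g) := ⟨hi⟩
  obtain ⟨e, he⟩ : ∃ e : Polynomial (𝓞 K) →+* AdjoinRoot g,
      e = (AdjoinRoot.mk g).comp (Polynomial.mapRingHom θ) := ⟨_, rfl⟩
  have hedvd : ∀ F, e F = 0 ↔ g ∣ F.map θ := by
    intro F
    rw [he, RingHom.comp_apply, AdjoinRoot.mk_eq_zero, Polynomial.coe_mapRingHom]
  have hesurj : Function.Surjective e := by
    rw [he]
    exact AdjoinRoot.mk_surjective.comp (Polynomial.map_surjective θ (he_surj θ))
  letI alg : Algebra (Polynomial (𝓞 K)) (𝓞 K') := (aeval t₀ : Polynomial (𝓞 K) →ₐ[𝓞 K] 𝓞 K').toRingHom.toAlgebra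
  have halg : ∀ F : Polynomial (𝓞 K), algebraMap (Polynomial (𝓞 K)) (𝓞 K') F = aeval t₀ F :=
    fun F => rfl
  haveI hint : Algebra.IsIntegral (Polynomial (𝓞 K)) (𝓞 K') := by
    constructor
    intro x
    have h1 : IsIntegral ℤ x := Algebra.IsIntegral.isIntegral x
    exact h1.tower_top
  haveI hprime : (RingHom.ker e).IsPrime := RingHom.ker_isPrime e
  obtain ⟨P, -, hPp, hPc⟩ := Ideal.exists_ideal_over_prime_of_isIntegral (S := 𝓞 K')
    (RingHom.ker e) ⊥ (by
      intro F hF
      rw [Ideal.mem_comap, halg, Ideal.mem_bot] at hF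
      rw [RingHom.mem_ker, hedvd]
      exact hker F hF)
  have hP : ∀ F : Polynomial (𝓞 K), aeval t₀ F ∈ P ↔ g ∣ F.map θ := by
    intro F
    rw [← hedvd, ← RingHom.mem_ker, ← hPc, Ideal.mem_comap, halg]
  have hC : ∀ a : 𝓞 K, θ a = 0 → algebraMap (𝓞 K) (𝓞 K') a ∈ P := by
    intro a ha
    have h1 := (hP (C a)).2 (by rw [Polynomial.map_C, ha, C_0]; exact dvd_zero g)
    rwa [aeval_C] at h1
  have hqP : (q : 𝓞 K') ∈ P := by
    have h1 := hC (q : 𝓞 K) (by rw [map_natCast]; exact ZMod.natCast_self q)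
    rwa [map_natCast] at h1
  have hPb : P ≠ ⊥ := by
    rintro rfl
    rw [Ideal.mem_bot] at hqP
    exact hq.ne_zero (by exact_mod_cast hqP)
  refine ⟨⟨P, hPp, hPb⟩, hqP, ?_, hP⟩
  change Nat.card (𝓞 K' ⧸ P) = q ^ g.natDegree
  have hnorm : Nat.card (𝓞 K' ⧸ P) = Ideal.absNorm P := rfl
  have hn0 : Ideal.absNorm P ≠ 0 := Ideal.absNorm_ne_zero_iff_mem_nonZeroDivisors.2
    (mem_nonZeroDivisors_iff_ne_zero.2 hPb)
  apply le_antisymm
  · -- upper bound
    have h1 : (RingHom.ker θ).map (algebraMap (𝓞 K) (𝓞 K')) ≤ P := by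
      rw [Ideal.map_le_iff_le_comap]
      intro a ha
      rw [Ideal.mem_comap]
      exact hC a (RingHom.mem_ker.1 ha)
    have h2 := Ideal.absNorm_dvd_absNorm_of_le h1
    have h3 : Ideal.absNorm (RingHom.ker θ) = q := by
      have h4 : Nat.card (𝓞 K ⧸ RingHom.ker θ) = Nat.card (ZMod q) :=
        Nat.card_congr (RingHom.quotientKerEquivOfSurjective (he_surj θ)).toEquiv
      rw [Nat.card_zmod] at h4
      exact h4
    have h5 : Module.finrank (𝓞 K) (𝓞 K') = Module.finrank K K' :=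
      (IsFractionRing.finrank_eq (𝓞 K) K (𝓞 K') K').symm
    rw [Ideal.absNorm_algebraMap, h3, h5, hfin] at h2
    rw [hnorm]
    exact Nat.le_of_dvd (pow_pos hq.pos _) h2
  · -- lower bound
    rw [← he_card hg]
    haveI : Finite (𝓞 K' ⧸ P) := Nat.finite_of_card_ne_zero (by rw [hnorm]; exact hn0)
    choose rep hrep using hesurj
    apply Nat.card_le_card_of_injective
      (fun x : AdjoinRoot g => Ideal.Quotient.mk P (aeval t₀ (rep x)))
    intro x y hxy
    rw [Ideal.Quotient.mk_eq_mk_iff_sub_mem, ← map_sub, hP, ← hedvd, map_sub, hrep, hrep] at hxy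
    exact sub_eq_zero.1 hxy

theorem exists_ext {K : Type} [Field K] [NumberField K] {q : ℕ} [Fact q.Prime] (θ : 𝓞 K →+* ZMod q)
    (g : Polynomial (ZMod q)) (hg : g.Monic) (hi : Irreducible g) :
    ∃ (K' : Type) (_ : Field K') (_ : NumberField K') (_ : Algebra K K')
      (v : HeightOneSpectrum (𝓞 K')) (t₀ : 𝓞 K'), (q : 𝓞 K') ∈ v.asIdeal ∧
      Nat.card (𝓞 K' ⧸ v.asIdeal) = q ^ g.natDegree ∧
      ∀ F : Polynomial (𝓞 K), aeval t₀ F ∈ v.asIdeal ↔ g ∣ F.map θ := by
  obtain ⟨G, hGg, hGd, hGm⟩ := Polynomial.lifts_and_natDegree_eq_and_monic (f := θ) (p := g) (by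
    rw [Polynomial.lifts_iff_set_range]
    exact Polynomial.map_surjective θ (he_surj θ) g) hg
  have hGi0 : Irreducible G := Polynomial.Monic.irreducible_of_irreducible_map θ G hGm
    (by rw [hGg]; exact hi)
  have hGi : Irreducible (G.map (algebraMap (𝓞 K) K)) :=
    (hGm.irreducible_iff_irreducible_map_fraction_map).1 hGi0
  obtain ⟨GK, hGK⟩ : ∃ GK : Polynomial K, GK = G.map (algebraMap (𝓞 K) K) := ⟨_, rfl⟩
  rw [← hGK] at hGi
  have hGKm : GK.Monic := by rw [hGK]; exact hGm.map _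
  haveI : Fact (Irreducible GK) := ⟨hGi⟩
  have hd : GK.natDegree = g.natDegree := by
    rw [hGK, hGm.natDegree_map, hGd]
  haveI : CharZero (AdjoinRoot GK) := charZero_of_injective_algebraMap
    (FaithfulSMul.algebraMap_injective K (AdjoinRoot GK))
  haveI : FiniteDimensional K (AdjoinRoot GK) := (AdjoinRoot.powerBasis hGi.ne_zero).finite
  haveI : FiniteDimensional ℚ (AdjoinRoot GK) := FiniteDimensional.trans ℚ K (AdjoinRoot GK)
  haveI : NumberField (AdjoinRoot GK) := ⟨⟩
  have hfin : Module.finrank K (AdjoinRoot GK) = g.natDegree := by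
    rw [(AdjoinRoot.powerBasis hGi.ne_zero).finrank, AdjoinRoot.powerBasis_dim, hd]
  have hroot : aeval (AdjoinRoot.root GK) GK = 0 := by
    rw [AdjoinRoot.aeval_eq, AdjoinRoot.mk_self]
  have hinA : IsIntegral (𝓞 K) (AdjoinRoot.root GK) := by
    refine ⟨G, hGm, ?_⟩
    rw [← Polynomial.aeval_def, ← aeval_map_algebraMap K, ← hGK]
    exact hroot
  have hinZ : IsIntegral ℤ (AdjoinRoot.root GK) := isIntegral_trans (A := 𝓞 K) _ hinA
  obtain ⟨v, h1, h2, h3⟩ := he_core (K' := AdjoinRoot GK) θ g hg hi G hGm hGg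
    (by rw [← hGK]; exact hGi) ⟨AdjoinRoot.root GK, hinZ⟩ (by rw [← hGK]; exact hroot) hfin
  exact ⟨AdjoinRoot GK, inferInstance, inferInstance, inferInstance, v, _, h1, h2, h3⟩

end Pool.Agent.SS.FM
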