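import Mathlib

/-!
# Module FM/HFac (S)

A polynomial of odd degree over a field has a monic irreducible factor of odd degree. PROOF. Strong induction on the degree. The degree is odd, so `F` is not zero and not a unit; `Polynomial.exists_monic_irreducible_factor F`: a monic irreducible `g` with `F = g * H`. `natDegree_mul`: `deg F = deg g + deg H` (`H ≠ 0`). If `deg g` is odd, done; otherwise `deg H` is odd and smaller than
`deg F` (`0 < deg g`), and a factor of `H` is a factor of `F`.
-/

set_option autoImplicit false

namespace Pool.Agent.SS.FM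

open NumberField IsDedekindDomain Polynomial

private theorem odd_factor_aux {k : Type} [Field k] : ∀ (n : ℕ) (F : Polynomial k),
    F.natDegree = n → Odd n →
    ∃ g : Polynomial k, g.Monic ∧ Irreducible g ∧ Odd g.natDegree ∧ g ∣ F := by
  intro n
  induction n using Nat.strong_induction_on with
  | _ n ih =>
  intro F hFn hn
  have hpos : 0 < n := hn.pos
  have hF0 : F ≠ 0 := by
    rintro rfl
    rw [natDegree_zero] at hFn
    omega
  have hFu : ¬ IsUnit F := by
    intro hu
    have := natDegree_eq_zero_of_isUnit hu
    omega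
  obtain ⟨g, hgm, hgi, H, rfl⟩ := exists_monic_irreducible_factor F hFu
  have hg0 : g ≠ 0 := hgm.ne_zero
  have hH0 : H ≠ 0 := by
    rintro rfl
    exact hF0 (mul_zero g)
  have hdeg := natDegree_mul hg0 hH0
  have hgpos : 0 < g.natDegree := hgi.natDegree_pos
  rcases Nat.even_or_odd g.natDegree with he | ho
  · have hoH : Odd H.natDegree := by
      rw [hFn] at hdeg
      rw [hdeg] at hn
      exact (Nat.odd_add'.1 hn).2 he
    obtain ⟨g', h1, h2, h3, h4⟩ := ih H.natDegree (by omega) H rfl hoH
    exact ⟨g', h1, h2, h3, h4.mul_left g⟩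
  · exact ⟨g, hgm, hgi, ho, dvd_mul_right g H⟩

theorem odd_factor {k : Type} [Field k] (F : Polynomial k) (hF : Odd F.natDegree) :
    ∃ g : Polynomial k, g.Monic ∧ Irreducible g ∧ Odd g.natDegree ∧ g ∣ F := by
  exact odd_factor_aux F.natDegree F rfl hF

end Pool.Agent.SS.FM
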