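import Mathlib
import Pool.Agent.Work.MP_a5099b_nt.FM.Defs
import Pool.Agent.Work.MP_a5099b_nt.FM.GL
import Pool.Agent.Work.MP_a5099b_nt.FM.GPt
import Pool.Agent.Work.MP_a5099b_nt.FM.GBad
import Pool.Agent.Work.MP_a5099b_nt.FM.DegD
import Pool.Agent.Work.MP_a5099b_nt.FM.Red
import Pool.Agent.Work.MP_a5099b_nt.FM.RedMem
import Pool.Agent.Work.MP_a5099b_nt.C.MHHs
import Pool.Agent.Work.MP_a5099b_nt.D4.Deg24
import Pool.Agent.Work.MP_a5099b_nt.D4.ExSS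
import Pool.Agent.Work.MP_a5099b_nt.D4.Ord

/-!
# Module FM/HFib (M)

A supersingular value in a prime field which avoids a given polynomial. PROOF. (1) `deg24 K 24 1`: the finite set is not empty (`1 ≤ ∑`), so there are a prime `q₁ > 24`, `q₁ % 24 = 1`, and `v₁` above `q₁` with `Nat.card (𝓞 K ⧸ v₁.asIdeal) = q₁`. `DD.exists_ss`: `y₁ : ZMod q₁` with `SSj q₁ y₁`; `y₁ ≠ 0, 1728, 8000` (`not_ss_8000` in `D4/Ord.lean`; for `0` and `1728` see the uses in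
`D4`, `grep -rn 1728 D4`, e.g. `ordS`-type lemmas near `not_ss_8000`; `q₁ ≡ 1 mod 3` and `mod 4`). (2) `B₀` from `bad_l X 1 C₀ hC`; `l` from `exists_l` (for `q₁`, `y₁`) with `B₀ < l`. (3) `exists_pt X 1 v₁` with `hf = ⟨1, _, _⟩`, `t₀ = (y₁.val : 𝓞 K)`, `hQ` (`1 ∉ v₁`), `hval` trivial, `hs`: `derivative X * 1 - X * derivative 1 = 1`: a number field `M`, `x, t : M` without square root of `-l`,
`aeval x (HH l) = 0`, `t = x`, `x ≠ 0, 1728`; by `bad_l`: `C₀.eval₂ (kap K M) x ≠ 0` and `x ≠ 8000`. (4) `red_mem` for the four elements `x`, `x - 1728`, `x - 8000`, `C₀.eval₂ (kap K M) x` of `M` gives bounds; `deg_sqrt M M l N 1` (its first argument is not used here; `N` the maximum of `B`, `7` and the bounds): a prime `q > N`, `jacobiSym (-l) q = -1`, `θM : 𝓞 M →+* ZMod q`.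
`exists_red θM`: `R, ψ`. `θ = θM.comp (algebraMap (𝓞 K) (𝓞 M))`, `y = ψ ⟨x, _⟩`. `y ≠ 0, 1728, 8000` by `red_mem` (`ψ ⟨x - 1728, _⟩ = y - 1728`: `Subtype` arithmetic, uniqueness of the membership proof). `C₀.eval₂ θ y = ψ ⟨C₀.eval₂ (kap K M) x, _⟩` (`Polynomial.hom_eval₂` for `𝓞 K → R → ZMod q` and `𝓞 K → R → M`; `RedAt.int`, `RedAt.ext`), so it is not zero.
`SSj q y`: `HH_ss hl` with `Or.inr` and `aeval y (HH l) = 0` (as at the end of `FM/GMain.lean`).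
-/

set_option autoImplicit false

namespace Pool.Agent.SS.FM

open NumberField IsDedekindDomain Polynomial

theorem exists_fib {K : Type} [Field K] [NumberField K] (C₀ : Polynomial (𝓞 K)) (hC : C₀ ≠ 0)
    (B : ℕ) : ∃ (q : ℕ) (_ : Fact q.Prime) (θ : 𝓞 K →+* ZMod q) (y : ZMod q), B < q ∧ 7 ≤ q ∧
      SSj q y ∧ y ≠ 0 ∧ y ≠ 1728 ∧ y ≠ 8000 ∧ C₀.eval₂ θ y ≠ 0 := by
  -- a supersingular invariant modulo a prime which splits in a cyclotomic field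
  obtain ⟨S, hS, hR⟩ := DD.deg24 K 24 1
  have hne : S.Nonempty := by
    rw [Finset.nonempty_iff_ne_empty]
    rintro rfl
    norm_num at hR
  obtain ⟨q₁, hq₁⟩ := hne
  obtain ⟨hp₁, h24, hm24, -, v₁, hv₁, hcard⟩ := hS q₁ hq₁
  have hF₁ : Fact q₁.Prime := ⟨hp₁⟩
  have h7' : 7 ≤ q₁ := by omega
  obtain ⟨y₁, hy₁⟩ := DD.exists_ss (q := q₁) (by omega)
  have hy0 : y₁ ≠ 0 := by
    rintro rfl
    exact DD.not_ss_zero (by omega) (by omega) hy₁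
  have hy1 : y₁ ≠ 1728 := by
    rintro rfl
    exact DD.not_ss_1728 (by omega) (by omega) hy₁
  have hy8 : y₁ ≠ 8000 := by
    rintro rfl
    exact DD.not_ss_8000 hm24 hy₁
  obtain ⟨B₀, hB₀⟩ := bad_l (X : Polynomial (𝓞 K)) 1 C₀ hC
  obtain ⟨l, hl, hBl, hjac, hodd⟩ := exists_l h7' y₁ hy₁ hy0 hy1 (fun _ => hy8) B₀
  have hone : (1 : 𝓞 K) ∉ v₁.asIdeal := (Ideal.ne_top_iff_one _).1 v₁.isPrime.ne_top
  obtain ⟨M, _, _, _, x, t, hM, hx, hP, hQt, hx0, hx1⟩ :=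
    exists_pt (X : Polynomial (𝓞 K)) 1 v₁ h7' hv₁ ⟨1, odd_one, by rw [pow_one]; exact hcard⟩ y₁
      hy0 hy1 hl hjac hodd ((y₁.val : ℕ) : 𝓞 K) (by rw [eval_one]; exact hone)
      (by rw [eval_X, eval_one, map_one, mul_one, map_natCast])
      (by
        rw [derivative_X, derivative_one, mul_zero, sub_zero, one_mul, eval_one]
        exact hone)
  obtain ⟨hEt, hx8⟩ := hB₀ l hl hBl M x t hx hP hQt
  have htx : t = x := by
    rw [eval₂_X, eval₂_one, mul_one] at hP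
    exact hP
  subst htx
  obtain ⟨b1, hb1⟩ := red_mem t
  obtain ⟨b2, hb2⟩ := red_mem (t - 1728)
  obtain ⟨b3, hb3⟩ := red_mem (t - 8000)
  obtain ⟨b4, hb4⟩ := red_mem (C₀.eval₂ (kap K M) t)
  obtain ⟨S', hS', hR'⟩ := deg_sqrt M M l hM (B + 7 + b1 + b2 + b3 + b4) 1
  have hne' : S'.Nonempty := by
    rw [Finset.nonempty_iff_ne_empty]
    rintro rfl
    norm_num at hR'
  obtain ⟨q, hq⟩ := hne'
  obtain ⟨hqp, hqN, hqj, -, ⟨θM⟩⟩ := hS' q hq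
  have hF : Fact q.Prime := ⟨hqp⟩
  obtain ⟨R, ψ, hred⟩ := exists_red θM
  obtain ⟨m1, n1⟩ := hb1 q (by omega) θM R ψ hred
  obtain ⟨m2, n2⟩ := hb2 q (by omega) θM R ψ hred
  obtain ⟨m3, n3⟩ := hb3 q (by omega) θM R ψ hred
  obtain ⟨m4, n4⟩ := hb4 q (by omega) θM R ψ hred
  let ιR : 𝓞 K →+* R :=
    ((algebraMap (𝓞 M) M).codRestrict R hred.int).comp (algebraMap (𝓞 K) (𝓞 M))
  have k1 : ψ.comp ιR = θM.comp (algebraMap (𝓞 K) (𝓞 M)) := by
    ext a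
    exact hred.ext (algebraMap (𝓞 K) (𝓞 M) a)
  have k2 : R.subtype.comp ιR = kap K M := by
    ext a
    rfl
  have k3 : C₀.eval₂ (θM.comp (algebraMap (𝓞 K) (𝓞 M))) (ψ ⟨t, m1⟩) =
      ψ ⟨C₀.eval₂ (kap K M) t, m4⟩ := by
    have e1 := hom_eval₂ C₀ ιR ψ ⟨t, m1⟩
    have e2 := hom_eval₂ C₀ ιR R.subtype ⟨t, m1⟩
    rw [k1] at e1
    rw [k2] at e2
    rw [← e1]
    congr 1
    exact Subtype.ext e2
  refine ⟨q, hF, θM.comp (algebraMap (𝓞 K) (𝓞 M)), ψ ⟨t, m1⟩, by omega, by omega, ?_, n1 hx0, ?_,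
    ?_, ?_⟩
  · apply HH_ss hl hqp (by omega) (Or.inr hqj)
    have h2 : aeval (⟨t, m1⟩ : R) (HH l) = 0 := by
      apply Subtype.val_injective
      have h3 := Polynomial.hom_eval₂ (HH l) (algebraMap ℤ R) R.subtype ⟨t, m1⟩
      have h4 : R.subtype.comp (algebraMap ℤ R) = algebraMap ℤ M := RingHom.ext_int _ _
      rw [h4] at h3
      exact h3.trans hx
    have h3 := Polynomial.hom_eval₂ (HH l) (algebraMap ℤ R) ψ ⟨t, m1⟩
    have h4 : ψ.comp (algebraMap ℤ R) = algebraMap ℤ (ZMod q) := RingHom.ext_int _ _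
    rw [h4, ← aeval_def, h2, map_zero] at h3
    exact h3.symm
  · intro h
    apply n2 (sub_ne_zero.2 hx1)
    have e : (⟨t - 1728, m2⟩ : R) = ⟨t, m1⟩ - 1728 := Subtype.ext rfl
    rw [e, map_sub, h, map_ofNat, sub_self]
  · intro h
    apply n3 (sub_ne_zero.2 hx8)
    have e : (⟨t - 8000, m3⟩ : R) = ⟨t, m1⟩ - 8000 := Subtype.ext rfl
    rw [e, map_sub, h, map_ofNat, sub_self]
  · rw [k3]
    exact n4 hEt

end Pool.Agent.SS.FM
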