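import Mathlib

/-!
# Module FM/HRes (M)

For almost all values `y` the fibre of `P / Q` above `y` has full degree and does not meet the ramification. PROOF. `d = max (deg P) (deg Q) > 0`, `w = derivative P * Q - P * derivative Q`. (0) `w ≠ 0`: over `K`, `P' Q = P Q'` and `P, Q` coprime give `P ∣ P'` and `Q ∣ Q'`, so `P' = 0` and `Q' = 0` (degree: `Polynomial.degree_derivative_lt`-type), so `P`, `Q` are constant
(characteristic 0, `Polynomial.natDegree_eq_zero_of_derivative_eq_zero`), `d = 0`. (1) `R = 𝓞 K`, `A = R[X]` (its variable is the value `x`), `F = P.map C - C X * Q.map C : A[X]`, `w' = w.map C : A[X]`, `e = w.natDegree`. `F.natDegree ≤ d`, `F.coeff d = C (P.coeff d) - X * C (Q.coeff d) ≠ 0`. `ρ = resultant F w' d e : A`, `C₀ = F.coeff d * ρ`.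
(2) For a field `k`, `f : R →+* k`, `y : k`, let `E = eval₂RingHom f y : A →+* k`: `F.map E = P.map f - C y * Q.map f`, `w'.map E = w.map f`, `E (F.coeff d) ≠ 0` gives the degree, and `Polynomial.exists_mul_add_mul_eq_C_resultant F w'` (formal degrees `d ≠ 0`, `e`) mapped by `E` gives `F.map E * p + w'.map E * q = C (E ρ)` with `E ρ ≠ 0`: coprime.
(3) `ρ ≠ 0`: let `Ω = AlgebraicClosure K`, `f : R →+* Ω` (injective). Choose `x₀ : Ω` (infinite field) different from all `P(c) / Q(c)` for the roots `c` of `w.map f` and with `E (F.coeff d) ≠ 0` (a nonzero polynomial in `x₀` of degree at most 1). Then `F.map E` has natDegree `d`, `w'.map E` has natDegree `e`, `E ρ = resultant (F.map E) (w'.map E)` (`resultant_map_map`, the formal degrees are the natDegrees), and if this is zero then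
(`resultant_eq_zero_iff`) they are not coprime, so have a common root `c` in `Ω` (`Polynomial.isCoprime_iff_aeval_ne_zero_of_isAlgClosed`, or a common irreducible factor has a root): `w(c) = 0`, `P(c) = x₀ Q(c)`; `Q(c) ≠ 0` by coprimality (map `hc` to `Ω`), so `x₀ = P(c) / Q(c)`: contradiction.
-/

set_option autoImplicit false

namespace Pool.Agent.SS.FM

open NumberField IsDedekindDomain Polynomial

private theorem hres_wron {K : Type} [Field K] [CharZero K] (P Q : K[X]) (hc : IsCoprime P Q)
    (hd : 0 < max P.natDegree Q.natDegree) : derivative P * Q - P * derivative Q ≠ 0 := by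
  intro h
  have key : ∀ A B : K[X], IsCoprime A B → derivative A * B = A * derivative B →
      A.natDegree = 0 := by
    intro A B hAB h2
    have h3 : A ∣ derivative A * B := ⟨_, h2⟩
    have h4 : A ∣ derivative A := hAB.dvd_of_dvd_mul_right h3
    by_contra h5
    have h6 : derivative A ≠ 0 := by
      intro h7
      exact h5 (derivative_eq_zero.1 h7)
    have h8 := natDegree_le_of_dvd h4 h6
    have h9 := natDegree_derivative_lt h5
    omega
  have hP := key P Q hc (by linear_combination h)
  have hQ := key Q P hc.symm (by linear_combination -h)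
  omega

private theorem hres_aeval {R S : Type} [CommRing R] [IsDomain R] [Field S] [Algebra R S]
    [FaithfulSMul R S] {a : S} (ha : IsAlgebraic R a) (P : R[X]) : IsAlgebraic R (aeval a P) := by
  induction P using Polynomial.induction_on' with
  | add p q hp hq =>
    rw [map_add]
    exact hp.add hq
  | monomial n c =>
    rw [aeval_monomial]
    exact (isAlgebraic_algebraMap c).mul (ha.pow n)

private theorem hres_alg {R Ω : Type} [CommRing R] [IsDomain R] [Field Ω] (ι : R[X] →+* Ω)
    (hι : Function.Injective ι) (P Q w : R[X]) (hw : w ≠ 0)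
    (hPQ : IsCoprime (P.map (ι.comp C)) (Q.map (ι.comp C))) (a : Ω)
    (h1 : P.eval₂ (ι.comp C) a = ι X * Q.eval₂ (ι.comp C) a)
    (h2 : w.eval₂ (ι.comp C) a = 0) : False := by
  let _ : Algebra R Ω := (ι.comp C).toAlgebra
  have hal : (algebraMap R Ω : R →+* Ω) = ι.comp C := rfl
  have hinj : Function.Injective (algebraMap R Ω) := by
    rw [hal]
    exact hι.comp C_injective
  have : FaithfulSMul R Ω := (faithfulSMul_iff_algebraMap_injective R Ω).2 hinj
  have ha : IsAlgebraic R a := ⟨w, hw, by rw [aeval_def, hal]; exact h2⟩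
  have hQ0 : Q.eval₂ (ι.comp C) a ≠ 0 := by
    intro h3
    rw [h3, mul_zero] at h1
    obtain ⟨u, v, huv⟩ := hPQ
    have h4 := congrArg (eval a) huv
    rw [eval_add, eval_mul, eval_mul, eval_map, eval_map, h1, h3, mul_zero, mul_zero, add_zero,
      eval_one] at h4
    exact zero_ne_one h4
  have hx : IsAlgebraic R (ι X) := by
    have h5 : ι X = aeval a P * (aeval a Q)⁻¹ := by
      rw [aeval_def, aeval_def, hal, h1, mul_assoc, mul_inv_cancel₀ hQ0, mul_one]
    rw [h5]
    exact (hres_aeval ha P).mul (hres_aeval ha Q).inv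
  obtain ⟨p, hp0, hp⟩ := hx
  have h6 : aeval (ι X) p = ι p := by
    rw [aeval_def, hal]
    have h7 := (Polynomial.hom_eval₂ p C ι X).symm
    rw [h7, eval₂_C_X]
  rw [h6] at hp
  exact hp0 (hι (by rw [hp, map_zero]))

private theorem hres_gen {R : Type} [CommRing R] [IsDomain R] (P Q w : R[X]) (hw : w ≠ 0)
    (hc : ∀ (Ω : Type) [Field Ω] (g : R →+* Ω), Function.Injective g →
      IsCoprime (P.map g) (Q.map g))
    (hd : 0 < max P.natDegree Q.natDegree) :
    ∃ C₀ : R[X], C₀ ≠ 0 ∧ ∀ (k : Type) [Field k] (f : R →+* k) (y : k), C₀.eval₂ f y ≠ 0 →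
      (P.map f - C y * Q.map f).natDegree = max P.natDegree Q.natDegree ∧
        IsCoprime (P.map f - C y * Q.map f) (w.map f) := by
  classical
  set d := max P.natDegree Q.natDegree with hdd
  set F : R[X][X] := P.map C - C X * Q.map C with hF
  set W : R[X][X] := w.map C with hW
  have hFd : F.natDegree ≤ d := by
    refine (natDegree_sub_le _ _).trans (max_le ?_ ?_)
    · exact natDegree_map_le.trans (le_max_left _ _)
    · exact (natDegree_C_mul_le _ _).trans (natDegree_map_le.trans (le_max_right _ _))
  have hFc : F.coeff d = C (P.coeff d) - X * C (Q.coeff d) := by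
    rw [hF, coeff_sub, coeff_C_mul, coeff_map, coeff_map]
  have hFc0 : F.coeff d ≠ 0 := by
    rw [hFc]
    intro h
    have h0 := congrArg (fun p => coeff p 0) h
    have h1 := congrArg (fun p => coeff p 1) h
    simp only [coeff_sub, coeff_C_zero, mul_coeff_zero, coeff_X_zero, zero_mul, sub_zero,
      coeff_zero] at h0
    have h1' : Q.coeff d = 0 := by
      have h2 : (X * C (Q.coeff d) : R[X]).coeff 1 = Q.coeff d := by
        rw [coeff_mul_C, coeff_X_one, one_mul]
      have h3 : (C (P.coeff d) : R[X]).coeff 1 = 0 := coeff_C_succ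
      simp only [coeff_sub, coeff_zero] at h1
      rw [h2, h3, zero_sub, neg_eq_zero] at h1
      exact h1
    rcases le_total P.natDegree Q.natDegree with hle | hle
    · have h4 : d = Q.natDegree := max_eq_right hle
      rw [h4, coeff_natDegree, leadingCoeff_eq_zero] at h1'
      rw [h1', natDegree_zero] at h4
      omega
    · have h4 : d = P.natDegree := max_eq_left hle
      rw [h4, coeff_natDegree, leadingCoeff_eq_zero] at h0
      rw [h0, natDegree_zero] at h4
      omega
  have hFn : F.natDegree = d := le_antisymm hFd (le_natDegree_of_ne_zero hFc0)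
  set ρ := resultant F W d W.natDegree with hρ
  have hρ0 : ρ ≠ 0 := by
    let L := FractionRing R[X]
    let g : R[X] →+* L := algebraMap R[X] L
    have hg : Function.Injective g := IsFractionRing.injective R[X] L
    have hcop : IsCoprime (F.map g) (W.map g) := by
      refine (Polynomial.isCoprime_iff_aeval_ne_zero_of_isAlgClosed (k := L)
        (AlgebraicClosure L) _ _).2 ?_
      intro a
      by_contra hno
      push Not at hno
      obtain ⟨ha1, ha2⟩ := hno
      let ι : R[X] →+* AlgebraicClosure L := (algebraMap L (AlgebraicClosure L)).comp g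
      have hι : Function.Injective ι := (algebraMap L (AlgebraicClosure L)).injective.comp hg
      have e1 : ∀ p : R[X], eval₂ ι a (p.map C) = p.eval₂ (ι.comp C) a := by
        intro p
        rw [eval₂_map]
      have e2 : ∀ p : R[X][X], aeval a (p.map g) = eval₂ ι a p := by
        intro p
        rw [aeval_def, eval₂_map]
      rw [e2, hF, eval₂_sub, eval₂_mul, eval₂_C, e1, e1, sub_eq_zero] at ha1
      rw [e2, hW, e1] at ha2
      exact hres_alg ι hι P Q w hw (hc _ _ (hι.comp C_injective)) a ha1 ha2
    have h3 := resultant_ne_zero _ _ hcop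
    rw [natDegree_map_eq_of_injective hg, natDegree_map_eq_of_injective hg, resultant_map_map,
      hFn] at h3
    intro h4
    exact h3 (by rw [← hρ, h4, map_zero])
  refine ⟨F.coeff d * ρ, mul_ne_zero hFc0 hρ0, ?_⟩
  intro k _ f y hy
  have hE : ∀ p : R[X], p.eval₂ f y = eval₂RingHom f y p := fun p => rfl
  set E : R[X] →+* k := eval₂RingHom f y with hEE
  rw [hE, map_mul] at hy
  have hy1 := left_ne_zero_of_mul hy
  have hy2 := right_ne_zero_of_mul hy
  have hEC : E.comp C = f := by
    ext r
    rw [hEE, RingHom.comp_apply, coe_eval₂RingHom, eval₂_C]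
  have hFE : F.map E = P.map f - C y * Q.map f := by
    rw [hF, Polynomial.map_sub, Polynomial.map_mul, Polynomial.map_map, Polynomial.map_map, hEC,
      map_C]
    congr 3
    rw [hEE, coe_eval₂RingHom, eval₂_X]
  have hWE : W.map E = w.map f := by
    rw [hW, Polynomial.map_map, hEC]
  rw [← hFE, ← hWE]
  constructor
  · apply le_antisymm (natDegree_map_le.trans hFd)
    apply le_natDegree_of_ne_zero
    rw [coeff_map]
    exact hy1
  · obtain ⟨p, q, -, -, hpq⟩ := exists_mul_add_mul_eq_C_resultant F W hFd le_rfl
      (Or.inl (by omega : d ≠ 0))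
    rw [← hρ] at hpq
    have h5 := congrArg (Polynomial.map E) hpq
    rw [Polynomial.map_add, Polynomial.map_mul, Polynomial.map_mul, map_C] at h5
    refine ⟨C (E ρ)⁻¹ * p.map E, C (E ρ)⁻¹ * q.map E, ?_⟩
    have h6 : C (E ρ)⁻¹ * C (E ρ) = (1 : k[X]) := by
      rw [← C_mul, inv_mul_cancel₀ hy2, C_1]
    linear_combination C (E ρ)⁻¹ * h5 + h6

theorem bad_y {K : Type} [Field K] [NumberField K] (P Q : Polynomial (𝓞 K))
    (hc : IsCoprime (P.map (algebraMap (𝓞 K) K)) (Q.map (algebraMap (𝓞 K) K)))
    (hd : 0 < max P.natDegree Q.natDegree) :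
    ∃ C₀ : Polynomial (𝓞 K), C₀ ≠ 0 ∧ ∀ (k : Type) [Field k] (f : 𝓞 K →+* k) (y : k),
      C₀.eval₂ f y ≠ 0 →
        (P.map f - Polynomial.C y * Q.map f).natDegree = max P.natDegree Q.natDegree ∧
        IsCoprime (P.map f - Polynomial.C y * Q.map f)
          ((derivative P * Q - P * derivative Q).map f) := by
  have hinj : Function.Injective (algebraMap (𝓞 K) K) := FaithfulSMul.algebraMap_injective _ _
  have hw : derivative P * Q - P * derivative Q ≠ 0 := by
    intro h
    have h1 := congrArg (Polynomial.map (algebraMap (𝓞 K) K)) h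
    rw [Polynomial.map_sub, Polynomial.map_mul, Polynomial.map_mul, ← derivative_map,
      ← derivative_map, Polynomial.map_zero] at h1
    refine hres_wron _ _ hc ?_ h1
    rw [natDegree_map_eq_of_injective hinj, natDegree_map_eq_of_injective hinj]
    exact hd
  refine hres_gen P Q _ hw ?_ hd
  intro Ω _ g hg
  have h2 : (IsFractionRing.lift hg : K →+* Ω).comp (algebraMap (𝓞 K) K) = g := by
    ext x
    exact IsFractionRing.lift_algebraMap hg x
  have h3 := hc.map (mapRingHom (IsFractionRing.lift hg : K →+* Ω))
  rw [coe_mapRingHom, Polynomial.map_map, Polynomial.map_map, h2] at h3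
  exact h3

end Pool.Agent.SS.FM
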