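import Mathlib
import Pool.Agent.Work.MP_a5099b_nt.FM.GMain
import Pool.Agent.Work.MP_a5099b_nt.FM.HFac
import Pool.Agent.Work.MP_a5099b_nt.FM.HExt
import Pool.Agent.Work.MP_a5099b_nt.FM.HRes
import Pool.Agent.Work.MP_a5099b_nt.FM.HFib

/-!
# Module FM/HMain (helper91): families whose invariant has odd degree, assembly
-/

set_option autoImplicit false

namespace Pool.Agent.SS.FM

open NumberField IsDedekindDomain Polynomial

theorem main_H {K : Type} [Field K] [NumberField K]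
    {n : ℕ} (W : WeierstrassCurve (MvPolynomial (Fin (n + 1)) (𝓞 K)))
    (φ : Fin (n + 1) → MvPolynomial (Fin (n + 1)) (𝓞 K))
    (hφ : Algebra.IsAlgebraic (Algebra.adjoin (𝓞 K) (Set.range φ))
      (MvPolynomial (Fin (n + 1)) (𝓞 K)))
    (hΔ : (sp W MvPolynomial.C φ).Δ ≠ 0) (P Q : Polynomial (𝓞 K))
    (hPQ : (sp W MvPolynomial.C φ).c₄ ^ 3 * aeval (MvPolynomial.X 0) Q =
      aeval (MvPolynomial.X 0) P * (sp W MvPolynomial.C φ).Δ)
    (hc : IsCoprime (P.map (algebraMap (𝓞 K) K)) (Q.map (algebraMap (𝓞 K) K)))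
    (hodd : Odd (max P.natDegree Q.natDegree))
    {ι : Type} [Fintype ι] (β : Module.Basis ι ℤ (𝓞 K)) (ε : ℝ) (hε : 0 < ε) :
    ∃ L : ℕ, ∀ (α : Fin (n + 1) × ι → ℤ) (T : Fin (n + 1) × ι → ℕ), (∀ i, L ≤ T i) →
      {z : Fin (n + 1) × ι → ℤ | (∀ i, α i ≤ z i ∧ z i < α i + T i) ∧ z ∈ ExcF β W}.Finite ∧
      ({z : Fin (n + 1) × ι → ℤ | (∀ i, α i ≤ z i ∧ z i < α i + T i) ∧ z ∈ ExcF β W}.ncard : ℝ) ≤
        ε * ∏ i, (T i : ℝ) := by
  obtain ⟨C₀, hC₀, hspec⟩ := bad_y P Q hc hodd.pos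
  obtain ⟨q, hqF, θ, y, -, h7, hy, hy0, hy1, hy8, hCy⟩ := exists_fib C₀ hC₀ 0
  obtain ⟨hdeg, hcop⟩ := hspec (ZMod q) θ y hCy
  obtain ⟨g, hgm, hgi, hgo, hgd⟩ := odd_factor (P.map θ - Polynomial.C y * Q.map θ)
    (by rw [hdeg]; exact hodd)
  obtain ⟨K', _, _, _, v, t₀, hqv, hcard, hiff⟩ := exists_ext θ g hgm hgi
  have hw : ¬ g ∣ (derivative P * Q - P * derivative Q).map θ := fun h =>
    hgi.not_isUnit (hcop.isUnit_of_dvd' hgd h)
  have hθy : θ ((y.val : ℕ) : 𝓞 K) = y := by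
    rw [map_natCast]
    exact ZMod.natCast_zmod_val y
  have hmap : (P - Polynomial.C ((y.val : ℕ) : 𝓞 K) * Q).map θ =
      P.map θ - Polynomial.C y * Q.map θ := by
    rw [Polynomial.map_sub, Polynomial.map_mul, Polynomial.map_C, hθy]
  have hmem : aeval t₀ (P - Polynomial.C ((y.val : ℕ) : 𝓞 K) * Q) ∈ v.asIdeal :=
    (hiff _).2 (by rw [hmap]; exact hgd)
  have hQ : aeval t₀ Q ∉ v.asIdeal := by
    intro h
    have hgQ := (hiff Q).1 h
    have hgP : g ∣ P.map θ := by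
      have := dvd_add hgd (hgQ.mul_left (Polynomial.C y))
      rwa [sub_add_cancel] at this
    apply hw
    rw [Polynomial.map_sub, Polynomial.map_mul, Polynomial.map_mul]
    exact dvd_sub (hgQ.mul_left _) (hgP.mul_right _)
  refine main_y W φ hφ hΔ P Q hPQ v h7 hqv ⟨_, hgo, hcard⟩ t₀ hQ (fun h => hw ((hiff _).1 h)) y hy
    hy0 hy1 (fun _ => hy8) ?_ β ε hε
  rw [map_sub, map_mul, aeval_C, map_natCast] at hmem
  have h2 := (Ideal.Quotient.eq_zero_iff_mem).2 hmem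
  rw [map_sub, map_mul, map_natCast, sub_eq_zero] at h2
  exact h2

end Pool.Agent.SS.FM
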