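import Mathlib
import Pool.Agent.Work.MP_a5099b_nt.FM.Defs

/-!
# Module FM/LDom (S)

Pure. The map `(T, s) ↦ (s, T s)` is dominant. PROOF. `R = MvPolynomial (Fin 2) (𝓞 K)` is generated by `X 0`, `X 1` over `A = adjoin (range φ)` (`MvPolynomial.adjoin_range_X`, induction `MvPolynomial.induction_on`; sums and products of algebraic elements are algebraic over a domain: `IsAlgebraic.add`, `IsAlgebraic.mul`). `X 1 ∈ A`, and `X 0` is a root of the polynomial `X 1 * t - X 0 * X 1` with coefficients in `A`, which is not zero.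
-/

set_option autoImplicit false

namespace Pool.Agent.SS.FM

open NumberField IsDedekindDomain Polynomial

theorem dom_leg (K : Type) [Field K] [NumberField K] :
    Algebra.IsAlgebraic (Algebra.adjoin (𝓞 K) (Set.range
      (![MvPolynomial.X 1, MvPolynomial.X 0 * MvPolynomial.X 1] :
        Fin 2 → MvPolynomial (Fin 2) (𝓞 K)))) (MvPolynomial (Fin 2) (𝓞 K)) := by
  set A := Algebra.adjoin (𝓞 K) (Set.range
      (![MvPolynomial.X 1, MvPolynomial.X 0 * MvPolynomial.X 1] :
        Fin 2 → MvPolynomial (Fin 2) (𝓞 K))) with hA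
  have h1 : (MvPolynomial.X 1 : MvPolynomial (Fin 2) (𝓞 K)) ∈ A :=
    Algebra.subset_adjoin ⟨0, by simp⟩
  have h01 : (MvPolynomial.X 0 * MvPolynomial.X 1 : MvPolynomial (Fin 2) (𝓞 K)) ∈ A :=
    Algebra.subset_adjoin ⟨1, by simp⟩
  have alg1 : IsAlgebraic A (MvPolynomial.X 1 : MvPolynomial (Fin 2) (𝓞 K)) :=
    isAlgebraic_algebraMap (⟨MvPolynomial.X 1, h1⟩ : A)
  have alg0 : IsAlgebraic A (MvPolynomial.X 0 : MvPolynomial (Fin 2) (𝓞 K)) := by
    refine ⟨Polynomial.C (⟨MvPolynomial.X 1, h1⟩ : A) * Polynomial.X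
      - Polynomial.C (⟨MvPolynomial.X 0 * MvPolynomial.X 1, h01⟩ : A), ?_, ?_⟩
    · intro h
      have hc := congrArg (fun q : Polynomial A => q.coeff 1) h
      simp only [Polynomial.coeff_sub, Polynomial.coeff_C_mul, Polynomial.coeff_X_one,
        mul_one, Polynomial.coeff_C_succ, sub_zero, Polynomial.coeff_zero] at hc
      have hc' := congrArg (fun a : A => (a : MvPolynomial (Fin 2) (𝓞 K))) hc
      simp only [ZeroMemClass.coe_zero] at hc'
      exact MvPolynomial.X_ne_zero (1 : Fin 2) hc'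
    · simp only [map_sub, map_mul, Polynomial.aeval_C, Polynomial.aeval_X]
      change (MvPolynomial.X 1 : MvPolynomial (Fin 2) (𝓞 K)) * MvPolynomial.X 0
        - MvPolynomial.X 0 * MvPolynomial.X 1 = 0
      ring
  refine ⟨fun x => ?_⟩
  induction x using MvPolynomial.induction_on with
  | C a =>
    exact isAlgebraic_algebraMap (⟨MvPolynomial.C a, A.algebraMap_mem a⟩ : A)
  | add p q hp hq => exact hp.add hq
  | mul_X p n hp =>
    refine hp.mul ?_
    fin_cases n
    · exact alg0
    · exact alg1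

end Pool.Agent.SS.FM
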