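import Mathlib

/-!
# Module FM/LAdj (S-M)

Pure. Adjoining a square root. PROOF. If `l` is a square in `M`, take `M' = M`. Otherwise `X ^ 2 - C (l : M)` is irreducible (`Polynomial` of degree 2 without roots, `X_pow_sub_C_irreducible`-type), `M' = AdjoinRoot (X ^ 2 - C (l : M))`, `s` its root; a number field (finite over `M`, `FiniteDimensional.trans`, `NumberField.of_module_finite M M'`). Every element of `M'` is `a + b s` with `a, b : M` (`AdjoinRoot.powerBasis`, or `M'` is generated by
`1, s`; or use the norm/minimal polynomial: alternatively take inside an algebraic closure). If `z = a + b s` and `z ^ 2 = -1`, then `a² + l b² = -1` and `2 a b = 0`: if `b = 0`, `a² = -1`, excluded; if `a = 0`, `l b² = -1`, `(l b)² = -l`, excluded.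
-/

set_option autoImplicit false

namespace Pool.Agent.SS.FM

open NumberField IsDedekindDomain Polynomial

theorem adj_sqrt {M : Type} [Field M] [NumberField M] (l : ℕ) (hl : ∀ z : M, z ^ 2 ≠ -(l : M))
    (h1 : ∀ z : M, z ^ 2 ≠ -1) :
    ∃ (M' : Type) (_ : Field M') (_ : NumberField M') (_ : Algebra M M') (s : M'),
      s ^ 2 = (l : M') ∧ ∀ z : M', z ^ 2 ≠ -1 := by
  by_cases hs : ∃ s : M, s ^ 2 = (l : M)
  · obtain ⟨s, hs⟩ := hs
    exact ⟨M, inferInstance, inferInstance, Algebra.id M, s, hs, h1⟩
  · have hs' : ∀ b : M, b ^ 2 ≠ (l : M) := fun b hb => hs ⟨b, hb⟩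
    have hirr : Irreducible (X ^ 2 - C (l : M) : M[X]) :=
      X_pow_sub_C_irreducible_of_prime Nat.prime_two hs'
    have hF : Fact (Irreducible (X ^ 2 - C (l : M) : M[X])) := ⟨hirr⟩
    have hmon : (X ^ 2 - C (l : M) : M[X]).Monic := monic_X_pow_sub_C (l : M) (by norm_num)
    have hMF : Module.Finite M (AdjoinRoot (X ^ 2 - C (l : M) : M[X])) :=
      (AdjoinRoot.powerBasis hirr.ne_zero).finite
    have hNF : NumberField (AdjoinRoot (X ^ 2 - C (l : M) : M[X])) :=
      NumberField.of_module_finite M (AdjoinRoot (X ^ 2 - C (l : M) : M[X]))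
    have hroot : (AdjoinRoot.root (X ^ 2 - C (l : M) : M[X])) ^ 2 =
        ((l : ℕ) : AdjoinRoot (X ^ 2 - C (l : M) : M[X])) := by
      have h := AdjoinRoot.eval₂_root (X ^ 2 - C (l : M) : M[X])
      rw [eval₂_sub, eval₂_pow, eval₂_X, eval₂_C, sub_eq_zero] at h
      exact h.trans (map_natCast _ l)
    refine ⟨AdjoinRoot (X ^ 2 - C (l : M) : M[X]), inferInstance, inferInstance, inferInstance,
      AdjoinRoot.root _, hroot, ?_⟩
    intro z hz
    have hinj : Function.Injective (AdjoinRoot.of (X ^ 2 - C (l : M) : M[X])) :=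
      (AdjoinRoot.of (X ^ 2 - C (l : M) : M[X])).injective
    -- write z = a + b s
    obtain ⟨g, rfl⟩ := AdjoinRoot.mk_surjective z
    have hdeg : (g %ₘ (X ^ 2 - C (l : M) : M[X])).natDegree ≤ 1 := by
      have h2 := natDegree_modByMonic_lt g hmon (by
        intro h3
        have h4 := congrArg natDegree h3
        rw [natDegree_X_pow_sub_C, natDegree_one] at h4
        omega)
      rw [natDegree_X_pow_sub_C] at h2
      omega
    obtain ⟨b, a, hab⟩ := exists_eq_X_add_C_of_natDegree_le_one hdeg
    have hmk : AdjoinRoot.mk (X ^ 2 - C (l : M) : M[X]) g =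
        AdjoinRoot.of _ b * AdjoinRoot.root _ + AdjoinRoot.of _ a := by
      have h5 := congrArg (AdjoinRoot.mk (X ^ 2 - C (l : M) : M[X]))
        (modByMonic_add_div g (X ^ 2 - C (l : M) : M[X]))
      rw [map_add, map_mul, AdjoinRoot.mk_self, zero_mul, add_zero, hab, map_add, map_mul,
        AdjoinRoot.mk_C, AdjoinRoot.mk_C, AdjoinRoot.mk_X] at h5
      exact h5.symm
    rw [hmk] at hz
    have hexp : AdjoinRoot.of (X ^ 2 - C (l : M) : M[X]) (2 * a * b) * AdjoinRoot.root _ +
        AdjoinRoot.of _ (a ^ 2 + l * b ^ 2 + 1) = 0 := by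
      have hl' : AdjoinRoot.of (X ^ 2 - C (l : M) : M[X]) (l : M) =
        ((l : ℕ) : AdjoinRoot (X ^ 2 - C (l : M) : M[X])) := map_natCast _ l
      simp only [map_add, map_mul, map_pow, map_one, map_ofNat, hl']
      rw [← hroot]
      linear_combination hz
    have hab0 : 2 * a * b = 0 := by
      by_contra hne
      apply hs' (-(a ^ 2 + l * b ^ 2 + 1) / (2 * a * b))
      apply hinj
      have h6 : AdjoinRoot.root (X ^ 2 - C (l : M) : M[X]) =
          AdjoinRoot.of _ (-(a ^ 2 + l * b ^ 2 + 1) / (2 * a * b)) := by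
        have hne' : AdjoinRoot.of (X ^ 2 - C (l : M) : M[X]) (2 * a * b) ≠ 0 := by
          intro h7
          apply hne
          apply hinj
          rw [h7, map_zero]
        rw [map_div₀, map_neg, eq_div_iff hne']
        linear_combination hexp
      rw [map_pow, ← h6]
      exact hroot.trans (map_natCast _ l).symm
    rw [hab0, map_zero, zero_mul, zero_add] at hexp
    have h8 : a ^ 2 + l * b ^ 2 + 1 = 0 := by
      apply hinj
      rw [hexp, map_zero]
    rcases mul_eq_zero.1 hab0 with h9 | h9
    · have ha : a = 0 := by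
        rcases mul_eq_zero.1 h9 with h10 | h10
        · exact absurd h10 two_ne_zero
        · exact h10
      subst ha
      apply hl ((l : M) * b)
      linear_combination (l : M) * h8
    · subst h9
      apply h1 a
      linear_combination h8

end Pool.Agent.SS.FM
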