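import Mathlib
import Pool.Agent.Work.MP_a5099b_nt.FM.Defs
import Pool.Agent.Work.MP_a5099b_nt.FM.GHens
import Pool.Agent.Work.MP_a5099b_nt.FM.GVal
import Pool.Agent.Work.MP_a5099b_nt.FM.GFrob
import Pool.Agent.Work.MP_a5099b_nt.FM.GCount
import Pool.Agent.Work.MP_a5099b_nt.FM.GFix
import Pool.Agent.Work.MP_a5099b_nt.FM.GNsq
import Pool.Agent.Work.MP_a5099b_nt.FM.GSpl

/-!
# Module FM/LPt (helper91; copy of GPt and GDesc by helper70 and helper63)

The point of the base, with all the quadratic fields in which `q` is inert.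
-/

set_option autoImplicit false

namespace Pool.Agent.SS.FM

open NumberField IsDedekindDomain Polynomial

private theorem descend2 {K N : Type} [Field K] [NumberField K] [Field N] [NumberField N] [Algebra K N]
    (σ : N ≃ₐ[K] N) (S : Set ℕ) (hns : ∀ l ∈ S, ∀ z : N, σ z = z → z ^ 2 ≠ -(l : N)) (F : ℤ[X])
    (x₀ t₁ : N)
    (hx : σ x₀ = x₀) (ht : σ t₁ = t₁) (hF : aeval x₀ F = 0) (P Q : Polynomial (𝓞 K))
    (hP : P.eval₂ (kap K N) t₁ = x₀ * Q.eval₂ (kap K N) t₁) (hQ : Q.eval₂ (kap K N) t₁ ≠ 0)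
    (h0 : x₀ ≠ 0) (h1 : x₀ ≠ 1728) :
    ∃ (M : Type) (_ : Field M) (_ : NumberField M) (_ : Algebra K M) (x t : M),
      (∀ l ∈ S, ∀ z : M, z ^ 2 ≠ -(l : M)) ∧ aeval x F = 0 ∧
      P.eval₂ (kap K M) t = x * Q.eval₂ (kap K M) t ∧ Q.eval₂ (kap K M) t ≠ 0 ∧ x ≠ 0 ∧ x ≠ 1728 := by
  classical
  have hfix : ∀ z : N, σ z = z → ∀ g ∈ Subgroup.zpowers σ, g z = z := by
    intro z hz g hg
    have h2 : Subgroup.zpowers σ ≤ MulAction.stabilizer (N ≃ₐ[K] N) z := by
      rw [Subgroup.zpowers_le]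
      exact hz
    exact h2 hg
  let M0 : IntermediateField K N := IntermediateField.fixedField (Subgroup.zpowers σ)
  have hmem : ∀ z : N, z ∈ M0 ↔ ∀ g ∈ Subgroup.zpowers σ, g z = z := fun z =>
    IntermediateField.mem_fixedField_iff _ _
  have hfin : FiniteDimensional K N := FiniteDimensional.right ℚ K N
  have hfin2 : FiniteDimensional K M0 := inferInstance
  have hnf : NumberField M0 := NumberField.of_module_finite K M0
  let j : M0 →+* N := M0.val.toRingHom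
  have hj : ∀ z : M0, j z = (z : N) := fun z => rfl
  have hjinj : Function.Injective j := j.injective
  let x : M0 := ⟨x₀, (hmem x₀).2 (hfix x₀ hx)⟩
  let t : M0 := ⟨t₁, (hmem t₁).2 (hfix t₁ ht)⟩
  have hkap : j.comp (kap K M0) = kap K N := by
    ext a
    rfl
  have hev : ∀ R : Polynomial (𝓞 K), j (R.eval₂ (kap K M0) t) = R.eval₂ (kap K N) t₁ := by
    intro R
    rw [Polynomial.hom_eval₂, hkap]
    rfl
  refine ⟨M0, inferInstance, hnf, inferInstance, x, t, ?_, ?_, ?_, ?_, ?_, ?_⟩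
  · intro l hlS z hz
    have h2 : σ (z : N) = (z : N) := (hmem z).1 z.2 σ (Subgroup.mem_zpowers σ)
    refine hns l hlS (z : N) h2 ?_
    have h3 := congrArg j hz
    rw [map_pow, map_neg, map_natCast] at h3
    exact h3
  · apply hjinj
    rw [map_zero, Polynomial.aeval_def, Polynomial.hom_eval₂]
    have h2 : j.comp (algebraMap ℤ M0) = algebraMap ℤ N := RingHom.ext_int _ _
    rw [h2]
    exact hF
  · apply hjinj
    rw [map_mul, hev, hev]
    exact hP
  · intro h2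
    apply hQ
    rw [← hev, h2, map_zero]
  · intro h2
    apply h0
    have h3 := congrArg j h2
    rwa [map_zero] at h3
  · intro h2
    apply h1
    have h3 := congrArg j h2
    have h4 : j (1728 : M0) = 1728 := map_ofNat j 1728
    rw [h4] at h3
    exact h3

theorem exists_pt2 {K : Type} [Field K] [NumberField K] (P Q : Polynomial (𝓞 K))
    (v : HeightOneSpectrum (𝓞 K)) {q : ℕ} [Fact q.Prime] (h7 : 7 ≤ q) (hqv : (q : 𝓞 K) ∈ v.asIdeal)
    (hf : ∃ f : ℕ, Odd f ∧ Nat.card (𝓞 K ⧸ v.asIdeal) = q ^ f) (y : ZMod q) (h0 : y ≠ 0)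
    (h1 : y ≠ 1728) {l : ℕ} (hl : LPrime l) (hj : jacobiSym (-l) q = -1)
    (hodd : Odd (((HH l).map (Int.castRingHom (ZMod q))).rootMultiplicity y)) (t₀ : 𝓞 K)
    (hQ : Q.eval t₀ ∉ v.asIdeal)
    (hval : Ideal.Quotient.mk v.asIdeal (P.eval t₀) =
      ((y.val : ℕ) : 𝓞 K ⧸ v.asIdeal) * Ideal.Quotient.mk v.asIdeal (Q.eval t₀))
    (hs : (derivative P * Q - P * derivative Q).eval t₀ ∉ v.asIdeal) :
    ∃ (M : Type) (_ : Field M) (_ : NumberField M) (_ : Algebra K M) (x t : M),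
      (∀ D : ℕ, jacobiSym (-D) q = -1 → ∀ z : M, z ^ 2 ≠ -(D : M)) ∧ aeval x (HH l) = 0 ∧
      P.eval₂ (kap K M) t = x * Q.eval₂ (kap K M) t ∧ Q.eval₂ (kap K M) t ≠ 0 ∧ x ≠ 0 ∧ x ≠ 1728 := by
  classical
  obtain ⟨f, hfodd, hcard⟩ := hf
  have hPQ : derivative P * Q - P * derivative Q ≠ 0 := by
    intro h
    apply hs
    rw [h, eval_zero]
    exact v.asIdeal.zero_mem
  obtain ⟨N, _, _, _, _, hsplH, hsplP⟩ := exists_N P Q hPQ hl
  obtain ⟨k, _, _, red, σ, a, m, hm, hσ, hker, hfrob⟩ := exists_frob (N := N) v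
  rw [hcard, ← pow_mul] at hfrob
  have hqk : ((q : ℕ) : k) = 0 := by
    have h := (hker (q : 𝓞 K)).2 hqv
    rwa [map_natCast, map_natCast] at h
  haveI : CharP k q := (CharP.charP_iff_prime_eq_zero (Fact.out : q.Prime)).2 hqk
  have hYinj : Function.Injective (ZMod.castHom (dvd_refl q) k) := RingHom.injective _
  -- the action of `σ` on the integers
  have hsx : ∀ x : 𝓞 N, ∃ z : 𝓞 N, algebraMap (𝓞 N) N z = σ (algebraMap (𝓞 N) N x) := by
    intro x
    exact ⟨⟨σ (algebraMap (𝓞 N) N x), map_isIntegral_int σ (RingOfIntegers.isIntegral_coe x)⟩, rfl⟩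
  choose s hsσ using hsx
  have hred : ∀ x : 𝓞 N, red (s x) = red x ^ (q ^ (f * m)) := fun x => hfrob x (s x) (hsσ x)
  set Y : k := ZMod.castHom (dvd_refl q) k y with hY
  have hYpow : Y ^ (q ^ (f * m)) = Y := by
    rw [hY, ← map_pow, ZMod.pow_card_pow]
  have hinjN : Function.Injective (algebraMap (𝓞 N) N) := RingOfIntegers.coe_injective
  have hmapS : ∀ x ∈ {x : 𝓞 N | aeval x (HH l) = 0 ∧ red x = Y},
      s x ∈ {x : 𝓞 N | aeval x (HH l) = 0 ∧ red x = Y} := by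
    rintro x ⟨hx1, hx2⟩
    refine ⟨?_, ?_⟩
    · apply hinjN
      rw [← aeval_algebraMap_apply, hsσ, map_zero]
      have h : aeval (σ (algebraMap (𝓞 N) N x)) (HH l) =
          (σ.restrictScalars ℤ) (aeval (algebraMap (𝓞 N) N x) (HH l)) := by
        rw [← aeval_algHom_apply]
        rfl
      rw [h, aeval_algebraMap_apply, hx1, map_zero, map_zero]
    · rw [hred, hx2, hYpow]
  have hit : ∀ (j : ℕ) (x : 𝓞 N), algebraMap (𝓞 N) N (s^[j] x) =
      (σ ^ j) (algebraMap (𝓞 N) N x) := by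
    intro j
    induction j with
    | zero => intro x; simp
    | succ j ih =>
      intro x
      rw [Function.iterate_succ_apply', hsσ, ih, pow_succ']
      rfl
  obtain ⟨hfin, hnc⟩ := count_hh red hl hsplH y
  rw [← hnc] at hodd
  obtain ⟨x₀, ⟨hx1, hx2⟩, hx3⟩ := odd_fix _ hfin hodd s hmapS a (fun x _ => by
    apply hinjN
    rw [hit, hσ]
    rfl)
  have hσx : σ (algebraMap (𝓞 N) N x₀) = algebraMap (𝓞 N) N x₀ := by rw [← hsσ, hx3]
  obtain ⟨R, ψ, v1, v2, v3, v4⟩ := exists_val red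
  let ι : 𝓞 N →+* R := (algebraMap (𝓞 N) N).codRestrict R (fun x => (v1 x).choose)
  have hι : ∀ x, ψ (ι x) = red x := fun x => (v1 x).choose_spec
  have hιc : ∀ x, ((ι x : R) : N) = algebraMap (𝓞 N) N x := fun x => rfl
  let ρ : 𝓞 K →+* R := ι.comp (algebraMap (𝓞 K) (𝓞 N))
  have hρ1 : R.subtype.comp ρ = kap K N := rfl
  let rK : 𝓞 K →+* k := red.comp (algebraMap (𝓞 K) (𝓞 N))
  have hρ2 : ψ.comp ρ = rK := RingHom.ext fun x => hι _
  have hrK : ∀ x : 𝓞 K, rK x = 0 ↔ x ∈ v.asIdeal := hker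
  set G : R[X] := P.map ρ - C (ι x₀) * Q.map ρ with hG
  have hG1 : G.map R.subtype = P.map (kap K N) - C (algebraMap (𝓞 N) N x₀) * Q.map (kap K N) := by
    rw [hG, Polynomial.map_sub, Polynomial.map_mul, map_C, map_map, map_map, hρ1]
    rfl
  have hG2 : G.map ψ = P.map rK - C Y * Q.map rK := by
    rw [hG, Polynomial.map_sub, Polynomial.map_mul, map_C, map_map, map_map, hρ2, hι, hx2]
  have hxN : aeval (algebraMap (𝓞 N) N x₀) (HH l) = 0 := by
    rw [aeval_algebraMap_apply, hx1, map_zero]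
  have hsplG : (G.map R.subtype).Splits := by
    rw [hG1]
    exact hsplP _ hxN
  -- the value
  have hval' : rK (P.eval t₀) = Y * rK (Q.eval t₀) := by
    have h1 : Ideal.Quotient.mk v.asIdeal (P.eval t₀) =
        Ideal.Quotient.mk v.asIdeal (((y.val : ℕ) : 𝓞 K) * Q.eval t₀) := by
      rw [hval, map_mul, map_natCast]
    rw [Ideal.Quotient.eq, ← hrK, map_sub, sub_eq_zero, map_mul, map_natCast] at h1
    rw [h1, hY, ZMod.castHom_apply, ZMod.natCast_val]
  have hev : ∀ A : (𝓞 K)[X], (A.map rK).eval (rK t₀) = rK (A.eval t₀) := fun A => by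
    rw [eval_map, eval₂_at_apply]
  have hG0 : (G.map ψ).eval (rK t₀) = 0 := by
    rw [hG2, eval_sub, eval_mul, eval_C, hev, hev, hval', sub_self]
  have hQ0 : rK (Q.eval t₀) ≠ 0 := fun h => hQ ((hrK _).1 h)
  have hG3 : (derivative (G.map ψ)).eval (rK t₀) ≠ 0 := by
    intro h
    apply hs
    rw [← hrK]
    rw [hG2, derivative_sub, derivative_C_mul, derivative_map, derivative_map, eval_sub, eval_mul,
      eval_C, hev, hev] at h
    rw [eval_sub, eval_mul, eval_mul, map_sub, map_mul, map_mul, hval']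
    linear_combination (rK (Q.eval t₀)) * h
  obtain ⟨t₁, ⟨ht1, ht2⟩, ht3⟩ := hens R ψ v2 v3 G hsplG (rK t₀) hG0 hG3
  -- `σ t₁`
  obtain ⟨b, c, hc, hbc⟩ := (v4 (t₁ : N)).1 t₁.2
  have hsc : red (s c) ≠ 0 := by
    rw [hred]
    exact pow_ne_zero _ hc
  have hσbc : σ (t₁ : N) * algebraMap (𝓞 N) N (s c) = algebraMap (𝓞 N) N (s b) := by
    rw [hsσ, hsσ, ← map_mul, hbc]
  have hσR : σ (t₁ : N) ∈ R := (v4 _).2 ⟨s b, s c, hsc, hσbc⟩
  have e1 : t₁ * ι c = ι b := Subtype.ext hbc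
  have e2 : (⟨σ (t₁ : N), hσR⟩ : R) * ι (s c) = ι (s b) := Subtype.ext hσbc
  have e3 : ψ ⟨σ (t₁ : N), hσR⟩ = rK t₀ := by
    have h1 := congrArg ψ e1
    have h2 := congrArg ψ e2
    rw [map_mul, hι, hι, ht2] at h1
    rw [map_mul, hι, hι, hred b, ← h1, mul_pow, ← hred c] at h2
    have h3 := mul_right_cancel₀ hsc h2
    rw [h3]
    exact (hfrob (algebraMap (𝓞 K) (𝓞 N) t₀) (algebraMap (𝓞 K) (𝓞 N) t₀)
      (σ.commutes (algebraMap (𝓞 K) K t₀)).symm).symm
  have hσκ : (σ : N →+* N).comp (kap K N) = kap K N :=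
    RingHom.ext fun x => σ.commutes (algebraMap (𝓞 K) K x)
  have hevσ : ∀ (A : (𝓞 K)[X]) (z : N), σ (A.eval₂ (kap K N) z) = A.eval₂ (kap K N) (σ z) := by
    intro A z
    have h := hom_eval₂ A (kap K N) (σ : N →+* N) z
    rw [hσκ] at h
    exact h
  have hGe : ∀ z : R, ((G.eval z : R) : N) = P.eval₂ (kap K N) (z : N) -
      algebraMap (𝓞 N) N x₀ * Q.eval₂ (kap K N) (z : N) := by
    intro z
    have h1 : ((G.eval z : R) : N) = (G.map R.subtype).eval (z : N) := by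
      rw [eval_map]
      exact (eval₂_at_apply R.subtype z).symm
    rw [h1, hG1, eval_sub, eval_mul, eval_C, eval_map, eval_map]
  have hPt : P.eval₂ (kap K N) (t₁ : N) =
      algebraMap (𝓞 N) N x₀ * Q.eval₂ (kap K N) (t₁ : N) := by
    have h := hGe t₁
    rw [ht1] at h
    exact (sub_eq_zero.1 h.symm)
  have e4 : G.eval (⟨σ (t₁ : N), hσR⟩ : R) = 0 := by
    apply Subtype.ext
    rw [hGe]
    show P.eval₂ (kap K N) (σ (t₁ : N)) -
      algebraMap (𝓞 N) N x₀ * Q.eval₂ (kap K N) (σ (t₁ : N)) = 0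
    rw [← hevσ, ← hevσ, hPt, map_mul, hσx, sub_self]
  have hσt : σ (t₁ : N) = t₁ := congrArg Subtype.val (ht3 _ e4 e3)
  have hQt : Q.eval₂ (kap K N) (t₁ : N) ≠ 0 := by
    intro h
    apply hQ0
    have h1 : ((Q.eval₂ ρ t₁ : R) : N) = Q.eval₂ (kap K N) (t₁ : N) := by
      have := hom_eval₂ Q ρ R.subtype t₁
      rw [hρ1] at this
      exact this
    have h2 : Q.eval₂ ρ t₁ = 0 := Subtype.ext (h1.trans h)
    have h3 := hom_eval₂ Q ρ ψ t₁
    rw [h2, map_zero, hρ2, ht2, eval₂_at_apply] at h3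
    exact h3.symm
  have hx0 : algebraMap (𝓞 N) N x₀ ≠ 0 := by
    intro h
    have h1 : x₀ = 0 := hinjN (h.trans (map_zero _).symm)
    rw [h1, map_zero] at hx2
    exact h0 (hYinj (hx2.symm.trans (map_zero _).symm))
  have hx8 : algebraMap (𝓞 N) N x₀ ≠ 1728 := by
    intro h
    have h1' : x₀ = 1728 := hinjN (h.trans (map_ofNat _ _).symm)
    rw [h1', map_ofNat] at hx2
    exact h1 (hYinj (hx2.symm.trans (map_ofNat _ _).symm))
  have hns : ∀ l ∈ {D : ℕ | jacobiSym (-D) q = -1}, ∀ z : N, σ z = z → z ^ 2 ≠ -(l : N) := by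
    intro l hj z hz hz2
    have hint : IsIntegral ℤ z := by
      apply IsIntegral.of_pow (n := 2) (by norm_num)
      rw [hz2]
      have h := isIntegral_algebraMap (R := ℤ) (A := N) (x := -(l : ℤ))
      simpa using h
    obtain ⟨Z, hZ⟩ : ∃ Z : 𝓞 N, algebraMap (𝓞 N) N Z = z := ⟨⟨z, hint⟩, rfl⟩
    have h2 : Z ^ 2 = -((l : ℕ) : 𝓞 N) := by
      apply hinjN
      rw [map_pow, hZ, hz2, map_neg, map_natCast]
    have h3 : red Z ^ 2 = -((l : ℕ) : k) := by
      rw [← map_pow, h2, map_neg, map_natCast]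
    exact not_fix (by omega) hj (red Z) h3 (f * m) (hfodd.mul hm)
      (hfrob Z Z (by rw [hZ, hz])).symm
  exact descend2 σ {D : ℕ | jacobiSym (-D) q = -1} hns (HH l) (algebraMap (𝓞 N) N x₀) (t₁ : N) hσx hσt hxN P Q hPt hQt hx0 hx8

end Pool.Agent.SS.FM
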