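import Mathlib
import Pool.Agent.Work.MP_a5099b_nt.Defs
import Pool.Agent.Work.MP_a5099b_nt.D5.Chi2
import Pool.Agent.Work.MP_a5099b_nt.D5.SsC

/-!
# Module FM/LSix (S-M)

`287496` (complex multiplication by the order of discriminant `-16`) is supersingular for `q ≡ 3 mod 4`. PROOF (as `ss2` in `D5/Ss23.lean`). `a = 6`, `b = 1`: `a² - 4 b = 32 ≠ 0`, `256 (a² - 3 b)³ = 256 * 33³ = 287496 * 32`. `ss_of_sum` (`D5/SsC`) needs `∑ χ(x (x² + 6 x + 1)) = 0`. `chi_two` (`D5/Chi2`): it is equal to `∑ χ(x (x² - 12 x + 32))`; `x (x² - 12 x + 32) = x (x - 4)(x - 8)`,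
substitute `x = u + 4`: `u³ - 16 u`, an odd function, and `χ(-1) = -1` (`q ≡ 3 mod 4`), so the sum is equal to its negative.
-/

set_option autoImplicit false

namespace Pool.Agent.SS.FM

open NumberField IsDedekindDomain Polynomial

private theorem cast_ne {q : ℕ} [Fact q.Prime] (n : ℕ) (hn : n ≠ 0) (h : n < q) :
    (n : ZMod q) ≠ 0 := by
  intro h'
  rw [ZMod.natCast_eq_zero_iff] at h'
  have := Nat.le_of_dvd (Nat.pos_of_ne_zero hn) h'
  omega

theorem ss16 {q : ℕ} [Fact q.Prime] (h7 : 7 ≤ q) (h4 : q % 4 = 3) :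
    SSj q (287496 : ZMod q) := by
  have h2 : (2 : ZMod q) ≠ 0 := by exact_mod_cast cast_ne (q := q) 2 (by norm_num) (by omega)
  have hr : ringChar (ZMod q) ≠ 2 := by
    rw [ZMod.ringChar_zmod_n]
    omega
  refine DL.ss_of_sum (by omega) 6 1 287496 one_ne_zero ?_ (by norm_num) ?_
  · have : (6 : ZMod q) ^ 2 - 4 * 1 = 2 ^ 5 := by norm_num
    rw [this]
    exact pow_ne_zero _ h2
  · have h1 := DL.chi_two hr 6 1 one_ne_zero
    rw [h1]
    set S := ∑ x : ZMod q, quadraticChar (ZMod q) (x * (x ^ 2 - 2 * 6 * x + (6 ^ 2 - 4 * 1)))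
      with hS
    have hm : quadraticChar (ZMod q) (-1) = -1 := by
      rw [quadraticChar_neg_one_iff_not_isSquare, ZMod.exists_sq_eq_neg_one_iff]
      omega
    have h3 : S = ∑ u : ZMod q, quadraticChar (ZMod q) (u ^ 3 - 16 * u) := by
      rw [hS, ← Equiv.sum_comp (Equiv.addRight (4 : ZMod q))]
      refine Finset.sum_congr rfl fun u _ => ?_
      congr 1
      simp only [Equiv.coe_addRight]
      ring
    have h5 : S = -S := by
      conv_lhs => rw [h3, ← Equiv.sum_comp (Equiv.neg (ZMod q))]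
      rw [h3, ← Finset.sum_neg_distrib]
      refine Finset.sum_congr rfl fun u _ => ?_
      have e : (Equiv.neg (ZMod q)) u ^ 3 - 16 * (Equiv.neg (ZMod q)) u =
          -1 * (u ^ 3 - 16 * u) := by
        simp only [Equiv.neg_apply]
        ring
      rw [e, map_mul, hm, neg_one_mul]
    omega

end Pool.Agent.SS.FM
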