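import Mathlib
import Pool.Agent.Work.MP_a5099b_nt.FM.Defs
import Pool.Agent.Work.MP_a5099b_nt.FM.GL
import Pool.Agent.Work.MP_a5099b_nt.FM.LPt
import Pool.Agent.Work.MP_a5099b_nt.FM.GBad
import Pool.Agent.Work.MP_a5099b_nt.FM.DegD
import Pool.Agent.Work.MP_a5099b_nt.FM.Red
import Pool.Agent.Work.MP_a5099b_nt.FM.RedMem
import Pool.Agent.Work.MP_a5099b_nt.C.MHHs
import Pool.Agent.Work.MP_a5099b_nt.FM.LSix
import Pool.Agent.Work.MP_a5099b_nt.FM.LFull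
import Pool.Agent.Work.MP_a5099b_nt.FM.LAdj

/-!
# Module FM/LFib (M)

A supersingular Legendre curve over a prime field with a homomorphism from `𝓞 K`. PROOF. (1) `deg_sqrt K K 1` (`hi`; `-((1 : ℕ) : K)` is `-1`): the set is not empty for `R = 1`: a prime `q₁ > N₁` (`N₁` larger than all primes dividing `287496 = 2^3 3^3 11^3` and `287496 - 1728 = 2^3 3^6 7^2`, e.g. 11), `jacobiSym (-1) q₁ = -1`, so `q₁ % 4 = 3` (`ZMod.χ₄`, `jacobiSym.at_neg_one`), `θ₁ : 𝓞 K →+* ZMod q₁`; `v₁ : HeightOneSpectrum`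
with asIdeal `RingHom.ker θ₁` (prime; not `⊥` since it contains `q₁`), `𝓞 K ⧸ v₁.asIdeal ≃ ZMod q₁` (`θ₁` surjective, `RingHom.quotientKerEquivOfSurjective`), so `Nat.card = q₁`. `y₁ = 287496`, `ss16`; `y₁ ≠ 0, 1728`. (2) `C₀ = (X - C 287496) * (X - C 54000)`, `B₀` from `bad_l X 1 C₀`; `l` from `exists_l` (`q₁ % 4 = 3`: the condition for `8000` is empty) with `B₀ < l`; `jacobiSym (-l) q₁ = -1`.
(3) `exists_pt2 X 1 v₁` (`FM/LPt`) with `t₀ = 287496` (`y₁.val` is congruent to `287496` modulo `q₁`): `M, x, t`, no square root of `-l` and of `-1` in `M` (`D = l`, `D = 1`), `aeval x (HH l) = 0`, `t = x`, `x ≠ 0, 1728`; `bad_l`: `C₀(x) ≠ 0`, so `x ≠ 287496, 54000`. (4) `adj_sqrt l` (`FM/LAdj`): `M' ∋ s`, `s ^ 2 = l`, no square root of `-1`; `x' : M'` the image of `x`. (5) `red_mem` for the elements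
`x', x' - 1728, x' - 287496, x' - 54000` of `M'`; `deg_sqrt M' M' 1 N 1`: `q > N`, `q > l`, `q % 4 = 3`, `θ' : 𝓞 M' →+* ZMod q`; `exists_red θ'`: `R, ψ`, `y = ψ ⟨x', _⟩ ≠ 0, 1728, 287496, 54000`. `s` is an integer and `θ' s ^ 2 = l`, so `jacobiSym l q = 1` (`l ≠ 0` modulo `q`) and `jacobiSym (-l) q = jacobiSym (-1) q = -1`; `HH_ss hl`: `SSj q y` (as at the end of `FM/GMain.lean`). (6) `full_two` (`FM/LFull`).
`θ = θ'.comp (𝓞 K → 𝓞 M')` (through `𝓞 M`).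
-/

set_option autoImplicit false

namespace Pool.Agent.SS.FM

open NumberField IsDedekindDomain Polynomial

private theorem cast_ne {q : ℕ} [Fact q.Prime] (n : ℕ) (hn : n ≠ 0) (h : n < q) :
    (n : ZMod q) ≠ 0 := by
  intro h'
  rw [ZMod.natCast_eq_zero_iff] at h'
  have := Nat.le_of_dvd (Nat.pos_of_ne_zero hn) h'
  omega

private theorem mod_four {q : ℕ} (hq : q.Prime) (h7 : 7 < q)
    (h : jacobiSym (-((1 : ℕ) : ℤ)) q = -1) : q % 4 = 3 := by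
  have hodd : Odd q := hq.odd_of_ne_two (by omega)
  rw [Nat.cast_one, jacobiSym.at_neg_one hodd, ZMod.χ₄_nat_eq_if_mod_four] at h
  rw [Nat.odd_iff] at hodd
  split_ifs at h with h1 h2
  omega

theorem exists_fibL {K : Type} [Field K] [NumberField K] (hi : ∀ x : K, x ^ 2 ≠ -1) :
    ∃ (q : ℕ) (_ : Fact q.Prime) (_ : 𝓞 K →+* ZMod q) (z r : ZMod q), 7 ≤ q ∧ q % 4 = 3 ∧
      SSj q z ∧ z ≠ 0 ∧ z ≠ 1728 ∧ r ≠ 0 ∧ r ≠ 1 ∧
      256 * (r ^ 2 - r + 1) ^ 3 = z * (r ^ 2 * (r - 1) ^ 2) := by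
  -- a place of degree one with `q₁ = 3 mod 4`
  obtain ⟨S, hS, hR⟩ := deg_sqrt K K 1 (by rw [Nat.cast_one]; exact hi) 11 1
  have hne : S.Nonempty := by
    rw [Finset.nonempty_iff_ne_empty]
    rintro rfl
    norm_num at hR
  obtain ⟨q₁, hq₁⟩ := hne
  obtain ⟨hp₁, h11, hj₁, -, ⟨θ₁⟩⟩ := hS q₁ hq₁
  have hF₁ : Fact q₁.Prime := ⟨hp₁⟩
  have h7' : 7 ≤ q₁ := by omega
  have hm4 : q₁ % 4 = 3 := mod_four hp₁ (by omega) hj₁
  have hqk : ((q₁ : ℕ) : 𝓞 K) ∈ RingHom.ker θ₁ := by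
    rw [RingHom.mem_ker, map_natCast, ZMod.natCast_self]
  let v₁ : HeightOneSpectrum (𝓞 K) := ⟨RingHom.ker θ₁, RingHom.ker_isPrime θ₁, by
    intro hbot
    rw [hbot, Ideal.mem_bot] at hqk
    exact hp₁.ne_zero (by exact_mod_cast hqk)⟩
  have hv₁ : ((q₁ : ℕ) : 𝓞 K) ∈ v₁.asIdeal := hqk
  have hcard : Nat.card (𝓞 K ⧸ v₁.asIdeal) = q₁ := by
    have e : 𝓞 K ⧸ v₁.asIdeal ≃+* ZMod q₁ :=
      RingHom.quotientKerEquivOfSurjective (f := θ₁) (ZMod.ringHom_surjective θ₁)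
    rw [Nat.card_congr e.toEquiv, Nat.card_zmod]
  have c2 : (2 : ZMod q₁) ≠ 0 := by exact_mod_cast cast_ne (q := q₁) 2 (by norm_num) (by omega)
  have c3 : (3 : ZMod q₁) ≠ 0 := by exact_mod_cast cast_ne (q := q₁) 3 (by norm_num) (by omega)
  have c7 : (7 : ZMod q₁) ≠ 0 := by exact_mod_cast cast_ne (q := q₁) 7 (by norm_num) (by omega)
  have c11 : (11 : ZMod q₁) ≠ 0 := by
    exact_mod_cast cast_ne (q := q₁) 11 (by norm_num) (by omega)
  have hy₁ : SSj q₁ (287496 : ZMod q₁) := ss16 h7' hm4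
  have hy0 : (287496 : ZMod q₁) ≠ 0 := by
    have e : (287496 : ZMod q₁) = 2 ^ 3 * 3 ^ 3 * 11 ^ 3 := by norm_num
    rw [e]
    exact mul_ne_zero (mul_ne_zero (pow_ne_zero _ c2) (pow_ne_zero _ c3)) (pow_ne_zero _ c11)
  have hy1 : (287496 : ZMod q₁) ≠ 1728 := by
    rw [← sub_ne_zero]
    have e : (287496 - 1728 : ZMod q₁) = 2 ^ 3 * 3 ^ 6 * 7 ^ 2 := by norm_num
    rw [e]
    exact mul_ne_zero (mul_ne_zero (pow_ne_zero _ c2) (pow_ne_zero _ c3)) (pow_ne_zero _ c7)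
  obtain ⟨y₁, hy₁e⟩ : ∃ y₁ : ZMod q₁, y₁ = 287496 := ⟨_, rfl⟩
  rw [← hy₁e] at hy₁ hy0 hy1
  set C₀ : Polynomial (𝓞 K) := (X - C 287496) * (X - C 54000) with hC₀
  have hC : C₀ ≠ 0 := mul_ne_zero (X_sub_C_ne_zero _) (X_sub_C_ne_zero _)
  obtain ⟨B₀, hB₀⟩ := bad_l (X : Polynomial (𝓞 K)) 1 C₀ hC
  obtain ⟨l, hl, hBl, hjac, hodd⟩ := exists_l h7' y₁ hy₁ hy0 hy1 (fun h => by omega) B₀
  have hone : (1 : 𝓞 K) ∉ v₁.asIdeal := (Ideal.ne_top_iff_one _).1 v₁.isPrime.ne_top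
  obtain ⟨M, _, _, _, x, t, hM, hx, hP, hQt, hx0, hx1⟩ :=
    exists_pt2 (X : Polynomial (𝓞 K)) 1 v₁ h7' hv₁ ⟨1, odd_one, by rw [pow_one]; exact hcard⟩ y₁
      hy0 hy1 hl hjac hodd ((y₁.val : ℕ) : 𝓞 K) (by rw [eval_one]; exact hone)
      (by rw [eval_X, eval_one, map_one, mul_one, map_natCast])
      (by
        rw [derivative_X, derivative_one, mul_zero, sub_zero, one_mul, eval_one]
        exact hone)
  obtain ⟨hEt, -⟩ := hB₀ l hl hBl M x t hx hP hQt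
  have htx : t = x := by
    rw [eval₂_X, eval₂_one, mul_one] at hP
    exact hP
  subst htx
  have hEt' : t ≠ 287496 ∧ t ≠ 54000 := by
    rw [hC₀, eval₂_mul, eval₂_sub, eval₂_sub, eval₂_X, eval₂_C, eval₂_C, map_ofNat, map_ofNat]
      at hEt
    exact ⟨sub_ne_zero.1 (left_ne_zero_of_mul hEt), sub_ne_zero.1 (right_ne_zero_of_mul hEt)⟩
  -- adjoin the square root of `l`
  obtain ⟨M', _, _, _, s, hs, hM'⟩ := adj_sqrt l (hM l hjac) (fun z => by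
    have := hM 1 hj₁ z
    rwa [Nat.cast_one] at this)
  have hinj : Function.Injective (algebraMap M M') := RingHom.injective _
  obtain ⟨x', hx'⟩ : ∃ x' : M', x' = algebraMap M M' t := ⟨_, rfl⟩
  have hx'0 : x' ≠ 0 := by
    rw [hx', Ne, map_eq_zero_iff _ hinj]
    exact hx0
  have hx'n : ∀ n : ℕ, t ≠ (n : M) → x' - (n : M') ≠ 0 := by
    intro n hn h
    apply hn
    apply hinj
    rw [← hx', map_natCast]
    exact sub_eq_zero.1 h
  have hx'1 : x' - 1728 ≠ 0 := by exact_mod_cast hx'n 1728 (by exact_mod_cast hx1)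
  have hx'2 : x' - 287496 ≠ 0 := by exact_mod_cast hx'n 287496 (by exact_mod_cast hEt'.1)
  have hx'3 : x' - 54000 ≠ 0 := by exact_mod_cast hx'n 54000 (by exact_mod_cast hEt'.2)
  have hx'H : aeval x' (HH l) = 0 := by
    have h1 := Polynomial.hom_eval₂ (HH l) (algebraMap ℤ M) (algebraMap M M') t
    have h2 : (algebraMap M M').comp (algebraMap ℤ M) = algebraMap ℤ M' := RingHom.ext_int _ _
    rw [h2, ← aeval_def, ← aeval_def, hx, map_zero] at h1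
    rw [hx']
    exact h1.symm
  obtain ⟨b1, hb1⟩ := red_mem x'
  obtain ⟨b2, hb2⟩ := red_mem (x' - 1728)
  obtain ⟨b3, hb3⟩ := red_mem (x' - 287496)
  obtain ⟨b4, hb4⟩ := red_mem (x' - 54000)
  obtain ⟨S', hS', hR'⟩ := deg_sqrt M' M' 1 (by rw [Nat.cast_one]; exact hM')
    (l + 7 + b1 + b2 + b3 + b4) 1
  have hne' : S'.Nonempty := by
    rw [Finset.nonempty_iff_ne_empty]
    rintro rfl
    norm_num at hR'
  obtain ⟨q, hq⟩ := hne'
  obtain ⟨hqp, hqN, hqj, -, ⟨θM⟩⟩ := hS' q hq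
  have hF : Fact q.Prime := ⟨hqp⟩
  have hq4 : q % 4 = 3 := mod_four hqp (by omega) hqj
  obtain ⟨R, ψ, hred⟩ := exists_red θM
  obtain ⟨m1, n1⟩ := hb1 q (by omega) θM R ψ hred
  obtain ⟨m2, n2⟩ := hb2 q (by omega) θM R ψ hred
  obtain ⟨m3, n3⟩ := hb3 q (by omega) θM R ψ hred
  obtain ⟨m4, n4⟩ := hb4 q (by omega) θM R ψ hred
  -- `l` is a square modulo `q`
  have hsi : IsIntegral ℤ s := by
    refine ⟨X ^ 2 - C (l : ℤ), monic_X_pow_sub_C _ (by norm_num), ?_⟩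
    rw [eval₂_sub, eval₂_pow, eval₂_X, eval₂_C, hs]
    simp
  obtain ⟨s', hs'⟩ : ∃ s' : 𝓞 M', algebraMap (𝓞 M') M' s' = s := ⟨⟨s, hsi⟩, rfl⟩
  have hls : ((l : ℤ) : ZMod q) = θM s' * θM s' := by
    rw [← map_mul]
    have e : s' * s' = ((l : ℕ) : 𝓞 M') := by
      apply RingOfIntegers.coe_injective
      rw [map_mul, map_natCast, hs', ← hs]
      ring
    rw [e, map_natCast]
    norm_cast
  have hl0 : ((l : ℤ) : ZMod q) ≠ 0 := by
    have := cast_ne (q := q) l hl.prime.ne_zero (by omega)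
    exact_mod_cast this
  have hjl : jacobiSym (l : ℤ) q = 1 := by
    rw [← jacobiSym.legendreSym.to_jacobiSym]
    exact (legendreSym.eq_one_iff q hl0).2 ⟨_, hls⟩
  have hjnl : jacobiSym (-(l : ℤ)) q = -1 := by
    have e : (-(l : ℤ)) = (-((1 : ℕ) : ℤ)) * l := by push_cast; ring
    rw [e, jacobiSym.mul_left, hqj, hjl]
    norm_num
  have hss : SSj q (ψ ⟨x', m1⟩) := by
    apply HH_ss hl hqp (by omega) (Or.inr hjnl)
    have h2 : aeval (⟨x', m1⟩ : R) (HH l) = 0 := by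
      apply Subtype.val_injective
      have h3 := Polynomial.hom_eval₂ (HH l) (algebraMap ℤ R) R.subtype ⟨x', m1⟩
      have h4 : R.subtype.comp (algebraMap ℤ R) = algebraMap ℤ M' := RingHom.ext_int _ _
      rw [h4] at h3
      exact h3.trans hx'H
    have h3 := Polynomial.hom_eval₂ (HH l) (algebraMap ℤ R) ψ ⟨x', m1⟩
    have h4 : ψ.comp (algebraMap ℤ R) = algebraMap ℤ (ZMod q) := RingHom.ext_int _ _
    rw [h4, ← aeval_def, h2, map_zero] at h3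
    exact h3.symm
  obtain ⟨z, r, hz, hz0, hz1, hr0, hr1, hzr⟩ := full_two (q := q) (by omega) hq4 (ψ ⟨x', m1⟩) hss
    (n1 hx'0) (by
      intro h
      apply n2 hx'1
      have e : (⟨x' - 1728, m2⟩ : R) = ⟨x', m1⟩ - 1728 := Subtype.ext rfl
      rw [e, map_sub, h, map_ofNat, sub_self])
    (by
      intro h
      apply n3 hx'2
      have e : (⟨x' - 287496, m3⟩ : R) = ⟨x', m1⟩ - 287496 := Subtype.ext rfl
      rw [e, map_sub, h, map_ofNat, sub_self])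
    (by
      intro h
      apply n4 hx'3
      have e : (⟨x' - 54000, m4⟩ : R) = ⟨x', m1⟩ - 54000 := Subtype.ext rfl
      rw [e, map_sub, h, map_ofNat, sub_self])
  exact ⟨q, hF, θM.comp ((algebraMap (𝓞 M) (𝓞 M')).comp (algebraMap (𝓞 K) (𝓞 M))), z, r,
    by omega, hq4, hz, hz0, hz1, hr0, hr1, hzr⟩

end Pool.Agent.SS.FM
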