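import Mathlib
import Pool.Agent.Work.MP_a5099b_nt.FM.GMain
import Pool.Agent.Work.MP_a5099b_nt.FM.HExt
import Pool.Agent.Work.MP_a5099b_nt.FM.LDom
import Pool.Agent.Work.MP_a5099b_nt.FM.LFib

/-!
# Module FM/LMain (helper91): the Legendre family over every number field without i, assembly
-/

set_option autoImplicit false

namespace Pool.Agent.SS.FM

open NumberField IsDedekindDomain Polynomial

/-- The family `y ^ 2 = x (x - t_0) (x - t_1)`. -/
noncomputable def legW (K : Type) [Field K] [NumberField K] :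
    WeierstrassCurve (MvPolynomial (Fin 2) (𝓞 K)) :=
  ⟨0, -(MvPolynomial.X 0 + MvPolynomial.X 1), 0, MvPolynomial.X 0 * MvPolynomial.X 1, 0⟩

private theorem mk_eq {K K' : Type} [Field K] [NumberField K] [Field K'] [NumberField K']
    [Algebra K K'] (v : HeightOneSpectrum (𝓞 K')) {q : ℕ} [Fact q.Prime] (θ : 𝓞 K →+* ZMod q)
    (t₀ : 𝓞 K') (r : ZMod q)
    (hiff : ∀ F : Polynomial (𝓞 K), aeval t₀ F ∈ v.asIdeal ↔ (F.map θ).eval r = 0)
    (P Q : Polynomial (𝓞 K)) (y : ZMod q) (h : (P.map θ).eval r = y * (Q.map θ).eval r) :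
    Ideal.Quotient.mk v.asIdeal (aeval t₀ P) =
      ((y.val : ℕ) : 𝓞 K' ⧸ v.asIdeal) * Ideal.Quotient.mk v.asIdeal (aeval t₀ Q) := by
  have hθy : θ ((y.val : ℕ) : 𝓞 K) = y := by
    rw [map_natCast]
    exact ZMod.natCast_zmod_val y
  have hmem : aeval t₀ (P - Polynomial.C ((y.val : ℕ) : 𝓞 K) * Q) ∈ v.asIdeal := by
    rw [hiff, Polynomial.map_sub, Polynomial.map_mul, Polynomial.map_C, hθy, eval_sub, eval_mul,
      eval_C, h, sub_self]
  rw [map_sub, map_mul, aeval_C, map_natCast] at hmem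
  have h2 := (Ideal.Quotient.eq_zero_iff_mem).2 hmem
  rw [map_sub, map_mul, map_natCast, sub_eq_zero] at h2
  exact h2

theorem main_L {K : Type} [Field K] [NumberField K] (hi : ∀ x : K, x ^ 2 ≠ -1)
    {ι : Type} [Fintype ι] (β : Module.Basis ι ℤ (𝓞 K)) (ε : ℝ) (hε : 0 < ε) :
    ∃ L : ℕ, ∀ (α : Fin 2 × ι → ℤ) (T : Fin 2 × ι → ℕ), (∀ i, L ≤ T i) →
      {z : Fin 2 × ι → ℤ | (∀ i, α i ≤ z i ∧ z i < α i + T i) ∧ z ∈ ExcF β (legW K)}.Finite ∧
      ({z : Fin 2 × ι → ℤ | (∀ i, α i ≤ z i ∧ z i < α i + T i) ∧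
        z ∈ ExcF β (legW K)}.ncard : ℝ) ≤ ε * ∏ i, (T i : ℝ) := by
  obtain ⟨q, hqF, θ, z, r, h7, h4, hz, hz0, hz1, hr0, hr1, hzr⟩ := exists_fibL hi
  obtain ⟨K', _, _, _, v, t₀, hqv, hcard, hiff⟩ := exists_ext θ (X - Polynomial.C r)
    (monic_X_sub_C r) (irreducible_X_sub_C r)
  rw [natDegree_X_sub_C] at hcard
  have hiff' : ∀ F : Polynomial (𝓞 K), aeval t₀ F ∈ v.asIdeal ↔ (F.map θ).eval r = 0 := by
    intro F
    rw [hiff, dvd_iff_isRoot, IsRoot.def]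
  set P : Polynomial (𝓞 K) := 256 * (X ^ 2 - X + 1) ^ 3 with hP
  set Q : Polynomial (𝓞 K) := X ^ 2 * (X - 1) ^ 2 with hQ
  have hr1' : r - 1 ≠ 0 := sub_ne_zero.2 hr1
  have h2q : ∀ n : ℕ, n ≠ 0 → n < 7 → (n : ZMod q) ≠ 0 := by
    intro n hn hn7 h
    rw [ZMod.natCast_eq_zero_iff] at h
    have := Nat.le_of_dvd (Nat.pos_of_ne_zero hn) h
    omega
  have h2 : (2 : ZMod q) ≠ 0 := by exact_mod_cast h2q 2 (by norm_num) (by norm_num)
  have hPr : (P.map θ).eval r = 256 * (r ^ 2 - r + 1) ^ 3 := by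
    simp [hP]
  have hQr : (Q.map θ).eval r = r ^ 2 * (r - 1) ^ 2 := by
    simp [hQ]
  have hQv : aeval t₀ Q ∉ v.asIdeal := by
    rw [hiff', hQr]
    exact mul_ne_zero (pow_ne_zero _ hr0) (pow_ne_zero _ hr1')
  have hw : derivative P * Q - P * derivative Q =
      256 * (X ^ 2 - X + 1) ^ 2 * X * (X - 1) * (2 * X - 1) * (X - 2) * (X + 1) := by
    rw [hP, hQ]
    simp only [derivative_mul, derivative_pow, derivative_add, derivative_sub, derivative_X,
      derivative_one, derivative_ofNat]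
    push_cast
    simp only [map_ofNat]
    ring
  have hdv : aeval t₀ (derivative P * Q - P * derivative Q) ∉ v.asIdeal := by
    rw [hiff', hw]
    have e : ((256 * (X ^ 2 - X + 1) ^ 2 * X * (X - 1) * (2 * X - 1) * (X - 2) * (X + 1) :
        Polynomial (𝓞 K)).map θ).eval r =
        256 * (r ^ 2 - r + 1) ^ 2 * r * (r - 1) * (2 * r - 1) * (r - 2) * (r + 1) := by
      simp
    rw [e]
    have hA : r ^ 2 - r + 1 ≠ 0 := by
      intro h
      rw [h] at hzr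
      have h3 : z * (r ^ 2 * (r - 1) ^ 2) = 0 := by rw [← hzr]; ring
      rcases mul_eq_zero.1 h3 with h4 | h4
      · exact hz0 h4
      · exact mul_ne_zero (pow_ne_zero _ hr0) (pow_ne_zero _ hr1') h4
    have hB : (r - 2) * (2 * r - 1) * (r + 1) ≠ 0 := by
      intro h
      apply hz1
      apply mul_right_cancel₀ (mul_ne_zero (pow_ne_zero 2 hr0) (pow_ne_zero 2 hr1'))
      rw [← hzr]
      have h3 : 256 * (r ^ 2 - r + 1) ^ 3 - 1728 * (r ^ 2 * (r - 1) ^ 2) =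
          64 * ((r - 2) * (2 * r - 1) * (r + 1)) ^ 2 := by ring
      rw [h] at h3
      linear_combination h3
    have h256 : (256 : ZMod q) ≠ 0 := by
      have : (256 : ZMod q) = 2 ^ 8 := by norm_num
      rw [this]
      exact pow_ne_zero _ h2
    have hB1 : 2 * r - 1 ≠ 0 := fun h => hB (by rw [h]; ring)
    have hB2 : r - 2 ≠ 0 := fun h => hB (by rw [h]; ring)
    have hB3 : r + 1 ≠ 0 := fun h => hB (by rw [h]; ring)
    exact mul_ne_zero (mul_ne_zero (mul_ne_zero (mul_ne_zero (mul_ne_zero (mul_ne_zero h256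
      (pow_ne_zero _ hA)) hr0) hr1') hB1) hB2) hB3
  have hval : Ideal.Quotient.mk v.asIdeal (aeval t₀ P) =
      ((z.val : ℕ) : 𝓞 K' ⧸ v.asIdeal) * Ideal.Quotient.mk v.asIdeal (aeval t₀ Q) :=
    mk_eq v θ t₀ r hiff' P Q z (by rw [hPr, hQr, hzr])
  set φ : Fin 2 → MvPolynomial (Fin 2) (𝓞 K) :=
    ![MvPolynomial.X 1, MvPolynomial.X 0 * MvPolynomial.X 1] with hφ
  set x0 : MvPolynomial (Fin 2) (𝓞 K) := MvPolynomial.X 0 with hx0
  set x1 : MvPolynomial (Fin 2) (𝓞 K) := MvPolynomial.X 1 with hx1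
  have hW : sp (legW K) MvPolynomial.C φ = ⟨0, -(x1 + x0 * x1), 0, x1 * (x0 * x1), 0⟩ := by
    unfold sp legW
    simp [hφ, WeierstrassCurve.map]
  have hc4 : (sp (legW K) MvPolynomial.C φ).c₄ = 16 * x1 ^ 2 * (x0 ^ 2 - x0 + 1) := by
    rw [hW]
    simp only [WeierstrassCurve.c₄, WeierstrassCurve.b₂, WeierstrassCurve.b₄]
    ring
  have hD : (sp (legW K) MvPolynomial.C φ).Δ = 16 * x1 ^ 6 * (x0 ^ 2 * (x0 - 1) ^ 2) := by
    rw [hW]
    simp only [WeierstrassCurve.Δ, WeierstrassCurve.b₂, WeierstrassCurve.b₄, WeierstrassCurve.b₆,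
      WeierstrassCurve.b₈]
    ring
  have hne0 : x0 ≠ 0 := MvPolynomial.X_ne_zero 0
  have hne1 : x1 ≠ 0 := MvPolynomial.X_ne_zero 1
  have hne2 : x0 - 1 ≠ 0 := by
    intro h
    have h3 := congrArg (MvPolynomial.eval (fun _ => (0 : 𝓞 K))) h
    rw [hx0] at h3
    simp at h3
  have h16 : (16 : MvPolynomial (Fin 2) (𝓞 K)) ≠ 0 := by norm_num
  refine main_y (legW K) φ (dom_leg K) ?_ P Q ?_ v h7 hqv ⟨1, odd_one, hcard⟩ t₀ hQv hdv z hz hz0
    hz1 (fun h => absurd h (by omega)) hval β ε hε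
  · rw [hD]
    exact mul_ne_zero (mul_ne_zero h16 (pow_ne_zero _ hne1))
      (mul_ne_zero (pow_ne_zero _ hne0) (pow_ne_zero _ hne2))
  · rw [hD, hc4, hP, hQ]
    simp only [map_mul, map_pow, map_sub, map_add, map_one, aeval_X, map_ofNat]
    rw [← hx0]
    ring

end Pool.Agent.SS.FM
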