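import Mathlib

/-!
# Module FM/LNa (S-M)

Pure. Counting for a cubic with three roots. PROOF. `f(x) = x (x - r) (x - s)`, `S₊ = {x | χ(f(x)) = 1}`, `S₋` likewise with `-1`. `f` has exactly 3 zeros, the sum is zero, so `|S₊| = |S₋| = (q - 3) / 2`. CLAIM: `|S₊|` is even (so `q ≡ 3 mod 4`). The involution `x ↦ r s / x` of `S₊` (`x ≠ 0` on `S₊`; `f(r s / x) = (r s / x²)² f(x)`, because `(rs/x - r)(rs/x - s) = r s (s - x)(r - x) / x²`) shows
that `|S₊|` has the parity of the number of its fixed points `x² = r s` in `S₊` (`Finset.card`-involution lemma, `Function.Involutive.card_fixedPoints`-type, or `Finset.sum_involution` in `ZMod 2`). If `r s` is not a square there are none. If `r s = c²`, the fixed points are `c, -c` (different), `f(c) = c² (2 c - r - s)`, `f(-c) = c² (-2 c - r - s)`, and `(2 c - r - s)(-2 c - r - s) = (r - s)²` is a square different from zero,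
so `χ(f(c)) = χ(f(-c))`: both or none are in `S₊`.
-/

set_option autoImplicit false

namespace Pool.Agent.SS.FM

open NumberField IsDedekindDomain Polynomial

private theorem lna_even {q : ℕ} [Fact q.Prime] (h2 : 2 < q) (r s : ZMod q) (hr : r ≠ 0)
    (hs : s ≠ 0) (hrs : r ≠ s) :
    Even (Finset.univ.filter fun x : ZMod q =>
      quadraticChar (ZMod q) (x * (x - r) * (x - s)) = 1).card := by
  classical
  set S := Finset.univ.filter fun x : ZMod q =>
    quadraticChar (ZMod q) (x * (x - r) * (x - s)) = 1 with hS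
  have hk2 : (2 : ZMod q) ≠ 0 := by
    intro h
    have h' : ((2 : ℕ) : ZMod q) = 0 := by exact_mod_cast h
    rw [ZMod.natCast_eq_zero_iff] at h'
    have := Nat.le_of_dvd (by norm_num) h'
    omega
  have hrs0 : r * s ≠ 0 := mul_ne_zero hr hs
  have hmem : ∀ x, x ∈ S ↔ quadraticChar (ZMod q) (x * (x - r) * (x - s)) = 1 := by
    intro x
    rw [hS, Finset.mem_filter]
    exact ⟨fun h => h.2, fun h => ⟨Finset.mem_univ _, h⟩⟩
  have hmem0 : ∀ x ∈ S, x ≠ 0 := by
    intro x hx h0
    rw [hmem, h0, zero_mul, zero_mul, MulChar.map_zero] at hx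
    exact zero_ne_one hx
  have hinv : ∀ x ∈ S, r * s / x ∈ S := by
    intro x hx
    have hx0 := hmem0 x hx
    rw [hmem] at hx ⊢
    have e : r * s / x * (r * s / x - r) * (r * s / x - s) =
        (r * s / x ^ 2) ^ 2 * (x * (x - r) * (x - s)) := by
      field_simp
      ring
    rw [e, map_mul, quadraticChar_sq_one' (div_ne_zero hrs0 (pow_ne_zero 2 hx0)), one_mul]
    exact hx
  have hA : Even (S.filter fun x => x ^ 2 ≠ r * s).card := by
    have h := Finset.sum_involution (s := S.filter fun x => x ^ 2 ≠ r * s)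
      (f := fun _ => (1 : ZMod 2)) (fun x _ => r * s / x) (fun _ _ => by decide)
      (by
        intro x hx _ hfix
        obtain ⟨hx1, hx2⟩ := Finset.mem_filter.1 hx
        have hx0 := hmem0 x hx1
        apply hx2
        rw [div_eq_iff hx0] at hfix
        rw [hfix]
        ring)
      (by
        intro x hx
        obtain ⟨hx1, hx2⟩ := Finset.mem_filter.1 hx
        have hx0 := hmem0 x hx1
        rw [Finset.mem_filter]
        refine ⟨hinv x hx1, fun hc => hx2 ?_⟩
        rw [div_pow, div_eq_iff (pow_ne_zero 2 hx0)] at hc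
        apply mul_left_cancel₀ hrs0
        rw [← hc]
        ring)
      (by
        intro x hx
        obtain ⟨hx1, hx2⟩ := Finset.mem_filter.1 hx
        have hx0 := hmem0 x hx1
        field_simp)
    rw [Finset.sum_const, nsmul_eq_mul, mul_one, ZMod.natCast_eq_zero_iff] at h
    exact even_iff_two_dvd.2 h
  have hB : Even (S.filter fun x => ¬ (x ^ 2 ≠ r * s)).card := by
    by_cases hc : ∃ c ∈ S, c ^ 2 = r * s
    · obtain ⟨c, hcS, hcc⟩ := hc
      have hc0 := hmem0 c hcS
      have hcn : c ≠ -c := by
        intro h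
        have h3 : 2 * c = 0 := by linear_combination h
        rcases mul_eq_zero.1 h3 with h4 | h4
        · exact hk2 h4
        · exact hc0 h4
      have hcS' : -c ∈ S := by
        rw [hmem] at hcS ⊢
        have e : (c * (c - r) * (c - s)) * (-c * (-c - r) * (-c - s)) =
            (c ^ 2 * (r - s)) ^ 2 := by
          linear_combination (-(c ^ 4) + c ^ 2 * r * s) * hcc
        have h5 := congrArg (quadraticChar (ZMod q)) e
        rw [map_mul, hcS, one_mul, quadraticChar_sq_one'
          (mul_ne_zero (pow_ne_zero 2 hc0) (sub_ne_zero.2 hrs))] at h5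
        exact h5
      have hset : (S.filter fun x => ¬ (x ^ 2 ≠ r * s)) = {c, -c} := by
        ext x
        rw [Finset.mem_filter, Finset.mem_insert, Finset.mem_singleton, not_not]
        constructor
        · rintro ⟨-, hx⟩
          rw [← hcc] at hx
          exact sq_eq_sq_iff_eq_or_eq_neg.1 hx
        · rintro (rfl | rfl)
          · exact ⟨hcS, hcc⟩
          · exact ⟨hcS', by rw [neg_sq]; exact hcc⟩
      rw [hset, Finset.card_pair hcn]
      exact even_two
    · have hset : (S.filter fun x => ¬ (x ^ 2 ≠ r * s)) = ∅ := by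
        rw [Finset.filter_eq_empty_iff]
        intro x hx hxx
        exact hc ⟨x, hx, not_not.1 hxx⟩
      rw [hset, Finset.card_empty]
      exact Even.zero
  rw [← Finset.card_filter_add_card_filter_not (s := S) (fun x => x ^ 2 ≠ r * s)]
  exact hA.add hB

theorem odd_mod {q : ℕ} [Fact q.Prime] (h2 : 2 < q) (r s : ZMod q) (hr : r ≠ 0) (hs : s ≠ 0)
    (hrs : r ≠ s) (h : ∑ x : ZMod q, quadraticChar (ZMod q) (x * (x - r) * (x - s)) = 0) :
    q % 4 = 3 := by
  classical
  have hev := lna_even h2 r s hr hs hrs
  have hcase : ∀ x : ZMod q,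
      (x ∈ ({0, r, s} : Finset (ZMod q)) ∧
        quadraticChar (ZMod q) (x * (x - r) * (x - s)) = 0) ∨
      (x ∉ ({0, r, s} : Finset (ZMod q)) ∧
        (quadraticChar (ZMod q) (x * (x - r) * (x - s)) = 1 ∨
        quadraticChar (ZMod q) (x * (x - r) * (x - s)) = -1)) := by
    intro x
    by_cases hx : x ∈ ({0, r, s} : Finset (ZMod q))
    · left
      refine ⟨hx, ?_⟩
      rw [Finset.mem_insert, Finset.mem_insert, Finset.mem_singleton] at hx
      rcases hx with h3 | h3 | h3
      · rw [h3, zero_mul, zero_mul, MulChar.map_zero]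
      · rw [h3, sub_self, mul_zero, zero_mul, MulChar.map_zero]
      · rw [h3, sub_self, mul_zero, MulChar.map_zero]
    · right
      refine ⟨hx, quadraticChar_dichotomy ?_⟩
      rw [Finset.mem_insert, Finset.mem_insert, Finset.mem_singleton, not_or, not_or] at hx
      exact mul_ne_zero (mul_ne_zero hx.1 (sub_ne_zero.2 hx.2.1)) (sub_ne_zero.2 hx.2.2)
  set P := (Finset.univ.filter fun x : ZMod q =>
      quadraticChar (ZMod q) (x * (x - r) * (x - s)) = 1).card with hP
  set N := (Finset.univ.filter fun x : ZMod q =>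
      quadraticChar (ZMod q) (x * (x - r) * (x - s)) = -1).card with hN
  have h1 : (P : ℤ) - N = 0 := by
    rw [← h, hP, hN, Finset.card_filter, Finset.card_filter]
    push_cast
    rw [← Finset.sum_sub_distrib]
    refine Finset.sum_congr rfl fun x _ => ?_
    rcases hcase x with ⟨-, hx⟩ | ⟨-, hx | hx⟩
    · rw [hx]
      norm_num
    · rw [hx]
      norm_num
    · rw [hx]
      norm_num
  have h3 : (P : ℤ) + N + 3 = q := by
    have hc3 : ({0, r, s} : Finset (ZMod q)).card = 3 := by
      rw [Finset.card_insert_of_notMem, Finset.card_pair hrs]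
      rw [Finset.mem_insert, Finset.mem_singleton, not_or]
      exact ⟨hr.symm, hs.symm⟩
    have h4 : ((({0, r, s} : Finset (ZMod q)).card : ℕ) : ℤ) = 3 := by rw [hc3]; rfl
    have h5 : ((Finset.univ : Finset (ZMod q)).card : ℤ) = q := by
      rw [Finset.card_univ, ZMod.card]
    have h6 : ({0, r, s} : Finset (ZMod q)) =
        Finset.univ.filter (fun x => x ∈ ({0, r, s} : Finset (ZMod q))) := by
      ext x
      simp
    rw [← h4, ← h5, h6, hP, hN, Finset.card_filter, Finset.card_filter, Finset.card_filter,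
      Finset.card_eq_sum_ones]
    push_cast
    rw [← Finset.sum_add_distrib, ← Finset.sum_add_distrib]
    refine Finset.sum_congr rfl fun x _ => ?_
    rcases hcase x with ⟨hx, hx'⟩ | ⟨hx, hx' | hx'⟩
    · rw [hx', if_pos hx]
      norm_num
    · rw [hx', if_neg hx]
      norm_num
    · rw [hx', if_neg hx]
      norm_num
  obtain ⟨k, hk⟩ := hev
  omega

end Pool.Agent.SS.FM
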