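import Mathlib
import Pool.Agent.Work.MP_a5099b_nt.Defs
import Pool.Agent.Work.MP_a5099b_nt.C.EHas
import Pool.Agent.Work.MP_a5099b_nt.C.ECnt

/-!
# Module FM/LSum (M)

The character sum of a supersingular curve over the prime field is zero (without the Hasse bound). PROOF. `m = (q - 1) / 2 ≥ 3`, `q = 2 m + 1`, `f = X ^ 3 + C a * X + C b`, `S` the integer sum. In `ZMod q`: `(S : ZMod q) = ∑ f(x) ^ m = - Hasse q a b = 0` (`sum_char` in `C/ECnt`; see its use in `D5/SsC.lean`), so `q ∣ S`; `|S| ≤ q` (each term has absolute value at most 1). So `S = 0` or `S = ε q` with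
`ε = 1` or `-1`, and then all terms are equal to `ε`: `f(x) ^ m = ε` for all `x : ZMod q`. Contradiction: `X ^ q - X ∣ f ^ m - C ε` (it is the product of the `X - C x`, `FiniteField.X_pow_card_sub_X...`/`ZMod` versions; or: the difference modulo `X ^ q - X` has degree `< q` and `q` roots), `f ^ m - C ε = (X ^ q - X) * h`, `f ^ m` is monic of degree `3 m`, so `deg h = 3 m - q = m - 1`.
Derivative: `m f' f ^ (m - 1) = -h + (X ^ q - X) h'` (`(q : ZMod q) = 0`). Multiply by `f`, substitute `f ^ m = C ε + (X ^ q - X) h`: `m ε f' + f h = (X ^ q - X) * (f h' - m f' h)`. The left side has degree at most `m + 2 < q`, so it is zero (`Polynomial.eq_zero_of_dvd_of_natDegree_lt`): `f h = - m ε f'`, but `h ≠ 0`, so `deg (f h) ≥ 3`, and `deg f' ≤ 2`: contradiction (`f' ≠ 0` is not needed: `f h ≠ 0`).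
-/

set_option autoImplicit false

namespace Pool.Agent.SS.FM

open NumberField IsDedekindDomain Polynomial

private theorem no_const {q : ℕ} [Fact q.Prime] (h5 : 5 ≤ q) (a b ε : ZMod q)
    (h : ∀ x : ZMod q, (x ^ 3 + a * x + b) ^ ((q - 1) / 2) = ε) : False := by
  have hq : q.Prime := Fact.out
  obtain ⟨m, hm⟩ : ∃ m, q = 2 * m + 1 := by
    rcases hq.eq_two_or_odd with h | h
    · omega
    · exact ⟨q / 2, by omega⟩
  have hm2 : 2 ≤ m := by omega
  have hmq : (q - 1) / 2 = m := by omega
  rw [hmq] at h
  set f : (ZMod q)[X] := X ^ 3 + C a * X + C b with hf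
  have hfm : f.Monic := by
    rw [hf]
    monicity!
  have hfd : f.natDegree = 3 := by
    rw [hf]
    compute_degree!
  have hfe : ∀ x, f.eval x = x ^ 3 + a * x + b := fun x => by simp [hf]
  set g : (ZMod q)[X] := X ^ q - X with hg
  have hgm : g.Monic := by
    rw [hg]
    exact monic_X_pow_sub (by rw [degree_X]; exact_mod_cast (by omega : 1 < q))
  have hgd : g.natDegree = q := FiniteField.X_pow_card_sub_X_natDegree_eq (ZMod q) (by omega)
  have hge : ∀ x : ZMod q, g.eval x = 0 := fun x => by
    rw [hg, eval_sub, eval_pow, eval_X, ZMod.pow_card, sub_self]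
  have hGe : ∀ x : ZMod q, (f ^ m - C ε).eval x = 0 := fun x => by
    rw [eval_sub, eval_pow, hfe, h, eval_C, sub_self]
  have hdvd : g ∣ f ^ m - C ε := by
    rw [← modByMonic_eq_zero_iff_dvd hgm]
    have hR : ∀ x : ZMod q, ((f ^ m - C ε) %ₘ g).eval x = 0 := by
      intro x
      have h1 := modByMonic_add_div (f ^ m - C ε) g
      have h2 := congrArg (eval x) h1
      rw [eval_add, eval_mul, hge, zero_mul, add_zero, hGe] at h2
      exact h2
    have hlt : ((f ^ m - C ε) %ₘ g).natDegree < Fintype.card (ZMod q) := by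
      rw [ZMod.card q]
      have h1 := natDegree_modByMonic_lt (f ^ m - C ε) hgm (by
        intro h1
        rw [h1, natDegree_one] at hgd
        omega)
      rwa [hgd] at h1
    exact eq_zero_of_natDegree_lt_card_of_eval_eq_zero _ (Function.injective_id) hR hlt
  obtain ⟨u, hu⟩ := hdvd
  have hGd : (f ^ m - C ε).natDegree = 3 * m := by
    rw [natDegree_sub_C, hfm.natDegree_pow, hfd]
    ring
  have hu0 : u ≠ 0 := by
    rintro rfl
    rw [hu, mul_zero, natDegree_zero] at hGd
    omega
  have hud : q + u.natDegree = 3 * m := by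
    rw [← hGd, hu, hgm.natDegree_mul' hu0, hgd]
  have hg' : derivative g = -1 := by
    rw [hg, derivative_sub, derivative_X_pow, derivative_X]
    simp
  have hder : C (m : ZMod q) * f ^ (m - 1) * derivative f = -u + g * derivative u := by
    have h1 := congrArg derivative hu
    rw [derivative_sub, derivative_C, sub_zero, derivative_pow, derivative_mul, hg'] at h1
    rw [h1]
    ring
  have hfm' : f ^ m = C ε + g * u := by
    rw [← hu]
    ring
  have hpow : f * f ^ (m - 1) = f ^ m := by
    rw [← pow_succ']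
    congr 1
    omega
  have key : C (m : ZMod q) * C ε * derivative f + f * u =
      g * (f * derivative u - C (m : ZMod q) * derivative f * u) := by
    have h1 : C (m : ZMod q) * (f * f ^ (m - 1)) * derivative f = f * (-u + g * derivative u) := by
      rw [← hder]
      ring
    rw [hpow, hfm'] at h1
    linear_combination h1
  have hf'd : (derivative f).natDegree ≤ 2 := by
    have := natDegree_derivative_le f
    omega
  have hA : (C (m : ZMod q) * C ε * derivative f).natDegree ≤ 2 := by
    rw [← C_mul]
    exact (natDegree_C_mul_le _ _).trans hf'd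
  have hfu : (f * u).natDegree = 3 + u.natDegree := by
    rw [hfm.natDegree_mul' hu0, hfd]
  have hzero : C (m : ZMod q) * C ε * derivative f + f * u = 0 := by
    apply eq_zero_of_dvd_of_natDegree_lt (p := g) ⟨_, key⟩
    rw [hgd]
    refine lt_of_le_of_lt (natDegree_add_le _ _) ?_
    rw [hfu]
    omega
  have h1 : f * u = -(C (m : ZMod q) * C ε * derivative f) := by linear_combination hzero
  have h2 := congrArg natDegree h1
  rw [natDegree_neg, hfu] at h2
  omega

theorem sum_zero {q : ℕ} [Fact q.Prime] (h7 : 7 ≤ q) (a b : ZMod q) (hH : Hasse q a b = 0) :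
    ∑ x : ZMod q, quadraticChar (ZMod q) (x ^ 3 + a * x + b) = 0 := by
  have hq : q.Prime := Fact.out
  have hr : ringChar (ZMod q) ≠ 2 := by
    rw [ZMod.ringChar_zmod_n]
    omega
  have h2 : (2 : ZMod q) ≠ 0 := Ring.two_ne_zero hr
  set S : ℤ := ∑ x : ZMod q, quadraticChar (ZMod q) (x ^ 3 + a * x + b) with hS
  have hodd : q % 2 = 1 := by
    rcases hq.eq_two_or_odd with h | h
    · omega
    · exact h
  have hchi : ∀ z : ZMod q, ((quadraticChar (ZMod q) z : ℤ) : ZMod q) = z ^ ((q - 1) / 2) := by
    intro z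
    rw [quadraticChar_eq_pow_of_char_ne_two' hr, ZMod.card q]
    congr 1
    omega
  have hS0 : (S : ZMod q) = 0 := by
    have h4 := sum_char h2 a b
    rw [ZMod.card q] at h4
    rw [hS, Int.cast_sum, Finset.sum_congr rfl fun x _ => hchi _, h4]
    unfold Hasse at hH
    rw [hH, neg_zero]
  have hdvd : (q : ℤ) ∣ S := (ZMod.intCast_zmod_eq_zero_iff_dvd S q).1 hS0
  have h3 : ∀ z : ZMod q, quadraticChar (ZMod q) z = 0 ∨ quadraticChar (ZMod q) z = 1 ∨
      quadraticChar (ZMod q) z = -1 := by
    intro z
    by_cases hz : z = 0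
    · exact Or.inl (by rw [hz]; exact quadraticChar_zero)
    · exact Or.inr (quadraticChar_dichotomy hz)
  have hle : ∀ z : ZMod q, quadraticChar (ZMod q) z ≤ 1 := by
    intro z
    rcases h3 z with h | h | h <;> rw [h] <;> norm_num
  have hge : ∀ z : ZMod q, -1 ≤ quadraticChar (ZMod q) z := by
    intro z
    rcases h3 z with h | h | h <;> rw [h] <;> norm_num
  have hcard : ∑ _x : ZMod q, (1 : ℤ) = q := by
    rw [Finset.sum_const, Finset.card_univ, ZMod.card q]
    simp
  have hSle : S ≤ q := by
    rw [← hcard]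
    exact Finset.sum_le_sum fun x _ => hle _
  have hSge : -(q : ℤ) ≤ S := by
    rw [← hcard, ← Finset.sum_neg_distrib]
    exact Finset.sum_le_sum fun x _ => hge _
  by_contra hne
  obtain ⟨t, ht⟩ := hdvd
  have hq0 : (0 : ℤ) < q := by exact_mod_cast hq.pos
  have ht0 : t ≠ 0 := by
    rintro rfl
    exact hne (by rw [ht, mul_zero])
  have ht1 : t = 1 ∨ t = -1 := by
    have h5 : t ≤ 1 := by
      by_contra h6
      push Not at h6
      nlinarith
    have h6 : -1 ≤ t := by
      by_contra h6
      push Not at h6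
      nlinarith
    omega
  rcases ht1 with rfl | rfl
  · have hall : ∀ x : ZMod q, quadraticChar (ZMod q) (x ^ 3 + a * x + b) = 1 := by
      have h5 : ∑ x : ZMod q, (1 - quadraticChar (ZMod q) (x ^ 3 + a * x + b)) = 0 := by
        rw [Finset.sum_sub_distrib, hcard, ← hS, ht]
        ring
      have h6 := (Finset.sum_eq_zero_iff_of_nonneg fun x _ => sub_nonneg.2 (hle _)).1 h5
      intro x
      have := h6 x (Finset.mem_univ x)
      linarith
    refine no_const (by omega) a b 1 fun x => ?_
    rw [← hchi, hall x]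
    simp
  · have hall : ∀ x : ZMod q, quadraticChar (ZMod q) (x ^ 3 + a * x + b) = -1 := by
      have h5 : ∑ x : ZMod q, (quadraticChar (ZMod q) (x ^ 3 + a * x + b) + 1) = 0 := by
        rw [Finset.sum_add_distrib, hcard, ← hS, ht]
        ring
      have h6 := (Finset.sum_eq_zero_iff_of_nonneg fun x _ => by
        have := hge (x ^ 3 + a * x + b)
        linarith).1 h5
      intro x
      have := h6 x (Finset.mem_univ x)
      linarith
    refine no_const (by omega) a b (-1) fun x => ?_
    rw [← hchi, hall x]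
    simp
end Pool.Agent.SS.FM
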