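import Mathlib
import Pool.Agent.Work.MP_a5099b_nt.J.Stmt
import Pool.Agent.Work.MP_a5099b_nt.C.EHas
import Pool.Agent.Work.MP_a5099b_nt.C.ECard
import Pool.Agent.Work.MP_a5099b_nt.FM.Defs
import Pool.Agent.Work.MP_a5099b_nt.FM.GRes
import Pool.Agent.Work.MP_a5099b_nt.FM.LSum
import Pool.Agent.Work.MP_a5099b_nt.FM.LNa
import Pool.Agent.Work.MP_a5099b_nt.D4.Ord

/-!
# Module FM/LNb (M)

A Legendre curve over a field with a square root of `-1` has no supersingular place of odd degree. PROOF. Suppose that `f` is odd (`Nat.not_even_iff_odd`). `k = 𝓞 K ⧸ v.asIdeal` (a finite field with `p ^ f` elements, characteristic `p`; see the beginning of `FM/Oth.lean` and `FM/GRes.lean` for the instances). (1) `i₀` is an integer, so `-1` is a square in `k`, so `p ^ f % 4 ≠ 3` (`FiniteField.isSquare_neg_one_iff`), so `p % 4 = 1`.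
(2) The prime in `SSRed` is `p` (it is in `v` too: two different primes in `v` would give `1 ∈ v`). `W` the curve, `W.c₄ = 16 (A² - A B + B²)`, `W.Δ = 16 A² B² (A - B)² ∉ v`, so `A, B, A - B ∉ v`. (3) `1728` is not supersingular for `p % 4 = 1` (`not_ss_1728`, `D4/Ord.lean`, namespace `Pool.Agent.SS.DD`): so `c₄³ - 1728 Δ ∉ v` by `card_iff` (`C/ECard`) and `SSj_map`.
(4) If `c₄ ∉ v`: `res_prime` (`FM/GRes`) with `α = W.c₄ ^ 3`, `β = W.Δ`, `W'` the reduced curve gives `y : ZMod p`, `SSj p y`, `y ≠ 0`, `1728`, `mk c₄³ = y mk Δ` (its hypothesis for `8000`: if `p % 4 = 1` one needs `α - 8000 β ∉ v`; do not use `res_prime` if this fails but copy its proof without `8000`: see the private lemmas of `FM/GRes.lean` or `FM/SsOdd.lean`: a supersingular `y` in a field of odd degree is in the prime field).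
If `c₄ ∈ v`: `y = 0`, supersingular. In all cases `y : ZMod p`, `SSj p y`, `y ≠ 1728`, and `y - 1728` is a square in `k`: `(c₄³ - 1728 Δ) = c₆²` (`WeierstrassCurve.c_relation`), `Δ = (4 A B (A - B))²`. (5) `exists_ab`/`SSj_all`: `a, b : ZMod p`, `4 a³ + 27 b² ≠ 0`, `1728 * 4 a³ = y (4 a³ + 27 b²)`, `Hasse p a b = 0`, so `∑ χ(x³ + a x + b) = 0` (`sum_zero`). `D = -(4 a³ + 27 b²)`: `(y - 1728) D = (216 b)²`, `b ≠ 0` (`y ≠ 1728`), so `D` is a
square in `k`, so in `ZMod p` (a nonsquare `D` of `ZMod p` has `D ^ ((p^f - 1)/2) = -1` in `k` for odd `f`: `(p^f - 1)/2 = (p - 1)/2 * (1 + p + ... + p^(f-1))`, an odd number of odd terms). (6) The sum has `p` terms (odd), so there is a root `e` of `x³ + a x + b`; `x = e + u`: `u (u² + 3 e u + 3 e² + a)`, and the discriminant of the quadratic times `(3 e² + a)²` is `D`: `(3e² + a)² ((3e)² - 4 (3e² + a)) = D` (with `b = -e³ - a e`),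
so the quadratic has roots `r, s` in `ZMod p`, not zero and different (`D ≠ 0`). `odd_mod` (`FM/LNa`): `p % 4 = 3`, contradiction.
-/

set_option autoImplicit false

namespace Pool.Agent.SS.FM

open NumberField IsDedekindDomain Polynomial

private theorem lnb_finQ {K : Type} [Field K] [NumberField K] (v : HeightOneSpectrum (𝓞 K)) :
    Finite (𝓞 K ⧸ v.asIdeal) :=
  Ideal.finiteQuotientOfFreeOfNeBot v.asIdeal v.ne_bot

private theorem lnb_charP {K : Type} [Field K] {q : ℕ} (hq' : q.Prime)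
    (v : HeightOneSpectrum (𝓞 K)) (hq : (q : 𝓞 K) ∈ v.asIdeal) : CharP (𝓞 K ⧸ v.asIdeal) q := by
  have hnt : Nontrivial (𝓞 K ⧸ v.asIdeal) := Ideal.Quotient.nontrivial_iff.2 v.isPrime.ne_top
  have h0 : ((q : ℕ) : 𝓞 K ⧸ v.asIdeal) = 0 := by
    have := Ideal.Quotient.eq_zero_iff_mem.2 hq
    rwa [map_natCast] at this
  obtain ⟨p, hp⟩ := CharP.exists (𝓞 K ⧸ v.asIdeal)
  have hdvd := (CharP.cast_eq_zero_iff (𝓞 K ⧸ v.asIdeal) p q).1 h0
  rcases (Nat.dvd_prime hq').1 hdvd with h | h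
  · exfalso
    rw [h] at hp
    have := (CharP.cast_eq_zero_iff (𝓞 K ⧸ v.asIdeal) 1 1).2 dvd_rfl
    rw [Nat.cast_one] at this
    exact one_ne_zero this
  · rwa [h] at hp

private theorem lnb_fix {q : ℕ} [Fact q.Prime] {K : Type} [Field K] [Algebra (ZMod q) K] {z : K}
    (hz : z ^ q = z) : ∃ y : ZMod q, algebraMap (ZMod q) K y = z := by
  classical
  by_contra hno
  push Not at hno
  have hq : q.Prime := Fact.out
  have h1 : (X ^ q - X : K[X]) ≠ 0 := FiniteField.X_pow_card_sub_X_ne_zero K hq.one_lt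
  have h2 : (X ^ q - X : K[X]).natDegree = q := FiniteField.X_pow_card_sub_X_natDegree_eq K hq.one_lt
  set S : Finset K := (Finset.univ : Finset (ZMod q)).image (algebraMap (ZMod q) K) with hS
  have h3 : S.card = q := by
    rw [hS, Finset.card_image_of_injective _ (algebraMap (ZMod q) K).injective, Finset.card_univ,
      ZMod.card]
  have h4 : z ∉ S := by
    intro h
    rw [hS, Finset.mem_image] at h
    obtain ⟨y, -, hy⟩ := h
    exact hno y hy
  have h5 : insert z S ⊆ (X ^ q - X : K[X]).roots.toFinset := by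
    intro x hx
    rw [Multiset.mem_toFinset, mem_roots h1, IsRoot, eval_sub, eval_pow, eval_X, sub_eq_zero]
    rcases Finset.mem_insert.1 hx with rfl | hx
    · exact hz
    · rw [hS, Finset.mem_image] at hx
      obtain ⟨y, -, rfl⟩ := hx
      rw [← map_pow, ZMod.pow_card]
  have h6 := Finset.card_le_card h5
  rw [Finset.card_insert_of_notMem h4, h3] at h6
  have h7 := (Multiset.toFinset_card_le (X ^ q - X : K[X]).roots).trans (card_roots' _)
  omega

/-- A supersingular invariant different from `1728` in a field of odd degree is in the prime field. -/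
private theorem lnb_field {q : ℕ} [Fact q.Prime] (h5 : 5 ≤ q) (k : Type) [Field k] [Finite k]
    [CharP k q] [Algebra (ZMod q) k] (f : ℕ) (hf : Odd f) (hk : Nat.card k = q ^ f) (z : k)
    (hz : SSj q z) (h1 : z ≠ 1728) : ∃ y : ZMod q, SSj q y ∧ algebraMap (ZMod q) k y = z := by
  have hq : q.Prime := Fact.out
  by_cases h0 : z = 0
  · refine ⟨0, ?_, by rw [map_zero, h0]⟩
    have h2 : SSj q (algebraMap (ZMod q) k 0) := by
      rw [map_zero, ← h0]
      exact hz
    exact (SSj_map hq h5 (algebraMap (ZMod q) k) 0).1 h2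
  have hr := (regular hq h5 z hz h0 h1).1
  have hit : ∀ g : ℕ, z ^ (q ^ (2 * g)) = z := by
    intro g
    induction g with
    | zero => simp
    | succ g ih =>
      have h2 : q ^ (2 * (g + 1)) = q ^ (2 * g) * q ^ 2 := by
        rw [← pow_add]
        congr 1
      rw [h2, pow_mul, ih, hr]
  have hcard : z ^ (q ^ f) = z := by
    let _ : Fintype k := Fintype.ofFinite k
    have h2 := FiniteField.pow_card z
    rwa [← Nat.card_eq_fintype_card, hk] at h2
  obtain ⟨g, hg⟩ := hf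
  have hzq : z ^ q = z := by
    have h2 : q ^ f = q ^ (2 * g) * q := by
      rw [hg, pow_succ]
    rwa [h2, pow_mul, hit] at hcard
  obtain ⟨y, hy⟩ := lnb_fix (q := q) hzq
  refine ⟨y, ?_, hy⟩
  rw [← hy] at hz
  exact (SSj_map hq h5 (algebraMap (ZMod q) k) y).1 hz

/-- Squares in extensions of odd degree. -/
private theorem lnb_square {q : ℕ} [Fact q.Prime] (k : Type) [Field k] [Finite k]
    [Algebra (ZMod q) k] (f : ℕ) (hf : Odd f) (hk : Nat.card k = q ^ f) (D : ZMod q) (hD : D ≠ 0)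
    (s : k) (hs : s ^ 2 = algebraMap (ZMod q) k D) : ∃ t : ZMod q, t ^ 2 = D := by
  have hq : q.Prime := Fact.out
  let _ : Fintype k := Fintype.ofFinite k
  have hfin : Module.Finite (ZMod q) k := Module.Finite.of_finite
  have h1 := Module.card_eq_pow_finrank (K := ZMod q) (V := k)
  rw [← Nat.card_eq_fintype_card, hk, ZMod.card] at h1
  have h2 : f = Module.finrank (ZMod q) k := Nat.pow_right_injective hq.two_le h1
  have h3 := congrArg (Algebra.norm (ZMod q)) hs
  rw [map_pow, Algebra.norm_algebraMap, ← h2] at h3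
  obtain ⟨g, hg⟩ := hf
  have hDg : D ^ g ≠ 0 := pow_ne_zero _ hD
  refine ⟨Algebra.norm (ZMod q) s / D ^ g, ?_⟩
  rw [div_pow, h3, hg, div_eq_iff (pow_ne_zero _ hDg)]
  ring

/-- The part over the prime field. -/
private theorem lnb_prime {q : ℕ} [Fact q.Prime] (h7 : 7 ≤ q) (a b : ZMod q)
    (h0 : 4 * a ^ 3 + 27 * b ^ 2 ≠ 0) (hH : Hasse q a b = 0)
    (t : ZMod q) (ht : t ^ 2 = -(4 * a ^ 3 + 27 * b ^ 2)) : q % 4 = 3 := by
  classical
  have hq : q.Prime := Fact.out
  have h2 : (2 : ZMod q) ≠ 0 := by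
    intro h
    have h' : ((2 : ℕ) : ZMod q) = 0 := by exact_mod_cast h
    rw [ZMod.natCast_eq_zero_iff] at h'
    have := Nat.le_of_dvd (by norm_num) h'
    omega
  have hsum := sum_zero h7 a b hH
  -- a root
  have hroot : ∃ e : ZMod q, e ^ 3 + a * e + b = 0 := by
    by_contra hno
    push Not at hno
    have h3 : ∀ x : ZMod q, ((quadraticChar (ZMod q) (x ^ 3 + a * x + b) : ℤ) : ZMod 2) = 1 := by
      intro x
      rcases quadraticChar_dichotomy (hno x) with h | h <;> rw [h] <;> decide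
    have h4 : ((∑ x : ZMod q, quadraticChar (ZMod q) (x ^ 3 + a * x + b) : ℤ) : ZMod 2) =
        (q : ZMod 2) := by
      rw [Int.cast_sum, Finset.sum_congr rfl (fun x _ => h3 x), Finset.sum_const, Finset.card_univ,
        ZMod.card, nsmul_eq_mul, mul_one]
    rw [hsum, Int.cast_zero] at h4
    have h5 := (ZMod.natCast_eq_zero_iff q 2).1 h4.symm
    have h6 := (Nat.prime_dvd_prime_iff_eq Nat.prime_two hq).1 h5
    omega
  obtain ⟨e, he⟩ := hroot
  have hb : b = -e ^ 3 - a * e := by linear_combination he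
  have hD : (3 * e ^ 2 + a) ^ 2 * ((3 * e) ^ 2 - 4 * (3 * e ^ 2 + a)) = t ^ 2 := by
    rw [ht, hb]
    ring
  have hD0 : t ^ 2 ≠ 0 := by
    rw [ht]
    exact neg_ne_zero.2 h0
  have hm : 3 * e ^ 2 + a ≠ 0 := by
    intro h
    apply hD0
    rw [← hD, h]
    ring
  set δ : ZMod q := t / (3 * e ^ 2 + a) with hδ
  have hδ2 : δ ^ 2 = (3 * e) ^ 2 - 4 * (3 * e ^ 2 + a) := by
    rw [hδ, div_pow, div_eq_iff (pow_ne_zero _ hm), ← hD]
    ring
  have hδ0 : δ ≠ 0 := by
    intro h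
    rw [hδ, div_eq_zero_iff] at h
    rcases h with h | h
    · apply hD0
      rw [h]
      ring
    · exact hm h
  have hrs : (-3 * e + δ) / 2 * ((-3 * e - δ) / 2) = 3 * e ^ 2 + a := by
    field_simp
    linear_combination -hδ2
  refine odd_mod (q := q) (by omega) ((-3 * e + δ) / 2) ((-3 * e - δ) / 2) ?_ ?_ ?_ ?_
  · intro h
    rw [h, zero_mul] at hrs
    exact hm hrs.symm
  · intro h
    rw [h, mul_zero] at hrs
    exact hm hrs.symm
  · intro h
    apply hδ0
    have h3 : (2 : ZMod q) * δ = 0 := by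
      have h4 := congrArg (fun z => z * 2) h
      simp only [div_mul_cancel₀ _ h2] at h4
      linear_combination h4
    rcases mul_eq_zero.1 h3 with h4 | h4
    · exact absurd h4 h2
    · exact h4
  · rw [← hsum]
    refine Fintype.sum_equiv (Equiv.addRight e) _ _ fun u => ?_
    congr 1
    rw [Equiv.coe_addRight, hb]
    have h5 : (u - (-3 * e + δ) / 2) * (u - (-3 * e - δ) / 2) = u ^ 2 + 3 * e * u + (3 * e ^ 2 + a) := by
      rw [← hrs]
      field_simp
      ring
    rw [mul_assoc, h5]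
    ring

private theorem lnb_main {q : ℕ} [Fact q.Prime] (h7 : 7 ≤ q) (k : Type) [Field k] [Finite k]
    [CharP k q] (f : ℕ) (hf : Odd f) (hk : Nat.card k = q ^ f) (i₀ : k) (hi : i₀ ^ 2 = -1)
    (A B : k) (hΔ : (⟨0, -(A + B), 0, A * B, 0⟩ : WeierstrassCurve k).Δ ≠ 0)
    (hn : Nat.card (⟨0, -(A + B), 0, A * B, 0⟩ : WeierstrassCurve k).toAffine.Point ≡ 1 [MOD q]) :
    False := by
  classical
  have hq : q.Prime := Fact.out
  let _ : Algebra (ZMod q) k := ZMod.algebra k q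
  let _ : Fintype k := Fintype.ofFinite k
  -- (1)
  have hq4 : q % 4 = 1 := by
    have h1 : IsSquare (-1 : k) := ⟨i₀, by rw [← hi]; ring⟩
    rw [FiniteField.isSquare_neg_one_iff, ← Nat.card_eq_fintype_card, hk] at h1
    have h2 : q % 2 = 1 := by
      rcases hq.eq_two_or_odd with h | h
      · omega
      · exact h
    rcases (by omega : q % 4 = 1 ∨ q % 4 = 3) with h3 | h3
    · exact h3
    · exfalso
      apply h1
      obtain ⟨g, hg⟩ := hf
      rw [hg, pow_succ, pow_mul, Nat.mul_mod, Nat.pow_mod, Nat.pow_mod q 2, h3]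
      norm_num
  set W : WeierstrassCurve k := ⟨0, -(A + B), 0, A * B, 0⟩ with hW
  have hss : SSj q (W.c₄ ^ 3 / W.Δ) := (card_iff hq (by omega) W hΔ).1 hn
  have h1728 : W.c₄ ^ 3 / W.Δ ≠ 1728 := by
    intro h
    rw [h] at hss
    have h1 : SSj q (algebraMap (ZMod q) k 1728) := by
      rw [map_ofNat]
      exact hss
    exact DD.not_ss_1728 (by omega) hq4 ((SSj_map hq (by omega) (algebraMap (ZMod q) k) 1728).1 h1)
  obtain ⟨y, hy, hyz⟩ := lnb_field (by omega : 5 ≤ q) k f hf hk _ hss h1728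
  obtain ⟨a, b, h0, hj⟩ := exists_ab hq (by omega : 5 ≤ q) y
  have hH := SSj_all hq (by omega) hy h0 hj
  have hΔ' : W.Δ = (4 * A * B * (A - B)) ^ 2 := by
    simp only [hW, WeierstrassCurve.Δ, WeierstrassCurve.b₂, WeierstrassCurve.b₄,
      WeierstrassCurve.b₆, WeierstrassCurve.b₈]
    ring
  have hd0 : 4 * A * B * (A - B) ≠ 0 := by
    intro h
    apply hΔ
    rw [hΔ', h]
    ring
  have hz : W.c₄ ^ 3 / W.Δ - 1728 = (W.c₆ / (4 * A * B * (A - B))) ^ 2 := by
    have hrel := W.c_relation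
    rw [div_pow, ← hΔ', div_sub' hΔ]
    congr 1
    linear_combination -hrel
  have hyD : (y - 1728) * (-(4 * a ^ 3 + 27 * b ^ 2)) = (216 * b) ^ 2 := by
    linear_combination hj
  have hz0 : W.c₄ ^ 3 / W.Δ - 1728 ≠ 0 := sub_ne_zero.2 h1728
  have hc : W.c₆ / (4 * A * B * (A - B)) ≠ 0 := by
    intro h
    apply hz0
    rw [hz, h]
    ring
  obtain ⟨t, ht⟩ := lnb_square k f hf hk (-(4 * a ^ 3 + 27 * b ^ 2)) (neg_ne_zero.2 h0)
    (algebraMap (ZMod q) k (216 * b) / (W.c₆ / (4 * A * B * (A - B)))) (by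
      rw [div_pow, ← hz, div_eq_iff hz0, ← map_pow, ← hyD, map_mul, map_sub, hyz, map_ofNat]
      ring)
  have := lnb_prime h7 a b h0 hH t ht
  omega

theorem no_odd {K : Type} [Field K] [NumberField K] (i₀ : K) (hi : i₀ ^ 2 = -1) (A B : 𝓞 K)
    (v : HeightOneSpectrum (𝓞 K)) (p : ℕ) (hp : p.Prime) (h7 : 7 ≤ p) (hpv : (p : 𝓞 K) ∈ v.asIdeal)
    (f : ℕ) (hf : Nat.card (𝓞 K ⧸ v.asIdeal) = p ^ f)
    (hs : SSRed (⟨0, -(A + B), 0, A * B, 0⟩ : WeierstrassCurve (𝓞 K)) v) : Even f := by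
  by_contra hodd
  rw [Nat.not_even_iff_odd] at hodd
  obtain ⟨hΔ, p', hp', hpv', hn⟩ := hs
  have hpp : p' = p := by
    by_contra hne
    have hcop : Nat.Coprime p' p := (Nat.coprime_primes hp' hp).2 hne
    have hbez := Nat.gcd_eq_gcd_ab p' p
    rw [hcop] at hbez
    apply v.isPrime.ne_top
    rw [Ideal.eq_top_iff_one]
    have h1 : (1 : 𝓞 K) = (p' : 𝓞 K) * ((Nat.gcdA p' p : ℤ) : 𝓞 K) +
        (p : 𝓞 K) * ((Nat.gcdB p' p : ℤ) : 𝓞 K) := by
      have h2 := congrArg (fun z : ℤ => (z : 𝓞 K)) hbez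
      push_cast at h2
      exact h2
    rw [h1]
    exact v.asIdeal.add_mem (v.asIdeal.mul_mem_right _ hpv') (v.asIdeal.mul_mem_right _ hpv)
  subst hpp
  have hF : Fact p'.Prime := ⟨hp⟩
  let _ : Field (𝓞 K ⧸ v.asIdeal) := Ideal.Quotient.field v.asIdeal
  have : CharP (𝓞 K ⧸ v.asIdeal) p' := lnb_charP hp v hpv
  have : Finite (𝓞 K ⧸ v.asIdeal) := lnb_finQ v
  have hint : IsIntegral ℤ i₀ := by
    refine ⟨X ^ 2 + 1, ?_, ?_⟩
    · monicity!
    · simp [hi]
  set j₀ : 𝓞 K := ⟨i₀, hint⟩ with hj₀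
  have hj : j₀ ^ 2 = -1 := by
    apply RingOfIntegers.ext
    simp [hj₀, hi]
  have hmap : (⟨0, -(A + B), 0, A * B, 0⟩ : WeierstrassCurve (𝓞 K)).map
      (Ideal.Quotient.mk v.asIdeal) = (⟨0, -(Ideal.Quotient.mk v.asIdeal A +
      Ideal.Quotient.mk v.asIdeal B), 0, Ideal.Quotient.mk v.asIdeal A *
      Ideal.Quotient.mk v.asIdeal B, 0⟩ : WeierstrassCurve (𝓞 K ⧸ v.asIdeal)) := by
    ext <;> simp [WeierstrassCurve.map]
  refine lnb_main h7 (𝓞 K ⧸ v.asIdeal) f hodd hf (Ideal.Quotient.mk v.asIdeal j₀) ?_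
    (Ideal.Quotient.mk v.asIdeal A) (Ideal.Quotient.mk v.asIdeal B) ?_ ?_
  · rw [← map_pow, hj, map_neg, map_one]
  · intro h
    apply hΔ
    rw [← Ideal.Quotient.eq_zero_iff_mem, ← WeierstrassCurve.map_Δ, hmap]
    exact h
  · rw [hmap] at hn
    exact hn

end Pool.Agent.SS.FM
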