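import Mathlib
import Pool.Agent.Work.MP_a5099b_nt.C.MDif
import Pool.Agent.Work.MP_a5099b_nt.C.MOne
import Pool.Agent.Work.MP_a5099b_nt.H.Cov
import Pool.Agent.Work.MP_a5099b_nt.H.Sand

/-!
# Module FM/Chain (M)

The value of the Hasse polynomial is the same for lattices `L ≤ L'` of index `N` prime to `p`. PROOF: strong induction on `N` (for all `L`). `N ≠ 0` because `p ∤ N`. `N = 1`: `L = L'` (`HB.sup_one`). `N > 1`: `n = N.minFac`. The quotient of `L'` by `L` has `N` elements (`h.idx`, `relIndex`), by Cauchy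
(`exists_prime_addOrderOf_dvd_card`) there is `z ∈ L'`, `z ∉ L`, `n z ∈ L`. `M = L ⊔ Submodule.span ℤ {z}`: `L ≤ M ≤ L'`, a lattice (`HB.isLat_between` or `HB.isLat_of_relIndex`); the index `i` of `L` in `M` is `n` (the group `M / L` is generated by the class of `z`, of order `n`; or: `i ∣ n`-argument: by `HB.exists_sup`
`Sup i L M`, `n M ≤ L`, `M/L` is cyclic of order dividing `n`, not 1). By `AddSubgroup.relIndex_mul_relIndex` (or `HB.cov_sup`, `HB.cov_pos`) `Sup (N / n) M L'`. `e_sup_mem` (`C/MOne`) and `ev_hL_sup` (`C/MDif`) for `Sup n L M` (`n ≠ p`), the induction hypothesis for `Sup (N / n) M L'`.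
-/

set_option autoImplicit false

namespace Pool.Agent.SS.FM

open UpperHalfPlane Polynomial
open Pool.Agent.Work.CM (IsLat g2 g3 tauLat)
open scoped Pointwise MatrixGroups

private theorem chain_step {N q : ℕ} (hq : q.Prime) (hqN : q ∣ N) (hN : N ≠ 0)
    {L L' : Submodule ℤ ℂ} (h : Sup N L L') :
    ∃ M : Submodule ℤ ℂ, Sup q L M ∧ Sup (N / q) M L' := by
  haveI := Fact.mk hq
  have hc : Nat.card (L'.toAddSubgroup ⧸ (L.toAddSubgroup.addSubgroupOf L'.toAddSubgroup)) = N :=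
    h.idx
  haveI : Finite (L'.toAddSubgroup ⧸ (L.toAddSubgroup.addSubgroupOf L'.toAddSubgroup)) :=
    Nat.finite_of_card_ne_zero (by rw [hc]; exact hN)
  obtain ⟨x, hx⟩ := exists_prime_addOrderOf_dvd_card'
    (G := L'.toAddSubgroup ⧸ (L.toAddSubgroup.addSubgroupOf L'.toAddSubgroup)) q
    (by rw [hc]; exact hqN)
  obtain ⟨⟨z, hz⟩, rfl⟩ := QuotientAddGroup.mk_surjective x
  have hz1 : z ∉ L := by
    intro h0
    have h1 : ((⟨z, hz⟩ : L'.toAddSubgroup) :
        L'.toAddSubgroup ⧸ (L.toAddSubgroup.addSubgroupOf L'.toAddSubgroup)) = 0 := by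
      rw [QuotientAddGroup.eq_zero_iff, AddSubgroup.mem_addSubgroupOf]
      exact h0
    rw [h1, addOrderOf_zero] at hx
    exact hq.one_lt.ne hx
  have hz2 : q • z ∈ L := by
    have h1 : q • ((⟨z, hz⟩ : L'.toAddSubgroup) :
        L'.toAddSubgroup ⧸ (L.toAddSubgroup.addSubgroupOf L'.toAddSubgroup)) = 0 := by
      rw [← hx]
      exact addOrderOf_nsmul_eq_zero _
    rw [← QuotientAddGroup.mk_nsmul, QuotientAddGroup.eq_zero_iff,
      AddSubgroup.mem_addSubgroupOf] at h1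
    exact h1
  have hzL' : z ∈ L' := hz
  have hle1 : L ≤ L ⊔ Submodule.span ℤ {z} := le_sup_left
  have hle2 : L ⊔ Submodule.span ℤ {z} ≤ L' :=
    sup_le h.le ((Submodule.span_singleton_le_iff_mem z L').2 hzL')
  have hM : IsLat (L ⊔ Submodule.span ℤ {z}) := HB.isLat_between h.lat h.lat' hle1 hle2
  have hzM : z ∈ L ⊔ Submodule.span ℤ {z} :=
    Submodule.mem_sup_right (Submodule.mem_span_singleton_self z)
  have hi : L.toAddSubgroup.relIndex (L ⊔ Submodule.span ℤ {z}).toAddSubgroup = q := by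
    set M := L ⊔ Submodule.span ℤ {z} with hMdef
    have h3 : addOrderOf ((⟨z, hzM⟩ : M.toAddSubgroup) :
        M.toAddSubgroup ⧸ (L.toAddSubgroup.addSubgroupOf M.toAddSubgroup)) = q := by
      refine addOrderOf_eq_prime ?_ ?_
      · rw [← QuotientAddGroup.mk_nsmul, QuotientAddGroup.eq_zero_iff,
          AddSubgroup.mem_addSubgroupOf]
        exact hz2
      · intro h0
        rw [QuotientAddGroup.eq_zero_iff, AddSubgroup.mem_addSubgroupOf] at h0
        exact hz1 h0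
    have h4 : AddSubgroup.zmultiples ((⟨z, hzM⟩ : M.toAddSubgroup) :
        M.toAddSubgroup ⧸ (L.toAddSubgroup.addSubgroupOf M.toAddSubgroup)) = ⊤ := by
      rw [eq_top_iff]
      intro y _
      obtain ⟨⟨y, hy⟩, rfl⟩ := QuotientAddGroup.mk_surjective y
      have hy' : y ∈ L ⊔ Submodule.span ℤ {z} := hy
      obtain ⟨l, hl, s, hs, hls⟩ := Submodule.mem_sup.1 hy'
      obtain ⟨a, ha⟩ := Submodule.mem_span_singleton.1 hs
      rw [AddSubgroup.mem_zmultiples_iff]
      refine ⟨a, ?_⟩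
      rw [← QuotientAddGroup.mk_zsmul, QuotientAddGroup.eq, AddSubgroup.mem_addSubgroupOf]
      show -(a • z) + y ∈ L
      rw [ha, ← hls]
      have e : -s + (l + s) = l := by ring
      rw [e]
      exact hl
    have h5 := Nat.card_zmultiples ((⟨z, hzM⟩ : M.toAddSubgroup) :
        M.toAddSubgroup ⧸ (L.toAddSubgroup.addSubgroupOf M.toAddSubgroup))
    rw [h4, h3] at h5
    have h6 : Nat.card (M.toAddSubgroup ⧸ (L.toAddSubgroup.addSubgroupOf M.toAddSubgroup)) = q := by
      rw [← h5]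
      exact (Nat.card_congr AddSubgroup.topEquiv.toEquiv).symm
    exact h6
  refine ⟨L ⊔ Submodule.span ℤ {z}, ⟨h.lat, hM, hle1, hi⟩, hM, h.lat', hle2, ?_⟩
  have h7 := AddSubgroup.relIndex_mul_relIndex L.toAddSubgroup
    (L ⊔ Submodule.span ℤ {z}).toAddSubgroup L'.toAddSubgroup hle1 hle2
  rw [hi, h.idx] at h7
  rw [← h7, Nat.mul_div_cancel_left _ hq.pos]

theorem ev_hL_chain {k : Type} [Field k] {P : Pl k} {p : ℕ} [CharP k p] (hp : p.Prime) (h5 : 5 ≤ p)
    {N : ℕ} (hN : ¬ p ∣ N) {L L' : Submodule ℤ ℂ} (h : Sup N L L') (h4 : e4 L ∈ P.B)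
    (h6 : e6 L ∈ P.B) : e4 L' ∈ P.B ∧ e6 L' ∈ P.B ∧ P.ev (hL p L') = P.ev (hL p L) := by
  induction N using Nat.strong_induction_on generalizing L L' with
  | _ N ih =>
    have hN0 : N ≠ 0 := by
      rintro rfl
      exact hN (dvd_zero p)
    by_cases h1 : N = 1
    · subst h1
      have e := HB.sup_one h
      subst e
      exact ⟨h4, h6, rfl⟩
    · have hq : N.minFac.Prime := Nat.minFac_prime h1
      have hqN : N.minFac ∣ N := Nat.minFac_dvd N
      obtain ⟨M, hM1, hM2⟩ := chain_step hq hqN hN0 h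
      have hqp : N.minFac ≠ p := by
        intro h0
        exact hN (h0 ▸ hqN)
      obtain ⟨g4, g6⟩ := e_sup_mem hp h5 hq hM1 h4 h6
      have g := ev_hL_sup hp h5 hq hqp hM1 h4 h6
      have hlt : N / N.minFac < N := Nat.div_lt_self (Nat.pos_of_ne_zero hN0) hq.one_lt
      have hnd : ¬ p ∣ N / N.minFac := fun h0 => hN (h0.trans (Nat.div_dvd_of_dvd hqN))
      obtain ⟨k4, k6, k⟩ := ih _ hlt hnd hM2 g4 g6
      exact ⟨k4, k6, k.trans g⟩

end Pool.Agent.SS.FM
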