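import Mathlib
import Pool.Agent.Work.MP_a5099b_nt.FM.Chain
import Pool.Agent.Work.MP_a5099b_nt.C.MSs
import Pool.Agent.Work.MP_a5099b_nt.C.MIn
import Pool.Agent.Work.MP_a5099b_nt.A.Lat
import Pool.Agent.Work.MP_a5099b_nt.H.PSup

/-!
# Module FM/CmP (M)

A lattice with multiplication by `μ`, `μ ^ 2 = -D`, `(-D / p) = -1`, has supersingular reduction. PROOF. (1) As in `exists_HH` (`C/MHH.lean`, end; copy): `m ^ 12 = dl L`, `m ≠ 0`, `L1 = m • L`: `dl L1 = 1`, `jL L1 = jL L` (`jL_smul`), `e4 L1 ^ 3 = jL L`, `e6 L1 ^ 2 = jL L - 1728`, so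
`e4 L1, e6 L1 ∈ P.B` (`P.cl`). `IsMul L1 μ` (`HB.isMul_smul_iff`). (2) `μ ≠ 0`, `‖μ‖ ^ 2 = D` (`‖μ ^ 2‖ = D`), so `Sup D L1 (μ⁻¹ • L1)` (`HB.psup`). (3) `p ∤ D`: otherwise `jacobiSym (-D) p = 0`. `ev_hL_chain`: `ev (hL p (μ⁻¹ • L1)) = ev (hL p L1)`. (4) `hL_wt` for `μ⁻¹` (as in `C/MIn.lean`, `ev_inert`; copy): with `p = 2 k + 1`
`hL p (μ⁻¹ • L1) = (-D) ^ k * hL p L1`, and `(-D) ^ k = -1` in `ZMod p` (`legendreSym.eq_pow`), so in `k`. So `2 * ev (hL p L1) = 0`, `ev (hL p L1) = 0`. (5) `SSj_iff_ev` (`C/MSs`) with `ev (dl L1) = ev 1 = 1`.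
-/

set_option autoImplicit false

namespace Pool.Agent.SS.FM

open UpperHalfPlane Polynomial
open Pool.Agent.Work.CM (IsLat g2 g3 tauLat)
open scoped Pointwise MatrixGroups

theorem ss_of_mul {k : Type} [Field k] {P : Pl k} {p : ℕ} [CharP k p] (hp : p.Prime) (h5 : 5 ≤ p)
    {D : ℕ} (hD : 0 < D) (hj : jacobiSym (-D) p = -1) {L : Submodule ℤ ℂ} (hL : IsLat L) {μ : ℂ}
    (hμ : HB.IsMul L μ) (hμ2 : μ ^ 2 = -(D : ℂ)) (hB : jL L ∈ P.B) : SSj p (P.ev (jL L)) := by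
  rename' hL => hlt
  obtain ⟨m, hm⟩ : ∃ m : ℂ, m ^ 12 = dl L := by
    obtain ⟨m, hm⟩ := IsAlgClosed.exists_pow_nat_eq (dl L) (n := 12) (by norm_num)
    exact ⟨m, hm⟩
  have hm0 : m ≠ 0 := by
    rintro rfl
    exact dl_ne_zero hlt (by rw [← hm]; norm_num)
  have hd : dl (m • L) = 1 := by
    have h1 := Wt_dl L hlt m hm0
    rw [zpow_ofNat, hm] at h1
    exact mul_left_cancel₀ (dl_ne_zero hlt) (by rw [h1, mul_one])
  have hj' : jL (m • L) = jL L := jL_smul hlt hm0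
  have h4c : e4 (m • L) ^ 3 = jL L := by
    have h1 := jL_eq (m • L)
    rw [hd, div_one, hj'] at h1
    exact h1.symm
  have h4 : e4 (m • L) ∈ P.B := by
    apply P.cl
    refine IsIntegral.of_pow (n := 3) (by norm_num) ?_
    rw [h4c]
    exact isIntegral_algebraMap (R := P.B) (x := ⟨jL L, hB⟩)
  have h6s : e6 (m • L) ^ 2 = e4 (m • L) ^ 3 - 1728 := by
    have h1 := hd
    unfold dl at h1
    rw [div_eq_iff (by norm_num)] at h1
    linear_combination -h1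
  have h6 : e6 (m • L) ∈ P.B := by
    apply P.cl
    refine IsIntegral.of_pow (n := 2) (by norm_num) ?_
    rw [h6s, h4c]
    have h1 : jL L - 1728 ∈ P.B := by
      refine sub_mem hB ?_
      have := natCast_mem P.B 1728
      exact_mod_cast this
    exact isIntegral_algebraMap (R := P.B) (x := ⟨jL L - 1728, h1⟩)
  have hlat : IsLat (m • L) := hlt.smul hm0
  have hmul : HB.IsMul (m • L) μ := (HB.isMul_smul_iff hm0).2 hμ
  -- the multiplier
  have hD0 : (D : ℂ) ≠ 0 := by exact_mod_cast hD.ne'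
  have hμ0 : μ ≠ 0 := by
    rintro rfl
    apply hD0
    have h1 : (D : ℂ) = -(-(D : ℂ)) := by ring
    rw [h1, ← hμ2]
    norm_num
  have hnorm : ‖μ‖ ^ 2 = D := by
    rw [← norm_pow, hμ2, norm_neg, Complex.norm_natCast]
  have hsup : Sup D (m • L) (μ⁻¹ • (m • L)) := HB.psup hlat hD hmul hnorm
  have hF : Fact p.Prime := ⟨hp⟩
  have hpD : ¬ p ∣ D := by
    intro h
    have h1 : jacobiSym (-(D : ℤ)) p = 0 := by
      rw [← jacobiSym.legendreSym.to_jacobiSym, legendreSym.eq_zero_iff]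
      have h2 : ((D : ℕ) : ZMod p) = 0 := (ZMod.natCast_eq_zero_iff D p).2 h
      push_cast
      rw [h2, neg_zero]
    rw [h1] at hj
    norm_num at hj
  obtain ⟨-, -, hev⟩ := ev_hL_chain (P := P) hp h5 hpD hsup h4 h6
  have hwt := hL_wt hp h5 (m • L) hlat μ⁻¹ (inv_ne_zero hμ0)
  rw [zpow_natCast] at hwt
  obtain ⟨t, ht⟩ : ∃ t, p = 2 * t + 1 := by
    rcases hp.eq_two_or_odd' with h | h
    · omega
    · exact h
  have hk2 : p / 2 = t := by omega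
  have hk1 : p - 1 = 2 * t := by omega
  have hval : hL p (μ⁻¹ • (m • L)) = (((-(D : ℤ)) ^ t : ℤ) : ℂ) * hL p (m • L) := by
    have h1 : (μ⁻¹) ^ (p - 1) * (((-(D : ℤ)) ^ t : ℤ) : ℂ) = 1 := by
      rw [hk1, pow_mul, inv_pow, hμ2]
      push_cast
      rw [← mul_pow, inv_mul_cancel₀ (neg_ne_zero.mpr hD0), one_pow]
    rw [← hwt, mul_comm _ (hL p (μ⁻¹ • (m • L))), ← mul_assoc,
      mul_comm _ (hL p (μ⁻¹ • (m • L))), mul_assoc, mul_comm (((-(D : ℤ)) ^ t : ℤ) : ℂ), h1,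
      mul_one]
  have hleg : ((-(D : ℤ) : ℤ) : ZMod p) ^ t = -1 := by
    have h1 := legendreSym.eq_pow p (-(D : ℤ))
    rw [hk2] at h1
    rw [← h1, jacobiSym.legendreSym.to_jacobiSym, hj]
    simp
  have hK : (((-(D : ℤ)) ^ t : ℤ) : k) = -1 := by
    have h1 := congrArg (ZMod.castHom (dvd_refl p) k) hleg
    rw [map_pow, map_neg, map_one, map_intCast] at h1
    rw [← h1]
    push_cast
    ring
  rw [hval, Pl.ev_mul (intCast_mem P.B _) (Pl.hL_mem h4 h6), Pl.ev_intCast, hK] at hev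
  have h2 : (2 : k) * P.ev (hL p (m • L)) = 0 := by linear_combination -hev
  have h2ne : (2 : k) ≠ 0 := by
    intro h0
    have h := (CharP.cast_eq_zero_iff k p 2).mp (by exact_mod_cast h0)
    have := Nat.le_of_dvd (by norm_num) h
    omega
  have hev0 : P.ev (hL p (m • L)) = 0 := (mul_eq_zero.mp h2).resolve_left h2ne
  have hdne : P.ev (dl (m • L)) ≠ 0 := by
    rw [hd, Pl.ev_one]
    exact one_ne_zero
  rw [← hj']
  exact (SSj_iff_ev hp h5 h4 h6 hdne).2 hev0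

end Pool.Agent.SS.FM
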