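import Mathlib
import Pool.Agent.Work.MP_a5099b_nt.FM.Defs
import Pool.Agent.Work.MP_a5099b_nt.FM.CmP
import Pool.Agent.Work.MP_a5099b_nt.C.MPl
import Pool.Agent.Work.MP_a5099b_nt.C.EHas

/-!
# Module FM/CmSS (M)

The invariant of the quadratic number `τ` is supersingular at the inert places. PROOF. `k = AlgebraicClosure (ZMod q)`, of characteristic `q`. `A = R.map ρ` (a subring of `ℂ`), `ρ` is injective, `e : R ≃+* A` (`Subring.equivMapOfInjective`), `f = (algebraMap (ZMod q) k).comp (ψ.comp e.symm)`; `exists_Pl A f` (`C/MPl`) gives `P` with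
`ρ x ∈ P.B`, `P.ev (ρ x) = algebraMap (ψ x)` for `x ∈ R`. `L = tauLat τ` (`tauLat_isLat`), `jL L = ρ x₀` (`jL_eq`, `e4_tauLat`, `dl_tauLat`). `μ = 2 a τ + b`: `μ ^ 2 = 4 a (a τ ^ 2 + b τ + c) + b ^ 2 - 4 a c = b ^ 2 - 4 a c`; `μ.im = 2 a τ.im ≠ 0`, so the real number `b ^ 2 - 4 a c` is negative
(if `μ ^ 2 = r` is real and `μ.im ≠ 0`, then `2 μ.re μ.im = 0`, `μ.re = 0`, `r = -μ.im ^ 2 < 0`); `D = (4 a c - b ^ 2).toNat > 0`, `-(D : ℤ) = b ^ 2 - 4 a c`. `HB.IsMul L μ`: for `z = x τ + y` (`Submodule.mem_span_pair`), `μ * 1 = 2 a τ + b`, `μ τ = 2 a τ ^ 2 + b τ = -b τ - 2 c`. `ss_of_mul` and `SSj_map` (`C/EHas`) for `algebraMap (ZMod q) k`.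
-/

set_option autoImplicit false

namespace Pool.Agent.SS.FM

open UpperHalfPlane Polynomial
open Pool.Agent.Work.CM (IsLat g2 g3 tauLat)
open scoped Pointwise MatrixGroups

theorem cm_ss {M : Type} [Field M] (ρ : M →+* ℂ) {q : ℕ} [Fact q.Prime] (h5 : 5 ≤ q)
    {R : Subring M} (ψ : R →+* ZMod q) (x₀ : M) (hx : x₀ ∈ R) (τ : ℍ) (a b c : ℤ) (ha : a ≠ 0)
    (hτ : (a : ℂ) * (τ : ℂ) ^ 2 + b * τ + c = 0)
    (hj : ρ x₀ = ModularForm.E₄ τ ^ 3 / ModularForm.discriminant τ)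
    (hD : jacobiSym (b ^ 2 - 4 * a * c) q = -1) : SSj q (ψ ⟨x₀, hx⟩) := by
  have hq : q.Prime := Fact.out
  let e : R ≃+* R.map ρ := Subring.equivMapOfInjective R ρ ρ.injective
  let f : R.map ρ →+* AlgebraicClosure (ZMod q) :=
    (algebraMap (ZMod q) (AlgebraicClosure (ZMod q))).comp
      (ψ.comp (e.symm : R.map ρ →+* R))
  obtain ⟨P, hP⟩ := exists_Pl (R.map ρ) f
  have hmem : ρ x₀ ∈ R.map ρ := ⟨x₀, hx, rfl⟩
  have hev := hP (ρ x₀) hmem
  have hf : f ⟨ρ x₀, hmem⟩ = algebraMap (ZMod q) (AlgebraicClosure (ZMod q)) (ψ ⟨x₀, hx⟩) := by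
    have h1 : e.symm ⟨ρ x₀, hmem⟩ = ⟨x₀, hx⟩ := by
      rw [RingEquiv.symm_apply_eq]
      apply Subtype.ext
      rfl
    change algebraMap (ZMod q) (AlgebraicClosure (ZMod q)) (ψ (e.symm ⟨ρ x₀, hmem⟩)) = _
    rw [h1]
  have hjL : jL (tauLat τ) = ρ x₀ := by
    rw [jL_eq, e4_tauLat, dl_tauLat, hj]
  -- the number with negative square
  have hμ2 : (2 * (a : ℂ) * (τ : ℂ) + b) ^ 2 = ((b ^ 2 - 4 * a * c : ℤ) : ℂ) := by
    have : (2 * (a : ℂ) * (τ : ℂ) + b) ^ 2 =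
        4 * a * (a * (τ : ℂ) ^ 2 + b * τ + c) + (b ^ 2 - 4 * a * c) := by ring
    rw [this, hτ]
    push_cast
    ring
  have him : (2 * (a : ℂ) * (τ : ℂ) + b).im = 2 * a * τ.im := by
    simp
  have haR : (a : ℝ) ≠ 0 := by exact_mod_cast ha
  have him0 : (2 * (a : ℂ) * (τ : ℂ) + b).im ≠ 0 := by
    rw [him]
    exact mul_ne_zero (mul_ne_zero two_ne_zero haR) τ.im_pos.ne'
  have hneg : b ^ 2 - 4 * a * c < 0 := by
    set μ : ℂ := 2 * (a : ℂ) * (τ : ℂ) + b with hμ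
    have h1 := congrArg Complex.im hμ2
    have h2 := congrArg Complex.re hμ2
    rw [Complex.intCast_im] at h1
    rw [Complex.intCast_re] at h2
    have e1 : (μ ^ 2).im = 2 * μ.re * μ.im := by
      rw [pow_two, Complex.mul_im]
      ring
    have e2 : (μ ^ 2).re = μ.re ^ 2 - μ.im ^ 2 := by
      rw [pow_two, Complex.mul_re]
      ring
    rw [e1] at h1
    rw [e2] at h2
    have h3 : μ.re = 0 := by
      rcases mul_eq_zero.1 h1 with h4 | h4
      · linarith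
      · exact absurd h4 him0
    have h5 : ((b ^ 2 - 4 * a * c : ℤ) : ℝ) < 0 := by
      rw [← h2, h3]
      have := sq_pos_of_ne_zero him0
      nlinarith
    exact_mod_cast h5
  obtain ⟨D, hDn⟩ : ∃ D : ℕ, (b ^ 2 - 4 * a * c : ℤ) = -(D : ℤ) :=
    ⟨(-(b ^ 2 - 4 * a * c)).toNat, by rw [Int.toNat_of_nonneg (by omega)]; ring⟩
  have hDpos : 0 < D := by omega
  have hjac : jacobiSym (-(D : ℤ)) q = -1 := by rw [← hDn]; exact hD
  have hmul : HB.IsMul (tauLat τ) (2 * (a : ℂ) * (τ : ℂ) + b) := by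
    intro z hz
    rw [tauLat, Submodule.mem_span_pair] at hz ⊢
    obtain ⟨x, y, rfl⟩ := hz
    refine ⟨-b * x + 2 * a * y, -2 * c * x + b * y, ?_⟩
    simp only [zsmul_eq_mul]
    push_cast
    have h6 : (a : ℂ) * (τ : ℂ) ^ 2 = -b * τ - c := by linear_combination hτ
    linear_combination (-2 * (x : ℂ)) * h6
  have key := ss_of_mul (P := P) hq h5 hDpos hjac
    (Pool.Agent.Work.CM.tauLat_isLat τ) hmul (by rw [hμ2, hDn]; push_cast; ring)
    (by rw [hjL]; exact hev.1)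
  rw [hjL, hev.2, hf] at key
  exact (SSj_map hq h5 (algebraMap (ZMod q) (AlgebraicClosure (ZMod q))) _).1 key

end Pool.Agent.SS.FM
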