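import Mathlib

/-!
# Module FM/LRt (S-M)

Pure. Points of order 4 by counting. PROOF. Let `f(x) = x (x² + a x + b)` and suppose that `b` and `a² - 4 b` are not squares. For `x ≠ 0`: `f(x) ≠ 0` (otherwise `(2 x + a)² = a² - 4 b`), `x ↦ b / x` is an involution of the nonzero elements without fixed points (`x² = b` is impossible), and `f(b / x) = (b / x²)² f(x)`, so `χ(f(b / x)) = χ(f(x)) = ±1`. So `∑_{x ≠ 0} χ(f(x)) + (q - 1)` is a sum of
`χ(f(x)) + 1 ∈ {0, 2}`: the number of `x ≠ 0` with `χ(f(x)) = 1` is `A`, and the involution without fixed points on this set shows that `A` is even (`Finset.card_involution`-type: `Finset.even_card_of_involution`-like, `Finset.sum_involution`, or `Function.Involutive.card_fixedPoints`-type). The sum is `A - (q - 1 - A) = 2 A - (q - 1) ≡ -(q - 1) ≡ 2 mod 4` (`q % 4 = 3`), so it is not zero; the term `x = 0` is `0`.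
-/

set_option autoImplicit false

namespace Pool.Agent.SS.FM

open NumberField IsDedekindDomain Polynomial

theorem sq_or {q : ℕ} [Fact q.Prime] (h4 : q % 4 = 3) (a b : ZMod q) (hb : b ≠ 0)
    (hs : ∑ x : ZMod q, quadraticChar (ZMod q) (x * (x ^ 2 + a * x + b)) = 0) :
    IsSquare b ∨ IsSquare (a ^ 2 - 4 * b) := by
  classical
  by_contra hcon
  rw [not_or] at hcon
  obtain ⟨h1, h2⟩ := hcon
  obtain ⟨f, hf⟩ : ∃ f : ZMod q → ZMod q, ∀ x, f x = x * (x ^ 2 + a * x + b) := ⟨_, fun _ => rfl⟩
  have hs' : ∑ x : ZMod q, quadraticChar (ZMod q) (f x) = 0 := by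
    rw [← hs]
    exact Finset.sum_congr rfl fun x _ => by rw [hf]
  have hf0 : ∀ x, x ≠ 0 → f x ≠ 0 := by
    intro x hx h
    rw [hf] at h
    rcases mul_eq_zero.1 h with h3 | h3
    · exact hx h3
    · apply h2
      refine ⟨2 * x + a, ?_⟩
      linear_combination (-4 : ZMod q) * h3
  have hinv : ∀ x, x ≠ 0 → quadraticChar (ZMod q) (f (b / x)) = quadraticChar (ZMod q) (f x) := by
    intro x hx
    have e : f (b / x) = (b / x ^ 2) ^ 2 * f x := by
      rw [hf, hf]
      field_simp
      ring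
    have h3 : b / x ^ 2 ≠ 0 := div_ne_zero hb (pow_ne_zero _ hx)
    rw [e, map_mul, quadraticChar_sq_one' h3, one_mul]
  obtain ⟨A, hA⟩ : ∃ A : Finset (ZMod q), A = Finset.univ.filter
    (fun x => x ≠ 0 ∧ quadraticChar (ZMod q) (f x) = 1) := ⟨_, rfl⟩
  obtain ⟨B, hB⟩ : ∃ B : Finset (ZMod q), B = Finset.univ.filter
    (fun x => x ≠ 0 ∧ quadraticChar (ZMod q) (f x) = -1) := ⟨_, rfl⟩
  have hmA : ∀ x, x ∈ A ↔ x ≠ 0 ∧ quadraticChar (ZMod q) (f x) = 1 := fun x => by
    rw [hA]
    simp
  have hmB : ∀ x, x ∈ B ↔ x ≠ 0 ∧ quadraticChar (ZMod q) (f x) = -1 := fun x => by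
    rw [hB]
    simp
  have hdis : Disjoint A B := by
    rw [Finset.disjoint_left]
    intro x hxA hxB
    have h3 := ((hmA x).1 hxA).2
    have h4 := ((hmB x).1 hxB).2
    rw [h3] at h4
    exact absurd h4 (by decide)
  have hun : A ∪ B = Finset.univ.erase 0 := by
    ext x
    rw [Finset.mem_union, hmA, hmB, Finset.mem_erase]
    constructor
    · rintro (h | h) <;> exact ⟨h.1, Finset.mem_univ _⟩
    · rintro ⟨h, -⟩
      rcases quadraticChar_dichotomy (hf0 x h) with h3 | h3
      · exact Or.inl ⟨h, h3⟩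
      · exact Or.inr ⟨h, h3⟩
  have hcard : A.card + B.card = q - 1 := by
    rw [← Finset.card_union_of_disjoint hdis, hun, Finset.card_erase_of_mem (Finset.mem_univ _),
      Finset.card_univ, ZMod.card]
  have hsum : (A.card : ℤ) - B.card = 0 := by
    rw [← hs']
    have h3 : ∑ x : ZMod q, quadraticChar (ZMod q) (f x) =
        ∑ x ∈ A ∪ B, quadraticChar (ZMod q) (f x) := by
      rw [hun, ← Finset.add_sum_erase Finset.univ _ (Finset.mem_univ (0 : ZMod q))]
      have h4 : quadraticChar (ZMod q) (f 0) = 0 := by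
        rw [hf, zero_mul, quadraticChar_zero]
      rw [h4, zero_add]
    rw [h3, Finset.sum_union hdis, Finset.sum_congr rfl (fun x hx => ((hmA x).1 hx).2),
      Finset.sum_congr rfl (fun x hx => ((hmB x).1 hx).2)]
    simp
    ring
  have heven : Even A.card := by
    rw [← ZMod.natCast_eq_zero_iff_even]
    have h3 : ∑ _x ∈ A, (1 : ZMod 2) = 0 := by
      refine Finset.sum_involution (fun x _ => b / x) ?_ ?_ ?_ ?_
      · intro x _
        decide
      · intro x hx _ h
        apply h1
        have hx0 := ((hmA x).1 hx).1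
        refine ⟨x, ?_⟩
        rwa [div_eq_iff hx0] at h
      · intro x hx
        have hx0 := (hmA x).1 hx
        rw [hmA]
        exact ⟨div_ne_zero hb hx0.1, by rw [hinv x hx0.1]; exact hx0.2⟩
      · intro x hx
        have hx0 := ((hmA x).1 hx).1
        field_simp
    simpa using h3
  obtain ⟨m, hm⟩ := heven
  omega

end Pool.Agent.SS.FM
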