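import Mathlib
import Pool.Agent.Work.MP_a5099b_nt.Defs
import Pool.Agent.Work.MP_a5099b_nt.C.EHas
import Pool.Agent.Work.MP_a5099b_nt.D5.Chi2
import Pool.Agent.Work.MP_a5099b_nt.D5.SsC
import Pool.Agent.Work.MP_a5099b_nt.FM.LSum
import Pool.Agent.Work.MP_a5099b_nt.FM.LRt

/-!
# Module FM/LFull (M)

From a supersingular invariant to a supersingular Legendre curve over the prime field, `q ≡ 3 mod 4`. PROOF. `exists_ab`/`SSj_all` (`C/EHas`): `A, B : ZMod q` with `4 A³ + 27 B² ≠ 0`, `1728 * (4 A³) = y (4 A³ + 27 B²)`, `Hasse q A B = 0`. `sum_zero` (`FM/LSum`): `∑ χ(x³ + A x + B) = 0`. The number of terms `q` is odd, each nonzero term is `±1`, so some term is `0`: there is `e` with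
`e³ + A e + B = 0`. Substitute `x = e + u`: `x³ + A x + B = u (u² + a u + b)`, `a = 3 e`, `b = 3 e² + A`; `b² (a² - 4 b) = -(4 A³ + 27 B²) ≠ 0` (with `B = -e³ - A e`), `256 (a² - 3 b)³ = y b² (a² - 4 b)` (`a² - 3 b = -3 A`). The sum over `u` is zero. By `sq_or` (`FM/LRt`) there are two cases.
CASE `a² - 4 b = c²`: the roots `ρ₁ = (-a + c) / 2`, `ρ₂ = (-a - c) / 2` of `u² + a u + b` are not zero and different; `z = y`, `r = ρ₂ / ρ₁`: `ρ₁² - ρ₁ ρ₂ + ρ₂² = a² - 3 b`, `(ρ₁ ρ₂ (ρ₁ - ρ₂))² = b² (a² - 4 b)`.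
CASE `b = c²`: `a' = -2 a`, `b' = a² - 4 b ≠ 0`, `a'² - 4 b' = 16 b ≠ 0`. `chi_two` (`D5/Chi2`): the sum for `(a', b')` is zero; `z = 16 (a² + 12 b)³ / (b (a² - 4 b)²)`, `ss_of_sum` (`D5/SsC`): `256 (a'² - 3 b')³ = z (b'² (a'² - 4 b'))`, so `SSj q z`. The roots of `u² + a' u + b'` are `a + 2 c`, `a - 2 c`: `r = (a - 2 c) / (a + 2 c)` as in the first case.
`z = 0` gives `a² = -12 b`, `y = 256 (-15 b)³ / (b² (-16 b)) = 54000`. `z = 1728`: `16 (a² + 12 b)³ - 1728 b (a² - 4 b)² = 16 a² (a² - 36 b)²`, so `a = 0` (`y = 256 (-3 b)³ / (b² (-4 b)) = 1728`) or `a² = 36 b` (`y = 256 (33 b)³ / (b² (32 b)) = 287496`).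
-/

set_option autoImplicit false

namespace Pool.Agent.SS.FM

open NumberField IsDedekindDomain Polynomial

private theorem lf_ratio {k : Type} [Field k] (h2 : (2 : k) ≠ 0) (a b c z : k) (hb : b ≠ 0)
    (hc : a ^ 2 - 4 * b = c ^ 2) (hc0 : c ≠ 0)
    (hz : 256 * (a ^ 2 - 3 * b) ^ 3 = z * (b ^ 2 * (a ^ 2 - 4 * b))) :
    ∃ r : k, r ≠ 0 ∧ r ≠ 1 ∧ 256 * (r ^ 2 - r + 1) ^ 3 = z * (r ^ 2 * (r - 1) ^ 2) := by
  have h4 : (4 : k) ≠ 0 := by
    have : (4 : k) = 2 ^ 2 := by norm_num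
    rw [this]
    exact pow_ne_zero _ h2
  obtain ⟨u, v, hu, hv⟩ : ∃ u v : k, 2 * u = -a + c ∧ 2 * v = -a - c :=
    ⟨(-a + c) / 2, (-a - c) / 2, by field_simp, by field_simp⟩
  have huv : u * v = b := by
    apply mul_left_cancel₀ h4
    linear_combination (2 * v) * hu + (-a + c) * hv + hc
  have hsum : u + v = -a := by
    apply mul_left_cancel₀ h2
    linear_combination hu + hv
  have hsub : u - v = c := by
    apply mul_left_cancel₀ h2
    linear_combination hu - hv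
  have hu0 : u ≠ 0 := by
    intro h
    rw [h, zero_mul] at huv
    exact hb huv.symm
  have hv0 : v ≠ 0 := by
    intro h
    rw [h, mul_zero] at huv
    exact hb huv.symm
  have e1 : a ^ 2 - 3 * b = v ^ 2 - v * u + u ^ 2 := by
    rw [← huv, ← neg_sq, ← hsum]
    ring
  have e2 : b ^ 2 * (a ^ 2 - 4 * b) = v ^ 2 * u ^ 2 * (v - u) ^ 2 := by
    rw [hc, ← huv, ← hsub]
    ring
  rw [e1, e2] at hz
  refine ⟨v / u, div_ne_zero hv0 hu0, ?_, ?_⟩
  · intro h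
    rw [div_eq_one_iff_eq hu0] at h
    apply hc0
    rw [← hsub, h, sub_self]
  · have e3 : (v / u) ^ 2 - v / u + 1 = (v ^ 2 - v * u + u ^ 2) / u ^ 2 := by
      field_simp
    have e4 : (v / u) ^ 2 * (v / u - 1) ^ 2 = (v ^ 2 * u ^ 2 * (v - u) ^ 2) / u ^ 6 := by
      field_simp
    rw [e3, e4, div_pow, mul_div_assoc', hz]
    field_simp

private theorem lf_alg {k : Type} [Field k] (h2 : (2 : k) ≠ 0) (a b y : k) (hb : b ≠ 0)
    (hd : a ^ 2 - 4 * b ≠ 0) (hy : 256 * (a ^ 2 - 3 * b) ^ 3 = y * (b ^ 2 * (a ^ 2 - 4 * b)))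
    (h1 : y ≠ 1728) (h3 : y ≠ 54000) (h4 : y ≠ 287496) :
    ∃ z : k, z * (b * (a ^ 2 - 4 * b) ^ 2) = 16 * (a ^ 2 + 12 * b) ^ 3 ∧ z ≠ 0 ∧ z ≠ 1728 := by
  have h16 : (16 : k) ≠ 0 := by
    have : (16 : k) = 2 ^ 4 := by norm_num
    rw [this]
    exact pow_ne_zero _ h2
  have h4' : (4 : k) ≠ 0 := by
    have : (4 : k) = 2 ^ 2 := by norm_num
    rw [this]
    exact pow_ne_zero _ h2
  have h32 : (32 : k) ≠ 0 := by
    have : (32 : k) = 2 ^ 5 := by norm_num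
    rw [this]
    exact pow_ne_zero _ h2
  have hD : b * (a ^ 2 - 4 * b) ^ 2 ≠ 0 := mul_ne_zero hb (pow_ne_zero _ hd)
  have hb3 : b ^ 3 ≠ 0 := pow_ne_zero _ hb
  have key : ∀ z : k, z * (b * (a ^ 2 - 4 * b) ^ 2) = 16 * (a ^ 2 + 12 * b) ^ 3 →
      z ≠ 0 ∧ z ≠ 1728 := by
    intro z hz
    constructor
    · intro h
      rw [h, zero_mul] at hz
      have h5 : a ^ 2 + 12 * b = 0 := by
        rcases mul_eq_zero.1 hz.symm with h6 | h6
        · exact absurd h6 h16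
        · exact pow_eq_zero_iff (three_ne_zero) |>.1 h6
      have h7 : a ^ 2 = -12 * b := by linear_combination h5
      rw [h7] at hy
      apply h3
      have h8 : (16 * b ^ 3) * (y - 54000) = 0 := by linear_combination hy
      rcases mul_eq_zero.1 h8 with h9 | h9
      · exact absurd h9 (mul_ne_zero h16 hb3)
      · exact sub_eq_zero.1 h9
    · intro h
      rw [h] at hz
      have h5 : 16 * (a ^ 2 * (a ^ 2 - 36 * b) ^ 2) = 0 := by linear_combination -hz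
      rcases mul_eq_zero.1 h5 with h6 | h6
      · exact h16 h6
      rcases mul_eq_zero.1 h6 with h7 | h7
      · apply h1
        rw [h7] at hy
        have h8 : (4 * b ^ 3) * (y - 1728) = 0 := by linear_combination hy
        rcases mul_eq_zero.1 h8 with h9 | h9
        · exact absurd h9 (mul_ne_zero h4' hb3)
        · exact sub_eq_zero.1 h9
      · apply h4
        have h8 : a ^ 2 - 36 * b = 0 := pow_eq_zero_iff (two_ne_zero) |>.1 h7
        have h9 : a ^ 2 = 36 * b := by linear_combination h8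
        rw [h9] at hy
        have h10 : (32 * b ^ 3) * (y - 287496) = 0 := by linear_combination -hy
        rcases mul_eq_zero.1 h10 with h11 | h11
        · exact absurd h11 (mul_ne_zero h32 hb3)
        · exact sub_eq_zero.1 h11
  have hz : 16 * (a ^ 2 + 12 * b) ^ 3 / (b * (a ^ 2 - 4 * b) ^ 2) *
      (b * (a ^ 2 - 4 * b) ^ 2) = 16 * (a ^ 2 + 12 * b) ^ 3 := div_mul_cancel₀ _ hD
  exact ⟨_, hz, key _ hz⟩

private theorem lf_root {q : ℕ} [Fact q.Prime] (hodd : q % 2 = 1) (f : ZMod q → ZMod q)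
    (hs : ∑ x : ZMod q, quadraticChar (ZMod q) (f x) = 0) : ∃ x, f x = 0 := by
  by_contra hno
  push Not at hno
  have h1 : ∀ x : ZMod q, ((quadraticChar (ZMod q) (f x) : ℤ) : ZMod 2) = 1 := by
    intro x
    rcases quadraticChar_dichotomy (hno x) with h | h
    · rw [h]
      rfl
    · rw [h]
      rfl
  have h2 := congrArg (fun z : ℤ => (z : ZMod 2)) hs
  simp only [Int.cast_sum, Int.cast_zero] at h2
  rw [Finset.sum_congr rfl fun x _ => h1 x, Finset.sum_const, Finset.card_univ, ZMod.card,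
    nsmul_eq_mul, mul_one, ZMod.natCast_eq_zero_iff] at h2
  omega

theorem full_two {q : ℕ} [Fact q.Prime] (h7 : 7 ≤ q) (h4 : q % 4 = 3) (y : ZMod q) (hy : SSj q y)
    (h0 : y ≠ 0) (h1 : y ≠ 1728) (h2 : y ≠ 287496) (h3 : y ≠ 54000) :
    ∃ z r : ZMod q, SSj q z ∧ z ≠ 0 ∧ z ≠ 1728 ∧ r ≠ 0 ∧ r ≠ 1 ∧
      256 * (r ^ 2 - r + 1) ^ 3 = z * (r ^ 2 * (r - 1) ^ 2) := by
  have hq : q.Prime := Fact.out
  have h5 : 5 ≤ q := by omega
  have hk2 : (2 : ZMod q) ≠ 0 := by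
    intro h
    have h' : ((2 : ℕ) : ZMod q) = 0 := by exact_mod_cast h
    rw [ZMod.natCast_eq_zero_iff] at h'
    have := Nat.le_of_dvd (by norm_num) h'
    omega
  have hr : ringChar (ZMod q) ≠ 2 := by
    rw [ZMod.ringChar_zmod_n]
    omega
  obtain ⟨A, B, hAB, hj⟩ := exists_ab hq h5 y
  have hH := SSj_all hq h5 hy hAB hj
  have hs := sum_zero h7 A B hH
  obtain ⟨e, he⟩ := lf_root (by omega) (fun x => x ^ 3 + A * x + B) hs
  have he' : e ^ 3 + A * e + B = 0 := he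
  have hB : B = -(e ^ 3) - A * e := by linear_combination he'
  obtain ⟨a, ha⟩ : ∃ a : ZMod q, a = 3 * e := ⟨_, rfl⟩
  obtain ⟨b, hbb⟩ : ∃ b : ZMod q, b = 3 * e ^ 2 + A := ⟨_, rfl⟩
  have hs' : ∑ x : ZMod q, quadraticChar (ZMod q) (x * (x ^ 2 + a * x + b)) = 0 := by
    have h := Equiv.sum_comp (Equiv.addRight e)
      (fun x : ZMod q => quadraticChar (ZMod q) (x ^ 3 + A * x + B))
    rw [← hs, ← h]
    refine Finset.sum_congr rfl fun x _ => ?_
    congr 1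
    rw [Equiv.coe_addRight, hB, ha, hbb]
    ring
  have hdisc : b ^ 2 * (a ^ 2 - 4 * b) = -(4 * A ^ 3 + 27 * B ^ 2) := by
    rw [hB, ha, hbb]
    ring
  have hne : b ^ 2 * (a ^ 2 - 4 * b) ≠ 0 := by
    rw [hdisc]
    exact neg_ne_zero.2 hAB
  have hb0 : b ≠ 0 := by
    intro h
    rw [h] at hne
    exact hne (by ring)
  have hd0 : a ^ 2 - 4 * b ≠ 0 := right_ne_zero_of_mul hne
  have hyy : 256 * (a ^ 2 - 3 * b) ^ 3 = y * (b ^ 2 * (a ^ 2 - 4 * b)) := by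
    rw [hdisc]
    have h8 : a ^ 2 - 3 * b = -3 * A := by
      rw [ha, hbb]
      ring
    rw [h8]
    linear_combination -hj
  rcases sq_or h4 a b hb0 hs' with ⟨c, hc⟩ | ⟨c, hc⟩
  · obtain ⟨z, hz, hz0, hz1⟩ := lf_alg hk2 a b y hb0 hd0 hyy h1 h3 h2
    have hc0 : c ≠ 0 := by
      intro h
      rw [h, mul_zero] at hc
      exact hb0 hc
    have hk4 : (4 : ZMod q) ≠ 0 := by
      have : (4 : ZMod q) = 2 ^ 2 := by norm_num
      rw [this]
      exact pow_ne_zero _ hk2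
    have hd' : (-2 * a) ^ 2 - 4 * (a ^ 2 - 4 * b) = (4 * c) ^ 2 := by
      rw [hc]
      ring
    have hz' : 256 * ((-2 * a) ^ 2 - 3 * (a ^ 2 - 4 * b)) ^ 3 =
        z * ((a ^ 2 - 4 * b) ^ 2 * ((-2 * a) ^ 2 - 4 * (a ^ 2 - 4 * b))) := by
      linear_combination -16 * hz
    have hs2 : ∑ x : ZMod q, quadraticChar (ZMod q) (x * (x ^ 2 + (-2 * a) * x +
        (a ^ 2 - 4 * b))) = 0 := by
      rw [← hs', DL.chi_two hr a b hb0]
      refine Finset.sum_congr rfl fun x _ => ?_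
      congr 1
      ring
    have hss : SSj q z := DL.ss_of_sum h5 (-2 * a) (a ^ 2 - 4 * b) z hd0
      (by rw [hd']; exact pow_ne_zero _ (mul_ne_zero hk4 hc0)) hz' hs2
    obtain ⟨r, hr0, hr1, hre⟩ := lf_ratio hk2 (-2 * a) (a ^ 2 - 4 * b) (4 * c) z hd0 hd'
      (mul_ne_zero hk4 hc0) hz'
    exact ⟨z, r, hss, hz0, hz1, hr0, hr1, hre⟩
  · have hc0 : c ≠ 0 := by
      intro h
      rw [h, mul_zero] at hc
      exact hd0 hc
    obtain ⟨r, hr0, hr1, hre⟩ := lf_ratio hk2 a b c y hb0 (by rw [hc]; ring) hc0 hyy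
    exact ⟨y, r, hy, h0, h1, hr0, hr1, hre⟩

end Pool.Agent.SS.FM
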