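import Mathlib
import Pool.Agent.Work.MP_a5099b_nt.FM.Core
import Pool.Agent.Work.MP_a5099b_nt.FM.CmSS

/-!
# Module FM/MainN (helper91): density one in families with a CM hypersurface
-/

set_option autoImplicit false

namespace Pool.Agent.SS.FM

open NumberField IsDedekindDomain UpperHalfPlane

theorem main_uniform {K M : Type} [Field K] [NumberField K] [Field M] [NumberField M] [Algebra K M]
    {n : ℕ} (W : WeierstrassCurve (MvPolynomial (Fin (n + 1)) (𝓞 K)))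
    (hj : ∀ a b : 𝓞 K, a ≠ 0 → MvPolynomial.C a * W.c₄ ^ 3 ≠ MvPolynomial.C b * W.Δ)
    (ρ : M →+* ℂ) (φ : Fin (n + 1) → MvPolynomial (Fin n) M)
    (hφ : Algebra.IsAlgebraic (Algebra.adjoin M (Set.range φ)) (MvPolynomial (Fin n) M))
    (x₀ : M) (h0 : x₀ ≠ 0) (h1 : x₀ ≠ 1728) (h8 : x₀ ≠ 8000)
    (hΔ : (sp W (MvPolynomial.C.comp (kap K M)) φ).Δ ≠ 0)
    (hc : (sp W (MvPolynomial.C.comp (kap K M)) φ).c₄ ^ 3 =
      MvPolynomial.C x₀ * (sp W (MvPolynomial.C.comp (kap K M)) φ).Δ)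
    (τ : ℍ) (a b c : ℤ) (ha : a ≠ 0) (hτ : (a : ℂ) * (τ : ℂ) ^ 2 + b * τ + c = 0)
    (hx₀ : ρ x₀ = ModularForm.E₄ τ ^ 3 / ModularForm.discriminant τ)
    (hM : ∀ x : M, x ^ 2 ≠ ((b ^ 2 - 4 * a * c : ℤ) : M))
    {ι : Type} [Fintype ι] (β : Module.Basis ι ℤ (𝓞 K)) (ε : ℝ) (hε : 0 < ε) :
    ∃ L : ℕ, ∀ (α : Fin (n + 1) × ι → ℤ) (T : Fin (n + 1) × ι → ℕ), (∀ i, L ≤ T i) →
      {z : Fin (n + 1) × ι → ℤ | (∀ i, α i ≤ z i ∧ z i < α i + T i) ∧ z ∈ ExcF β W}.Finite ∧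
      ({z : Fin (n + 1) × ι → ℤ | (∀ i, α i ≤ z i ∧ z i < α i + T i) ∧ z ∈ ExcF β W}.ncard : ℝ) ≤
        ε * ∏ i, (T i : ℝ) := by
  classical
  -- the discriminant of the quadratic number
  have hneg : b ^ 2 - 4 * a * c < 0 := by
    have h3 : (2 * a * (τ : ℂ) + b) ^ 2 = ((b ^ 2 - 4 * a * c : ℤ) : ℂ) := by
      push_cast
      linear_combination 4 * (a : ℂ) * hτ
    have him : (2 * a * (τ : ℂ) + b).im = 2 * a * τ.im := by
      simp [Complex.add_im, Complex.mul_im]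
    have h4 := congrArg Complex.im h3
    have h5 := congrArg Complex.re h3
    rw [pow_two, Complex.mul_im, Complex.intCast_im, him] at h4
    rw [pow_two, Complex.mul_re, Complex.intCast_re, him] at h5
    have haR : (a : ℝ) ≠ 0 := by exact_mod_cast ha
    have h6 : 2 * (a : ℝ) * τ.im ≠ 0 := mul_ne_zero (mul_ne_zero two_ne_zero haR) τ.im_pos.ne'
    have h7 : (2 * a * (τ : ℂ) + b).re = 0 := by
      have h8 : (2 * a * (τ : ℂ) + b).re * (2 * a * τ.im) = 0 := by linarith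
      exact (mul_eq_zero.1 h8).resolve_right h6
    rw [h7] at h5
    have h8 : ((b ^ 2 - 4 * a * c : ℤ) : ℝ) < 0 := by
      rw [← h5]
      have := mul_self_pos.2 h6
      linarith
    exact_mod_cast h8
  obtain ⟨D, hD⟩ : ∃ D : ℕ, -(D : ℤ) = b ^ 2 - 4 * a * c :=
    ⟨(4 * a * c - b ^ 2).toNat, by
      rw [Int.toNat_of_nonneg (by linarith)]
      ring⟩
  have hM' : ∀ x : M, x ^ 2 ≠ -(D : M) := by
    intro x hx
    apply hM x
    rw [hx, ← hD]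
    push_cast
    ring
  refine core W hj φ hφ x₀ h0 h1 h8 hΔ hc D hM' ?_ β ε hε
  intro q hq h5 hjac R ψ hx
  refine cm_ss ρ h5 ψ x₀ hx τ a b c ha hτ hx₀ ?_
  rw [← hD]
  exact hjac

end Pool.Agent.SS.FM
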